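import Pool.Agent.H92Z.Fq.Defs

open MeasureTheory Set Filter Metric
open scoped Topology

namespace Pool.Agent.H92Z.Fq

theorem eventually_zero_of_notMem {w : P → ℝ} {z : P} (hz : z ∉ tsupport w) :
    w =ᶠ[nhds z] fun _ => 0 := by
  have : (tsupport w)ᶜ ∈ nhds z := (isClosed_tsupport w).isOpen_compl.mem_nhds hz
  filter_upwards [this] with y hy
  exact image_eq_zero_of_notMem_tsupport hy

theorem d1_congr {u v : P → ℝ} {z : P} (h : u =ᶠ[nhds z] v) : d1 u z = d1 v z := by
  unfold d1; rw [h.fderiv_eq]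

theorem d2_congr {u v : P → ℝ} {z : P} (h : u =ᶠ[nhds z] v) : d2 u z = d2 v z := by
  unfold d2; rw [h.fderiv_eq]

@[simp] theorem d1_const (c : ℝ) (z : P) : d1 (fun _ => c) z = 0 := by simp [d1]

@[simp] theorem d2_const (c : ℝ) (z : P) : d2 (fun _ => c) z = 0 := by simp [d2]

theorem d1_zero_of_notMem {w : P → ℝ} {z : P} (hz : z ∉ tsupport w) : d1 w z = 0 := by
  rw [d1_congr (eventually_zero_of_notMem hz)]; simp

theorem d2_zero_of_notMem {w : P → ℝ} {z : P} (hz : z ∉ tsupport w) : d2 w z = 0 := by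
  rw [d2_congr (eventually_zero_of_notMem hz)]; simp

theorem tsupport_sub_of_zero {f u : P → ℝ} (h : ∀ z, u z = 0 → f z = 0) :
    tsupport f ⊆ tsupport u := by
  apply closure_mono
  intro z hz
  rw [Function.mem_support] at hz ⊢
  intro h0
  exact hz (h z h0)

theorem d1_add {u v : P → ℝ} {z : P} (hu : DifferentiableAt ℝ u z) (hv : DifferentiableAt ℝ v z) :
    d1 (fun z => u z + v z) z = d1 u z + d1 v z := by
  unfold d1; rw [fderiv_fun_add hu hv]; simp

theorem d2_add {u v : P → ℝ} {z : P} (hu : DifferentiableAt ℝ u z) (hv : DifferentiableAt ℝ v z) :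
    d2 (fun z => u z + v z) z = d2 u z + d2 v z := by
  unfold d2; rw [fderiv_fun_add hu hv]; simp

theorem d1_sub {u v : P → ℝ} {z : P} (hu : DifferentiableAt ℝ u z) (hv : DifferentiableAt ℝ v z) :
    d1 (fun z => u z - v z) z = d1 u z - d1 v z := by
  unfold d1; rw [fderiv_fun_sub hu hv]; simp

theorem d2_sub {u v : P → ℝ} {z : P} (hu : DifferentiableAt ℝ u z) (hv : DifferentiableAt ℝ v z) :
    d2 (fun z => u z - v z) z = d2 u z - d2 v z := by
  unfold d2; rw [fderiv_fun_sub hu hv]; simp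

theorem d1_const_mul {u : P → ℝ} {z : P} (c : ℝ) (hu : DifferentiableAt ℝ u z) :
    d1 (fun z => c * u z) z = c * d1 u z := by
  unfold d1; rw [fderiv_const_mul hu]; simp

theorem d2_const_mul {u : P → ℝ} {z : P} (c : ℝ) (hu : DifferentiableAt ℝ u z) :
    d2 (fun z => c * u z) z = c * d2 u z := by
  unfold d2; rw [fderiv_const_mul hu]; simp

theorem d1_mul {u v : P → ℝ} {z : P} (hu : DifferentiableAt ℝ u z) (hv : DifferentiableAt ℝ v z) :
    d1 (fun z => u z * v z) z = d1 u z * v z + u z * d1 v z := by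
  unfold d1; rw [fderiv_fun_mul hu hv]; simp; ring

theorem d2_mul {u v : P → ℝ} {z : P} (hu : DifferentiableAt ℝ u z) (hv : DifferentiableAt ℝ v z) :
    d2 (fun z => u z * v z) z = d2 u z * v z + u z * d2 v z := by
  unfold d2; rw [fderiv_fun_mul hu hv]; simp; ring

theorem d1_comp {u : P → ℝ} {a : ℝ → ℝ} {a' : ℝ} {z : P} (hu : DifferentiableAt ℝ u z)
    (ha : HasDerivAt a a' (u z)) : d1 (fun z => a (u z)) z = a' * d1 u z := by
  unfold d1
  have := (ha.comp_hasFDerivAt z hu.hasFDerivAt).fderiv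
  change fderiv ℝ (a ∘ u) z _ = _
  rw [this]; simp

theorem d2_comp {u : P → ℝ} {a : ℝ → ℝ} {a' : ℝ} {z : P} (hu : DifferentiableAt ℝ u z)
    (ha : HasDerivAt a a' (u z)) : d2 (fun z => a (u z)) z = a' * d2 u z := by
  unfold d2
  have := (ha.comp_hasFDerivAt z hu.hasFDerivAt).fderiv
  change fderiv ℝ (a ∘ u) z _ = _
  rw [this]; simp

theorem d1_fst (z : P) : d1 (fun x => x.1) z = 1 := by
  unfold d1; rw [show (fun x : P => x.1) = Prod.fst from rfl, fderiv_fst]; simp

theorem d2_fst (z : P) : d2 (fun x => x.1) z = 0 := by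
  unfold d2; rw [show (fun x : P => x.1) = Prod.fst from rfl, fderiv_fst]; simp

theorem d1_snd (z : P) : d1 (fun x => x.2) z = 0 := by
  unfold d1; rw [show (fun x : P => x.2) = Prod.snd from rfl, fderiv_snd]; simp

theorem d2_snd (z : P) : d2 (fun x => x.2) z = 1 := by
  unfold d2; rw [show (fun x : P => x.2) = Prod.snd from rfl, fderiv_snd]; simp

/-- the full derivative in terms of the two partial derivatives -/
theorem fderiv_apply_eq (u : P → ℝ) (z h : P) :
    fderiv ℝ u z h = d1 u z * h.1 + d2 u z * h.2 := by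
  have : h = h.1 • ((1 : ℝ), (0 : ℝ)) + h.2 • ((0 : ℝ), (1 : ℝ)) := by ext <;> simp
  conv_lhs => rw [this]
  rw [map_add, map_smul, map_smul]; unfold d1 d2; simp; ring

theorem d1_cont {u : P → ℝ} (hu : ContDiff ℝ 1 u) : Continuous (d1 u) :=
  (hu.continuous_fderiv (by simp)).clm_apply continuous_const

theorem d2_cont {u : P → ℝ} (hu : ContDiff ℝ 1 u) : Continuous (d2 u) :=
  (hu.continuous_fderiv (by simp)).clm_apply continuous_const

/-- a function with a continuous derivative is `C¹` -/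
theorem contDiff_one_of_hasDerivAt {a a' : ℝ → ℝ} (h : ∀ s, HasDerivAt a (a' s) s)
    (hc : Continuous a') : ContDiff ℝ 1 a := by
  rw [contDiff_one_iff_deriv]
  refine ⟨fun s => (h s).differentiableAt, ?_⟩
  have : deriv a = a' := funext fun s => (h s).deriv
  rw [this]; exact hc

theorem contDiff_of_tsupport {f : P → ℝ} (h : ∀ z ∈ tsupport f, ContDiffAt ℝ 1 f z) :
    ContDiff ℝ 1 f := by
  rw [contDiff_iff_contDiffAt]
  intro z
  by_cases hz : z ∈ tsupport f
  · exact h z hz
  · exact contDiffAt_const.congr_of_eventuallyEq (eventually_zero_of_notMem hz)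

theorem hcs_of_zero {f u : P → ℝ} (hu : HasCompactSupport u) (h : ∀ z, u z = 0 → f z = 0) :
    HasCompactSupport f :=
  IsCompact.of_isClosed_subset hu (isClosed_tsupport _) (tsupport_sub_of_zero h)

theorem hcs_of_notMem {f u : P → ℝ} (hu : HasCompactSupport u)
    (h : ∀ z, z ∉ tsupport u → f z = 0) : HasCompactSupport f := by
  apply IsCompact.of_isClosed_subset hu (isClosed_tsupport _)
  apply closure_minimal _ (isClosed_tsupport _)
  intro z hz
  by_contra hcon
  exact hz (h z hcon)

namespace IsTest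

variable {U V : Set P} {u v : P → ℝ}

theorem zero (U : Set P) : IsTest U (fun _ => 0) :=
  ⟨contDiff_const, HasCompactSupport.zero, by simp [tsupport]⟩

theorem mono (h : IsTest U u) (hUV : U ⊆ V) : IsTest V u := ⟨h.c1, h.cs, h.supp.trans hUV⟩

theorem toUniv (h : IsTest U u) : IsTest univ u := h.mono (subset_univ _)

theorem restrict (h : IsTest U u) (hV : tsupport u ⊆ V) : IsTest V u := ⟨h.c1, h.cs, hV⟩

theorem add (hu : IsTest U u) (hv : IsTest U v) : IsTest U (fun z => u z + v z) := by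
  refine ⟨hu.c1.add hv.c1, hu.cs.add hv.cs, ?_⟩
  refine (closure_mono (Function.support_add u v)).trans ?_
  rw [closure_union]
  exact union_subset hu.supp hv.supp

theorem const_mul (c : ℝ) (hu : IsTest U u) : IsTest U (fun z => c * u z) := by
  have hs : tsupport (fun z => c * u z) ⊆ tsupport u := tsupport_sub_of_zero (fun z h => by simp [h])
  exact ⟨contDiff_const.mul hu.c1, hcs_of_zero hu.cs (fun z h => by simp [h]), hs.trans hu.supp⟩

theorem sub (hu : IsTest U u) (hv : IsTest U v) : IsTest U (fun z => u z - v z) := by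
  have := hu.add (hv.const_mul (-1))
  exact (funext (fun z => by ring) : (fun z => u z + (-1) * v z) = fun z => u z - v z) ▸ this

theorem mul_c1 (hu : IsTest U u) {χ : P → ℝ} (hχ : ContDiff ℝ 1 χ) :
    IsTest U (fun z => u z * χ z) := by
  have hs : tsupport (fun z => u z * χ z) ⊆ tsupport u :=
    tsupport_sub_of_zero (fun z h => by simp [h])
  exact ⟨hu.c1.mul hχ, hcs_of_zero hu.cs (fun z h => by simp [h]), hs.trans hu.supp⟩

theorem c1_mul (hu : IsTest U u) {χ : P → ℝ} (hχ : ContDiff ℝ 1 χ) :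
    IsTest U (fun z => χ z * u z) := by
  have := hu.mul_c1 hχ
  exact (funext (fun z => by ring) : (fun z => u z * χ z) = fun z => χ z * u z) ▸ this

theorem comp (hu : IsTest U u) {β : ℝ → ℝ} (hβ : ContDiff ℝ 1 β) (h0 : β 0 = 0) :
    IsTest U (fun z => β (u z)) := by
  have hs : tsupport (fun z => β (u z)) ⊆ tsupport u :=
    tsupport_sub_of_zero (fun z h => by simp [h, h0])
  exact ⟨hβ.comp hu.c1, hcs_of_zero hu.cs (fun z h => by simp [h, h0]), hs.trans hu.supp⟩

theorem cont (hu : IsTest U u) : Continuous u := hu.c1.continuous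

theorem diff (hu : IsTest U u) : Differentiable ℝ u := hu.c1.differentiable (by simp)

theorem d1_cont (hu : IsTest U u) : Continuous (d1 u) := Fq.d1_cont hu.c1

theorem d2_cont (hu : IsTest U u) : Continuous (d2 u) := Fq.d2_cont hu.c1

theorem d1_cs (hu : IsTest U u) : HasCompactSupport (d1 u) :=
  hcs_of_notMem hu.cs fun _ h => d1_zero_of_notMem h

theorem d2_cs (hu : IsTest U u) : HasCompactSupport (d2 u) :=
  hcs_of_notMem hu.cs fun _ h => d2_zero_of_notMem h

theorem zero_of_notMem (hu : IsTest U u) {z : P} (hz : z ∉ U) : u z = 0 :=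
  image_eq_zero_of_notMem_tsupport fun h => hz (hu.supp h)

theorem d1_zero (hu : IsTest U u) {z : P} (hz : z ∉ U) : d1 u z = 0 :=
  d1_zero_of_notMem fun h => hz (hu.supp h)

theorem d2_zero (hu : IsTest U u) {z : P} (hz : z ∉ U) : d2 u z = 0 :=
  d2_zero_of_notMem fun h => hz (hu.supp h)

theorem integrable (hu : IsTest U u) : Integrable u :=
  hu.cont.integrable_of_hasCompactSupport hu.cs

theorem integrable_d1 (hu : IsTest U u) : Integrable (d1 u) :=
  hu.d1_cont.integrable_of_hasCompactSupport hu.d1_cs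

theorem integrable_d2 (hu : IsTest U u) : Integrable (d2 u) :=
  hu.d2_cont.integrable_of_hasCompactSupport hu.d2_cs

theorem memLp (hu : IsTest U u) : MemLp u 2 (volume : Measure P) :=
  hu.cont.memLp_of_hasCompactSupport hu.cs

theorem memLp_d1 (hu : IsTest U u) : MemLp (d1 u) 2 (volume : Measure P) :=
  hu.d1_cont.memLp_of_hasCompactSupport hu.d1_cs

theorem memLp_d2 (hu : IsTest U u) : MemLp (d2 u) 2 (volume : Measure P) :=
  hu.d2_cont.memLp_of_hasCompactSupport hu.d2_cs

theorem bdd (hu : IsTest U u) : ∃ L, 0 < L ∧ ∀ x, |u x| ≤ L ∧ |d1 u x| ≤ L ∧ |d2 u x| ≤ L := by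
  obtain ⟨a, ha⟩ := hu.cont.bounded_above_of_compact_support hu.cs
  obtain ⟨b, hb⟩ := hu.d1_cont.bounded_above_of_compact_support hu.d1_cs
  obtain ⟨c, hc⟩ := hu.d2_cont.bounded_above_of_compact_support hu.d2_cs
  refine ⟨|a| + |b| + |c| + 1, by positivity, fun x => ⟨?_, ?_, ?_⟩⟩
  · have := ha x; rw [Real.norm_eq_abs] at this
    linarith [le_abs_self a, abs_nonneg b, abs_nonneg c]
  · have := hb x; rw [Real.norm_eq_abs] at this
    linarith [le_abs_self b, abs_nonneg a, abs_nonneg c]
  · have := hc x; rw [Real.norm_eq_abs] at this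
    linarith [le_abs_self c, abs_nonneg b, abs_nonneg a]

end IsTest

/-- product of two `L²` functions is integrable -/
theorem int_mul {μ : Measure P} {f g : P → ℝ} (hf : MemLp f 2 μ) (hg : MemLp g 2 μ) :
    Integrable (fun x => f x * g x) μ := hf.integrable_mul hg

theorem int_sq {μ : Measure P} {f : P → ℝ} (hf : MemLp f 2 μ) :
    Integrable (fun x => f x ^ 2) μ := hf.integrable_sq

theorem int_sq2 {μ : Measure P} {f g : P → ℝ} (hf : MemLp f 2 μ) (hg : MemLp g 2 μ) :
    Integrable (fun x => f x ^ 2 + g x ^ 2) μ := hf.integrable_sq.add hg.integrable_sq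

theorem int_dot {μ : Measure P} {f1 f2 g1 g2 : P → ℝ} (hf1 : MemLp f1 2 μ) (hf2 : MemLp f2 2 μ)
    (hg1 : MemLp g1 2 μ) (hg2 : MemLp g2 2 μ) :
    Integrable (fun x => f1 x * g1 x + f2 x * g2 x) μ := (int_mul hf1 hg1).add (int_mul hf2 hg2)

/-- a bounded measurable function times an `L²` function is `L²` -/
theorem memLp_bdd_mul {μ : Measure P} {b f : P → ℝ} (hb : AEStronglyMeasurable b μ) {L : ℝ}
    (hL : ∀ᵐ x ∂μ, |b x| ≤ L) (hf : MemLp f 2 μ) : MemLp (fun x => b x * f x) 2 μ := by
  refine MemLp.of_le_mul (c := L) hf (hb.mul hf.1) ?_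
  filter_upwards [hL] with x hx
  rw [norm_mul, Real.norm_eq_abs]
  exact mul_le_mul_of_nonneg_right hx (norm_nonneg _)

/-- a bounded measurable function times an integrable function is integrable -/
theorem int_bdd_mul {μ : Measure P} {b f : P → ℝ} (hb : AEStronglyMeasurable b μ) {L : ℝ}
    (hL : ∀ᵐ x ∂μ, |b x| ≤ L) (hf : Integrable f μ) : Integrable (fun x => b x * f x) μ :=
  Integrable.bdd_mul (c := L) hf hb (by simpa [Real.norm_eq_abs] using hL)

/-- Cauchy-Schwarz, squared form -/
theorem cs_sq {μ : Measure P} {f g : P → ℝ} (hf : MemLp f 2 μ) (hg : MemLp g 2 μ) :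
    (∫ x, f x * g x ∂μ) ^ 2 ≤ (∫ x, f x ^ 2 ∂μ) * ∫ x, g x ^ 2 ∂μ := by
  have key : ∀ t : ℝ, 0 ≤ (∫ x, g x ^ 2 ∂μ) * (t * t) + (2 * ∫ x, f x * g x ∂μ) * t
      + ∫ x, f x ^ 2 ∂μ := by
    intro t
    have h : ∫ x, (f x + t * g x) ^ 2 ∂μ = (∫ x, g x ^ 2 ∂μ) * (t * t)
        + (2 * ∫ x, f x * g x ∂μ) * t + ∫ x, f x ^ 2 ∂μ := by
      have e : (fun x => (f x + t * g x) ^ 2) =
          fun x => (t * t) * g x ^ 2 + (2 * t) * (f x * g x) + f x ^ 2 := by ext x; ring
      rw [e, integral_add, integral_add, integral_const_mul, integral_const_mul]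
      · ring
      · exact (int_sq hg).const_mul _
      · exact (int_mul hf hg).const_mul _
      · exact ((int_sq hg).const_mul _).add ((int_mul hf hg).const_mul _)
      · exact int_sq hf
    rw [← h]; exact integral_nonneg fun x => by positivity
  have := discrim_le_zero key
  unfold discrim at this
  nlinarith

/-- Cauchy-Schwarz -/
theorem cs_abs {μ : Measure P} {f g : P → ℝ} (hf : MemLp f 2 μ) (hg : MemLp g 2 μ) :
    |∫ x, f x * g x ∂μ| ≤ √(∫ x, f x ^ 2 ∂μ) * √(∫ x, g x ^ 2 ∂μ) := by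
  rw [← Real.sqrt_mul (integral_nonneg fun x => by positivity)]
  exact Real.abs_le_sqrt (cs_sq hf hg)

/-- integration by parts in the first variable -/
theorem ibp1 {U : Set P} {φ X : P → ℝ} (hφ : IsTest U φ) (hX : ContDiff ℝ 1 X) :
    ∫ x, d1 φ x * X x = - ∫ x, φ x * d1 X x := by
  have h := integral_mul_fderiv_eq_neg_fderiv_mul_of_integrable (μ := (volume : Measure P))
    (f := φ) (g := X) (v := ((1 : ℝ), (0 : ℝ)))
    ((hφ.d1_cont.mul hX.continuous).integrable_of_hasCompactSupport hφ.d1_cs.mul_right)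
    ((hφ.cont.mul (d1_cont hX)).integrable_of_hasCompactSupport hφ.cs.mul_right)
    ((hφ.cont.mul hX.continuous).integrable_of_hasCompactSupport hφ.cs.mul_right)
    (fun x _ => hφ.diff x) (fun x _ => hX.differentiable (by simp) x)
  unfold d1
  rw [h, neg_neg]

/-- integration by parts in the second variable -/
theorem ibp2 {U : Set P} {φ X : P → ℝ} (hφ : IsTest U φ) (hX : ContDiff ℝ 1 X) :
    ∫ x, d2 φ x * X x = - ∫ x, φ x * d2 X x := by
  have h := integral_mul_fderiv_eq_neg_fderiv_mul_of_integrable (μ := (volume : Measure P))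
    (f := φ) (g := X) (v := ((0 : ℝ), (1 : ℝ)))
    ((hφ.d2_cont.mul hX.continuous).integrable_of_hasCompactSupport hφ.d2_cs.mul_right)
    ((hφ.cont.mul (d2_cont hX)).integrable_of_hasCompactSupport hφ.cs.mul_right)
    ((hφ.cont.mul hX.continuous).integrable_of_hasCompactSupport hφ.cs.mul_right)
    (fun x _ => hφ.diff x) (fun x _ => hX.differentiable (by simp) x)
  unfold d2
  rw [h, neg_neg]

/-- Cutting a `C¹` function along an open set whose frontier it avoids. -/
theorem cut_eventuallyEq {a : P → ℝ} {U : Set P} (hU : IsOpen U)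
    (h : ∀ x ∈ frontier U, a =ᶠ[nhds x] fun _ => 0) (x : P) :
    (x ∈ U → U.indicator a =ᶠ[nhds x] a) ∧ (x ∉ U → U.indicator a =ᶠ[nhds x] fun _ => 0) := by
  constructor
  · intro hx
    filter_upwards [hU.mem_nhds hx] with y hy
    exact indicator_of_mem hy a
  · intro hx
    by_cases hc : x ∈ closure U
    · have hf : x ∈ frontier U := by
        rw [hU.frontier_eq]; exact ⟨hc, hx⟩
      filter_upwards [h x hf] with y hy
      by_cases hy' : y ∈ U
      · rw [indicator_of_mem hy', hy]
      · rw [indicator_of_notMem hy']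
    · filter_upwards [isClosed_closure.isOpen_compl.mem_nhds hc] with y hy
      exact indicator_of_notMem (fun h' => hy (subset_closure h')) a

theorem cut_contDiff {a : P → ℝ} {U : Set P} (hU : IsOpen U) (ha : ContDiff ℝ 1 a)
    (h : ∀ x ∈ frontier U, a =ᶠ[nhds x] fun _ => 0) : ContDiff ℝ 1 (U.indicator a) := by
  rw [contDiff_iff_contDiffAt]
  intro x
  by_cases hx : x ∈ U
  · exact ha.contDiffAt.congr_of_eventuallyEq ((cut_eventuallyEq hU h x).1 hx)
  · exact contDiffAt_const.congr_of_eventuallyEq ((cut_eventuallyEq hU h x).2 hx)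

theorem cut_d1 {a : P → ℝ} {U : Set P} (hU : IsOpen U)
    (h : ∀ x ∈ frontier U, a =ᶠ[nhds x] fun _ => 0) :
    d1 (U.indicator a) = U.indicator (d1 a) := by
  ext x
  by_cases hx : x ∈ U
  · rw [d1_congr ((cut_eventuallyEq hU h x).1 hx), indicator_of_mem hx]
  · rw [d1_congr ((cut_eventuallyEq hU h x).2 hx), indicator_of_notMem hx]; simp

theorem cut_d2 {a : P → ℝ} {U : Set P} (hU : IsOpen U)
    (h : ∀ x ∈ frontier U, a =ᶠ[nhds x] fun _ => 0) :
    d2 (U.indicator a) = U.indicator (d2 a) := by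
  ext x
  by_cases hx : x ∈ U
  · rw [d2_congr ((cut_eventuallyEq hU h x).1 hx), indicator_of_mem hx]
  · rw [d2_congr ((cut_eventuallyEq hU h x).2 hx), indicator_of_notMem hx]; simp

theorem cut_tsupport {a : P → ℝ} {U : Set P} (hU : IsOpen U)
    (h : ∀ x ∈ frontier U, a =ᶠ[nhds x] fun _ => 0) :
    tsupport (U.indicator a) ⊆ U ∩ tsupport a := by
  refine subset_inter ?_ (tsupport_sub_of_zero fun z hz => by
    by_cases hz' : z ∈ U
    · rw [indicator_of_mem hz', hz]
    · rw [indicator_of_notMem hz'])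
  intro x hx
  by_contra hxU
  have := (cut_eventuallyEq hU h x).2 hxU
  exact (notMem_tsupport_iff_eventuallyEq.mpr this) hx

/-- cut of a `C¹` function along a bounded open set, or of a compactly supported one -/
theorem cut_isTest {a : P → ℝ} {U : Set P} (hU : IsOpen U) (ha : ContDiff ℝ 1 a)
    (h : ∀ x ∈ frontier U, a =ᶠ[nhds x] fun _ => 0)
    (hb : Bornology.IsBounded U ∨ HasCompactSupport a) : IsTest U (U.indicator a) := by
  refine ⟨cut_contDiff hU ha h, ?_, (cut_tsupport hU h).trans inter_subset_left⟩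
  rcases hb with hb | hb
  · exact IsCompact.of_isClosed_subset hb.isCompact_closure (isClosed_tsupport _)
      (((cut_tsupport hU h).trans inter_subset_left).trans subset_closure)
  · exact IsCompact.of_isClosed_subset hb (isClosed_tsupport _)
      ((cut_tsupport hU h).trans inter_subset_right)

theorem volume_ball_P (x : P) {r : ℝ} (hr : 0 ≤ r) :
    (volume (ball x r)).toReal = 4 * r ^ 2 := by
  rw [← ball_prod_same, Measure.volume_eq_prod, Measure.prod_prod, Real.volume_ball,
    Real.volume_ball, ENNReal.toReal_mul, ENNReal.toReal_ofReal (by linarith)]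
  ring

theorem volume_closedBall_P (x : P) {r : ℝ} (hr : 0 ≤ r) :
    (volume (closedBall x r)).toReal = 4 * r ^ 2 := by
  rw [← closedBall_prod_same, Measure.volume_eq_prod, Measure.prod_prod, Real.volume_closedBall,
    Real.volume_closedBall, ENNReal.toReal_mul, ENNReal.toReal_ofReal (by linarith)]
  ring

end Pool.Agent.H92Z.Fq
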