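import Pool.Agent.H92Z.Fq.Cert1

open MeasureTheory Set Filter Metric
open scoped Topology

namespace Pool.Agent.H92Z.Fq

/-- a `C¹` function equal to `1 / (s + a)` where `s + a ≥ e` -/
theorem crt_recip (A : API) (a e : ℝ) (he : 0 < e) : ∃ r r' : ℝ → ℝ,
    (∀ s, HasDerivAt r (r' s) s) ∧ Continuous r' ∧
    (∀ s, e ≤ s + a → r s = (s + a)⁻¹ ∧ r' s = -(s + a)⁻¹ ^ 2) ∧
    ∀ s, 0 ≤ s + a → |r s| ≤ 2 / e := by
  obtain ⟨B, B', hB, hB', h1, h2⟩ := A.recip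
  refine ⟨fun s => B ((s + a) / e) / e, fun s => B' ((s + a) / e) / e / e, fun s => ?_,
    by fun_prop, fun s hs => ?_, fun s hs => ?_⟩
  · have h : HasDerivAt (fun s => (s + a) / e) (1 / e) s :=
      ((hasDerivAt_id s).add_const a).div_const e
    have := ((hB ((s + a) / e)).comp s h).div_const e
    exact this.congr_deriv (by ring)
  · have h := h1 ((s + a) / e) ((one_le_div he).2 hs)
    have hs' : s + a ≠ 0 := by linarith
    simp only [h.1, h.2]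
    constructor <;> field_simp
  · simp only
    rw [abs_div, abs_of_pos he]
    refine div_le_div_of_nonneg_right ?_ he.le
    rcases le_total 1 ((s + a) / e) with h | h
    · rw [(h1 _ h).1, abs_of_nonneg (by positivity)]
      exact (div_le_one (by linarith)).2 h |>.trans (by norm_num)
    · have : 0 ≤ (s + a) / e := by positivity
      rw [(h2 _ h).1, abs_of_nonneg (by linarith)]
      linarith

theorem crt_pass (A : API) {Ω : Set P} {σ Y1 Y2 φ φ1 φ2 : P → ℝ} (hσ : Integrable σ)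
    (hY1 : MemLp Y1 2 volume) (hY2 : MemLp Y2 2 volume)
    (h : ∀ φ, IsTest univ φ → ∫ x, σ x * φ x = ∫ x, (Y1 x * d1 φ x + Y2 x * d2 φ x))
    (hφ : BH Ω φ φ1 φ2) : ∫ x, σ x * φ x = ∫ x, (Y1 x * φ1 x + Y2 x * φ2 x) := by
  obtain ⟨ψ, hψ, -⟩ := hφ
  have t1 := A.a_int hψ hσ
  have t2 := (A.l_mul (A.l_const hY1) hψ.l1).add (A.l_mul (A.l_const hY2) hψ.l2)
  rw [← integral_add (int_mul hY1 hψ.l1.lim) (int_mul hY2 hψ.l2.lim)] at t2
  refine tendsto_nhds_unique t1 (t2.congr fun n => ?_)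
  rw [h _ (hψ.test n), integral_add (int_mul hY1 (hψ.l1.mem n)) (int_mul hY2 (hψ.l2.mem n))]

/-- the pointwise integrand -/
noncomputable def crt_Phi (Q : Set P) (z z1 z2 β f f1 f2 : P → ℝ) (x : P) (t : ℝ) : ℝ :=
  (z x - β x) * (f x * f x * t) +
    Q.indicator (fun _ => (1 : ℝ)) x * ((f1 x - f x * z1 x * t) ^ 2 + (f2 x - f x * z2 x * t) ^ 2)

theorem crt_step (A : API) {Ω Q : Set P} {z z1 z2 β f f1 f2 : P → ℝ} (hQ : MeasurableSet Q)
    (hz : BH Ω z z1 z2) (hz0 : ∀ᵐ x, 0 ≤ z x) (hβ : Integrable β)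
    (hw : ∀ ψ ψ1 ψ2, BH Ω ψ ψ1 ψ2 →
      ∫ x, (z1 x * ψ1 x + z2 x * ψ2 x) = ∫ x, (z x - β x) * ψ x)
    (hf : BH Ω f f1 f2) {e : ℝ} (he : 0 < e) :
    Integrable (fun x => crt_Phi Q z z1 z2 β f f1 f2 x (z x + e)⁻¹) ∧
      ∫ x, crt_Phi Q z z1 z2 β f f1 f2 x (z x + e)⁻¹ ≤ ∫ x, (f1 x ^ 2 + f2 x ^ 2) := by
  obtain ⟨r, r', hr, hr', h1, -⟩ := crt_recip A e e he
  have hψ := A.b_mul_comp (A.b_mul hf hf) hz hr hr'
  have hid := hw _ _ _ hψ
  have mψ := A.b_h hψ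
  have mz := A.b_h hz
  have mf := A.b_h hf
  obtain ⟨L, -, hL⟩ := A.b_bdd hψ
  have i1 : Integrable fun x => (z x - β x) * (f x * f x * r (z x)) := by
    have := (int_mul mz.m0 mψ.m0).sub (int_bdd_mul mψ.m0.1 hL hβ)
    refine this.congr (Eventually.of_forall fun x => ?_)
    simp only [Pi.sub_apply]; ring
  have i2 := int_dot mz.m1 mz.m2 mψ.m1 mψ.m2
  have i3 := (int_sq2 mf.m1 mf.m2).sub i2
  have i4 := i3.indicator hQ
  have key : ∀ᵐ x, 0 ≤ ((fun x => f1 x ^ 2 + f2 x ^ 2) - fun x =>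
      z1 x * ((f1 x * f x + f x * f1 x) * r (z x) + f x * f x * (r' (z x) * z1 x)) +
        z2 x * ((f2 x * f x + f x * f2 x) * r (z x) + f x * f x * (r' (z x) * z2 x))) x ∧
      (z x - β x) * (f x * f x * r (z x)) + Q.indicator ((fun x => f1 x ^ 2 + f2 x ^ 2) - fun x =>
      z1 x * ((f1 x * f x + f x * f1 x) * r (z x) + f x * f x * (r' (z x) * z1 x)) +
        z2 x * ((f2 x * f x + f x * f2 x) * r (z x) + f x * f x * (r' (z x) * z2 x))) x =
      crt_Phi Q z z1 z2 β f f1 f2 x (z x + e)⁻¹ := by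
    filter_upwards [hz0] with x hx
    obtain ⟨e1, e2⟩ := h1 (z x) (by linarith)
    have e3 : ((fun x => f1 x ^ 2 + f2 x ^ 2) - fun x =>
      z1 x * ((f1 x * f x + f x * f1 x) * r (z x) + f x * f x * (r' (z x) * z1 x)) +
        z2 x * ((f2 x * f x + f x * f2 x) * r (z x) + f x * f x * (r' (z x) * z2 x))) x =
        (f1 x - f x * z1 x * (z x + e)⁻¹) ^ 2 + (f2 x - f x * z2 x * (z x + e)⁻¹) ^ 2 := by
      simp only [Pi.sub_apply, e1, e2]; ring
    refine ⟨by rw [e3]; positivity, ?_⟩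
    by_cases hxQ : x ∈ Q
    · rw [crt_Phi, indicator_of_mem hxQ, indicator_of_mem hxQ, e3, e1, one_mul]
    · rw [crt_Phi, indicator_of_notMem hxQ, indicator_of_notMem hxQ, e1, zero_mul]
  have hae := key.mono fun x hx => hx.2
  refine ⟨(i1.add i4).congr hae, ?_⟩
  rw [← integral_congr_ae hae, integral_add i1 i4, ← hid]
  have := integral_mono_ae i4 i3 (key.mono fun x hx => by
    by_cases hxQ : x ∈ Q
    · rw [indicator_of_mem hxQ]
    · rw [indicator_of_notMem hxQ]; exact hx.1)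
  rw [integral_sub' (int_sq2 mf.m1 mf.m2) i2] at this
  linarith

theorem crt_sq_le {a b c t K : ℝ} (h : |b * t| ≤ K) :
    (a - b * c * t) ^ 2 ≤ 2 * a ^ 2 + 2 * K ^ 2 * c ^ 2 := by
  have h1 : (b * t) ^ 2 ≤ K ^ 2 := sq_le_sq' (neg_le_of_abs_le h) (le_of_abs_le h)
  have h2 : (b * t) ^ 2 * c ^ 2 ≤ K ^ 2 * c ^ 2 := mul_le_mul_of_nonneg_right h1 (sq_nonneg c)
  nlinarith [sq_nonneg (a + b * c * t)]

theorem crt_limit (A : API) {Ω Q : Set P} {z z1 z2 β f f1 f2 : P → ℝ} {h0 : ℝ}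
    (hQ : MeasurableSet Q) (hz : BH Ω z z1 z2) (hz0 : ∀ᵐ x, 0 ≤ z x)
    (hzp : ∀ᵐ x, x ∈ Ω → 0 < z x) (hh : 0 < h0) (hzQ : ∀ᵐ x, x ∈ Q → h0 ≤ z x)
    (hβ : Integrable β) (hβ0 : ∀ᵐ x, 0 ≤ β x) (hβQ : ∀ x, x ∉ Q → β x = 0)
    (hw : ∀ ψ ψ1 ψ2, BH Ω ψ ψ1 ψ2 →
      ∫ x, (z1 x * ψ1 x + z2 x * ψ2 x) = ∫ x, (z x - β x) * ψ x)
    (hf : BH Ω f f1 f2) :
    ∫ x, crt_Phi Q z z1 z2 β f f1 f2 x (z x)⁻¹ ≤ ∫ x, (f1 x ^ 2 + f2 x ^ 2) := by
  have mz := A.b_h hz
  have mf := A.b_h hf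
  obtain ⟨L, hL0, hL⟩ := A.b_bdd hf
  have hpos : ∀ n : ℕ, (0 : ℝ) < 1 / ((n : ℝ) + 1) := fun n => by positivity
  have st := fun n : ℕ => crt_step A hQ hz hz0 hβ hw hf (hpos n)
  refine le_of_tendsto' (tendsto_integral_of_dominated_convergence
    (F := fun (n : ℕ) x => crt_Phi Q z z1 z2 β f f1 f2 x (z x + 1 / ((n : ℝ) + 1))⁻¹)
    (fun x => f x ^ 2 + (L * (L / h0)) * β x + (2 * (f1 x ^ 2 + f2 x ^ 2) +
      2 * (L / h0) ^ 2 * (z1 x ^ 2 + z2 x ^ 2)))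
    (fun n => (st n).1.1)
    (((int_sq mf.m0).add (hβ.const_mul _)).add (((int_sq2 mf.m1 mf.m2).const_mul _).add
      ((int_sq2 mz.m1 mz.m2).const_mul _))) (fun n => ?_) ?_) fun n => (st n).2
  · filter_upwards [hz0, hzQ, hβ0, hL] with x hx hxQ hb hfx
    have he := hpos n
    generalize 1 / ((n : ℝ) + 1) = e at he
    have ht0 : 0 < (z x + e)⁻¹ := by positivity
    have ht1 : z x * (z x + e)⁻¹ ≤ 1 := by
      rw [← div_eq_mul_inv, div_le_one (by positivity)]; linarith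
    have ht2 : x ∈ Q → (z x + e)⁻¹ ≤ h0⁻¹ := fun h => inv_anti₀ hh (by linarith [hxQ h])
    generalize (z x + e)⁻¹ = t at ht0 ht1 ht2
    have a1 : 0 ≤ z x * t * f x ^ 2 := by positivity
    have a2 : z x * t * f x ^ 2 ≤ f x ^ 2 := mul_le_of_le_one_left (sq_nonneg _) ht1
    rw [Real.norm_eq_abs, crt_Phi]
    by_cases h : x ∈ Q
    · have hft : |f x * t| ≤ L / h0 := by
        rw [abs_mul, abs_of_pos ht0, div_eq_mul_inv]
        exact mul_le_mul hfx (ht2 h) ht0.le hL0.le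
      have b1 := crt_sq_le (a := f1 x) (c := z1 x) hft
      have b2 := crt_sq_le (a := f2 x) (c := z2 x) hft
      have b3 : f x * f x * t ≤ L * (L / h0) := by
        refine (le_abs_self _).trans ?_
        rw [mul_assoc, abs_mul]
        exact mul_le_mul hfx hft (abs_nonneg _) hL0.le
      have b4 : β x * (f x * f x * t) ≤ L * (L / h0) * β x := by
        rw [mul_comm]; exact mul_le_mul_of_nonneg_right b3 hb
      have b5 : 0 ≤ β x * (f x * f x * t) :=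
        mul_nonneg hb (mul_nonneg (mul_self_nonneg _) ht0.le)
      have b6 := sq_nonneg (f1 x - f x * z1 x * t)
      have b7 := sq_nonneg (f2 x - f x * z2 x * t)
      have b8 : 0 ≤ 2 * (f1 x ^ 2 + f2 x ^ 2) + 2 * (L / h0) ^ 2 * (z1 x ^ 2 + z2 x ^ 2) := by
        positivity
      rw [indicator_of_mem h, abs_le]
      constructor <;> nlinarith
    · have b8 : 0 ≤ 2 * (f1 x ^ 2 + f2 x ^ 2) + 2 * (L / h0) ^ 2 * (z1 x ^ 2 + z2 x ^ 2) := by
        positivity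
      rw [indicator_of_notMem h, hβQ x h, abs_le]
      constructor <;> nlinarith
  · filter_upwards [hzp, A.h_zero mf] with x hx hx0
    by_cases h : x ∈ Ω
    · have hc : Continuous (crt_Phi Q z z1 z2 β f f1 f2 x) := by
        unfold crt_Phi; fun_prop
      refine (hc.tendsto _).comp (Tendsto.inv₀ ?_ (hx h).ne')
      simpa using tendsto_const_nhds.add (tendsto_one_div_add_atTop_nhds_zero_nat (𝕜 := ℝ))
    · obtain ⟨e0, e1, e2⟩ := hx0 h
      simp [crt_Phi, e0, e1, e2]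

theorem cert (A : API) : CERT := by
  intro Ω Q z z1 z2 β σ Y1 Y2 h0 _ hQ hz hz0 hzp hh hzQ hβ hβ0 hβQ hσ hσQ hY1 hY2 hYQ hY hw
  obtain ⟨r, r', hr, hr', h1, h2⟩ := crt_recip A 0 h0 hh
  simp only [add_zero] at h1 h2
  have mz := A.b_h hz
  have hrc : Continuous r := continuous_iff_continuousAt.2 fun s => (hr s).continuousAt
  have wm : AEStronglyMeasurable (fun x => r (z x)) volume := hrc.comp_aestronglyMeasurable mz.m0.1
  have wb : ∀ᵐ x, |r (z x)| ≤ 2 / h0 := hz0.mono fun x hx => h2 _ hx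
  have i1 := int_bdd_mul wm wb hβ
  have i2 := int_bdd_mul wm wb (int_bdd_mul wm wb hσ)
  have i3 := int_bdd_mul wm wb (int_bdd_mul wm wb (int_bdd_mul wm wb (int_bdd_mul wm wb
    (int_sq2 hY1 hY2))))
  have htm : ∀ᵐ x, r (z x) * β x - r (z x) * (r (z x) * σ x) +
      r (z x) * (r (z x) * (r (z x) * (r (z x) * (Y1 x ^ 2 + Y2 x ^ 2)))) =
      tmu Q z β σ Y1 Y2 x := by
    filter_upwards [hzQ] with x hx
    by_cases h : x ∈ Q
    · have : z x ≠ 0 := by linarith [hx h]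
      rw [tmu, indicator_of_mem h, (h1 _ (hx h)).1]
      field_simp
    · rw [tmu, indicator_of_notMem h, hβQ x h, hσQ x h, (hYQ x h).1, (hYQ x h).2]
      ring
  refine ⟨((i1.sub i2).add i3).congr htm, fun f f1 f2 hf => ?_⟩
  have mf := A.b_h hf
  obtain ⟨L, hL0, hL⟩ := A.b_bdd hf
  have hlim := crt_limit A hQ hz hz0 hzp hh hzQ hβ hβ0 hβQ hw hf
  have hφ := A.b_mul_comp (a := fun s => r s * r s) (a' := fun s => r' s * r s + r s * r' s)
    (A.b_mul hf hf) hz (fun s => (hr s).mul (hr s)) (by fun_prop)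
  have hid := crt_pass A hσ hY1 hY2 hY hφ
  have mφ := A.b_h hφ
  have j0 := int_dot hY1 hY2 mφ.m1 mφ.m2
  have fm := mf.m0.1
  have j1 := int_bdd_mul fm hL (int_bdd_mul fm hL i1)
  have j2 := int_bdd_mul fm hL (int_bdd_mul fm hL i2)
  have j3 := int_bdd_mul fm hL (int_bdd_mul fm hL i3)
  have g1 := mf.m1.sub (memLp_bdd_mul fm hL (memLp_bdd_mul wm wb mz.m1))
  have g2 := mf.m2.sub (memLp_bdd_mul fm hL (memLp_bdd_mul wm wb mz.m2))
  have j4 := (int_sq2 g1 g2).indicator hQ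
  have e1 : ∫ x, tmu Q z β σ Y1 Y2 x * f x ^ 2 = (∫ x, f x * (f x * (r (z x) * β x))) -
      (∫ x, f x * (f x * (r (z x) * (r (z x) * σ x)))) +
      ∫ x, f x * (f x * (r (z x) * (r (z x) * (r (z x) * (r (z x) * (Y1 x ^ 2 + Y2 x ^ 2)))))) := by
    rw [← integral_sub' j1 j2, ← integral_add (j1.sub j2) j3]
    refine integral_congr_ae (htm.mono fun x hx => ?_)
    simp only [← hx, Pi.sub_apply]; ring
  have e2 : ∫ x, crt_Phi Q z z1 z2 β f f1 f2 x (z x)⁻¹ = (∫ x, f x ^ 2) -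
      (∫ x, f x * (f x * (r (z x) * β x))) +
      ∫ x, Q.indicator (fun x => (f1 - fun x => f x * (r (z x) * z1 x)) x ^ 2 +
        (f2 - fun x => f x * (r (z x) * z2 x)) x ^ 2) x := by
    rw [← integral_sub' (int_sq mf.m0) j1, ← integral_add ((int_sq mf.m0).sub j1) j4]
    refine integral_congr_ae ?_
    filter_upwards [hzQ, hzp, A.h_zero mf] with x hx hxp hx0
    have e : z x * (f x * f x * (z x)⁻¹) = f x ^ 2 := by
      by_cases h : x ∈ Ω
      · have := (hxp h).ne'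
        field_simp
      · simp [(hx0 h).1]
    by_cases h : x ∈ Q
    · simp only [crt_Phi, indicator_of_mem h, Pi.sub_apply, (h1 _ (hx h)).1, sub_mul, e]
      ring
    · simp only [crt_Phi, indicator_of_notMem h, Pi.sub_apply, hβQ x h, sub_mul, e]
      ring
  have e3 : ∫ x, f x * (f x * (r (z x) * (r (z x) * σ x))) =
      ∫ x, σ x * (f x * f x * (r (z x) * r (z x))) := by
    congr 1; funext x; ring
  have e4 := integral_mono_ae j0 (j4.add j3) (by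
    filter_upwards [hzQ] with x hx
    by_cases h : x ∈ Q
    · simp only [indicator_of_mem h, Pi.sub_apply, Pi.add_apply, (h1 _ (hx h)).1, (h1 _ (hx h)).2]
      generalize (z x)⁻¹ = t
      nlinarith [sq_nonneg (f1 x - f x * (t * z1 x) - f x * t ^ 2 * Y1 x),
        sq_nonneg (f2 x - f x * (t * z2 x) - f x * t ^ 2 * Y2 x)]
    · simp [indicator_of_notMem h, (hYQ x h).1, (hYQ x h).2])
  rw [integral_add' j4 j3, ← hid, ← e3] at e4
  rw [e1]
  linarith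

end Pool.Agent.H92Z.Fq
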