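import Pool.Agent.H92Z.Fq.Stm

open MeasureTheory Set Filter Metric
open scoped Topology

namespace Pool.Agent.H92Z.Fq

/-- abstract Riesz representation of a dominated functional -/
theorem crt_riesz {T H : Type*} [AddCommGroup T] [Module ℝ T] [NormedAddCommGroup H]
    [InnerProductSpace ℝ H] [CompleteSpace H] (D : T →ₗ[ℝ] H) (Λ : T →ₗ[ℝ] ℝ) (C : ℝ)
    (hC : 0 ≤ C) (h : ∀ t, |Λ t| ≤ C * ‖D t‖) :
    ∃ y : H, ‖y‖ ≤ C ∧ ∀ t, Λ t = inner ℝ y (D t) := by
  have hk : LinearMap.ker D ≤ LinearMap.ker Λ := by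
    intro t ht
    have := h t
    rw [LinearMap.mem_ker.1 ht, norm_zero, mul_zero] at this
    exact abs_nonpos_iff.1 this
  let g0 : LinearMap.range D →ₗ[ℝ] ℝ :=
    ((LinearMap.ker D).liftQ Λ hk).comp D.quotKerEquivRange.symm.toLinearMap
  have hg0 : ∀ t, g0 ⟨D t, LinearMap.mem_range_self D t⟩ = Λ t := by
    intro t
    simp [g0, LinearMap.quotKerEquivRange_symm_apply_image]
  have hb : ∀ x : LinearMap.range D, ‖g0 x‖ ≤ C * ‖x‖ := by
    rintro ⟨_, t, rfl⟩
    rw [hg0 t]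
    exact h t
  obtain ⟨G, hG, hGn⟩ := exists_extension_norm_eq (LinearMap.range D) (g0.mkContinuous C hb)
  refine ⟨(InnerProductSpace.toDual ℝ H).symm G, ?_, fun t => ?_⟩
  · rw [LinearIsometryEquiv.norm_map, hGn]
    exact LinearMap.mkContinuous_norm_le _ hC _
  · rw [InnerProductSpace.toDual_symm_apply, ← hg0 t]
    exact (hG ⟨D t, LinearMap.mem_range_self D t⟩).symm

/-- test functions form a submodule -/
def crt_T : Submodule ℝ (P → ℝ) where
  carrier := {φ | IsTest univ φ}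
  add_mem' := fun hu hv => IsTest.add hu hv
  zero_mem' := IsTest.zero _
  smul_mem' := fun c _ hu => IsTest.const_mul c hu

theorem crt_inner {μ : Measure P} (y : Lp ℝ 2 μ) {g : P → ℝ} (hg : MemLp g 2 μ) :
    inner ℝ y (hg.toLp g) = ∫ x, y x * g x ∂μ := by
  rw [L2.inner_def]
  refine integral_congr_ae ?_
  filter_upwards [hg.coeFn_toLp] with x hx
  rw [hx]; simp [mul_comm]

theorem crt_norm_sq {μ : Measure P} (y : Lp ℝ 2 μ) : ‖y‖ ^ 2 = ∫ x, y x ^ 2 ∂μ := by
  rw [← real_inner_self_eq_norm_sq, L2.inner_def]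
  refine integral_congr_ae (Eventually.of_forall fun x => ?_)
  simp

theorem ylem : YLEM := by
  intro Q σ N hQ hσ hN h
  let μ : Measure P := volume.restrict Q
  have m1 : ∀ φ : crt_T, MemLp (d1 φ.1) 2 μ := fun φ => (IsTest.memLp_d1 φ.2).restrict Q
  have m2 : ∀ φ : crt_T, MemLp (d2 φ.1) 2 μ := fun φ => (IsTest.memLp_d2 φ.2).restrict Q
  let D1 : crt_T →ₗ[ℝ] Lp ℝ 2 μ :=
    { toFun := fun φ => (m1 φ).toLp _
      map_add' := fun φ ψ => by
        rw [← MemLp.toLp_add]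
        congr 1
        funext z
        exact d1_add (IsTest.diff φ.2 z) (IsTest.diff ψ.2 z)
      map_smul' := fun c φ => by
        rw [RingHom.id_apply, ← MemLp.toLp_const_smul]
        congr 1
        funext z
        exact d1_const_mul c (IsTest.diff φ.2 z) }
  let D2 : crt_T →ₗ[ℝ] Lp ℝ 2 μ :=
    { toFun := fun φ => (m2 φ).toLp _
      map_add' := fun φ ψ => by
        rw [← MemLp.toLp_add]
        congr 1
        funext z
        exact d2_add (IsTest.diff φ.2 z) (IsTest.diff ψ.2 z)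
      map_smul' := fun c φ => by
        rw [RingHom.id_apply, ← MemLp.toLp_const_smul]
        congr 1
        funext z
        exact d2_const_mul c (IsTest.diff φ.2 z) }
  let D : crt_T →ₗ[ℝ] WithLp 2 (Lp ℝ 2 μ × Lp ℝ 2 μ) :=
    (WithLp.linearEquiv 2 ℝ (Lp ℝ 2 μ × Lp ℝ 2 μ)).symm.toLinearMap.comp (D1.prod D2)
  have iσ : ∀ φ : crt_T, Integrable fun x => σ x * φ.1 x := fun φ => by
    obtain ⟨L, -, hL⟩ := IsTest.bdd φ.2
    simpa [mul_comm] using int_bdd_mul (IsTest.cont φ.2).aestronglyMeasurable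
      (Eventually.of_forall fun x => (hL x).1) hσ
  let Λ : crt_T →ₗ[ℝ] ℝ :=
    { toFun := fun φ => ∫ x, σ x * φ.1 x
      map_add' := fun φ ψ => by
        rw [← integral_add (iσ φ) (iσ ψ)]
        congr 1
        funext x
        simp [mul_add]
      map_smul' := fun c φ => by
        rw [RingHom.id_apply, smul_eq_mul, ← integral_const_mul]
        congr 1
        funext x
        simp [mul_left_comm] }
  have hD : ∀ φ : crt_T, ‖D φ‖ ^ 2 = ∫ x in Q, (d1 φ.1 x ^ 2 + d2 φ.1 x ^ 2) := by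
    intro φ
    rw [WithLp.prod_norm_sq_eq_of_L2, crt_norm_sq, crt_norm_sq,
      ← integral_add (int_sq (Lp.memLp _)) (int_sq (Lp.memLp _))]
    refine integral_congr_ae ?_
    filter_upwards [(m1 φ).coeFn_toLp, (m2 φ).coeFn_toLp] with x h1 h2
    rw [← h1, ← h2]
    rfl
  obtain ⟨y, hy, hΛ⟩ := crt_riesz D Λ (√N) (Real.sqrt_nonneg _) fun φ => by
    rw [← Real.sqrt_sq (norm_nonneg (D φ)), ← Real.sqrt_mul hN, hD]
    exact Real.abs_le_sqrt (h φ.1 φ.2)
  refine ⟨Q.indicator y.fst, Q.indicator y.snd,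
    (memLp_indicator_iff_restrict hQ).2 (Lp.memLp _),
    (memLp_indicator_iff_restrict hQ).2 (Lp.memLp _),
    fun x hx => ⟨indicator_of_notMem hx _, indicator_of_notMem hx _⟩, ?_, fun φ hφ => ?_⟩
  · have e : (fun x => Q.indicator y.fst x ^ 2 + Q.indicator y.snd x ^ 2) =
        Q.indicator fun x => y.fst x ^ 2 + y.snd x ^ 2 := by
      funext x
      by_cases hx : x ∈ Q <;> simp [hx]
    rw [e, integral_indicator hQ, integral_add (int_sq (Lp.memLp _)) (int_sq (Lp.memLp _)),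
      ← crt_norm_sq, ← crt_norm_sq, ← WithLp.prod_norm_sq_eq_of_L2, ← Real.sq_sqrt hN]
    exact pow_le_pow_left₀ (norm_nonneg _) hy 2
  · have e : (fun x => Q.indicator y.fst x * d1 φ x + Q.indicator y.snd x * d2 φ x) =
        Q.indicator fun x => y.fst x * d1 φ x + y.snd x * d2 φ x := by
      funext x
      by_cases hx : x ∈ Q <;> simp [hx]
    rw [e, integral_indicator hQ, integral_add (int_mul (Lp.memLp _) (m1 ⟨φ, hφ⟩))
      (int_mul (Lp.memLp _) (m2 ⟨φ, hφ⟩)), ← crt_inner _ (m1 ⟨φ, hφ⟩), ← crt_inner _ (m2 ⟨φ, hφ⟩)]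
    exact hΛ ⟨φ, hφ⟩

end Pool.Agent.H92Z.Fq
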