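import Pool.Agent.H92Z.Fq.Stm

open MeasureTheory Set Filter Metric
open scoped Topology Pointwise

namespace Pool.Agent.H92Z.Fq

/-- one-dimensional Sobolev inequality on an interval of length `ρ` -/
theorem cl_oned {h h' g : ℝ → ℝ} {c d ρ : ℝ} (hρ : 0 < ρ) (hd : d = c + ρ)
    (hh : ∀ s, HasDerivAt h (h' s) s) (hc : Continuous h') (hg : Continuous g)
    (hle : ∀ s, ρ * h' s ^ 2 + h s ^ 2 / ρ ≤ g s) {t : ℝ} (ht : t ∈ Icc c d) :
    h t ^ 2 ≤ 2 * ∫ s in c..d, g s := by
  have hcd : c ≤ d := by linarith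
  have hch : Continuous h := continuous_iff_continuousAt.2 fun s => (hh s).continuousAt
  have hg0 : ∀ s, 0 ≤ g s := fun s => le_trans (by positivity) (hle s)
  obtain ⟨s, hs, hmin⟩ := isCompact_Icc.exists_isMinOn (nonempty_Icc.2 hcd)
    (hch.pow 2).continuousOn
  have h1 : h s ^ 2 ≤ ∫ s in c..d, g s := by
    have h2 : ∫ _x in c..d, h s ^ 2 / ρ ≤ ∫ s in c..d, g s := by
      refine intervalIntegral.integral_mono_on hcd (continuous_const.intervalIntegrable _ _)
        (hg.intervalIntegrable _ _) fun x hx => ?_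
      have h3 : h s ^ 2 ≤ h x ^ 2 := hmin hx
      have h4 : h s ^ 2 / ρ ≤ h x ^ 2 / ρ := div_le_div_of_nonneg_right h3 hρ.le
      have h5 : 0 ≤ ρ * h' x ^ 2 := by positivity
      linarith [hle x]
    rw [intervalIntegral.integral_const, smul_eq_mul, hd, add_sub_cancel_left,
      mul_div_cancel₀ _ hρ.ne'] at h2
    rwa [hd]
  have habs : ∀ x, 2 * h x * h' x ≤ g x ∧ -(2 * h x * h' x) ≤ g x := by
    intro x
    have e1 : ρ * h' x ^ 2 + h x ^ 2 / ρ - 2 * h x * h' x = (ρ * h' x - h x) ^ 2 / ρ := by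
      field_simp; ring
    have e2 : ρ * h' x ^ 2 + h x ^ 2 / ρ + 2 * h x * h' x = (ρ * h' x + h x) ^ 2 / ρ := by
      field_simp; ring
    have p1 : 0 ≤ (ρ * h' x - h x) ^ 2 / ρ := by positivity
    have p2 : 0 ≤ (ρ * h' x + h x) ^ 2 / ρ := by positivity
    constructor <;> linarith [hle x]
  have hF : Continuous fun x => 2 * h x * h' x := by fun_prop
  have hftc : ∀ x y, ∫ z in x..y, 2 * h z * h' z = h y ^ 2 - h x ^ 2 := by
    intro x y
    refine intervalIntegral.integral_eq_sub_of_hasDerivAt (f := fun z => h z ^ 2)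
      (fun z _ => ?_) (hF.intervalIntegrable _ _)
    have := (hh z).fun_pow 2
    simpa using this
  have hsub : ∀ x y, x ∈ Icc c d → y ∈ Icc c d → x ≤ y →
      ∫ z in x..y, g z ≤ ∫ z in c..d, g z := fun x y hx hy hxy =>
    intervalIntegral.integral_mono_interval hx.1 hxy hy.2 (Eventually.of_forall hg0)
      (hg.intervalIntegrable _ _)
  have h6 : h t ^ 2 - h s ^ 2 ≤ ∫ s in c..d, g s := by
    rcases le_total s t with hst | hst
    · rw [← hftc]
      exact le_trans (intervalIntegral.integral_mono_on hst (hF.intervalIntegrable _ _)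
        (hg.intervalIntegrable _ _) fun x _ => (habs x).1) (hsub s t hs ht hst)
    · have h7 : h t ^ 2 - h s ^ 2 = ∫ z in t..s, -(2 * h z * h' z) := by
        rw [intervalIntegral.integral_neg, hftc]; ring
      rw [h7]
      exact le_trans (intervalIntegral.integral_mono_on hst (hF.neg.intervalIntegrable _ _)
        (hg.intervalIntegrable _ _) fun x _ => (habs x).2) (hsub t s ht hs hst)
  linarith

/-- an iterated integral over a rectangle inside a square -/
theorem cl_rect {g : P → ℝ} (hg : Continuous g) (h0 : ∀ x, 0 ≤ g x) {x0 : P} {ρ c d e f : ℝ}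
    (hcd : c ≤ d) (hef : e ≤ f) (hsub : Ioc c d ×ˢ Ioc e f ⊆ ball x0 ρ) :
    (∫ s in c..d, ∫ t in e..f, g (s, t) ≤ ∫ x in ball x0 ρ, g x) ∧
      ∫ t in e..f, ∫ s in c..d, g (s, t) ≤ ∫ x in ball x0 ρ, g x := by
  have hI : IntegrableOn g (ball x0 ρ) :=
    (hg.continuousOn.integrableOn_compact (isCompact_closedBall x0 ρ)).mono_set
      ball_subset_closedBall
  have hR : IntegrableOn g (Ioc c d ×ˢ Ioc e f) ((volume : Measure ℝ).prod volume) :=
    hI.mono_set hsub
  have hle : ∫ x in Ioc c d ×ˢ Ioc e f, g x ≤ ∫ x in ball x0 ρ, g x :=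
    setIntegral_mono_set hI (Eventually.of_forall h0) (Eventually.of_forall hsub)
  have h1 : ∫ s in c..d, ∫ t in e..f, g (s, t) = ∫ x in Ioc c d ×ˢ Ioc e f, g x := by
    simp_rw [intervalIntegral.integral_of_le hcd, intervalIntegral.integral_of_le hef]
    exact (setIntegral_prod g hR).symm
  have h2 : ∫ t in e..f, ∫ s in c..d, g (s, t) = ∫ s in c..d, ∫ t in e..f, g (s, t) := by
    simp_rw [intervalIntegral.integral_of_le hcd, intervalIntegral.integral_of_le hef]
    symm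
    apply integral_integral_swap
    rw [Measure.prod_restrict]
    exact hR
  rw [h2, h1]
  exact ⟨hle, hle⟩

/-- sum of the integrals along four segments -/
noncomputable def clS (g : P → ℝ) (x0 : P) (ρ r : ℝ) : ℝ :=
  (∫ t in (x0.2 - ρ / 2)..(x0.2 + ρ / 2), g (x0.1 + r, t)) +
  (∫ t in (x0.2 - ρ / 2)..(x0.2 + ρ / 2), g (x0.1 - r, t)) +
  (∫ t in (x0.1 - ρ / 2)..(x0.1 + ρ / 2), g (t, x0.2 + r)) +
  (∫ t in (x0.1 - ρ / 2)..(x0.1 + ρ / 2), g (t, x0.2 - r))

theorem cl_cont_param {F : ℝ → ℝ → ℝ} (hF : Continuous (Function.uncurry F)) (c d : ℝ) :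
    Continuous fun r => ∫ t in c..d, F r t :=
  intervalIntegral.continuous_parametric_intervalIntegral_of_continuous' hF c d

theorem cl_mem_ball {x0 : P} {ρ c d e f : ℝ} (h1 : x0.1 - ρ < c) (h2 : d < x0.1 + ρ)
    (h3 : x0.2 - ρ < e) (h4 : f < x0.2 + ρ) : Ioc c d ×ˢ Ioc e f ⊆ ball x0 ρ := by
  rintro ⟨s, t⟩ ⟨hs, ht⟩
  rw [mem_ball, Prod.dist_eq, max_lt_iff, Real.dist_eq, Real.dist_eq, abs_lt, abs_lt]
  simp only [mem_Ioc] at hs ht
  refine ⟨⟨?_, ?_⟩, ?_, ?_⟩ <;> simp only <;> linarith [hs.1, hs.2, ht.1, ht.2]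

theorem cl_S {g : P → ℝ} (hg : Continuous g) (h0 : ∀ x, 0 ≤ g x) (x0 : P) {ρ : ℝ} (hρ : 0 < ρ) :
    Continuous (clS g x0 ρ) ∧
      ∫ r in (ρ / 4)..(ρ / 2), clS g x0 ρ r ≤ 4 * ∫ x in ball x0 ρ, g x := by
  have c1 : Continuous fun r => ∫ t in (x0.2 - ρ / 2)..(x0.2 + ρ / 2), g (x0.1 + r, t) :=
    cl_cont_param (F := fun r t => g (x0.1 + r, t)) (by unfold Function.uncurry; fun_prop) _ _
  have c2 : Continuous fun r => ∫ t in (x0.2 - ρ / 2)..(x0.2 + ρ / 2), g (x0.1 - r, t) :=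
    cl_cont_param (F := fun r t => g (x0.1 - r, t)) (by unfold Function.uncurry; fun_prop) _ _
  have c3 : Continuous fun r => ∫ t in (x0.1 - ρ / 2)..(x0.1 + ρ / 2), g (t, x0.2 + r) :=
    cl_cont_param (F := fun r t => g (t, x0.2 + r)) (by unfold Function.uncurry; fun_prop) _ _
  have c4 : Continuous fun r => ∫ t in (x0.1 - ρ / 2)..(x0.1 + ρ / 2), g (t, x0.2 - r) :=
    cl_cont_param (F := fun r t => g (t, x0.2 - r)) (by unfold Function.uncurry; fun_prop) _ _
  refine ⟨((c1.add c2).add c3).add c4, ?_⟩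
  unfold clS
  rw [intervalIntegral.integral_add (((c1.fun_add c2).fun_add c3).intervalIntegrable _ _)
      (c4.intervalIntegrable _ _),
    intervalIntegral.integral_add ((c1.fun_add c2).intervalIntegrable _ _) (c3.intervalIntegrable _ _),
    intervalIntegral.integral_add (c1.intervalIntegrable _ _) (c2.intervalIntegrable _ _),
    intervalIntegral.integral_comp_add_left
      (fun s => ∫ t in (x0.2 - ρ / 2)..(x0.2 + ρ / 2), g (s, t)),
    intervalIntegral.integral_comp_sub_left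
      (fun s => ∫ t in (x0.2 - ρ / 2)..(x0.2 + ρ / 2), g (s, t)),
    intervalIntegral.integral_comp_add_left
      (fun s => ∫ t in (x0.1 - ρ / 2)..(x0.1 + ρ / 2), g (t, s)),
    intervalIntegral.integral_comp_sub_left
      (fun s => ∫ t in (x0.1 - ρ / 2)..(x0.1 + ρ / 2), g (t, s))]
  have r1 := (cl_rect hg h0 (x0 := x0) (ρ := ρ) (c := x0.1 + ρ / 4) (d := x0.1 + ρ / 2)
    (e := x0.2 - ρ / 2) (f := x0.2 + ρ / 2) (by linarith) (by linarith)
    (cl_mem_ball (by linarith) (by linarith) (by linarith) (by linarith))).1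
  have r2 := (cl_rect hg h0 (x0 := x0) (ρ := ρ) (c := x0.1 - ρ / 2) (d := x0.1 - ρ / 4)
    (e := x0.2 - ρ / 2) (f := x0.2 + ρ / 2) (by linarith) (by linarith)
    (cl_mem_ball (by linarith) (by linarith) (by linarith) (by linarith))).1
  have r3 := (cl_rect hg h0 (x0 := x0) (ρ := ρ) (c := x0.1 - ρ / 2) (d := x0.1 + ρ / 2)
    (e := x0.2 + ρ / 4) (f := x0.2 + ρ / 2) (by linarith) (by linarith)
    (cl_mem_ball (by linarith) (by linarith) (by linarith) (by linarith))).2
  have r4 := (cl_rect hg h0 (x0 := x0) (ρ := ρ) (c := x0.1 - ρ / 2) (d := x0.1 + ρ / 2)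
    (e := x0.2 - ρ / 2) (f := x0.2 - ρ / 4) (by linarith) (by linarith)
    (cl_mem_ball (by linarith) (by linarith) (by linarith) (by linarith))).2
  linarith

/-- one radius good for infinitely many indices -/
theorem cl_select {S : ℕ → ℝ → ℝ} (hS : ∀ n, Continuous (S n)) (h0 : ∀ n r, 0 ≤ S n r)
    {c d K M : ℝ} (hcd : c ≤ d) (hM : 0 ≤ M) (hK : K < (d - c) * M)
    (hle : ∀ᶠ n in atTop, ∫ r in c..d, S n r ≤ K) :
    ∃ r ∈ Icc c d, ∃ᶠ n in atTop, S n r ≤ M := by
  by_contra hcon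
  push Not at hcon
  have hlim : Tendsto (fun n => ∫ r in c..d, min (S n r) M) atTop (𝓝 (∫ _r in c..d, M)) := by
    refine intervalIntegral.tendsto_integral_filter_of_dominated_convergence (fun _ => M)
      (Eventually.of_forall fun n => ((hS n).min continuous_const).aestronglyMeasurable)
      (Eventually.of_forall fun n => Eventually.of_forall fun r _ => ?_)
      (continuous_const.intervalIntegrable _ _) (Eventually.of_forall fun r hr => ?_)
    · rw [Real.norm_eq_abs, abs_of_nonneg (le_min (h0 n r) hM)]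
      exact min_le_right _ _
    · rw [uIoc_of_le hcd] at hr
      refine tendsto_const_nhds.congr' ?_
      filter_upwards [hcon r (Ioc_subset_Icc_self hr)] with n hn
      exact (min_eq_right hn.le).symm
  rw [intervalIntegral.integral_const, smul_eq_mul] at hlim
  have := le_of_tendsto hlim (b := K) (by
    filter_upwards [hle] with n hn
    exact le_trans (intervalIntegral.integral_mono_on hcd
      (((hS n).min continuous_const).intervalIntegrable _ _) ((hS n).intervalIntegrable _ _)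
      fun r _ => min_le_left _ _) hn)
  linarith

theorem cl_deriv1 {φ : P → ℝ} (hφ : Differentiable ℝ φ) (y s : ℝ) :
    HasDerivAt (fun t => 1 - φ (t, y)) (-d1 φ (s, y)) s := by
  have h1 : HasDerivAt (fun t : ℝ => ((t, y) : P)) ((1 : ℝ), (0 : ℝ)) s :=
    (hasDerivAt_id s).prodMk (hasDerivAt_const s y)
  exact ((hφ (s, y)).hasFDerivAt.comp_hasDerivAt s h1).const_sub 1

theorem cl_deriv2 {φ : P → ℝ} (hφ : Differentiable ℝ φ) (y s : ℝ) :
    HasDerivAt (fun t => 1 - φ (y, t)) (-d2 φ (y, s)) s := by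
  have h1 : HasDerivAt (fun t : ℝ => ((y, t) : P)) ((0 : ℝ), (1 : ℝ)) s :=
    (hasDerivAt_const s y).prodMk (hasDerivAt_id s)
  exact ((hφ (y, s)).hasFDerivAt.comp_hasDerivAt s h1).const_sub 1

/-- the scale invariant energy density -/
noncomputable def clG (φ : P → ℝ) (ρ : ℝ) (x : P) : ℝ :=
  ρ * (d1 φ x ^ 2 + d2 φ x ^ 2) + (1 - φ x) ^ 2 / ρ

theorem cl_G_cont {φ : P → ℝ} (hφ : IsTest univ φ) (ρ : ℝ) : Continuous (clG φ ρ) := by
  have h1 := hφ.cont
  have h2 := hφ.d1_cont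
  have h3 := hφ.d2_cont
  unfold clG
  fun_prop

theorem cl_sphere {φ : P → ℝ} (hφ : IsTest univ φ) {x0 : P} {ρ r : ℝ} (hρ : 0 < ρ)
    (hr : r ≤ ρ / 2) {x : P} (hx : x ∈ sphere x0 r) :
    (1 - φ x) ^ 2 ≤ 2 * clS (clG φ ρ) x0 ρ r := by
  have hG := cl_G_cont hφ ρ
  have hG0 : ∀ x, 0 ≤ clG φ ρ x := fun x => by unfold clG; positivity
  have hv : ∀ y t, t ∈ Icc (x0.2 - ρ / 2) (x0.2 + ρ / 2) → (1 - φ (y, t)) ^ 2 ≤
      2 * ∫ s in (x0.2 - ρ / 2)..(x0.2 + ρ / 2), clG φ ρ (y, s) := by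
    intro y t ht
    refine cl_oned (h := fun t => 1 - φ (y, t)) hρ (by ring) (cl_deriv2 hφ.diff y) ?_ ?_ ?_ ht
    · have := hφ.d2_cont
      fun_prop
    · fun_prop
    · intro s
      unfold clG
      nlinarith [mul_nonneg hρ.le (sq_nonneg (d1 φ (y, s)))]
  have hh : ∀ y t, t ∈ Icc (x0.1 - ρ / 2) (x0.1 + ρ / 2) → (1 - φ (t, y)) ^ 2 ≤
      2 * ∫ s in (x0.1 - ρ / 2)..(x0.1 + ρ / 2), clG φ ρ (s, y) := by
    intro y t ht
    refine cl_oned (h := fun t => 1 - φ (t, y)) hρ (by ring) (cl_deriv1 hφ.diff y) ?_ ?_ ?_ ht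
    · have := hφ.d1_cont
      fun_prop
    · fun_prop
    · intro s
      unfold clG
      nlinarith [mul_nonneg hρ.le (sq_nonneg (d2 φ (s, y)))]
  have n1 : 0 ≤ ∫ t in (x0.2 - ρ / 2)..(x0.2 + ρ / 2), clG φ ρ (x0.1 + r, t) :=
    intervalIntegral.integral_nonneg (by linarith) fun _ _ => hG0 _
  have n2 : 0 ≤ ∫ t in (x0.2 - ρ / 2)..(x0.2 + ρ / 2), clG φ ρ (x0.1 - r, t) :=
    intervalIntegral.integral_nonneg (by linarith) fun _ _ => hG0 _
  have n3 : 0 ≤ ∫ t in (x0.1 - ρ / 2)..(x0.1 + ρ / 2), clG φ ρ (t, x0.2 + r) :=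
    intervalIntegral.integral_nonneg (by linarith) fun _ _ => hG0 _
  have n4 : 0 ≤ ∫ t in (x0.1 - ρ / 2)..(x0.1 + ρ / 2), clG φ ρ (t, x0.2 - r) :=
    intervalIntegral.integral_nonneg (by linarith) fun _ _ => hG0 _
  obtain ⟨s, t⟩ := x
  rw [mem_sphere, Prod.dist_eq, Real.dist_eq, Real.dist_eq] at hx
  simp only at hx
  have hs : |s - x0.1| ≤ r := hx ▸ le_max_left _ _
  have ht : |t - x0.2| ≤ r := hx ▸ le_max_right _ _
  have hr0 : 0 ≤ r := le_trans (abs_nonneg _) hs
  have hs' : s ∈ Icc (x0.1 - ρ / 2) (x0.1 + ρ / 2) :=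
    ⟨by linarith [(abs_le.1 hs).1], by linarith [(abs_le.1 hs).2]⟩
  have ht' : t ∈ Icc (x0.2 - ρ / 2) (x0.2 + ρ / 2) :=
    ⟨by linarith [(abs_le.1 ht).1], by linarith [(abs_le.1 ht).2]⟩
  unfold clS
  rcases max_choice |s - x0.1| |t - x0.2| with h | h
  · rw [h] at hx
    rcases (abs_eq hr0).1 hx with h' | h'
    · have e : s = x0.1 + r := by linarith
      have := hv s t ht'
      rw [e] at this ⊢
      linarith
    · have e : s = x0.1 - r := by linarith
      have := hv s t ht'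
      rw [e] at this ⊢
      linarith
  · rw [h] at hx
    rcases (abs_eq hr0).1 hx with h' | h'
    · have e : t = x0.2 + r := by linarith
      have := hh t s hs'
      rw [e] at this ⊢
      linarith
    · have e : t = x0.2 - r := by linarith
      have := hh t s hs'
      rw [e] at this ⊢
      linarith

theorem courant (A : API) : CL := by
  refine ⟨8, by norm_num, ?_⟩
  intro φ u u1 u2 x0 ρ a b hφ hρ ha hb
  have hmb : MeasurableSet (ball x0 ρ) := measurableSet_ball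
  set χ : P → ℝ := (ball x0 ρ).indicator fun _ => 1 with hχ
  have hχm : AEStronglyMeasurable χ volume := aestronglyMeasurable_const.indicator hmb
  have hχb : ∀ᵐ x, |χ x| ≤ 1 := Eventually.of_forall fun x => by
    by_cases hx : x ∈ ball x0 ρ <;> simp [hχ, hx]
  have hχ2 : MemLp χ 2 volume :=
    memLp_indicator_const 2 hmb 1 (Or.inr measure_ball_lt_top.ne)
  have e1 : ∀ f g : P → ℝ, ∫ x, ((χ x * f x) ^ 2 + (χ x * g x) ^ 2) =
      ∫ x in ball x0 ρ, (f x ^ 2 + g x ^ 2) := by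
    intro f g
    rw [← integral_indicator hmb]
    refine integral_congr_ae (Eventually.of_forall fun x => ?_)
    by_cases hx : x ∈ ball x0 ρ <;> simp [hχ, hx]
  have e2 : ∀ f : P → ℝ, ∫ x, (χ x - χ x * f x) ^ 2 = ∫ x in ball x0 ρ, (1 - f x) ^ 2 := by
    intro f
    rw [← integral_indicator hmb]
    refine integral_congr_ae (Eventually.of_forall fun x => ?_)
    by_cases hx : x ∈ ball x0 ρ <;> simp [hχ, hx]
  have t1 := A.l_sq2 (A.l_bmul hφ.l1 hχm hχb) (A.l_bmul hφ.l2 hχm hχb)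
  have t2 := A.l_sq (A.l_sub (A.l_const hχ2) (A.l_bmul hφ.l0 hχm hχb))
  simp only [e1, e2] at t1 t2
  have ha0 : 0 < a := lt_of_le_of_lt (integral_nonneg fun x => by positivity) ha
  have hb0 : 0 < b := lt_of_le_of_lt (integral_nonneg fun x => by positivity) hb
  have hG0 : ∀ n x, 0 ≤ clG (φ n) ρ x := fun n x => by unfold clG; positivity
  have hev : ∀ᶠ n in atTop,
      ∫ r in (ρ / 4)..(ρ / 2), clS (clG (φ n) ρ) x0 ρ r ≤ 4 * (ρ * a + b / ρ) := by
    filter_upwards [t1.eventually (gt_mem_nhds ha), t2.eventually (gt_mem_nhds hb)] with n h1 h2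
    refine le_trans (cl_S (cl_G_cont (hφ.test n) ρ) (hG0 n) x0 hρ).2 ?_
    have hI : ∀ g : P → ℝ, Continuous g → IntegrableOn g (ball x0 ρ) := fun g hg =>
      (hg.continuousOn.integrableOn_compact (isCompact_closedBall x0 ρ)).mono_set
        ball_subset_closedBall
    have c0 := (hφ.test n).cont
    have c1 := (hφ.test n).d1_cont
    have c2 := (hφ.test n).d2_cont
    unfold clG
    rw [integral_add (hI _ (by fun_prop)) (hI _ (by fun_prop)), integral_const_mul, integral_div]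
    have h3 := mul_le_mul_of_nonneg_left h1.le hρ.le
    have h4 := div_le_div_of_nonneg_right h2.le hρ.le
    linarith
  obtain ⟨r, hr, hfr⟩ := cl_select (S := fun n => clS (clG (φ n) ρ) x0 ρ)
    (fun n => (cl_S (cl_G_cont (hφ.test n) ρ) (hG0 n) x0 hρ).1)
    (fun n r => by
      unfold clS
      have h : ∀ c : ℝ, c - ρ / 2 ≤ c + ρ / 2 := fun c => by linarith
      exact add_nonneg (add_nonneg (add_nonneg
        (intervalIntegral.integral_nonneg (h _) fun _ _ => hG0 _ _)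
        (intervalIntegral.integral_nonneg (h _) fun _ _ => hG0 _ _))
        (intervalIntegral.integral_nonneg (h _) fun _ _ => hG0 _ _))
        (intervalIntegral.integral_nonneg (h _) fun _ _ => hG0 _ _))
    (M := 32 * (a + b / ρ ^ 2)) (by linarith) (by positivity)
    (by
      have h1 : (ρ / 2 - ρ / 4) * (32 * (a + b / ρ ^ 2)) = 8 * (ρ * a + b / ρ) := by
        field_simp; ring
      have h2 : 0 < ρ * a + b / ρ := by positivity
      rw [h1]; linarith) hev
  obtain ⟨σ, hσ, hσ'⟩ := extraction_of_frequently_atTop hfr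
  refine ⟨r, hr, σ, hσ, fun n x hx => ?_⟩
  have h1 := cl_sphere (hφ.test (σ n)) hρ hr.2 hx
  have h2 := hσ' n
  refine abs_le_of_sq_le_sq' ?_ (by positivity) |>.elim (fun h3 h4 => abs_le.2 ⟨h3, h4⟩)
  have h5 : (8 * (√a + √b / ρ)) ^ 2 = 64 * (a + b / ρ ^ 2) + 128 * (√a * (√b / ρ)) := by
    rw [mul_pow, add_sq, div_pow, Real.sq_sqrt ha0.le, Real.sq_sqrt hb0.le]; ring
  have h6 : 0 ≤ √a * (√b / ρ) := by positivity
  have h7 : (φ (σ n) x - 1) ^ 2 = (1 - φ (σ n) x) ^ 2 := by ring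
  rw [h5, h7]
  linarith

end Pool.Agent.H92Z.Fq
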