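import Pool.Agent.H92Z.Fq.Stm

open MeasureTheory Set Filter Metric
open scoped Topology Pointwise InnerProductSpace

namespace Pool.Agent.H92Z.Fq

theorem comp_weak_subseq {X : Type*} [NormedAddCommGroup X] [InnerProductSpace ℝ X]
    [CompleteSpace X] [TopologicalSpace.SeparableSpace X] (S : Submodule ℝ X) (x : ℕ → X) (K : ℝ)
    (hx : ∀ n, x n ∈ S) (hK : ∀ n, ‖x n‖ ≤ K) :
    ∃ (σ : ℕ → ℕ) (z : X), StrictMono σ ∧ z ∈ closure (S : Set X) ∧
      ∀ y, Tendsto (fun n => ⟪x (σ n), y⟫_ℝ) atTop (𝓝 ⟪z, y⟫_ℝ) := by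
  have hc := WeakDual.isSeqCompact_closedBall (𝕜 := ℝ) (E := X) 0 K
  have hm : ∀ n, StrongDual.toWeakDual (InnerProductSpace.toDual ℝ X (x n)) ∈
      (WeakDual.toStrongDual ⁻¹' closedBall (0 : StrongDual ℝ X) K) := by
    intro n
    simp only [mem_preimage, mem_closedBall, dist_zero_right]
    simpa using hK n
  obtain ⟨l, -, σ, hσ, hl⟩ := hc hm
  have key : ∀ y, Tendsto (fun n => ⟪x (σ n), y⟫_ℝ) atTop
      (𝓝 ⟪(InnerProductSpace.toDual ℝ X).symm (WeakDual.toStrongDual l), y⟫_ℝ) := by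
    intro y
    have h1 := ((WeakDual.eval_continuous y).tendsto l).comp hl
    rw [InnerProductSpace.toDual_symm_apply]
    exact h1
  refine ⟨σ, _, hσ, ?_, key⟩
  have : (InnerProductSpace.toDual ℝ X).symm (WeakDual.toStrongDual l) ∈ Sᗮᗮ := by
    rw [Submodule.mem_orthogonal']
    intro y hy
    have h0 : (fun n => ⟪x (σ n), y⟫_ℝ) = fun _ => 0 := by
      ext n
      exact Submodule.inner_right_of_mem_orthogonal (hx _) hy
    have h1 := key y
    rw [h0] at h1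
    exact (tendsto_nhds_unique tendsto_const_nhds h1).symm
  rw [Submodule.orthogonal_orthogonal_eq_closure] at this
  exact this

abbrev comp_L : Type := Lp ℝ 2 (volume : Measure P)

abbrev comp_X : Type := PiLp 2 (fun _ : Fin 3 => comp_L)

theorem comp_sep : TopologicalSpace.SeparableSpace comp_X := by
  have : Fact ((2 : ENNReal) ≠ ⊤) := ⟨by simp⟩
  have : SecondCountableTopology comp_L := Lp.SecondCountableTopology
  have : SecondCountableTopology (Fin 3 → comp_L) := inferInstance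
  have : SecondCountableTopology comp_X :=
    (PiLp.homeomorph 2 (fun _ : Fin 3 => comp_L)).isInducing.secondCountableTopology
  exact TopologicalSpace.SecondCountableTopology.to_separableSpace

theorem comp_inner (F G : comp_L) : ⟪F, G⟫_ℝ = ∫ x, F x * G x := by
  rw [L2.inner_def]
  congr 1
  ext x
  simp [mul_comm]

theorem comp_normsq (F : comp_L) : ‖F‖ ^ 2 = ∫ x, F x ^ 2 := by
  rw [← real_inner_self_eq_norm_sq, comp_inner]
  congr 1
  ext x
  ring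

theorem comp_l2lim {F : ℕ → comp_L} {G : comp_L} {g : ℕ → P → ℝ}
    (hg : ∀ n, F n =ᵐ[volume] g n) (h : Tendsto F atTop (𝓝 G)) : L2Lim g G := by
  refine ⟨fun n => (Lp.memLp (F n)).ae_eq (hg n), Lp.memLp G, ?_⟩
  have h1 : Tendsto (fun n => ‖F n - G‖ ^ 2) atTop (𝓝 0) := by
    have := (tendsto_iff_norm_sub_tendsto_zero.1 h).pow 2
    simpa using this
  refine h1.congr fun n => ?_
  rw [comp_normsq]
  apply integral_congr_ae
  filter_upwards [Lp.coeFn_sub (F n) G, hg n] with x h1 h2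
  rw [h1, Pi.sub_apply, h2]

/-- the triples given by test functions -/
def comp_S (Ω : Set P) : Submodule ℝ comp_X where
  carrier := {z | ∃ φ, IsTest Ω φ ∧ z 0 =ᵐ[volume] φ ∧ z 1 =ᵐ[volume] d1 φ ∧ z 2 =ᵐ[volume] d2 φ}
  add_mem' := by
    rintro z w ⟨φ, hφ, a0, a1, a2⟩ ⟨ψ, hψ, b0, b1, b2⟩
    refine ⟨fun x => φ x + ψ x, hφ.add hψ, ?_, ?_, ?_⟩
    · filter_upwards [Lp.coeFn_add (z 0) (w 0), a0, b0] with x h1 h2 h3
      rw [PiLp.add_apply, h1, Pi.add_apply, h2, h3]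
    · filter_upwards [Lp.coeFn_add (z 1) (w 1), a1, b1] with x h1 h2 h3
      rw [PiLp.add_apply, h1, Pi.add_apply, h2, h3, d1_add (hφ.diff x) (hψ.diff x)]
    · filter_upwards [Lp.coeFn_add (z 2) (w 2), a2, b2] with x h1 h2 h3
      rw [PiLp.add_apply, h1, Pi.add_apply, h2, h3, d2_add (hφ.diff x) (hψ.diff x)]
  zero_mem' := by
    refine ⟨fun _ => 0, IsTest.zero Ω, ?_, ?_, ?_⟩
    · filter_upwards [Lp.coeFn_zero ℝ 2 (volume : Measure P)] with x h1
      rw [PiLp.zero_apply, h1]; rfl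
    · filter_upwards [Lp.coeFn_zero ℝ 2 (volume : Measure P)] with x h1
      rw [PiLp.zero_apply, h1]; simp
    · filter_upwards [Lp.coeFn_zero ℝ 2 (volume : Measure P)] with x h1
      rw [PiLp.zero_apply, h1]; simp
  smul_mem' := by
    rintro c z ⟨φ, hφ, a0, a1, a2⟩
    refine ⟨fun x => c * φ x, hφ.const_mul c, ?_, ?_, ?_⟩
    · filter_upwards [Lp.coeFn_smul c (z 0), a0] with x h1 h2
      rw [PiLp.smul_apply, h1, Pi.smul_apply, h2, smul_eq_mul]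
    · filter_upwards [Lp.coeFn_smul c (z 1), a1] with x h1 h2
      rw [PiLp.smul_apply, h1, Pi.smul_apply, h2, smul_eq_mul, d1_const_mul c (hφ.diff x)]
    · filter_upwards [Lp.coeFn_smul c (z 2), a2] with x h1 h2
      rw [PiLp.smul_apply, h1, Pi.smul_apply, h2, smul_eq_mul, d2_const_mul c (hφ.diff x)]

theorem comp_lsc {a b : ℕ → P → ℝ} {f1 f2 : P → ℝ} (ha : ∀ n, MemLp (a n) 2 volume)
    (hb : ∀ n, MemLp (b n) 2 volume) (h1 : MemLp f1 2 volume) (h2 : MemLp f2 2 volume)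
    (w1 : WLim a f1) (w2 : WLim b f2) (e : ℝ)
    (he : ∀ ε : ℝ, 0 < ε → ∀ᶠ n in atTop, ∫ x, (a n x ^ 2 + b n x ^ 2) ≤ e + ε) :
    ∫ x, (f1 x ^ 2 + f2 x ^ 2) ≤ e := by
  apply le_of_forall_pos_le_add
  intro ε hε
  have t := ((w1 f1 h1).add (w2 f2 h2)).const_mul 2
  have t2 := t.sub_const (∫ x, (f1 x ^ 2 + f2 x ^ 2))
  have e1 : 2 * ((∫ x, f1 x * f1 x) + ∫ x, f2 x * f2 x) - ∫ x, (f1 x ^ 2 + f2 x ^ 2) =
      ∫ x, (f1 x ^ 2 + f2 x ^ 2) := by
    rw [integral_add (int_sq h1) (int_sq h2)]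
    simp only [← sq]
    ring
  rw [e1] at t2
  refine le_of_tendsto t2 ?_
  filter_upwards [he ε hε] with n hn
  refine le_trans ?_ hn
  have i1 : Integrable (fun x => 2 * (f1 x * a n x + f2 x * b n x)) volume :=
    ((int_mul h1 (ha n)).add (int_mul h2 (hb n))).const_mul 2
  rw [← integral_add (int_mul h1 (ha n)) (int_mul h2 (hb n)), ← integral_const_mul,
    ← integral_sub i1 (int_sq2 h1 h2)]
  apply integral_mono
  · exact i1.sub (int_sq2 h1 h2)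
  · exact int_sq2 (ha n) (hb n)
  · intro x
    simp only
    nlinarith [sq_nonneg (f1 x - a n x), sq_nonneg (f2 x - b n x)]

theorem wcomp (A : API) : WCOMP := by
  intro Ω φ K hφ h0 h1
  let x : ℕ → comp_X := fun n => WithLp.toLp 2
    ![(hφ n).memLp.toLp (φ n), (hφ n).memLp_d1.toLp (d1 (φ n)), (hφ n).memLp_d2.toLp (d2 (φ n))]
  have x0 : ∀ n, x n 0 =ᵐ[volume] φ n := fun n => (hφ n).memLp.coeFn_toLp
  have x1 : ∀ n, x n 1 =ᵐ[volume] d1 (φ n) := fun n => (hφ n).memLp_d1.coeFn_toLp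
  have x2 : ∀ n, x n 2 =ᵐ[volume] d2 (φ n) := fun n => (hφ n).memLp_d2.coeFn_toLp
  have hS : ∀ n, x n ∈ comp_S Ω := fun n => ⟨φ n, hφ n, x0 n, x1 n, x2 n⟩
  have hK : ∀ n, ‖x n‖ ≤ √(2 * K) := by
    intro n
    apply Real.le_sqrt_of_sq_le
    rw [PiLp.norm_sq_eq_of_L2, Fin.sum_univ_three, comp_normsq, comp_normsq, comp_normsq]
    have a0 : ∫ y, x n 0 y ^ 2 = ∫ y, φ n y ^ 2 :=
      integral_congr_ae (by filter_upwards [x0 n] with y hy; rw [hy])
    have a1 : ∫ y, x n 1 y ^ 2 = ∫ y, d1 (φ n) y ^ 2 :=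
      integral_congr_ae (by filter_upwards [x1 n] with y hy; rw [hy])
    have a2 : ∫ y, x n 2 y ^ 2 = ∫ y, d2 (φ n) y ^ 2 :=
      integral_congr_ae (by filter_upwards [x2 n] with y hy; rw [hy])
    have b := h1 n
    rw [integral_add (int_sq (hφ n).memLp_d1) (int_sq (hφ n).memLp_d2)] at b
    rw [a0, a1, a2]
    linarith [h0 n]
  have := comp_sep
  obtain ⟨σ, z, hσ, hz, hw⟩ := comp_weak_subseq (comp_S Ω) x _ hS hK
  have hw' : ∀ (i : Fin 3) (g : ℕ → P → ℝ), (∀ n, x n i =ᵐ[volume] g n) →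
      WLim (fun n => g (σ n)) (z i) := by
    intro i g hg G hG
    have t := hw (PiLp.single 2 i (hG.toLp G))
    have e : ∀ w : comp_X, ⟪w, PiLp.single 2 i (hG.toLp G)⟫_ℝ = ∫ y, G y * w i y := by
      intro w
      rw [PiLp.inner_apply, Finset.sum_eq_single i]
      · rw [PiLp.single_apply, if_pos rfl, comp_inner]
        apply integral_congr_ae
        filter_upwards [hG.coeFn_toLp] with y hy
        rw [hy, mul_comm]
      · intro j _ hj
        rw [PiLp.single_apply, if_neg hj, inner_zero_right]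
      · simp
    simp only [e] at t
    refine t.congr fun n => ?_
    apply integral_congr_ae
    filter_upwards [hg (σ n)] with y hy
    rw [hy]
  have w0 := hw' 0 φ x0
  have w1 := hw' 1 (fun n => d1 (φ n)) x1
  have w2 := hw' 2 (fun n => d2 (φ n)) x2
  refine ⟨σ, z 0, z 1, z 2, hσ, ?_, w0, w1, w2, ?_⟩
  · obtain ⟨s, hs, hlim⟩ := mem_closure_iff_seq_limit.1 hz
    choose ψ hψ b0 b1 b2 using hs
    have c : ∀ i : Fin 3, Tendsto (fun n => s n i) atTop (𝓝 (z i)) := fun i =>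
      ((PiLp.continuous_apply 2 (fun _ : Fin 3 => comp_L) i).tendsto z).comp hlim
    exact A.h_iff.2 ⟨ψ, hψ, comp_l2lim b0 (c 0), comp_l2lim b1 (c 1), comp_l2lim b2 (c 2)⟩
  · intro e he
    exact comp_lsc (fun n => (hφ (σ n)).memLp_d1) (fun n => (hφ (σ n)).memLp_d2)
      (Lp.memLp _) (Lp.memLp _) w1 w2 e he

theorem compact (_A : API) (hW : WCOMP) (hR : RELLICH) : COMPACT := by
  intro Ω φ K hm hv hφ h0 h1
  obtain ⟨σ, f, f1, f2, hσ, hH, w0, w1, w2, hl⟩ := hW Ω φ K hφ h0 h1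
  exact ⟨σ, f, f1, f2, hσ, hH, hR Ω (fun n => φ (σ n)) f K hm hv (fun n => hφ _) (fun n => h0 _)
    (fun n => h1 _) hH.m0 w0, w1, w2, hl⟩

theorem comp_small (A : API) {ψ u : ℕ → P → ℝ} {f : P → ℝ} (hψ : ∀ n, MemLp (ψ n) 2 volume)
    (hu : L2Lim u f) (h : ∀ n : ℕ, ∫ x, (ψ n x - u n x) ^ 2 ≤ 1 / ((n : ℝ) + 1)) : L2Lim ψ f := by
  have h0 : L2Lim (fun n x => ψ n x - u n x) (fun _ => 0) := by
    refine ⟨fun n => (hψ n).sub (hu.mem n), MemLp.zero, ?_⟩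
    refine squeeze_zero (fun n => integral_nonneg fun x => by positivity) (fun n => ?_)
      tendsto_one_div_add_atTop_nhds_zero_nat
    simpa using h n
  refine A.l_congr (A.l_add h0 hu) (fun n => ?_) ?_
  · exact Eventually.of_forall fun x => by simp
  · exact Eventually.of_forall fun x => by simp

theorem comp_closed (A : API) {Ω : Set P} {u u1 u2 : ℕ → P → ℝ} {f f1 f2 : P → ℝ}
    (h : ∀ n, H10 Ω (u n) (u1 n) (u2 n)) (l0 : L2Lim u f) (l1 : L2Lim u1 f1)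
    (l2 : L2Lim u2 f2) : H10 Ω f f1 f2 := by
  have key : ∀ n : ℕ, ∃ ψ, IsTest Ω ψ ∧ ∫ x, (ψ x - u n x) ^ 2 ≤ 1 / ((n : ℝ) + 1) ∧
      ∫ x, (d1 ψ x - u1 n x) ^ 2 ≤ 1 / ((n : ℝ) + 1) ∧
      ∫ x, (d2 ψ x - u2 n x) ^ 2 ≤ 1 / ((n : ℝ) + 1) := by
    intro n
    obtain ⟨φ, hφ, a0, a1, a2⟩ := A.h_iff.1 (h n)
    have hp : (0 : ℝ) < 1 / ((n : ℝ) + 1) := by positivity
    obtain ⟨k, hk0, hk1, hk2⟩ := ((a0.tend.eventually (ge_mem_nhds hp)).and
      ((a1.tend.eventually (ge_mem_nhds hp)).and (a2.tend.eventually (ge_mem_nhds hp)))).exists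
    exact ⟨φ k, hφ k, hk0, hk1, hk2⟩
  choose ψ hψ b0 b1 b2 using key
  exact A.h_iff.2 ⟨ψ, hψ, comp_small A (fun n => (hψ n).memLp) l0 b0,
    comp_small A (fun n => (hψ n).memLp_d1) l1 b1, comp_small A (fun n => (hψ n).memLp_d2) l2 b2⟩

theorem comp_abs_le (s : ℝ) {δ : ℝ} : |s| ≤ √(s ^ 2 + δ ^ 2) :=
  Real.abs_le_sqrt (by nlinarith [sq_nonneg δ])

theorem comp_tend (s c : ℝ) : Tendsto (fun n : ℕ => s / (√(s ^ 2 + (1 / ((n : ℝ) + 1)) ^ 2) +
    c * (1 / ((n : ℝ) + 1)))) atTop (𝓝 (s / |s|)) := by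
  by_cases hs : s = 0
  · subst hs
    simp
  · have t : Tendsto (fun n : ℕ => 1 / ((n : ℝ) + 1)) atTop (𝓝 0) :=
      tendsto_one_div_add_atTop_nhds_zero_nat
    have t2 := (((t.pow 2).const_add (s ^ 2)).sqrt).add (t.const_mul c)
    have e : √(s ^ 2 + 0 ^ 2) + c * 0 = |s| := by
      simp [Real.sqrt_sq_eq_abs]
    rw [e] at t2
    exact tendsto_const_nhds.div t2 (abs_ne_zero.2 hs)

theorem habs (A : API) (_hW : WCOMP) : ABS := by
  intro Ω f f1 f2 hf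
  have hδ : ∀ n : ℕ, (0 : ℝ) < 1 / ((n : ℝ) + 1) := fun n => by positivity
  have hsq : ∀ (n : ℕ) (s : ℝ), 0 < √(s ^ 2 + (1 / ((n : ℝ) + 1)) ^ 2) := fun n s =>
    Real.sqrt_pos.2 (by have := hδ n; positivity)
  have hb : ∀ (c : ℝ), 0 ≤ c → ∀ (n : ℕ) (s : ℝ),
      |s / (√(s ^ 2 + (1 / ((n : ℝ) + 1)) ^ 2) + c * (1 / ((n : ℝ) + 1)))| ≤ 1 := by
    intro c hc n s
    have p1 := hsq n s
    have p2 : 0 ≤ c * (1 / ((n : ℝ) + 1)) := mul_nonneg hc (hδ n).le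
    rw [abs_div, abs_of_pos (by linarith : 0 < √(s ^ 2 + (1 / ((n : ℝ) + 1)) ^ 2) +
      c * (1 / ((n : ℝ) + 1))), div_le_one (by linarith)]
    linarith [comp_abs_le s (δ := 1 / ((n : ℝ) + 1))]
  have hc : ∀ (c : ℝ), 0 ≤ c → ∀ (n : ℕ), Continuous fun s : ℝ =>
      s / (√(s ^ 2 + (1 / ((n : ℝ) + 1)) ^ 2) + c * (1 / ((n : ℝ) + 1))) := by
    intro c hc n
    refine continuous_id.div (by fun_prop) fun s => ?_
    have p1 := hsq n s
    have p2 : 0 ≤ c * (1 / ((n : ℝ) + 1)) := mul_nonneg hc (hδ n).le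
    linarith
  have hdom : ∀ (c : ℝ), 0 ≤ c → ∀ g : P → ℝ, MemLp g 2 volume → L2Lim
      (fun (n : ℕ) x => f x / (√(f x ^ 2 + (1 / ((n : ℝ) + 1)) ^ 2) + c * (1 / ((n : ℝ) + 1))) * g x)
      (fun x => f x / |f x| * g x) := by
    intro c h0 g hg
    exact A.l_dom (L := 1) (A.l_const hg)
      (fun n => (hc c h0 n).comp_aestronglyMeasurable hf.m0.aestronglyMeasurable)
      (fun n => Eventually.of_forall fun x => hb c h0 n (f x))
      (Eventually.of_forall fun x => comp_tend (f x) c)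
  have hH : ∀ n : ℕ, H10 Ω (fun x => √(f x ^ 2 + (1 / ((n : ℝ) + 1)) ^ 2) - 1 / ((n : ℝ) + 1))
      (fun x => f x / (√(f x ^ 2 + (1 / ((n : ℝ) + 1)) ^ 2) + 0 * (1 / ((n : ℝ) + 1))) * f1 x)
      (fun x => f x / (√(f x ^ 2 + (1 / ((n : ℝ) + 1)) ^ 2) + 0 * (1 / ((n : ℝ) + 1))) * f2 x) := by
    intro n
    refine A.h_comp (a := fun s => √(s ^ 2 + (1 / ((n : ℝ) + 1)) ^ 2) - 1 / ((n : ℝ) + 1))
      (a' := fun s => s / (√(s ^ 2 + (1 / ((n : ℝ) + 1)) ^ 2) + 0 * (1 / ((n : ℝ) + 1))))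
      (K := 1) hf (fun s => ?_) (hc 0 le_rfl n) (hb 0 le_rfl n) ?_
    · have d1 : HasDerivAt (fun s : ℝ => s ^ 2 + (1 / ((n : ℝ) + 1)) ^ 2) (2 * s) s := by
        simpa using (hasDerivAt_pow 2 s).add_const ((1 / ((n : ℝ) + 1)) ^ 2)
      have d2 := (d1.sqrt (by have := hδ n; positivity)).sub_const (1 / ((n : ℝ) + 1))
      refine d2.congr_deriv ?_
      rw [zero_mul, add_zero, mul_div_mul_left _ _ (two_ne_zero)]
    · have : √((0 : ℝ) ^ 2 + (1 / ((n : ℝ) + 1)) ^ 2) = 1 / ((n : ℝ) + 1) := by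
        rw [show (0 : ℝ) ^ 2 + (1 / ((n : ℝ) + 1)) ^ 2 = (1 / ((n : ℝ) + 1)) ^ 2 by ring,
          Real.sqrt_sq (hδ n).le]
      simp only [this, sub_self]
  refine ⟨fun x => f x / |f x| * f1 x, fun x => f x / |f x| * f2 x, ?_, ?_⟩
  · refine comp_closed A hH ?_ (hdom 0 le_rfl f1 hf.m1) (hdom 0 le_rfl f2 hf.m2)
    refine A.l_congr (hdom 1 zero_le_one f hf.m0) (fun n => Eventually.of_forall fun x => ?_)
      (Eventually.of_forall fun x => ?_)
    · have p1 := hsq n (f x)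
      have p2 := hδ n
      have p3 : √(f x ^ 2 + (1 / ((n : ℝ) + 1)) ^ 2) ^ 2 = f x ^ 2 + (1 / ((n : ℝ) + 1)) ^ 2 :=
        Real.sq_sqrt (by positivity)
      simp only
      rw [div_mul_eq_mul_div, div_eq_iff (by linarith)]
      nlinarith
    · simp only
      by_cases h0 : f x = 0
      · simp [h0]
      · rw [div_mul_eq_mul_div, div_eq_iff (abs_ne_zero.2 h0), abs_mul_abs_self]
  · have hs : ∀ x, (f x / |f x|) ^ 2 ≤ 1 := by
      intro x
      by_cases h0 : f x = 0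
      · simp [h0]
      · rw [div_pow, sq_abs, div_self (pow_ne_zero 2 h0)]
    apply integral_mono
    · exact int_sq2 (hdom 0 le_rfl f1 hf.m1).lim (hdom 0 le_rfl f2 hf.m2).lim
    · exact int_sq2 hf.m1 hf.m2
    · intro x
      simp only [mul_pow]
      nlinarith [hs x, sq_nonneg (f1 x), sq_nonneg (f2 x)]

theorem ground (A : API) (hC : COMPACT) (hA : ABS) (hV : VLAM) : GROUND := by
  intro Ω hΩ
  obtain ⟨hpos, -, -, hlow, hmax, -, -⟩ := hV.2 Ω hΩ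
  have key : ∀ n : ℕ, ∃ ψ, IsTest Ω ψ ∧ ∫ x, ψ x ^ 2 = 1 ∧
      ∫ x, (d1 ψ x ^ 2 + d2 ψ x ^ 2) ≤ lam Ω + 1 / ((n : ℝ) + 1) := by
    intro n
    have hδ : (0 : ℝ) < 1 / ((n : ℝ) + 1) := by positivity
    have hn : ¬ LamGe Ω (fun _ => 0) (lam Ω + 1 / ((n : ℝ) + 1)) := fun h => by
      linarith [hmax _ h]
    unfold LamGe at hn
    push Not at hn
    obtain ⟨φ, hφ, hlt⟩ := hn
    simp only [zero_mul, integral_zero, add_zero] at hlt
    have hE : 0 ≤ ∫ x, (d1 φ x ^ 2 + d2 φ x ^ 2) := integral_nonneg fun x => by positivity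
    have hm0 : 0 ≤ ∫ x, φ x ^ 2 := integral_nonneg fun x => by positivity
    have hm : 0 < ∫ x, φ x ^ 2 := by
      rcases hm0.lt_or_eq with h | h
      · exact h
      · rw [← h] at hlt
        linarith
    set m := ∫ x, φ x ^ 2 with hmdef
    have hc : (1 / √m) ^ 2 = 1 / m := by
      rw [div_pow, Real.sq_sqrt hm.le, one_pow]
    refine ⟨fun x => (1 / √m) * φ x, hφ.const_mul _, ?_, ?_⟩
    · simp only [mul_pow, hc]
      rw [integral_const_mul, ← hmdef]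
      field_simp
    · have e : (fun x => d1 (fun x => (1 / √m) * φ x) x ^ 2 + d2 (fun x => (1 / √m) * φ x) x ^ 2) =
          fun x => (1 / m) * (d1 φ x ^ 2 + d2 φ x ^ 2) := by
        ext x
        rw [d1_const_mul _ (hφ.diff x), d2_const_mul _ (hφ.diff x), mul_pow, mul_pow, hc]
        ring
      rw [e, integral_const_mul, one_div_mul_eq_div, div_le_iff₀ hm]
      exact hlt.le
  choose ψ hψ h1 hE using key
  have hle : ∀ n : ℕ, (1 : ℝ) / ((n : ℝ) + 1) ≤ 1 := fun n => by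
    rw [div_le_one (by positivity)]
    linarith [(Nat.cast_nonneg n : (0 : ℝ) ≤ n)]
  obtain ⟨σ, f, f1, f2, hσ, hH, hL, -, -, hl⟩ := hC Ω ψ (lam Ω + 1) hΩ.1.measurableSet hΩ.2.2 hψ
    (fun n => by rw [h1 n]; linarith) (fun n => by linarith [hE n, hle n])
  have hf1 : ∫ x, f x ^ 2 = 1 := by
    have t := A.l_sq hL
    simp only [h1] at t
    exact (tendsto_nhds_unique tendsto_const_nhds t).symm
  have hfE : ∫ x, (f1 x ^ 2 + f2 x ^ 2) ≤ lam Ω := by
    apply hl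
    intro ε hε
    have t : Tendsto (fun n : ℕ => 1 / ((σ n : ℝ) + 1)) atTop (𝓝 0) :=
      tendsto_one_div_add_atTop_nhds_zero_nat.comp hσ.tendsto_atTop
    filter_upwards [t.eventually (ge_mem_nhds hε)] with n hn
    linarith [hE (σ n)]
  obtain ⟨g1, g2, hg, hgE⟩ := hA Ω f f1 f2 hH
  have ha : ∫ x, |f x| ^ 2 = 1 := by
    simp only [sq_abs]
    exact hf1
  refine ⟨fun x => |f x|, g1, g2, hg, Eventually.of_forall fun x => abs_nonneg _, ha, ?_⟩
  have := hlow _ _ _ hg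
  rw [ha] at this
  linarith

end Pool.Agent.H92Z.Fq
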