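import Mathlib

open MeasureTheory Set Filter
open scoped Topology

namespace Pool.Agent.H92Z.Fq

/-- The plane, with Lebesgue measure `volume`. -/
abbrev P : Type := ℝ × ℝ

/-- First partial derivative. -/
noncomputable def d1 (φ : P → ℝ) (x : P) : ℝ := fderiv ℝ φ x (1, 0)

/-- Second partial derivative. -/
noncomputable def d2 (φ : P → ℝ) (x : P) : ℝ := fderiv ℝ φ x (0, 1)

/-- `φ` is a `C¹` function with compact support contained in `Ω`. -/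
structure IsTest (Ω : Set P) (φ : P → ℝ) : Prop where
  c1 : ContDiff ℝ 1 φ
  cs : HasCompactSupport φ
  supp : tsupport φ ⊆ Ω

/-- `u ∈ H¹₀(Ω)` with weak gradient `(u1, u2)`: the three functions are in `L²(ℝ²)` and `u` is the
limit in the `H¹` norm of `C¹` functions with compact support in `Ω`. -/
structure H10 (Ω : Set P) (u u1 u2 : P → ℝ) : Prop where
  m0 : MemLp u 2 volume
  m1 : MemLp u1 2 volume
  m2 : MemLp u2 2 volume
  approx : ∃ φ : ℕ → P → ℝ, (∀ n, IsTest Ω (φ n)) ∧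
    Tendsto (fun n => ∫ x, ((φ n x - u x) ^ 2 + (d1 (φ n) x - u1 x) ^ 2 + (d2 (φ n) x - u2 x) ^ 2))
      atTop (𝓝 0)

/-- First Dirichlet eigenvalue: infimum of the Rayleigh quotient over nonzero `u ∈ H¹₀(Ω)`. -/
noncomputable def lam (Ω : Set P) : ℝ :=
  sInf {r : ℝ | ∃ u u1 u2 : P → ℝ, H10 Ω u u1 u2 ∧ 0 < ∫ x, u x ^ 2 ∧
    r = (∫ x, (u1 x ^ 2 + u2 x ^ 2)) / ∫ x, u x ^ 2}

/-- Torsional rigidity: supremum of `∫ (2 u - |∇u|²)` over `u ∈ H¹₀(Ω)`. -/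
noncomputable def tors (Ω : Set P) : ℝ :=
  sSup {t : ℝ | ∃ u u1 u2 : P → ℝ, H10 Ω u u1 u2 ∧
    t = 2 * (∫ x, u x) - ∫ x, (u1 x ^ 2 + u2 x ^ 2)}

/-- Admissible sets: open, of positive and finite Lebesgue measure. -/
def Adm (Ω : Set P) : Prop := IsOpen Ω ∧ 0 < volume Ω ∧ volume Ω < ⊤

/-- The functional `F_q(Ω) = λ(Ω) T(Ω)^q / |Ω|^((d q + 2 q - 2)/d)` for `d = 2`. -/
noncomputable def FF (q : ℝ) (Ω : Set P) : ℝ :=
  lam Ω * tors Ω ^ q / (volume Ω).toReal ^ ((2 * q + 2 * q - 2) / 2)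

end Pool.Agent.H92Z.Fq
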