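import Pool.Agent.H92Z.Fq.Stm

open MeasureTheory Set Filter Metric
open scoped Topology Pointwise

namespace Pool.Agent.H92Z.Fq

theorem fst_int_b {b : P → ℝ} {R : ℝ} (hb : Measurable b) (h01 : ∀ x, 0 ≤ b x ∧ b x ≤ 1)
    (hR : ∀ x, R ≤ ‖x‖ → b x = 0) : Integrable b := by
  have h1 : Integrable ((ball (0 : P) R).indicator fun _ => (1 : ℝ)) :=
    (integrable_indicator_iff measurableSet_ball).2 (integrableOn_const measure_ball_lt_top.ne)
  refine h1.mono' hb.aestronglyMeasurable (Eventually.of_forall fun x => ?_)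
  by_cases hx : x ∈ ball (0 : P) R
  · rw [indicator_of_mem hx, Real.norm_eq_abs, abs_of_nonneg (h01 x).1]
    exact (h01 x).2
  · rw [indicator_of_notMem hx, hR x (by simpa using hx)]
    simp

theorem fst_scale_sq (a : ℝ) (f : P → ℝ) : ∫ x, (a * f x) ^ 2 = a ^ 2 * ∫ x, f x ^ 2 := by
  rw [← integral_const_mul]
  congr 1
  ext x
  ring

theorem fst_scale_sq2 (a : ℝ) (f g : P → ℝ) :
    ∫ x, ((a * f x) ^ 2 + (a * g x) ^ 2) = a ^ 2 * ∫ x, (f x ^ 2 + g x ^ 2) := by
  rw [← integral_const_mul]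
  congr 1
  ext x
  ring

theorem fst_scale_w (a : ℝ) (b f : P → ℝ) :
    ∫ x, b x * (a * f x) ^ 2 = a ^ 2 * ∫ x, b x * f x ^ 2 := by
  rw [← integral_const_mul]
  congr 1
  ext x
  ring

/-- normalised test functions suffice -/
theorem fst_lamge {Ω : Set P} {b : P → ℝ} {c : ℝ} (hb : ∀ x, 0 ≤ b x)
    (h : ∀ φ, IsTest Ω φ → ∫ x, φ x ^ 2 = 1 →
      c ≤ (∫ x, (d1 φ x ^ 2 + d2 φ x ^ 2)) + ∫ x, b x * φ x ^ 2) : LamGe Ω b c := by
  intro φ hφ
  have h0 : 0 ≤ ∫ x, φ x ^ 2 := integral_nonneg fun x => by positivity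
  rcases h0.eq_or_lt with h1 | h1
  · rw [← h1, mul_zero]
    exact add_nonneg (integral_nonneg fun x => by positivity)
      (integral_nonneg fun x => mul_nonneg (hb x) (sq_nonneg _))
  · set N := ∫ x, φ x ^ 2 with hN
    have ha : ((√N)⁻¹) ^ 2 = N⁻¹ := by rw [inv_pow, Real.sq_sqrt h0]
    have h2 := h _ (hφ.const_mul (√N)⁻¹) (by
      rw [fst_scale_sq, ha, ← hN, inv_mul_cancel₀ h1.ne'])
    simp only [d1_const_mul _ (hφ.diff _), d2_const_mul _ (hφ.diff _)] at h2
    rw [fst_scale_sq2, fst_scale_w, ha, ← mul_add] at h2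
    have h3 := mul_le_mul_of_nonneg_left h2 h0
    rw [← mul_assoc, mul_inv_cancel₀ h1.ne', one_mul] at h3
    linarith

/-- an almost minimiser for the perturbed eigenvalue problem -/
theorem fst_exists (A : API) (hO : OPTR) (hV : VLAM) (hT : VTORS) {q : ℝ} {Ω : Set P}
    {w w1 w2 b : P → ℝ} {R : ℝ} (hq : 1 < q) (hΩ : Opt q Ω) (hl : lam Ω = 1)
    (hw : BH Ω w w1 w2) (hJ : JJ (fun _ => 0) w w1 w2 = tors Ω) (hb : Measurable b)
    (h01 : ∀ x, 0 ≤ b x ∧ b x ≤ 1) (hR : ∀ x, R ≤ ‖x‖ → b x = 0) {s : ℝ} (hs : 0 < s)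
    (hsT : s * ∫ x, b x * w x ^ 2 < tors Ω) :
    ∃ φ, IsTest Ω φ ∧ ∫ x, φ x ^ 2 = 1 ∧
      (∫ x, (d1 φ x ^ 2 + d2 φ x ^ 2)) + s * ∫ x, b x * φ x ^ 2 ≤
        (tors Ω / (tors Ω - s * ∫ x, b x * w x ^ 2)) ^ q + s ^ 2 := by
  by_contra hcon
  push Not at hcon
  set T := tors Ω with hTdef
  set B := ∫ x, b x * w x ^ 2 with hB
  have hT0 : 0 < T := (hT Ω hΩ.1).2.2.1
  have ht : 0 < T - s * B := sub_pos.mpr hsT
  have hg : 0 < (T / (T - s * B)) ^ q := Real.rpow_pos_of_pos (div_pos hT0 ht) q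
  have hsb : ∀ f : P → ℝ, ∫ x, s * b x * f x ^ 2 = s * ∫ x, b x * f x ^ 2 := by
    intro f
    rw [← integral_const_mul]
    congr 1
    ext x
    ring
  have hL : LamGe Ω (fun x => s * b x) ((T / (T - s * B)) ^ q + s ^ 2) := by
    refine fst_lamge (fun x => mul_nonneg hs.le (h01 x).1) fun φ hφ h1 => ?_
    rw [hsb]
    exact (hcon φ hφ h1).le
  have hm : AEStronglyMeasurable (fun x => s * b x) volume :=
    (hb.const_mul s).aestronglyMeasurable
  have hbd : ∀ᵐ x, |s * b x| ≤ s := Eventually.of_forall fun x => by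
    rw [abs_of_nonneg (mul_nonneg hs.le (h01 x).1)]
    exact mul_le_of_le_one_right hs.le (h01 x).2
  have h2 := hO q Ω Ω (fun x => s * b x) R ((T / (T - s * B)) ^ q + s ^ 2) (T - s * B) hq.le hΩ
    hΩ.1.1 hΩ.1.2.2 ((fst_int_b hb h01 hR).const_mul s)
    (Eventually.of_forall fun x => mul_nonneg hs.le (h01 x).1)
    (Eventually.of_forall fun x hx => by rw [hR x hx, mul_zero]) (by positivity) ht
    (fun f f1 f2 hf => A.h_lamge hL hm hbd (A.b_h hf)) w w1 w2 hw (by
      unfold JJ at hJ ⊢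
      simp only [zero_mul, integral_zero, sub_zero] at hJ
      rw [hsb, hJ])
  have hv : 0 < vol Ω := (hV.2 Ω hΩ.1).2.1
  unfold FF at h2
  rw [hl, one_mul] at h2
  change _ ≤ T ^ q / vol Ω ^ _ at h2
  rw [div_le_div_iff_of_pos_right (Real.rpow_pos_of_pos hv _), add_mul,
    Real.div_rpow hT0.le ht.le, div_mul_cancel₀ _ (Real.rpow_pos_of_pos ht q).ne'] at h2
  have : 0 < s ^ 2 * (T - s * B) ^ q := mul_pos (by positivity) (Real.rpow_pos_of_pos ht q)
  linarith

theorem fst_deriv {T B q : ℝ} (hT : 0 < T) :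
    HasDerivAt (fun s : ℝ => (T / (T - s * B)) ^ q) (q / T * B) 0 := by
  have h1 : HasDerivAt (fun s : ℝ => T - s * B) (-B) 0 := by
    simpa using ((hasDerivAt_id (0 : ℝ)).mul_const B).const_sub T
  have h2 : HasDerivAt (fun s : ℝ => T / (T - s * B)) (B / T) 0 := by
    have := (hasDerivAt_const (0 : ℝ) T).fun_div h1 (by simpa using hT.ne')
    refine this.congr_deriv ?_
    simp only [zero_mul, sub_zero, zero_sub, mul_neg, neg_neg]
    field_simp
  have h3 := h2.rpow_const (p := q) (Or.inl (by simpa using hT.ne'))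
  refine h3.congr_deriv ?_
  simp only [zero_mul, sub_zero, div_self hT.ne', Real.one_rpow]
  ring

theorem firstb (A : API) (hO : OPTR) (hC : COMPACT) (hS : SIMPLE) (hV : VLAM) (hT : VTORS) :
    FIRSTB := by
  intro q Ω u u1 u2 w w1 w2 b R hq hΩ hl hu hu0 hu1 huE hw hJ hb h01 hR
  set T := tors Ω with hTdef
  set B := ∫ x, b x * w x ^ 2 with hB
  have hT0 : 0 < T := (hT Ω hΩ.1).2.2.1
  have hB0 : 0 ≤ B := integral_nonneg fun x => mul_nonneg (h01 x).1 (sq_nonneg _)
  set s : ℕ → ℝ := fun n => T / (B + 1) * (1 / ((n : ℝ) + 1)) with hsdef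
  have hs0 : ∀ n, 0 < s n := fun n => by rw [hsdef]; positivity
  have hsT : ∀ n, s n * B < T := by
    intro n
    have h1 : s n ≤ T / (B + 1) := by
      refine mul_le_of_le_one_right (by positivity) ?_
      rw [div_le_one (by positivity)]
      linarith [(Nat.cast_nonneg n : (0 : ℝ) ≤ n)]
    have h2 : T / (B + 1) * B < T := by
      rw [div_mul_eq_mul_div, div_lt_iff₀ (by positivity)]
      linarith
    exact lt_of_le_of_lt (mul_le_mul_of_nonneg_right h1 hB0) h2
  have hslim : Tendsto s atTop (𝓝 0) := by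
    have := (tendsto_one_div_add_atTop_nhds_zero_nat (𝕜 := ℝ)).const_mul (T / (B + 1))
    rwa [mul_zero] at this
  choose φ hφ hφ1 hφ2 using fun n => fst_exists A hO hV hT hq hΩ hl hw hJ hb h01 hR (hs0 n) (hsT n)
  set g : ℝ → ℝ := fun s => (T / (T - s * B)) ^ q with hgdef
  have hg0 : g 0 = 1 := by simp [hgdef, div_self hT0.ne']
  have hgd : HasDerivAt g (q / T * B) 0 := fst_deriv hT0
  have hglim : Tendsto (fun n => g (s n) + s n ^ 2) atTop (𝓝 1) := by
    have h1 := hgd.continuousAt.tendsto.comp hslim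
    rw [hg0] at h1
    simpa using h1.add (hslim.pow 2)
  have hslope : Tendsto (fun n => (s n)⁻¹ * (g (s n) - 1) + s n) atTop (𝓝 (q / T * B)) := by
    have h1 := hasDerivAt_iff_tendsto_slope_zero.mp hgd
    have h2 : Tendsto s atTop (𝓝[≠] 0) :=
      tendsto_nhdsWithin_iff.mpr ⟨hslim, Eventually.of_forall fun n => (hs0 n).ne'⟩
    have h3 := (h1.comp h2).add hslim
    simpa [hg0, Function.comp_def] using h3
  have hbn : ∀ n, 0 ≤ ∫ x, b x * φ n x ^ 2 := fun n =>
    integral_nonneg fun x => mul_nonneg (h01 x).1 (sq_nonneg _)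
  have hE : ∀ n, ∫ x, (d1 (φ n) x ^ 2 + d2 (φ n) x ^ 2) ≤ g (s n) + s n ^ 2 := by
    intro n
    have h1 := hφ2 n
    have h2 := mul_nonneg (hs0 n).le (hbn n)
    change _ ≤ g (s n) + s n ^ 2 at h1
    linarith
  have hbE : ∀ n, ∫ x, b x * φ n x ^ 2 ≤ (s n)⁻¹ * (g (s n) - 1) + s n := by
    intro n
    have h1 := hφ2 n
    change _ ≤ g (s n) + s n ^ 2 at h1
    have h2 := (hV.2 Ω hΩ.1).2.2.1 (φ n) (hφ n)
    simp only [hl, hφ1 n, zero_mul, integral_zero, add_zero, mul_one] at h2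
    refine le_of_mul_le_mul_left ?_ (hs0 n)
    rw [mul_add, ← mul_assoc, mul_inv_cancel₀ (hs0 n).ne', one_mul]
    nlinarith
  obtain ⟨K, hK⟩ := hglim.bddAbove_range
  obtain ⟨σ, f, f1, f2, hσ, hf, hL, -, -, hlsc⟩ := hC Ω φ (max 1 K) hΩ.1.1.measurableSet hΩ.1.2.2
    hφ (fun n => by rw [hφ1 n]; exact le_max_left _ _)
    (fun n => (hE n).trans ((hK (mem_range_self n)).trans (le_max_right _ _)))
  have hf1 : ∫ x, f x ^ 2 = 1 := by
    have h1 := A.l_sq hL
    simp only [hφ1] at h1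
    exact (tendsto_nhds_unique tendsto_const_nhds h1).symm
  have hfE : ∫ x, (f1 x ^ 2 + f2 x ^ 2) ≤ 1 := by
    refine hlsc 1 fun ε hε => ?_
    have h1 := (hglim.comp hσ.tendsto_atTop).eventually (gt_mem_nhds (by linarith : 1 < 1 + ε))
    filter_upwards [h1] with n hn
    exact (hE _).trans hn.le
  have hfu := hS q Ω u u1 u2 f f1 f2 hq hΩ hu hu0 hu1 (by rw [hl]; exact huE) hf hf1
    (by rw [hl]; exact hfE)
  have hlim := A.l_wsq (L := 1) hL hb.aestronglyMeasurable (Eventually.of_forall fun x => by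
    rw [abs_of_nonneg (h01 x).1]; exact (h01 x).2)
  have e : ∫ x, b x * f x ^ 2 = ∫ x, b x * u x ^ 2 := by
    refine integral_congr_ae ?_
    filter_upwards [hfu] with x hx
    rw [hx]
  rw [e] at hlim
  exact le_of_tendsto_of_tendsto' hlim (hslope.comp hσ.tendsto_atTop) fun n => hbE (σ n)

/-- weak solutions with square integrable right side are bounded -/
theorem fst_bh (A : API) (hS : SUPB) {Ω : Set P} {y y1 y2 R : P → ℝ} (hy : H10 Ω y y1 y2)
    (hR : MemLp R 2 volume) (hW : Weak Ω y1 y2 R) : BH Ω y y1 y2 := by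
  obtain ⟨C, hC, h⟩ := hS
  refine A.h_bh (L := C * (√(∫ z, y z ^ 2) + √(∫ z, R z ^ 2))) hy ?_
  filter_upwards [h Ω y y1 y2 R hy hR hW 1 0 one_pos] with x hx
  simp only [zero_add, inv_one, one_mul, sub_zero, sq_abs] at hx
  refine hx.trans (mul_le_mul_of_nonneg_left (add_le_add ?_ ?_) hC.le)
  · exact Real.sqrt_le_sqrt (setIntegral_le_integral (int_sq hy.m0)
      (Eventually.of_forall fun z => sq_nonneg _))
  · exact Real.sqrt_le_sqrt (setIntegral_le_integral (int_sq hR)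
      (Eventually.of_forall fun z => sq_nonneg _))

/-- from testing with indicators to a pointwise inequality -/
theorem fst_ae {F G : P → ℝ} (hF : Integrable F) (hG : Integrable G) (c : ℝ)
    (h : ∀ (b : P → ℝ) (R : ℝ), Measurable b → (∀ x, 0 ≤ b x ∧ b x ≤ 1) →
      (∀ x, R ≤ ‖x‖ → b x = 0) → ∫ x, b x * F x ≤ c * ∫ x, b x * G x) :
    ∀ᵐ x, F x ≤ c * G x := by
  have hH : Integrable fun x => F x - c * G x := hF.sub (hG.const_mul c)
  set H := hH.1.mk with hHdef
  have hHm : Measurable H := hH.1.measurable_mk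
  have hHe : (fun x => F x - c * G x) =ᵐ[volume] H := hH.1.ae_eq_mk
  have key : ∀ k : ℕ, ∀ᵐ x : P, ‖x‖ < k → F x ≤ c * G x := by
    intro k
    set S : Set P := {x | 0 < H x} ∩ ball 0 k with hS
    have hSm : MeasurableSet S := (measurableSet_lt measurable_const hHm).inter measurableSet_ball
    set b : P → ℝ := S.indicator fun _ => 1 with hb
    have hbm : Measurable b := measurable_const.indicator hSm
    have h01 : ∀ x, 0 ≤ b x ∧ b x ≤ 1 := by
      intro x
      by_cases hx : x ∈ S <;> simp [hb, hx]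
    have hbd : ∀ᵐ x, |b x| ≤ 1 := Eventually.of_forall fun x => by
      rw [abs_of_nonneg (h01 x).1]; exact (h01 x).2
    have h1 := h b k hbm h01 (fun x hx => indicator_of_notMem (fun hxS => by
      have := hxS.2
      rw [mem_ball_zero_iff] at this
      linarith) _)
    have i1 := int_bdd_mul hbm.aestronglyMeasurable hbd hF
    have i2 := int_bdd_mul hbm.aestronglyMeasurable hbd hG
    have i3 := int_bdd_mul hbm.aestronglyMeasurable hbd hH
    have h2 : ∫ x, b x * (F x - c * G x) ≤ 0 := by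
      have e : (fun x => b x * (F x - c * G x)) = fun x => b x * F x - c * (b x * G x) := by
        ext x
        ring
      rw [e, integral_sub i1 (i2.const_mul c), integral_const_mul]
      linarith
    have h3 : 0 ≤ᵐ[volume] fun x => b x * (F x - c * G x) := by
      filter_upwards [hHe] with x hx
      by_cases hxS : x ∈ S
      · refine mul_nonneg (h01 x).1 ?_
        rw [hx]
        exact le_of_lt hxS.1
      · simp [hb, hxS]
    have h4 := (integral_eq_zero_iff_of_nonneg_ae h3 i3).mp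
      (le_antisymm h2 (integral_nonneg_of_ae h3))
    filter_upwards [h4, hHe] with x hx hx' hk
    by_contra hlt
    have hxS : x ∈ S := ⟨by
      change 0 < H x
      rw [← hx']
      linarith, mem_ball_zero_iff.mpr hk⟩
    simp only [hb, indicator_of_mem hxS, one_mul, Pi.zero_apply] at hx
    linarith
  filter_upwards [ae_all_iff.mpr key] with x hx
  obtain ⟨k, hk⟩ := exists_nat_gt ‖x‖
  exact hx k hk

theorem fst_pt {u w : ℝ} (hu : 0 ≤ u) (h : u ^ 2 ≤ w ^ 2) :
    (w - u) ^ 2 ≤ 8 * (1 - w) ^ 2 + 2 * (w ^ 2 - u ^ 2) := by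
  rcases le_total 0 w with hw | hw
  · have h1 : u ≤ w := le_of_pow_le_pow_left₀ two_ne_zero hw h
    nlinarith [sq_nonneg (1 - w), mul_nonneg hu (sub_nonneg.mpr h1)]
  · have h1 : u ≤ -w := le_of_pow_le_pow_left₀ two_ne_zero (by linarith) (by rwa [neg_sq])
    nlinarith [mul_nonneg hu (sub_nonneg.mpr h1), sq_nonneg (u + w), sq_nonneg (3 * w + u)]

theorem first (A : API) (hB : FIRSTB) (hG : GROUND) (hP : POS) (hS : SUPB) (hV : VLAM)
    (hT : VTORS) : FIRST := by
  intro q Ω hq hΩ hl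
  obtain ⟨u, u1, u2, hu, hu0, hu1, huE⟩ := hG Ω hΩ.1
  obtain ⟨-, -, hT0, hTv, w, w1, w2, hw, hww, hwi, hwE⟩ := hT Ω hΩ.1
  obtain ⟨-, hv0, -, hray, -, -, hweak⟩ := hV.2 Ω hΩ.1
  have hm : MeasurableSet Ω := hΩ.1.1.measurableSet
  have hfin : volume Ω < ⊤ := hΩ.1.2.2
  have hwu := hweak u u1 u2 hu (by rw [hu1, huE, mul_one])
  have hpos := hP q Ω u u1 u2 hq hΩ hu hu0 hwu (by rw [hu1]; exact one_pos)
  rw [hl] at huE hTv
  simp only [hl, one_mul] at hwu hray
  rw [one_mul] at hTv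
  have hχ : MemLp (Ω.indicator fun _ => (1 : ℝ)) 2 volume :=
    memLp_indicator_const 2 hm 1 (Or.inr hfin.ne)
  have hχi : Integrable (Ω.indicator fun _ => (1 : ℝ)) :=
    (integrable_indicator_iff hm).2 (integrableOn_const hfin.ne)
  have hχv : ∫ x, Ω.indicator (fun _ => (1 : ℝ)) x = vol Ω := by
    rw [integral_indicator hm]
    simp [vol, Measure.real]
  have bu : BH Ω u u1 u2 := fst_bh A hS hu hu.m0 hwu
  have bw : BH Ω w w1 w2 := fst_bh A hS hw hχ hww
  have hJ : JJ (fun _ => 0) w w1 w2 = tors Ω := by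
    unfold JJ
    simp only [zero_mul, integral_zero, sub_zero]
    rw [hwi, hwE]
    ring
  have hle : ∀ᵐ x, u x ^ 2 ≤ q / tors Ω * w x ^ 2 :=
    fst_ae (int_sq hu.m0) (int_sq hw.m0) _ fun b R hb h01 hR =>
      hB q Ω u u1 u2 w w1 w2 b R hq hΩ hl hu hu0 hu1 huE bw hJ hb h01 hR
  set T := tors Ω with hTdef
  have hq0 : 0 < q := by linarith
  set a := √(T / q) with ha
  have ha0 : 0 < a := Real.sqrt_pos.mpr (div_pos hT0 hq0)
  have ha2 : a ^ 2 = T / q := Real.sq_sqrt (div_pos hT0 hq0).le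
  have hTq : T / q ≤ T := div_le_self hT0.le hq.le
  have hW : ∫ x, w x ^ 2 ≤ T := by
    have := hray w w1 w2 hw
    rwa [hwE] at this
  have hU : ∫ x, (a * u x) ^ 2 = T / q := by rw [fst_scale_sq, hu1, ha2, mul_one]
  have hwint : Integrable w := A.h_int hw hm hfin
  have iu : Integrable fun x => (a * u x) ^ 2 := int_sq (hu.m0.const_mul a)
  have hI : ∀ c d : ℝ, Integrable (fun x => c * Ω.indicator (fun _ => (1 : ℝ)) x - 2 * c * w x +
      (c + d) * w x ^ 2 - d * (a * u x) ^ 2) ∧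
      ∫ x, (c * Ω.indicator (fun _ => (1 : ℝ)) x - 2 * c * w x +
        (c + d) * w x ^ 2 - d * (a * u x) ^ 2) =
        c * vol Ω - 2 * c * T + (c + d) * (∫ x, w x ^ 2) - d * (T / q) := by
    intro c d
    have i1 := hχi.const_mul c
    have i2 := hwint.const_mul (2 * c)
    have i3 := (int_sq hw.m0).const_mul (c + d)
    have i4 := iu.const_mul d
    have i12 : Integrable fun x => c * Ω.indicator (fun _ => (1 : ℝ)) x - 2 * c * w x := i1.sub i2
    have i123 : Integrable fun x => c * Ω.indicator (fun _ => (1 : ℝ)) x - 2 * c * w x +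
      (c + d) * w x ^ 2 := i12.add i3
    refine ⟨i123.sub i4, ?_⟩
    rw [integral_sub i123 i4, integral_add i12 i3, integral_sub i1 i2,
      integral_const_mul, integral_const_mul, integral_const_mul, integral_const_mul, hχv, hwi,
      hU]
  have hle' : ∀ᵐ x, (a * u x) ^ 2 ≤ w x ^ 2 := by
    filter_upwards [hle] with x hx
    rw [mul_pow, ha2]
    calc T / q * u x ^ 2 ≤ T / q * (q / T * w x ^ 2) :=
          mul_le_mul_of_nonneg_left hx (div_pos hT0 hq0).le
      _ = w x ^ 2 := by field_simp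
  have k1 : ∫ x, (w x - a * u x) ^ 2 ≤
      8 * vol Ω - 2 * 8 * T + (8 + 2) * (∫ x, w x ^ 2) - 2 * (T / q) := by
    rw [← (hI 8 2).2]
    refine integral_mono_of_nonneg (Eventually.of_forall fun x => sq_nonneg _) (hI 8 2).1 ?_
    filter_upwards [hle', hu0, A.h_zero hu, A.h_zero hw] with x h1 h2 h3 h4
    by_cases hx : x ∈ Ω
    · have := fst_pt (mul_nonneg ha0.le h2) h1
      simp only [indicator_of_mem hx]
      nlinarith
    · simp [indicator_of_notMem hx, (h3 hx).1, (h4 hx).1]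
  have k2 : ∫ x in Ω, (1 - a * u x) ^ 2 ≤
      18 * vol Ω - 2 * 18 * T + (18 + 4) * (∫ x, w x ^ 2) - 4 * (T / q) := by
    rw [← (hI 18 4).2, ← integral_indicator hm]
    refine integral_mono_of_nonneg
      (Eventually.of_forall fun x => indicator_nonneg (fun y _ => sq_nonneg _) x) (hI 18 4).1 ?_
    filter_upwards [hle', hu0, A.h_zero hu, A.h_zero hw] with x h1 h2 h3 h4
    by_cases hx : x ∈ Ω
    · have := fst_pt (mul_nonneg ha0.le h2) h1
      simp only [indicator_of_mem hx]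
      nlinarith [sq_nonneg (1 - 2 * w x + a * u x)]
    · simp [indicator_of_notMem hx, (h3 hx).1, (h4 hx).1]
  refine ⟨fun x => a * u x, fun x => a * u1 x, fun x => a * u2 x, w, w1, w2, A.b_smul a bu, bw,
    ?_, ?_, ?_, hww, hwi, hwE, ?_, ?_⟩
  · filter_upwards [hu0] with x hx
    exact mul_nonneg ha0.le hx
  · filter_upwards [hpos] with x hx hxΩ
    exact mul_pos ha0 (hx hxΩ)
  · intro φ hφ
    have h1 := hwu φ hφ
    have e1 : (fun x => a * u1 x * d1 φ x + a * u2 x * d2 φ x) =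
        fun x => a * (u1 x * d1 φ x + u2 x * d2 φ x) := by
      ext x
      ring
    have e2 : (fun x => a * u x * φ x) = fun x => a * (u x * φ x) := by
      ext x
      ring
    rw [e1, e2, integral_const_mul, integral_const_mul, h1]
  · rw [fst_scale_sq2, huE, ha2]
    linarith
  · have h1 : T - T / q ≤ (q - 1) * vol Ω := by
      have e : T - T / q = (q - 1) * (T / q) := by field_simp
      rw [e]
      exact mul_le_mul_of_nonneg_left (hTq.trans hTv) (by linarith)
    linarith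

end Pool.Agent.H92Z.Fq
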