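import Pool.Agent.H92Z.Fq.Stm

open MeasureTheory Set Filter Metric
open scoped Topology

namespace Pool.Agent.H92Z.Fq

theorem fun_glue {f g f' g' : ℝ → ℝ} {c : ℝ} (hf : ∀ s, s ≤ c → HasDerivAt f (f' s) s)
    (hg : ∀ s, c ≤ s → HasDerivAt g (g' s) s) (h0 : f c = g c) (h1 : f' c = g' c) (s : ℝ) :
    HasDerivAt (fun s => if s ≤ c then f s else g s) (if s ≤ c then f' s else g' s) s := by
  rcases lt_trichotomy s c with h | h | h
  · rw [if_pos h.le]
    refine (hf s h.le).congr_of_eventuallyEq ?_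
    filter_upwards [Iio_mem_nhds h] with y hy
    rw [if_pos (le_of_lt hy)]
  · subst h
    rw [if_pos le_rfl, ← hasDerivWithinAt_univ, ← Iic_union_Ici (a := s)]
    refine HasDerivWithinAt.union ?_ ?_
    · exact (hf s le_rfl).hasDerivWithinAt.congr (fun y hy => if_pos hy) (if_pos le_rfl)
    · rw [h1]
      refine (hg s le_rfl).hasDerivWithinAt.congr (fun y hy => ?_) (by rw [if_pos le_rfl, h0])
      split_ifs with h2
      · rw [le_antisymm h2 hy, h0]
      · rfl
  · rw [if_neg (not_le.2 h)]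
    refine (hg s h.le).congr_of_eventuallyEq ?_
    filter_upwards [Ioi_mem_nhds h] with y hy
    rw [if_neg (not_le.2 hy)]

theorem fun_p1 (c s : ℝ) : HasDerivAt (fun s => max (s - c) 0 ^ 2 / 2) (max (s - c) 0) s := by
  have h := fun_glue (f := fun _ => 0) (f' := fun _ => 0) (g := fun s => (s - c) ^ 2 / 2)
    (g' := fun s => s - c) (c := c) (fun s _ => hasDerivAt_const s 0)
    (fun s _ => by
      have := (((hasDerivAt_id s).sub_const c).fun_pow 2).div_const 2
      simpa using this) (by simp) (by simp) s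
  convert h using 1
  · funext y
    split_ifs with h1
    · rw [max_eq_right (by linarith)]; simp
    · rw [max_eq_left (by linarith)]
  · split_ifs with h1
    · rw [max_eq_right (by linarith)]
    · rw [max_eq_left (by linarith)]

theorem fun_p2 (c s : ℝ) :
    HasDerivAt (fun s => max (s - c) 0 ^ 3 / 6) (max (s - c) 0 ^ 2 / 2) s := by
  have h := fun_glue (f := fun _ => 0) (f' := fun _ => 0) (g := fun s => (s - c) ^ 3 / 6)
    (g' := fun s => (s - c) ^ 2 / 2) (c := c) (fun s _ => hasDerivAt_const s 0)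
    (fun s _ => by
      have := (((hasDerivAt_id s).sub_const c).fun_pow 3).div_const 6
      refine this.congr_deriv ?_
      simp only [id]; norm_num; ring) (by simp) (by simp) s
  convert h using 1
  · funext y
    split_ifs with h1
    · rw [max_eq_right (by linarith)]; simp
    · rw [max_eq_left (by linarith)]
  · split_ifs with h1
    · rw [max_eq_right (by linarith)]; simp
    · rw [max_eq_left (by linarith)]

theorem api_trunc : ∀ L : ℝ, ∃ T T' : ℝ → ℝ, (∀ s, HasDerivAt T (T' s) s) ∧ Continuous T' ∧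
    (∀ s, 0 ≤ T' s ∧ T' s ≤ 1) ∧ (∀ s, |s| ≤ L → T s = s ∧ T' s = 1) ∧ (∀ s, |T s| ≤ |s|) ∧
    ∃ M, ∀ s, |T s| ≤ M := by
  intro L
  obtain ⟨l, hl0, hl⟩ : ∃ l : ℝ, 0 ≤ l ∧ L ≤ l := ⟨|L|, abs_nonneg L, le_abs_self L⟩
  let T : ℝ → ℝ := fun s => max (s - (-l - 1)) 0 ^ 2 / 2 - max (s - (-l)) 0 ^ 2 / 2 -
    max (s - l) 0 ^ 2 / 2 + max (s - (l + 1)) 0 ^ 2 / 2 - (l + 1 / 2)
  let T' : ℝ → ℝ := fun s => max (s - (-l - 1)) 0 - max (s - (-l)) 0 -
    max (s - l) 0 + max (s - (l + 1)) 0
  have key : ∀ s, (0 ≤ T' s ∧ T' s ≤ 1) ∧ (|s| ≤ l → T s = s ∧ T' s = 1) ∧ |T s| ≤ |s| ∧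
      |T s| ≤ l + 1 := by
    intro s
    simp only [T, T']
    rcases le_total s (-l - 1) with h1 | h1
    · rw [max_eq_right (by linarith), max_eq_right (by linarith), max_eq_right (by linarith),
        max_eq_right (by linarith), abs_of_nonpos (a := s) (by linarith)]
      refine ⟨by norm_num, fun h => by linarith, abs_le.2 ⟨by linarith, by linarith⟩,
        abs_le.2 ⟨by linarith, by linarith⟩⟩
    rcases le_total s (-l) with h2 | h2
    · rw [max_eq_left (by linarith), max_eq_right (by linarith), max_eq_right (by linarith),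
        max_eq_right (by linarith), abs_of_nonpos (a := s) (by linarith)]
      refine ⟨⟨by linarith, by linarith⟩, fun h => ?_, abs_le.2 ⟨by nlinarith, by nlinarith⟩,
        abs_le.2 ⟨by nlinarith, by nlinarith⟩⟩
      obtain rfl : s = -l := by linarith
      constructor <;> ring
    rcases le_total s l with h3 | h3
    · rw [max_eq_left (by linarith), max_eq_left (by linarith), max_eq_right (by linarith),
        max_eq_right (by linarith)]
      have e : (s - (-l - 1)) ^ 2 / 2 - (s - -l) ^ 2 / 2 - 0 ^ 2 / 2 + 0 ^ 2 / 2 - (l + 1 / 2) = s := by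
        ring
      rw [e]
      exact ⟨⟨by linarith, by linarith⟩, fun _ => ⟨rfl, by ring⟩, le_rfl,
        abs_le.2 ⟨by linarith, by linarith⟩⟩
    rcases le_total s (l + 1) with h4 | h4
    · rw [max_eq_left (by linarith), max_eq_left (by linarith), max_eq_left (by linarith),
        max_eq_right (by linarith), abs_of_nonneg (a := s) (by linarith)]
      refine ⟨⟨by linarith, by linarith⟩, fun h => ?_, abs_le.2 ⟨by nlinarith, by nlinarith⟩,
        abs_le.2 ⟨by nlinarith, by nlinarith⟩⟩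
      obtain rfl : s = l := by linarith
      constructor <;> ring
    · rw [max_eq_left (by linarith), max_eq_left (by linarith), max_eq_left (by linarith),
        max_eq_left (by linarith), abs_of_nonneg (a := s) (by linarith)]
      refine ⟨⟨by linarith, by linarith⟩, fun h => by linarith,
        abs_le.2 ⟨by nlinarith, by nlinarith⟩, abs_le.2 ⟨by nlinarith, by nlinarith⟩⟩
  refine ⟨T, T', fun s => ?_, by fun_prop, fun s => (key s).1, fun s hs => (key s).2.1 (hs.trans hl),
    fun s => (key s).2.2.1, l + 1, fun s => (key s).2.2.2⟩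
  exact ((((fun_p1 _ s).fun_sub (fun_p1 _ s)).fun_sub (fun_p1 _ s)).fun_add (fun_p1 _ s)).sub_const _

theorem api_recip : ∃ B B' : ℝ → ℝ, (∀ s, HasDerivAt B (B' s) s) ∧ Continuous B' ∧
    (∀ s, 1 ≤ s → B s = 1 / s ∧ B' s = -1 / s ^ 2) ∧ (∀ s, s ≤ 1 → B s = 2 - s ∧ B' s = -1) := by
  refine ⟨fun s => if s ≤ 1 then 2 - s else 1 / s, fun s => if s ≤ 1 then -1 else -1 / s ^ 2,
    fun s => fun_glue (f := fun s => 2 - s) (f' := fun _ => -1) (g := fun s => 1 / s)
      (g' := fun s => -1 / s ^ 2) (fun s _ => ?_) (fun s hs => ?_) (by norm_num) (by norm_num) s,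
    ?_, fun s hs => ?_, fun s hs => ⟨if_pos hs, if_pos hs⟩⟩
  · simpa using (hasDerivAt_id s).const_sub 2
  · have := hasDerivAt_inv (x := s) (by linarith)
    simpa [neg_div] using this
  · have : (fun s : ℝ => if s ≤ 1 then -1 else -1 / s ^ 2) = fun s => -1 / max s 1 ^ 2 := by
      funext s
      split_ifs with h
      · rw [max_eq_right h]; norm_num
      · rw [max_eq_left (by linarith)]
    rw [this]
    refine continuous_const.div (by fun_prop) (fun s => ?_)
    have := le_max_right s 1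
    positivity
  · beta_reduce
    split_ifs with h
    · obtain rfl : s = 1 := le_antisymm h hs
      norm_num
    · exact ⟨rfl, rfl⟩

theorem hfun : HFUN := by
  intro τ0 τ h0 h1
  obtain ⟨h, hh, rfl⟩ : ∃ h : ℝ, 0 < h ∧ τ = τ0 + 2 * h := ⟨(τ - τ0) / 2, by linarith, by ring⟩
  let H2 : ℝ → ℝ := fun s =>
    (max (s - τ0) 0 - 2 * max (s - (τ0 + h)) 0 + max (s - (τ0 + 2 * h)) 0) / h ^ 2
  let H1 : ℝ → ℝ := fun s => (max (s - τ0) 0 ^ 2 / 2 - 2 * (max (s - (τ0 + h)) 0 ^ 2 / 2) +
    max (s - (τ0 + 2 * h)) 0 ^ 2 / 2) / h ^ 2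
  let H : ℝ → ℝ := fun s => τ0 + h + (max (s - τ0) 0 ^ 3 / 6 - 2 * (max (s - (τ0 + h)) 0 ^ 3 / 6) +
    max (s - (τ0 + 2 * h)) 0 ^ 3 / 6) / h ^ 2
  have cA : ∀ s, s ≤ τ0 → H s = τ0 + h ∧ H1 s = 0 ∧ H2 s = 0 := by
    intro s hs
    simp only [H, H1, H2]
    rw [max_eq_right (by linarith), max_eq_right (by linarith), max_eq_right (by linarith)]
    simp
  have cB : ∀ t, 0 ≤ t → t ≤ 1 → H (τ0 + h * t) = τ0 + h + h * t ^ 3 / 6 ∧
      H1 (τ0 + h * t) = t ^ 2 / 2 ∧ H2 (τ0 + h * t) = t / h := by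
    intro t ht ht1
    simp only [H, H1, H2]
    rw [max_eq_left (by nlinarith), max_eq_right (by nlinarith), max_eq_right (by nlinarith)]
    refine ⟨?_, ?_, ?_⟩ <;> field_simp <;> ring
  have cC : ∀ t, 0 ≤ t → t ≤ 1 → H (τ0 + 2 * h - h * t) = τ0 + 2 * h - h * t + h * t ^ 3 / 6 ∧
      H1 (τ0 + 2 * h - h * t) = 1 - t ^ 2 / 2 ∧ H2 (τ0 + 2 * h - h * t) = t / h := by
    intro t ht ht1
    simp only [H, H1, H2]
    rw [max_eq_left (by nlinarith), max_eq_left (by nlinarith), max_eq_right (by nlinarith)]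
    refine ⟨?_, ?_, ?_⟩ <;> field_simp <;> ring
  have cD : ∀ s, τ0 + 2 * h ≤ s → H s = s ∧ H1 s = 1 ∧ H2 s = 0 := by
    intro s hs
    simp only [H, H1, H2]
    rw [max_eq_left (by linarith), max_eq_left (by linarith), max_eq_left (by linarith)]
    refine ⟨?_, ?_, ?_⟩ <;> field_simp <;> ring
  have hH0 : H 0 = τ0 + h := (cA 0 h0.le).1
  have key : ∀ s, 0 ≤ H2 s ∧ (0 ≤ H1 s ∧ H1 s ≤ 1) ∧ (s < τ0 + 2 * h → s < H s) ∧
      (s ≤ τ0 + 2 * h → H s ≤ τ0 + 2 * h) ∧ τ0 + h ≤ H s ∧
      (0 ≤ s → 0 ≤ H s - s * H1 s ∧ H s - s * H1 s ≤ τ0 + h) := by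
    intro s
    rcases le_total s τ0 with c1 | c1
    · obtain ⟨e0, e1, e2⟩ := cA s c1
      rw [e0, e1, e2]
      exact ⟨le_rfl, ⟨le_rfl, zero_le_one⟩, fun _ => by linarith, fun _ => by linarith, le_rfl,
        fun _ => ⟨by linarith, by linarith⟩⟩
    rcases le_total s (τ0 + h) with c2 | c2
    · obtain ⟨t, ht, ht1, rfl⟩ : ∃ t, 0 ≤ t ∧ t ≤ 1 ∧ s = τ0 + h * t :=
        ⟨(s - τ0) / h, div_nonneg (by linarith) hh.le, (div_le_one hh).2 (by linarith),
          by field_simp; ring⟩
      obtain ⟨e0, e1, e2⟩ := cB t ht ht1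
      rw [e0, e1, e2]
      have t2 : t ^ 2 ≤ 1 := by nlinarith
      have t3 : t ^ 3 ≤ 1 := by nlinarith
      have a3 : 0 ≤ h * t ^ 3 := by positivity
      have a4 : h * t ^ 3 ≤ h := by nlinarith
      have a5 : h * t ≤ h := by nlinarith
      have a6 : 0 ≤ τ0 * t ^ 2 := by positivity
      have a7 : τ0 * t ^ 2 ≤ τ0 := by nlinarith
      refine ⟨by positivity, ⟨by positivity, by linarith⟩, fun _ => ?_, fun _ => by linarith,
        by linarith, fun _ => ⟨by nlinarith, by nlinarith⟩⟩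
      rcases eq_or_lt_of_le ht1 with rfl | ht2
      · linarith
      · nlinarith
    rcases le_total s (τ0 + 2 * h) with c3 | c3
    · obtain ⟨t, ht, ht1, rfl⟩ : ∃ t, 0 ≤ t ∧ t ≤ 1 ∧ s = τ0 + 2 * h - h * t :=
        ⟨(τ0 + 2 * h - s) / h, div_nonneg (by linarith) hh.le, (div_le_one hh).2 (by linarith),
          by field_simp; ring⟩
      obtain ⟨e0, e1, e2⟩ := cC t ht ht1
      rw [e0, e1, e2]
      have t2 : t ^ 2 ≤ 1 := by nlinarith
      have t3 : t ^ 3 ≤ t := by nlinarith
      have a3 : 0 ≤ h * t ^ 3 := by positivity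
      have a4 : h * t ^ 3 ≤ h * t := by nlinarith
      have a5 : h * t ≤ h := by nlinarith
      have a6 : 0 ≤ τ0 * t ^ 2 := by positivity
      have a7 : τ0 * t ^ 2 ≤ τ0 := by nlinarith
      have a8 : h * t ^ 2 ≤ h := by nlinarith
      have a9 : h * t ^ 3 ≤ h * t ^ 2 := by
        have : t ^ 3 ≤ t ^ 2 := by nlinarith
        nlinarith
      refine ⟨by positivity, ⟨by linarith, by nlinarith⟩, fun h5 => ?_, fun _ => by linarith,
        by linarith, fun _ => ⟨by nlinarith, by nlinarith⟩⟩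
      have : 0 < t := by
        rcases eq_or_lt_of_le ht with rfl | h6
        · linarith
        · exact h6
      have : 0 < h * t ^ 3 := by positivity
      linarith
    · obtain ⟨e0, e1, e2⟩ := cD s c3
      rw [e0, e1, e2]
      exact ⟨le_rfl, ⟨zero_le_one, le_rfl⟩, fun _ => by linarith, fun _ => by linarith,
        by linarith, fun _ => ⟨by linarith, by linarith⟩⟩
  refine ⟨H, H1, H2, fun s => ?_, fun s => ?_, by fun_prop, fun s => (key s).1,
    fun s => (key s).2.1, fun s hs => by rw [hH0]; exact cA s hs, cD, fun s => (key s).2.2.1,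
    fun s => (key s).2.2.2.1, fun s => by rw [hH0]; exact (key s).2.2.2.2.1,
    fun s => by rw [hH0]; exact (key s).2.2.2.2.2⟩
  · exact ((((fun_p2 _ s).fun_sub ((fun_p2 _ s).const_mul 2)).fun_add
      (fun_p2 _ s)).div_const _).const_add _
  · exact (((fun_p1 _ s).fun_sub ((fun_p1 _ s).const_mul 2)).fun_add (fun_p1 _ s)).div_const _

theorem fun_step : ∃ K : ℝ, 0 < K ∧ ∀ t, |deriv Real.smoothTransition t| ≤ K := by
  have hc : Continuous (deriv Real.smoothTransition) :=
    (Real.smoothTransition.contDiff (n := 1)).continuous_deriv (by simp)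
  obtain ⟨K, hK⟩ := isCompact_Icc.exists_bound_of_continuousOn (s := Icc (0 : ℝ) 1) hc.continuousOn
  refine ⟨|K| + 1, by positivity, fun t => ?_⟩
  have hp : (0 : ℝ) ≤ |K| + 1 := by positivity
  rcases lt_or_ge t 0 with h | h
  · have : Real.smoothTransition =ᶠ[𝓝 t] fun _ => 0 := by
      filter_upwards [Iio_mem_nhds h] with y hy
      exact Real.smoothTransition.zero_of_nonpos (le_of_lt hy)
    rw [this.deriv_eq]; simpa using hp
  rcases lt_or_ge 1 t with h1 | h1
  · have : Real.smoothTransition =ᶠ[𝓝 t] fun _ => 1 := by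
      filter_upwards [Ioi_mem_nhds h1] with y hy
      exact Real.smoothTransition.one_of_one_le (le_of_lt hy)
    rw [this.deriv_eq]; simpa using hp
  · have := hK t ⟨h, h1⟩
    rw [Real.norm_eq_abs] at this
    linarith [le_abs_self K]

theorem fun_bump : ∃ K : ℝ, 0 < K ∧ ∀ a d : ℝ, 0 < d → ∃ h h' : ℝ → ℝ, ContDiff ℝ 1 h ∧
    (∀ t, HasDerivAt h (h' t) t) ∧ (∀ t, 0 ≤ h t ∧ h t ≤ 1) ∧ (∀ t, |t| ≤ a → h t = 1) ∧
    (∀ t, a + d ≤ |t| → h t = 0) ∧ ∀ t, |h' t| ≤ K / d := by
  obtain ⟨K, hK0, hK⟩ := fun_step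
  refine ⟨2 * K, by positivity, fun a d hd => ?_⟩
  set S := Real.smoothTransition
  have hS : ContDiff ℝ 1 S := Real.smoothTransition.contDiff (n := 1)
  have hD : ∀ t, HasDerivAt S (deriv S t) t := fun t =>
    (hS.differentiable (by simp) t).hasDerivAt
  refine ⟨fun t => S ((a + d - t) / d) * S ((a + d + t) / d),
    fun t => deriv S ((a + d - t) / d) * (-1 / d) * S ((a + d + t) / d) +
      S ((a + d - t) / d) * (deriv S ((a + d + t) / d) * (1 / d)), ?_, fun t => ?_,
    fun t => ⟨mul_nonneg (Real.smoothTransition.nonneg _) (Real.smoothTransition.nonneg _),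
      mul_le_one₀ (Real.smoothTransition.le_one _) (Real.smoothTransition.nonneg _)
        (Real.smoothTransition.le_one _)⟩, fun t ht => ?_, fun t ht => ?_, fun t => ?_⟩
  · exact (hS.comp (by fun_prop)).mul (hS.comp (by fun_prop))
  · exact ((hD _).comp t (((hasDerivAt_id t).const_sub (a + d)).div_const d)).fun_mul
      ((hD _).comp t (((hasDerivAt_id t).const_add (a + d)).div_const d))
  · have := abs_le.1 ht
    simp only [S]
    rw [Real.smoothTransition.one_of_one_le ((one_le_div hd).2 (by linarith)),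
      Real.smoothTransition.one_of_one_le ((one_le_div hd).2 (by linarith)), one_mul]
  · simp only [S]
    rcases le_abs.1 ht with h | h
    · rw [Real.smoothTransition.zero_of_nonpos (div_nonpos_of_nonpos_of_nonneg (by linarith) hd.le),
        zero_mul]
    · rw [Real.smoothTransition.zero_of_nonpos (x := (a + d + t) / d)
        (div_nonpos_of_nonpos_of_nonneg (by linarith) hd.le), mul_zero]
  · have b1 : ∀ y, |S y| ≤ 1 := fun y => by
      rw [abs_of_nonneg (Real.smoothTransition.nonneg _)]; exact Real.smoothTransition.le_one _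
    have b2 : ∀ y, |deriv S y| * (1 / d) ≤ K / d := fun y => by
      rw [mul_one_div]; exact div_le_div_of_nonneg_right (hK y) hd.le
    have b3 : 0 ≤ K / d := by positivity
    refine (abs_add_le _ _).trans ?_
    rw [abs_mul, abs_mul, abs_mul, abs_mul, neg_div, abs_neg, abs_of_pos (one_div_pos.2 hd)]
    have c1 := mul_le_mul (b2 ((a + d - t) / d)) (b1 ((a + d + t) / d)) (abs_nonneg _) b3
    have c2 := mul_le_mul (b1 ((a + d - t) / d)) (b2 ((a + d + t) / d)) (by positivity) zero_le_one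
    rw [mul_div_assoc]
    linarith

theorem cutoff : CUTOFF := by
  obtain ⟨K, hK, hb⟩ := fun_bump
  refine ⟨2 * K, by positivity, fun x0 a b ha hab => ?_⟩
  obtain ⟨h, h', hc, hd, h01, h1, h0, hB⟩ := hb a ((b - a) / 2) (by linarith)
  have hB' : ∀ t, |h' t| ≤ 2 * K / (b - a) := fun t => by
    have := hB t
    rwa [div_div_eq_mul_div, mul_comm] at this
  have hs : tsupport (fun x : P => h (x.1 - x0.1) * h (x.2 - x0.2)) ⊆
      closedBall x0 (a + (b - a) / 2) := by
    refine closure_minimal (fun x hx => ?_) isClosed_closedBall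
    rw [mem_closedBall, Prod.dist_eq, Real.dist_eq, Real.dist_eq]
    refine max_le ?_ ?_ <;> by_contra hcon <;> exact hx (by simp [h0 _ (not_le.1 hcon).le])
  have c1 : ContDiff ℝ 1 (fun x : P => h (x.1 - x0.1)) := hc.comp (by fun_prop)
  have c2 : ContDiff ℝ 1 (fun x : P => h (x.2 - x0.2)) := hc.comp (by fun_prop)
  have habs : ∀ t, |h t| ≤ 1 := fun t => by rw [abs_of_nonneg (h01 t).1]; exact (h01 t).2
  refine ⟨fun x => h (x.1 - x0.1) * h (x.2 - x0.2), ⟨c1.mul c2,
    (isCompact_closedBall _ _).of_isClosed_subset (isClosed_tsupport _) hs,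
    hs.trans (closedBall_subset_ball (by linarith))⟩,
    fun x => ⟨mul_nonneg (h01 _).1 (h01 _).1, mul_le_one₀ (h01 _).2 (h01 _).1 (h01 _).2⟩,
    fun x hx => ?_, fun x => ?_⟩
  · rw [mem_closedBall, Prod.dist_eq, Real.dist_eq, Real.dist_eq, max_le_iff] at hx
    beta_reduce
    rw [h1 _ hx.1, h1 _ hx.2, one_mul]
  · have e1 : ∀ t c, HasDerivAt (fun s => h (s - c)) (h' (t - c)) t := fun t c =>
      ((hd (t - c)).comp t ((hasDerivAt_id t).sub_const c)).congr_deriv (mul_one _)
    have hp : 0 ≤ 2 * K / (b - a) := (abs_nonneg _).trans (hB' 0)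
    rw [d1_mul (c1.differentiable (by simp) x) (c2.differentiable (by simp) x),
      d2_mul (c1.differentiable (by simp) x) (c2.differentiable (by simp) x),
      d1_comp (u := fun x : P => x.1) (by fun_prop) (e1 x.1 x0.1),
      d1_comp (u := fun x : P => x.2) (by fun_prop) (e1 x.2 x0.2),
      d2_comp (u := fun x : P => x.1) (by fun_prop) (e1 x.1 x0.1),
      d2_comp (u := fun x : P => x.2) (by fun_prop) (e1 x.2 x0.2), d1_fst, d1_snd, d2_fst, d2_snd]
    simp only [mul_one, mul_zero, zero_mul, add_zero, zero_add, abs_mul]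
    constructor
    · simpa using mul_le_mul (hB' _) (habs _) (abs_nonneg _) hp
    · simpa using mul_le_mul (habs _) (hB' _) (abs_nonneg _) zero_le_one

end Pool.Agent.H92Z.Fq
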