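import Pool.Agent.H92Z.Fq.Stm

open MeasureTheory Set Filter Metric
open scoped Topology

namespace Pool.Agent.H92Z.Fq

noncomputable def kernB (s : ℝ) : ℝ := if 1 ≤ s then 1 / s else 2 - s

noncomputable def kernB' (s : ℝ) : ℝ := -1 / (max s 1) ^ 2

theorem kern_B_hi {s : ℝ} (h : 1 ≤ s) : kernB s = 1 / s := by simp [kernB, h]

theorem kern_B_lo {s : ℝ} (h : s ≤ 1) : kernB s = 2 - s := by
  unfold kernB
  split_ifs with h1
  · have : s = 1 := le_antisymm h h1
    subst this; norm_num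
  · rfl

theorem kern_B'_hi {s : ℝ} (h : 1 ≤ s) : kernB' s = -1 / s ^ 2 := by
  simp [kernB', max_eq_left h]

theorem kern_B'_lo {s : ℝ} (h : s ≤ 1) : kernB' s = -1 := by
  simp [kernB', max_eq_right h]

theorem kern_B'_cont : Continuous kernB' := by
  unfold kernB'
  refine continuous_const.div (by fun_prop) fun s => ?_
  have : (1 : ℝ) ≤ max s 1 := le_max_right _ _
  positivity

theorem kern_inv_deriv {s : ℝ} (h : s ≠ 0) : HasDerivAt (fun t : ℝ => 1 / t) (-1 / s ^ 2) s := by
  have := hasDerivAt_inv h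
  have e : (-1 : ℝ) / s ^ 2 = -(s ^ 2)⁻¹ := by ring
  have e' : (fun t : ℝ => 1 / t) = fun t => t⁻¹ := by ext t; exact one_div t
  rw [e, e']
  exact this

theorem kern_lin_deriv (s : ℝ) : HasDerivAt (fun t : ℝ => 2 - t) (-1) s := by
  simpa using (hasDerivAt_id s).const_sub 2

theorem kern_B_deriv (s : ℝ) : HasDerivAt kernB (kernB' s) s := by
  rcases lt_trichotomy s 1 with h | h | h
  · rw [kern_B'_lo h.le]
    refine (kern_lin_deriv s).congr_of_eventuallyEq ?_
    filter_upwards [Iio_mem_nhds h] with t ht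
    exact kern_B_lo (le_of_lt ht)
  · subst h
    rw [kern_B'_lo le_rfl]
    have h1 : HasDerivWithinAt kernB (-1) (Iic 1) 1 :=
      (kern_lin_deriv 1).hasDerivWithinAt.congr (fun t ht => kern_B_lo ht) (kern_B_lo le_rfl)
    have h2 : HasDerivWithinAt kernB (-1) (Ici 1) 1 := by
      have := (kern_inv_deriv (s := 1) one_ne_zero).hasDerivWithinAt (s := Ici 1)
      have e : (-1 : ℝ) / 1 ^ 2 = -1 := by norm_num
      rw [e] at this
      exact this.congr (fun t ht => kern_B_hi ht) (kern_B_hi le_rfl)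
    have := h1.union h2
    rwa [Iic_union_Ici, hasDerivWithinAt_univ] at this
  · rw [kern_B'_hi h.le]
    refine (kern_inv_deriv (by linarith)).congr_of_eventuallyEq ?_
    filter_upwards [Ioi_mem_nhds h] with t ht
    exact kern_B_hi (le_of_lt ht)

theorem kern_B_id (s : ℝ) : kernB s + s * kernB' s = 2 * max (1 - s) 0 := by
  rcases le_total s 1 with h | h
  · rw [kern_B_lo h, kern_B'_lo h, max_eq_left (by linarith)]; ring
  · rw [kern_B_hi h, kern_B'_hi h, max_eq_right (by linarith)]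
    have : s ≠ 0 := by linarith
    field_simp; ring

noncomputable def kernA (s : ℝ) : ℝ := 4 * kernB (4 * s) - kernB s

noncomputable def kernA' (s : ℝ) : ℝ := 16 * kernB' (4 * s) - kernB' s

theorem kern_A_deriv (s : ℝ) : HasDerivAt kernA (kernA' s) s := by
  have h1 : HasDerivAt (fun t : ℝ => kernB (4 * t)) (kernB' (4 * s) * 4) s := by
    have h4 : HasDerivAt (fun t : ℝ => 4 * t) 4 s := by
      simpa using (hasDerivAt_id s).const_mul 4
    exact (kern_B_deriv (4 * s)).comp s h4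
  have := (h1.const_mul 4).sub (kern_B_deriv s)
  have e : kernA' s = 4 * (kernB' (4 * s) * 4) - kernB' s := by unfold kernA'; ring
  rw [e]
  exact this

theorem kern_A'_cont : Continuous kernA' := by
  unfold kernA'
  have := kern_B'_cont
  fun_prop

theorem kern_A_c1 : ContDiff ℝ 1 kernA := contDiff_one_of_hasDerivAt kern_A_deriv kern_A'_cont

theorem kern_A_id (s : ℝ) :
    kernA s + s * kernA' s = 8 * max (1 - 4 * s) 0 - 2 * max (1 - s) 0 := by
  have h1 := kern_B_id s
  have h2 := kern_B_id (4 * s)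
  unfold kernA kernA'
  linarith

theorem kern_A_hi {s : ℝ} (h : 1 ≤ s) : kernA s = 0 := by
  unfold kernA
  rw [kern_B_hi h, kern_B_hi (by linarith)]
  have : s ≠ 0 := by linarith
  field_simp; ring

theorem kern_A_nn (s : ℝ) : 0 ≤ kernA s := by
  rcases le_total 1 s with h | h
  · rw [kern_A_hi h]
  · unfold kernA
    rw [kern_B_lo h]
    rcases le_total (4 * s) 1 with h' | h'
    · rw [kern_B_lo h']; linarith
    · rw [kern_B_hi h']
      have hs : 0 < s := by linarith
      have : 4 * (1 / (4 * s)) - (2 - s) = (1 - s) ^ 2 / s := by field_simp; ring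
      rw [this]; positivity

noncomputable def kernK (s : ℝ) : ℝ := - ∫ t in (1 : ℝ)..s, kernA t

theorem kern_K_deriv (s : ℝ) : HasDerivAt kernK (- kernA s) s := by
  have hc := kern_A_c1.continuous
  exact (intervalIntegral.integral_hasDerivAt_right (hc.intervalIntegrable _ _)
    (hc.stronglyMeasurableAtFilter _ _) hc.continuousAt).neg

theorem kern_K_hi {s : ℝ} (h : 1 ≤ s) : kernK s = 0 := by
  unfold kernK
  rw [intervalIntegral.integral_congr (g := fun _ => (0 : ℝ))]
  · simp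
  · intro t ht
    rw [uIcc_of_le h] at ht
    exact kern_A_hi ht.1

theorem kern_K_nn (s : ℝ) : 0 ≤ kernK s := by
  rcases le_total 1 s with h | h
  · rw [kern_K_hi h]
  · unfold kernK
    rw [← intervalIntegral.integral_symm]
    exact intervalIntegral.integral_nonneg h fun t _ => kern_A_nn t

theorem kern_K_c1 : ContDiff ℝ 1 kernK :=
  contDiff_one_of_hasDerivAt kern_K_deriv kern_A_c1.continuous.neg

def kernS (x : P) : ℝ := x.1 ^ 2 + x.2 ^ 2

theorem kern_S_c1 : ContDiff ℝ 1 kernS := by unfold kernS; fun_prop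

theorem kern_S_diff (x : P) : DifferentiableAt ℝ kernS x := kern_S_c1.differentiable (by simp) x

theorem kern_S_d1 (x : P) : d1 kernS x = 2 * x.1 := by
  have e : kernS = fun x : P => x.1 * x.1 + x.2 * x.2 := by ext x; unfold kernS; ring
  rw [e, d1_add (by fun_prop) (by fun_prop), d1_mul (by fun_prop) (by fun_prop),
    d1_mul (by fun_prop) (by fun_prop), d1_fst, d1_snd]
  ring

theorem kern_S_d2 (x : P) : d2 kernS x = 2 * x.2 := by
  have e : kernS = fun x : P => x.1 * x.1 + x.2 * x.2 := by ext x; unfold kernS; ring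
  rw [e, d2_add (by fun_prop) (by fun_prop), d2_mul (by fun_prop) (by fun_prop),
    d2_mul (by fun_prop) (by fun_prop), d2_fst, d2_snd]
  ring

theorem kern_S_ge {x : P} (h : 1 ≤ ‖x‖) : 1 ≤ kernS x := by
  unfold kernS
  rw [Prod.norm_def, Real.norm_eq_abs, Real.norm_eq_abs, le_max_iff] at h
  rcases h with h | h
  · nlinarith [sq_abs x.1, sq_nonneg x.2]
  · nlinarith [sq_abs x.2, sq_nonneg x.1]

theorem kern_S_lt {x : P} (h : ‖x‖ ≤ 1 / 2) : kernS x < 1 := by
  unfold kernS
  rw [Prod.norm_def, Real.norm_eq_abs, Real.norm_eq_abs, max_le_iff] at h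
  nlinarith [sq_abs x.1, sq_abs x.2, abs_nonneg x.1, abs_nonneg x.2, h.1, h.2]

theorem kern_S_two (x : P) : kernS ((2 : ℝ) • x) = 4 * kernS x := by
  unfold kernS; simp; ring

theorem kern_tsupp {f : P → ℝ} (h : ∀ x, 1 ≤ ‖x‖ → f x = 0) : tsupport f ⊆ closedBall 0 1 := by
  apply closure_minimal _ isClosed_closedBall
  intro x hx
  rw [mem_closedBall_zero_iff]
  by_contra hc
  exact hx (h x (le_of_lt (not_le.mp hc)))

theorem kern_cs {f : P → ℝ} (h : ∀ x, 1 ≤ ‖x‖ → f x = 0) : HasCompactSupport f :=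
  IsCompact.of_isClosed_subset (isCompact_closedBall (0 : P) 1) (isClosed_tsupport _)
    (kern_tsupp h)

theorem kernel : KERNEL := by
  set ψ0 : P → ℝ := fun x => max (1 - kernS x) 0 with hψ0
  have hc : Continuous ψ0 := by
    have := kern_S_c1.continuous
    rw [hψ0]; fun_prop
  have hnn : ∀ x, 0 ≤ ψ0 x := fun x => le_max_right _ _
  have hz : ∀ x, 1 ≤ ‖x‖ → ψ0 x = 0 := fun x hx =>
    max_eq_right (by linarith [kern_S_ge hx])
  have hpos : ∀ x, ‖x‖ ≤ 1 / 2 → 0 < ψ0 x := fun x hx =>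
    lt_max_of_lt_left (by linarith [kern_S_lt hx])
  have hI : 0 < ∫ x, ψ0 x := by
    refine hc.integral_pos_of_hasCompactSupport_nonneg_nonzero (x := 0) (kern_cs hz) hnn ?_
    exact (hpos 0 (by simp)).ne'
  set I := ∫ x, ψ0 x with hIdef
  set c : ℝ := (8 * I)⁻¹ with hcdef
  have hcpos : 0 < c := by positivity
  have hκ1 : ContDiff ℝ 1 (fun x => c * kernK (kernS x)) :=
    contDiff_const.mul (kern_K_c1.comp kern_S_c1)
  have hKd : ∀ x, DifferentiableAt ℝ (fun x => kernK (kernS x)) x := fun x =>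
    (kern_K_c1.comp kern_S_c1).differentiable (by simp) x
  have hAd : ∀ x, DifferentiableAt ℝ (fun x => kernA (kernS x)) x := fun x =>
    (kern_A_c1.comp kern_S_c1).differentiable (by simp) x
  have e1 : d1 (fun x => c * kernK (kernS x)) = fun x => (-2 * c) * (kernA (kernS x) * x.1) := by
    ext x
    rw [d1_const_mul _ (hKd x), d1_comp (kern_S_diff x) (kern_K_deriv _), kern_S_d1]; ring
  have e2 : d2 (fun x => c * kernK (kernS x)) = fun x => (-2 * c) * (kernA (kernS x) * x.2) := by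
    ext x
    rw [d2_const_mul _ (hKd x), d2_comp (kern_S_diff x) (kern_K_deriv _), kern_S_d2]; ring
  have hz' : ∀ x : P, 1 ≤ ‖x‖ → c * kernK (kernS x) = 0 := fun x hx => by
    rw [kern_K_hi (kern_S_ge hx), mul_zero]
  refine ⟨fun x => I⁻¹ * ψ0 x, fun x => c * kernK (kernS x), continuous_const.mul hc,
    fun x => mul_nonneg (by positivity) (hnn x), fun x hx => by simp only [hz x hx, mul_zero],
    fun x hx => mul_pos (by positivity) (hpos x hx), ?_, ⟨hκ1, kern_cs hz', kern_tsupp hz'⟩,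
    ?_, ?_, fun x => mul_nonneg hcpos.le (kern_K_nn _), fun x => ?_⟩
  · rw [integral_const_mul, ← hIdef]; exact inv_mul_cancel₀ hI.ne'
  · rw [e1]
    exact contDiff_const.mul ((kern_A_c1.comp kern_S_c1).mul contDiff_fst)
  · rw [e2]
    exact contDiff_const.mul ((kern_A_c1.comp kern_S_c1).mul contDiff_snd)
  · have g1 : DifferentiableAt ℝ (fun x : P => kernA (kernS x) * x.1) x :=
      (hAd x).mul differentiableAt_fst
    have g2 : DifferentiableAt ℝ (fun x : P => kernA (kernS x) * x.2) x :=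
      (hAd x).mul differentiableAt_snd
    rw [e1, e2, d1_const_mul _ g1, d2_const_mul _ g2,
      d1_mul (hAd x) differentiableAt_fst, d2_mul (hAd x) differentiableAt_snd,
      d1_comp (kern_S_diff x) (kern_A_deriv _), d2_comp (kern_S_diff x) (kern_A_deriv _),
      kern_S_d1, kern_S_d2, d1_fst, d2_snd]
    have hid := kern_A_id (kernS x)
    simp only [hψ0, kern_S_two]
    have hS : kernS x = x.1 ^ 2 + x.2 ^ 2 := rfl
    have hcI : I⁻¹ = 8 * c := by rw [hcdef]; field_simp
    rw [hcI]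
    have : -2 * c * (kernA' (kernS x) * (2 * x.1) * x.1 + kernA (kernS x) * 1) +
        -2 * c * (kernA' (kernS x) * (2 * x.2) * x.2 + kernA (kernS x) * 1) =
        -4 * c * (kernA (kernS x) + kernS x * kernA' (kernS x)) := by
      rw [show kernS x * kernA' (kernS x) = (x.1 ^ 2 + x.2 ^ 2) * kernA' (kernS x) from rfl]; ring
    rw [this, hid]; ring

theorem kern_scale_fderiv {g : P → ℝ} (hg : Differentiable ℝ g) (a : ℝ) (x0 x v : P) :
    fderiv ℝ (fun x => g (a • (x - x0))) x v = a * fderiv ℝ g (a • (x - x0)) v := by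
  have h1 : HasFDerivAt (fun x : P => a • (x - x0)) (a • ContinuousLinearMap.id ℝ P) x :=
    ((hasFDerivAt_id x).sub_const x0).const_smul a
  have h2 := ((hg (a • (x - x0))).hasFDerivAt.comp x h1).fderiv
  change fderiv ℝ (g ∘ fun x => a • (x - x0)) x v = _
  rw [h2]; simp

theorem kern_scale_d1 {g : P → ℝ} (hg : Differentiable ℝ g) (a : ℝ) (x0 : P) :
    d1 (fun x => g (a • (x - x0))) = fun x => a * d1 g (a • (x - x0)) := by
  ext x; exact kern_scale_fderiv hg a x0 x _

theorem kern_scale_d2 {g : P → ℝ} (hg : Differentiable ℝ g) (a : ℝ) (x0 : P) :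
    d2 (fun x => g (a • (x - x0))) = fun x => a * d2 g (a • (x - x0)) := by
  ext x; exact kern_scale_fderiv hg a x0 x _

theorem kern_scale_test {g : P → ℝ} (hg : ContDiff ℝ 1 g) (h0 : ∀ x, 1 / 2 < ‖x‖ → g x = 0)
    {r : ℝ} (hr : 0 < r) (x0 : P) : IsTest (ball x0 r) (fun x => g (r⁻¹ • (x - x0))) := by
  have hs : tsupport (fun x => g (r⁻¹ • (x - x0))) ⊆ closedBall x0 (r / 2) := by
    apply closure_minimal _ isClosed_closedBall
    intro x hx
    rw [mem_closedBall, dist_eq_norm]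
    by_contra hc
    apply hx
    apply h0
    rw [norm_smul, Real.norm_eq_abs, abs_of_pos (inv_pos.mpr hr), ← div_eq_inv_mul,
      lt_div_iff₀ hr]
    linarith [not_le.mp hc]
  refine ⟨hg.comp (by fun_prop), ?_, hs.trans (closedBall_subset_ball (by linarith))⟩
  exact IsCompact.of_isClosed_subset (isCompact_closedBall x0 (r / 2)) (isClosed_tsupport _) hs

theorem kern_bump : ∃ φ : P → ℝ, ContDiff ℝ 1 φ ∧ ContDiff ℝ 1 (d1 φ) ∧ ContDiff ℝ 1 (d2 φ) ∧
    (∀ x, 0 ≤ φ x) ∧ (∀ x, ‖x‖ ≤ 1 / 4 → φ x = 1) ∧ tsupport φ ⊆ closedBall 0 (1 / 2) := by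
  let f : ContDiffBump (0 : P) := ⟨1 / 4, 1 / 2, by norm_num, by norm_num⟩
  have h2 : ContDiff ℝ 2 f := f.contDiff
  have hf : ContDiff ℝ 1 (fderiv ℝ f) := h2.fderiv_right (by norm_num)
  refine ⟨f, f.contDiff, hf.clm_apply contDiff_const, hf.clm_apply contDiff_const,
    fun x => f.nonneg, fun x hx => f.one_of_mem_closedBall (mem_closedBall_zero_iff.mpr hx), ?_⟩
  rw [f.tsupport_eq]

theorem nondeg (A : API) : NONDEG := by
  obtain ⟨φ, hφ, hφ1, hφ2, hnn, hone, hsupp⟩ := kern_bump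
  have hout : ∀ x : P, 1 / 2 < ‖x‖ → x ∉ tsupport φ := fun x hx h => by
    have := mem_closedBall_zero_iff.mp (hsupp h); linarith
  have z0 : ∀ x : P, 1 / 2 < ‖x‖ → φ x = 0 := fun x hx =>
    image_eq_zero_of_notMem_tsupport (hout x hx)
  have z1 : ∀ x : P, 1 / 2 < ‖x‖ → d1 φ x = 0 := fun x hx => d1_zero_of_notMem (hout x hx)
  have z2 : ∀ x : P, 1 / 2 < ‖x‖ → d2 φ x = 0 := fun x hx => d2_zero_of_notMem (hout x hx)
  have t1 : IsTest univ (d1 φ) :=
    ⟨hφ1, kern_cs fun x hx => z1 x (by linarith), subset_univ _⟩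
  have t2 : IsTest univ (d2 φ) :=
    ⟨hφ2, kern_cs fun x hx => z2 x (by linarith), subset_univ _⟩
  obtain ⟨M1, hM1, b1⟩ := t1.bdd
  obtain ⟨M2, hM2, b2⟩ := t2.bdd
  refine ⟨1 / (16 * (M1 + M2)), by positivity, fun u u1 u2 x0 r hu hr hw hlow => ?_⟩
  have T0 := kern_scale_test hφ z0 hr x0
  have T1 := (kern_scale_test hφ1 z1 hr x0).const_mul r⁻¹
  have T2 := (kern_scale_test hφ2 z2 hr x0).const_mul r⁻¹
  have dφ : Differentiable ℝ φ := hφ.differentiable (by simp)
  rw [← kern_scale_d1 dφ] at T1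
  rw [← kern_scale_d2 dφ] at T2
  set ξ : P → ℝ := fun x => φ (r⁻¹ • (x - x0)) with hξ
  have B1 : ∀ x, |d1 (d1 ξ) x| ≤ r⁻¹ ^ 2 * M1 := fun x => by
    rw [hξ, kern_scale_d1 dφ, d1_const_mul _ ((kern_scale_test hφ1 z1 hr x0).diff x),
      kern_scale_d1 t1.diff]
    simp only [abs_mul, abs_of_pos (inv_pos.mpr hr)]
    have := (b1 (r⁻¹ • (x - x0))).2.1
    have h' : 0 < r⁻¹ := inv_pos.mpr hr
    calc r⁻¹ * (r⁻¹ * |d1 (d1 φ) (r⁻¹ • (x - x0))|) ≤ r⁻¹ * (r⁻¹ * M1) := by gcongr
      _ = _ := by ring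
  have B2 : ∀ x, |d2 (d2 ξ) x| ≤ r⁻¹ ^ 2 * M2 := fun x => by
    rw [hξ, kern_scale_d2 dφ, d2_const_mul _ ((kern_scale_test hφ2 z2 hr x0).diff x),
      kern_scale_d2 t2.diff]
    simp only [abs_mul, abs_of_pos (inv_pos.mpr hr)]
    have := (b2 (r⁻¹ • (x - x0))).2.2
    have h' : 0 < r⁻¹ := inv_pos.mpr hr
    calc r⁻¹ * (r⁻¹ * |d2 (d2 φ) (r⁻¹ • (x - x0))|) ≤ r⁻¹ * (r⁻¹ * M2) := by gcongr
      _ = _ := by ring
  set L : P → ℝ := fun x => d1 (d1 ξ) x + d2 (d2 ξ) x with hL
  have Lmem : MemLp L 2 (volume : Measure P) := T1.memLp_d1.add T2.memLp_d2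
  have Lint : Integrable L := T1.integrable_d1.add T2.integrable_d2
  have L0 : ∫ x, L x = 0 := by
    have h1 := ibp1 T1 (X := fun _ => (1 : ℝ)) contDiff_const
    have h2 := ibp2 T2 (X := fun _ => (1 : ℝ)) contDiff_const
    simp only [mul_one, d1_const, d2_const, mul_zero, integral_zero, neg_zero] at h1 h2
    rw [hL, integral_add T1.integrable_d1 T2.integrable_d2, h1, h2, add_zero]
  have W := hw ξ T0
  rw [integral_add (int_mul hu.m1 T1.memLp) (int_mul hu.m2 T2.memLp),
    A.h_ibp1 hu T1.toUniv, A.h_ibp2 hu T2.toUniv] at W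
  have E1 : ∫ x, u x * ξ x = ∫ x, (1 - u x) * L x := by
    have e : (fun x => (1 - u x) * L x) =
        fun x => L x - (u x * d1 (d1 ξ) x + u x * d2 (d2 ξ) x) := by
      ext x; simp only [hL]; ring
    have i12 : Integrable (fun x => u x * d1 (d1 ξ) x + u x * d2 (d2 ξ) x) :=
      (int_mul hu.m0 T1.memLp_d1).add (int_mul hu.m0 T2.memLp_d2)
    rw [e, integral_sub Lint i12,
      integral_add (int_mul hu.m0 T1.memLp_d1) (int_mul hu.m0 T2.memLp_d2), L0, ← W]
    ring
  have E2 : ∫ x, (1 - u x) * L x = ∫ x in ball x0 r, (1 - u x) * L x := by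
    refine (setIntegral_eq_integral_of_forall_compl_eq_zero fun x hx => ?_).symm
    simp only [hL, T1.d1_zero hx, T2.d2_zero hx, add_zero, mul_zero]
  have hfin : volume (ball x0 r) < ⊤ := measure_ball_lt_top
  haveI : IsFiniteMeasure ((volume : Measure P).restrict (ball x0 r)) :=
    ⟨by rw [Measure.restrict_apply_univ]; exact hfin⟩
  have m1 : MemLp (fun x => 1 - u x) 2 ((volume : Measure P).restrict (ball x0 r)) :=
    (memLp_const 1).sub (hu.m0.restrict _)
  have CS := cs_abs m1 (Lmem.restrict (ball x0 r))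
  have hLsq : ∫ x in ball x0 r, L x ^ 2 ≤ (2 * (M1 + M2) / r) ^ 2 := by
    have hb : ∀ x, L x ^ 2 ≤ (r⁻¹ ^ 2 * (M1 + M2)) ^ 2 := fun x => by
      rw [← sq_abs (L x)]
      apply pow_le_pow_left₀ (abs_nonneg _)
      calc |L x| ≤ |d1 (d1 ξ) x| + |d2 (d2 ξ) x| := abs_add_le _ _
        _ ≤ _ := by linarith [B1 x, B2 x]
    calc ∫ x in ball x0 r, L x ^ 2 ≤ ∫ _x in ball x0 r, (r⁻¹ ^ 2 * (M1 + M2)) ^ 2 :=
          integral_mono (int_sq (Lmem.restrict _)) (integrable_const _) hb
      _ = 4 * r ^ 2 * (r⁻¹ ^ 2 * (M1 + M2)) ^ 2 := by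
          rw [setIntegral_const, smul_eq_mul, Measure.real, volume_ball_P x0 hr.le]
      _ = _ := by field_simp; ring
  have hsq : √(∫ x in ball x0 r, L x ^ 2) ≤ 2 * (M1 + M2) / r :=
    Real.sqrt_le_iff.mpr ⟨by positivity, hLsq⟩
  have low : r ^ 2 / 8 ≤ ∫ x, u x * ξ x := by
    have hi : Integrable ((closedBall x0 (r / 4)).indicator fun _ : P => (1 / 2 : ℝ)) :=
      (integrable_indicator_iff measurableSet_closedBall).mpr
        (integrableOn_const measure_closedBall_lt_top.ne)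
    calc r ^ 2 / 8 = ∫ x, (closedBall x0 (r / 4)).indicator (fun _ : P => (1 / 2 : ℝ)) x := by
          rw [integral_indicator measurableSet_closedBall, setIntegral_const, smul_eq_mul,
            Measure.real, volume_closedBall_P x0 (by positivity)]
          ring
      _ ≤ _ := by
          refine integral_mono_ae hi (int_mul hu.m0 T0.memLp) ?_
          filter_upwards [hlow] with x hx
          by_cases hb : x ∈ closedBall x0 (r / 4)
          · rw [indicator_of_mem hb]
            have h1 : ξ x = 1 := by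
              apply hone
              rw [mem_closedBall, dist_eq_norm] at hb
              rw [norm_smul, Real.norm_eq_abs, abs_of_pos (inv_pos.mpr hr), ← div_eq_inv_mul,
                div_le_iff₀ hr]
              linarith
            rw [h1, mul_one]
            exact hx (closedBall_subset_ball (by linarith) hb)
          · rw [indicator_of_notMem hb]
            by_cases hb' : x ∈ ball x0 r
            · exact mul_nonneg (by linarith [hx hb']) (hnn _)
            · rw [T0.zero_of_notMem hb', mul_zero]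
  set S := √(∫ x in ball x0 r, (1 - u x) ^ 2) with hS
  have hS0 : 0 ≤ S := Real.sqrt_nonneg _
  have key : r ^ 2 / 8 ≤ S * (2 * (M1 + M2) / r) := by
    calc r ^ 2 / 8 ≤ ∫ x in ball x0 r, (1 - u x) * L x := by rw [← E2, ← E1]; exact low
      _ ≤ |∫ x in ball x0 r, (1 - u x) * L x| := le_abs_self _
      _ ≤ S * √(∫ x in ball x0 r, L x ^ 2) := CS
      _ ≤ _ := by gcongr
  have hM : 0 < M1 + M2 := by positivity
  rw [← mul_div_assoc, le_div_iff₀ hr] at key
  rw [one_div, ← div_eq_inv_mul, div_le_iff₀ (by positivity)]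
  nlinarith

end Pool.Agent.H92Z.Fq
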