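import Pool.Agent.H92Z.Fq.Stm

open MeasureTheory Set Filter Metric
open scoped Topology

namespace Pool.Agent.H92Z.Fq

theorem lam_norm_fderiv (u : P → ℝ) (z : P) : ‖fderiv ℝ u z‖ ≤ |d1 u z| + |d2 u z| := by
  refine ContinuousLinearMap.opNorm_le_bound _ (by positivity) fun h => ?_
  rw [fderiv_apply_eq, Real.norm_eq_abs]
  have h1 : |h.1| ≤ ‖h‖ := by simpa using norm_fst_le h
  have h2 : |h.2| ≤ ‖h‖ := by simpa using norm_snd_le h
  calc |d1 u z * h.1 + d2 u z * h.2| ≤ |d1 u z| * |h.1| + |d2 u z| * |h.2| := by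
        rw [← abs_mul, ← abs_mul]; exact abs_add_le _ _
    _ ≤ |d1 u z| * ‖h‖ + |d2 u z| * ‖h‖ := by gcongr
    _ = (|d1 u z| + |d2 u z|) * ‖h‖ := by ring

theorem lam_gns : ∃ K : ℝ, 0 ≤ K ∧ ∀ u, IsTest univ u →
    ∫ x, u x ^ 2 ≤ K * (∫ x, (|d1 u x| + |d2 u x|)) ^ 2 := by
  refine ⟨lintegralPowLePowLIntegralFDerivConst (volume : Measure P) 2, NNReal.coe_nonneg _,
    fun u hu => ?_⟩
  have hp : Real.HolderConjugate (Module.finrank ℝ P) 2 := by
    have : (Module.finrank ℝ P : ℝ) = 2 := by simp [P]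
    rw [this]; exact Real.HolderConjugate.two_two
  have h := lintegral_pow_le_pow_lintegral_fderiv (volume : Measure P) hu.c1 hu.cs hp
  have hI : Integrable (fun x => |d1 u x| + |d2 u x|) := hu.integrable_d1.abs.add hu.integrable_d2.abs
  have h1 : ∫⁻ x, ‖u x‖ₑ ^ (2 : ℝ) = ENNReal.ofReal (∫ x, u x ^ 2) := by
    rw [ofReal_integral_eq_lintegral_ofReal (int_sq hu.memLp) (ae_of_all _ fun x => by positivity)]
    refine lintegral_congr fun x => ?_
    rw [← ofReal_norm, ENNReal.ofReal_rpow_of_nonneg (norm_nonneg _) (by norm_num)]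
    simp
  have h2 : ∫⁻ x, ‖fderiv ℝ u x‖ₑ ≤ ENNReal.ofReal (∫ x, (|d1 u x| + |d2 u x|)) := by
    rw [ofReal_integral_eq_lintegral_ofReal hI (ae_of_all _ fun x => by positivity)]
    refine lintegral_mono fun x => ?_
    rw [← ofReal_norm]
    exact ENNReal.ofReal_le_ofReal (lam_norm_fderiv u x)
  have hn : 0 ≤ ∫ x, (|d1 u x| + |d2 u x|) := integral_nonneg fun x => by positivity
  rw [h1] at h
  have h3 := h.trans (mul_le_mul_right (ENNReal.rpow_le_rpow h2 (by norm_num : (0 : ℝ) ≤ 2)) _)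
  rw [ENNReal.ofReal_rpow_of_nonneg hn (by norm_num), ← ENNReal.ofReal_coe_nnreal,
    ← ENNReal.ofReal_mul (NNReal.coe_nonneg _),
    ENNReal.ofReal_le_ofReal_iff (by positivity)] at h3
  simpa using h3

theorem lady : LADY := by
  obtain ⟨K, hK, h⟩ := lam_gns
  refine ⟨8 * K + 1, by positivity, fun φ hφ => ?_⟩
  have h0 := h (fun x => φ x * φ x) (hφ.mul_c1 hφ.c1)
  have e1 : ∀ x, |d1 (fun x => φ x * φ x) x| + |d2 (fun x => φ x * φ x) x| =
      2 * (|φ x| * (|d1 φ x| + |d2 φ x|)) := by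
    intro x
    rw [d1_mul (hφ.diff x) (hφ.diff x), d2_mul (hφ.diff x) (hφ.diff x),
      show d1 φ x * φ x + φ x * d1 φ x = 2 * (φ x * d1 φ x) by ring,
      show d2 φ x * φ x + φ x * d2 φ x = 2 * (φ x * d2 φ x) by ring]
    simp only [abs_mul, abs_two]; ring
  simp only [e1, integral_const_mul] at h0
  have hm : MemLp (fun x => |d1 φ x| + |d2 φ x|) 2 (volume : Measure P) :=
    hφ.memLp_d1.abs.add hφ.memLp_d2.abs
  have h1 := cs_sq (μ := (volume : Measure P)) (f := fun x => |φ x|) hφ.memLp.abs hm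
  simp only [sq_abs] at h1
  have h2 : ∫ x, (|d1 φ x| + |d2 φ x|) ^ 2 ≤ 2 * ∫ x, (d1 φ x ^ 2 + d2 φ x ^ 2) := by
    rw [← integral_const_mul]
    refine integral_mono (int_sq hm) ((int_sq2 hφ.memLp_d1 hφ.memLp_d2).const_mul _) fun x => ?_
    have a1 := sq_abs (d1 φ x)
    have a2 := sq_abs (d2 φ x)
    simp only
    nlinarith [sq_nonneg (|d1 φ x| - |d2 φ x|)]
  have hA : 0 ≤ ∫ x, φ x ^ 2 := integral_nonneg fun x => by positivity
  have hB : 0 ≤ ∫ x, (d1 φ x ^ 2 + d2 φ x ^ 2) := integral_nonneg fun x => by positivity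
  have e2 : ∫ x, φ x ^ 4 = ∫ x, (φ x * φ x) ^ 2 := by
    congr 1; ext x; ring
  rw [e2]
  have h3 : (∫ x, |φ x| * (|d1 φ x| + |d2 φ x|)) ^ 2 ≤
      (∫ x, φ x ^ 2) * (2 * ∫ x, (d1 φ x ^ 2 + d2 φ x ^ 2)) :=
    h1.trans (mul_le_mul_of_nonneg_left h2 hA)
  have h4 := mul_le_mul_of_nonneg_left h3 hK
  have h5 := mul_nonneg hA hB
  nlinarith

theorem lam_vol_pos {Ω : Set P} (h : Adm Ω) : 0 < vol Ω :=
  ENNReal.toReal_pos h.2.1.ne' h.2.2.ne

/-- a crude Faber-Krahn inequality for test functions -/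
theorem lam_fk (hL : LADY) : ∃ C : ℝ, 0 < C ∧ ∀ Ω, Adm Ω → LamGe Ω (fun _ => 0) (1 / (C * vol Ω)) := by
  obtain ⟨C, hC, h⟩ := hL
  refine ⟨C, hC, fun Ω hΩ φ hφ => ?_⟩
  have hv := lam_vol_pos hΩ
  have hmeas := hΩ.1.measurableSet
  have hi : MemLp (Ω.indicator fun _ => (1 : ℝ)) 2 (volume : Measure P) :=
    memLp_indicator_const 2 hmeas 1 (Or.inr hΩ.2.2.ne)
  have h1 := cs_sq (μ := (volume : Measure P)) hi (hφ.mul_c1 hφ.c1).memLp
  have e1 : ∫ x, (Ω.indicator fun _ => (1 : ℝ)) x * (φ x * φ x) = ∫ x, φ x ^ 2 := by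
    congr 1; ext x
    by_cases hx : x ∈ Ω
    · rw [indicator_of_mem hx]; ring
    · rw [hφ.zero_of_notMem hx]; ring
  have e2 : ∫ x, (Ω.indicator fun _ => (1 : ℝ)) x ^ 2 = vol Ω := by
    have : (fun x => (Ω.indicator fun _ => (1 : ℝ)) x ^ 2) = Ω.indicator fun _ => (1 : ℝ) := by
      ext x
      by_cases hx : x ∈ Ω
      · rw [indicator_of_mem hx]; ring
      · rw [indicator_of_notMem hx]; ring
    rw [this, integral_indicator_const _ hmeas]
    simp [vol, Measure.real]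
  have e3 : ∫ x, (φ x * φ x) ^ 2 = ∫ x, φ x ^ 4 := by
    congr 1; ext x; ring
  rw [e1, e2, e3] at h1
  have h2 := h φ hφ.toUniv
  have hA : 0 ≤ ∫ x, φ x ^ 2 := integral_nonneg fun x => by positivity
  have hB : 0 ≤ ∫ x, (d1 φ x ^ 2 + d2 φ x ^ 2) := integral_nonneg fun x => by positivity
  simp only [zero_mul, integral_zero, add_zero]
  rw [one_div, inv_mul_le_iff₀ (by positivity)]
  rcases hA.eq_or_lt with h0 | h0
  · rw [← h0]; positivity
  · have h3 := h1.trans (mul_le_mul_of_nonneg_left h2 hv.le)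
    refine le_of_mul_le_mul_left ?_ h0
    nlinarith

theorem lam_bump {Ω : Set P} (hΩ : Adm Ω) : ∃ φ, IsTest Ω φ ∧ 0 < ∫ x, φ x ^ 2 := by
  obtain ⟨x0, hx0⟩ : Ω.Nonempty := nonempty_of_measure_ne_zero hΩ.2.1.ne'
  obtain ⟨f, hf1, hf2, hf3, -, hf5⟩ :=
    exists_contDiff_tsupport_subset (n := 1) (hΩ.1.mem_nhds hx0)
  have ht : IsTest Ω f := ⟨hf3, hf2, hf1⟩
  refine ⟨f, ht, ?_⟩
  refine Continuous.integral_pos_of_hasCompactSupport_nonneg_nonzero (x := x0)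
    (ht.cont.pow 2) (hcs_of_zero hf2 fun z hz => by simp [hz]) (fun x => by positivity) ?_
  simp [hf5]

theorem lam_h (A : API) {Ω : Set P} {c : ℝ} (h : LamGe Ω (fun _ => 0) c) {u u1 u2 : P → ℝ}
    (hu : H10 Ω u u1 u2) : c * ∫ x, u x ^ 2 ≤ ∫ x, (u1 x ^ 2 + u2 x ^ 2) := by
  have := A.h_lamge (L := 0) h aestronglyMeasurable_const (ae_of_all _ fun x => by simp) hu
  simpa using this

theorem lam_le (A : API) {Ω : Set P} (hΩ : Adm Ω) {c : ℝ} (h : LamGe Ω (fun _ => 0) c) :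
    c ≤ lam Ω := by
  obtain ⟨φ, hφ, hp⟩ := lam_bump hΩ
  refine le_csInf ⟨_, φ, d1 φ, d2 φ, A.h_test hφ, hp, rfl⟩ ?_
  rintro r ⟨u, u1, u2, hu, hpos, rfl⟩
  rw [le_div_iff₀ hpos]
  exact lam_h A h hu

theorem lam_ray {Ω : Set P} {u u1 u2 : P → ℝ} (hu : H10 Ω u u1 u2) :
    lam Ω * ∫ x, u x ^ 2 ≤ ∫ x, (u1 x ^ 2 + u2 x ^ 2) := by
  have hA : 0 ≤ ∫ x, u x ^ 2 := integral_nonneg fun x => by positivity
  have hB : 0 ≤ ∫ x, (u1 x ^ 2 + u2 x ^ 2) := integral_nonneg fun x => by positivity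
  rcases hA.eq_or_lt with h0 | h0
  · rw [← h0]; simpa using hB
  · rw [← le_div_iff₀ h0]
    refine csInf_le ⟨0, ?_⟩ ⟨u, u1, u2, hu, h0, rfl⟩
    rintro r ⟨v, v1, v2, -, hpos, rfl⟩
    exact div_nonneg (integral_nonneg fun x => by positivity) hpos.le

theorem lam_quad {a b c : ℝ} (hc : c ≤ 0) (h : ∀ t : ℝ, 0 ≤ a * (t * t) + b * t + c) : b = 0 := by
  have h0 := h 0
  have hc0 : c = 0 := by linarith
  have := discrim_le_zero h
  unfold discrim at this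
  rw [hc0] at this
  nlinarith [sq_nonneg b]

theorem lam_el (A : API) {Ω : Set P} {f f1 f2 : P → ℝ} (hf : H10 Ω f f1 f2)
    (hle : ∫ x, (f1 x ^ 2 + f2 x ^ 2) ≤ lam Ω * ∫ x, f x ^ 2) :
    Weak Ω f1 f2 (fun x => lam Ω * f x) := by
  intro φ hφ
  have key : ∀ t : ℝ, 0 ≤ ((∫ x, (d1 φ x ^ 2 + d2 φ x ^ 2)) - lam Ω * ∫ x, φ x ^ 2) * (t * t) +
      (2 * ((∫ x, (f1 x * d1 φ x + f2 x * d2 φ x)) - lam Ω * ∫ x, f x * φ x)) * t +
      ((∫ x, (f1 x ^ 2 + f2 x ^ 2)) - lam Ω * ∫ x, f x ^ 2) := by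
    intro t
    have h := lam_ray (A.h_add hf (A.h_smul t (A.h_test hφ)))
    have e1 : ∫ x, (f x + t * φ x) ^ 2 =
        (t * t) * (∫ x, φ x ^ 2) + (2 * t) * (∫ x, f x * φ x) + ∫ x, f x ^ 2 := by
      have e : (fun x => (f x + t * φ x) ^ 2) =
          fun x => (t * t) * φ x ^ 2 + (2 * t) * (f x * φ x) + f x ^ 2 := by ext x; ring
      rw [e, integral_add, integral_add, integral_const_mul, integral_const_mul]
      · exact (int_sq hφ.memLp).const_mul _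
      · exact (int_mul hf.m0 hφ.memLp).const_mul _
      · exact ((int_sq hφ.memLp).const_mul _).add ((int_mul hf.m0 hφ.memLp).const_mul _)
      · exact int_sq hf.m0
    have e2 : ∫ x, ((f1 x + t * d1 φ x) ^ 2 + (f2 x + t * d2 φ x) ^ 2) =
        (t * t) * (∫ x, (d1 φ x ^ 2 + d2 φ x ^ 2)) +
          (2 * t) * (∫ x, (f1 x * d1 φ x + f2 x * d2 φ x)) + ∫ x, (f1 x ^ 2 + f2 x ^ 2) := by
      have e : (fun x => (f1 x + t * d1 φ x) ^ 2 + (f2 x + t * d2 φ x) ^ 2) =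
          fun x => (t * t) * (d1 φ x ^ 2 + d2 φ x ^ 2) +
            (2 * t) * (f1 x * d1 φ x + f2 x * d2 φ x) + (f1 x ^ 2 + f2 x ^ 2) := by ext x; ring
      have i1 := int_sq2 hφ.memLp_d1 hφ.memLp_d2
      have i2 := int_dot hf.m1 hf.m2 hφ.memLp_d1 hφ.memLp_d2
      rw [e, integral_add, integral_add, integral_const_mul, integral_const_mul]
      · exact i1.const_mul _
      · exact i2.const_mul _
      · exact (i1.const_mul _).add (i2.const_mul _)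
      · exact int_sq2 hf.m1 hf.m2
    rw [e1, e2] at h
    nlinarith
  have h0 := lam_quad (by linarith) key
  have e3 : ∫ x, lam Ω * f x * φ x = lam Ω * ∫ x, f x * φ x := by
    rw [← integral_const_mul]; congr 1; ext x; ring
  rw [e3]; linarith

theorem vlam (A : API) (hL : LADY) : VLAM := by
  obtain ⟨C, hC, h⟩ := lam_fk hL
  refine ⟨⟨1 / C, by positivity, fun Ω hΩ => ?_⟩, fun Ω hΩ => ?_⟩
  · have h1 := lam_le A hΩ (h Ω hΩ)
    have hv := lam_vol_pos hΩ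
    rw [div_le_iff₀ (by positivity)] at h1
    rw [div_le_iff₀ hC]
    linarith
  · have h1 := lam_le A hΩ (h Ω hΩ)
    have hv := lam_vol_pos hΩ
    refine ⟨lt_of_lt_of_le (by positivity) h1, hv, fun φ hφ => ?_, fun u u1 u2 hu => lam_ray hu,
      fun c hc => lam_le A hΩ hc, lam_bump hΩ, fun f f1 f2 hf hle => lam_el A hf hle⟩
    simpa using lam_ray (A.h_test hφ)

end Pool.Agent.H92Z.Fq
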