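import Pool.Agent.H92Z.Fq.Stm

open MeasureTheory Set Filter Metric
open scoped Topology

namespace Pool.Agent.H92Z.Fq

/-- rescaled and translated copy of a function -/
noncomputable def mean_sc (f : P → ℝ) (x : P) (s : ℝ) (y : P) : ℝ := f (s⁻¹ • (y - x))

theorem mean_hasF (x : P) (s : ℝ) (y : P) :
    HasFDerivAt (fun y : P => s⁻¹ • (y - x)) (s⁻¹ • ContinuousLinearMap.id ℝ P) y :=
  ((hasFDerivAt_id y).sub_const x).const_smul s⁻¹

theorem mean_cd (x : P) (s : ℝ) : ContDiff ℝ 1 (fun y : P => s⁻¹ • (y - x)) :=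
  (contDiff_id.sub contDiff_const).const_smul s⁻¹

theorem mean_sc_c1 {f : P → ℝ} (hf : ContDiff ℝ 1 f) (x : P) (s : ℝ) :
    ContDiff ℝ 1 (mean_sc f x s) := hf.comp (mean_cd x s)

theorem mean_sc_cont {f : P → ℝ} (hf : Continuous f) (x : P) (s : ℝ) :
    Continuous (mean_sc f x s) := hf.comp (mean_cd x s).continuous

theorem mean_d1 {f : P → ℝ} (hf : ContDiff ℝ 1 f) (x : P) (s : ℝ) :
    d1 (mean_sc f x s) = fun y => s⁻¹ * mean_sc (d1 f) x s y := by
  ext y
  have h := ((hf.differentiable (by simp)) (s⁻¹ • (y - x))).hasFDerivAt.comp y (mean_hasF x s y)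
  unfold d1 mean_sc
  change fderiv ℝ (f ∘ fun y : P => s⁻¹ • (y - x)) y _ = _
  rw [h.fderiv]
  simp only [ContinuousLinearMap.comp_apply, smul_apply,
    ContinuousLinearMap.id_apply, map_smul, smul_eq_mul]

theorem mean_d2 {f : P → ℝ} (hf : ContDiff ℝ 1 f) (x : P) (s : ℝ) :
    d2 (mean_sc f x s) = fun y => s⁻¹ * mean_sc (d2 f) x s y := by
  ext y
  have h := ((hf.differentiable (by simp)) (s⁻¹ • (y - x))).hasFDerivAt.comp y (mean_hasF x s y)
  unfold d2 mean_sc
  change fderiv ℝ (f ∘ fun y : P => s⁻¹ • (y - x)) y _ = _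
  rw [h.fderiv]
  simp only [ContinuousLinearMap.comp_apply, smul_apply,
    ContinuousLinearMap.id_apply, map_smul, smul_eq_mul]

theorem mean_norm {x y : P} {s : ℝ} (hs : 0 < s) : ‖s⁻¹ • (y - x)‖ = s⁻¹ * dist y x := by
  rw [norm_smul, Real.norm_eq_abs, abs_of_pos (inv_pos.mpr hs), dist_eq_norm]

theorem mean_out {x y : P} {s : ℝ} (hs : 0 < s) (hy : y ∉ closedBall x s) :
    1 < ‖s⁻¹ • (y - x)‖ := by
  rw [mean_norm hs]
  rw [mem_closedBall, not_le] at hy
  rw [← div_eq_inv_mul, lt_div_iff₀ hs]; linarith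

theorem mean_tsupp {f : P → ℝ} (hf : ∀ z : P, 1 < ‖z‖ → f z = 0) (x : P) {s : ℝ} (hs : 0 < s) :
    tsupport (mean_sc f x s) ⊆ closedBall x s := by
  apply closure_minimal _ isClosed_closedBall
  intro y hy
  by_contra hc
  exact hy (hf _ (mean_out hs hc))

theorem mean_hcs {f : P → ℝ} (hf : ∀ z : P, 1 < ‖z‖ → f z = 0) (x : P) {s : ℝ} (hs : 0 < s) :
    HasCompactSupport (mean_sc f x s) :=
  IsCompact.of_isClosed_subset (isCompact_closedBall x s) (isClosed_tsupport _)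
    (mean_tsupp hf x hs)

theorem mean_test {f : P → ℝ} (h1 : ContDiff ℝ 1 f) (hf : ∀ z : P, 1 < ‖z‖ → f z = 0) (x : P)
    {s : ℝ} (hs : 0 < s) : IsTest (closedBall x s) (mean_sc f x s) :=
  ⟨mean_sc_c1 h1 x s, mean_hcs hf x hs, mean_tsupp hf x hs⟩

theorem mean_notMem {z : P} (hz : 1 < ‖z‖) : z ∉ closedBall (0 : P) 1 := by
  rw [mem_closedBall, dist_zero_right, not_le]; exact hz

theorem mean_int (f : P → ℝ) (x : P) {s : ℝ} (hs : 0 < s) :
    ∫ y, mean_sc f x s y = s ^ 2 * ∫ y, f y := by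
  unfold mean_sc
  rw [integral_sub_right_eq_self (fun y : P => f (s⁻¹ • y)) x,
    Measure.integral_comp_inv_smul_of_nonneg volume f hs.le]
  simp

/-- the mean of `g` at scale `s` -/
noncomputable def mean_M (g ψ : P → ℝ) (x : P) (s : ℝ) : ℝ :=
  ∫ y, g y * ((s ^ 2)⁻¹ * ψ (s⁻¹ • (y - x)))

theorem mean_memLp {ψ : P → ℝ} (hc : Continuous ψ) (h0 : ∀ z : P, 1 < ‖z‖ → ψ z = 0) (x : P)
    {s : ℝ} (hs : 0 < s) : MemLp (mean_sc ψ x s) 2 (volume : Measure P) :=
  (mean_sc_cont hc x s).memLp_of_hasCompactSupport (mean_hcs h0 x hs)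

theorem mean_step (A : API) {ψ κ : P → ℝ} (hc : Continuous ψ) (h0 : ∀ z : P, 1 < ‖z‖ → ψ z = 0)
    (hκ : IsTest (closedBall 0 1) κ) (hk1 : ContDiff ℝ 1 (d1 κ)) (hk2 : ContDiff ℝ 1 (d2 κ))
    (hL : ∀ x, d1 (d1 κ) x + d2 (d2 κ) x = ψ x - 4 * ψ ((2 : ℝ) • x))
    {g g1 g2 : P → ℝ} (hg : H10 univ g g1 g2) (x : P) {s : ℝ} (hs : 0 < s) :
    ∫ y, (g1 y * d1 (mean_sc κ x s) y + g2 y * d2 (mean_sc κ x s) y) =
      mean_M g ψ x (s / 2) - mean_M g ψ x s := by
  have t1 : IsTest (closedBall x s) (mean_sc (d1 κ) x s) :=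
    mean_test hk1 (fun z hz => hκ.d1_zero (mean_notMem hz)) x hs
  have t2 : IsTest (closedBall x s) (mean_sc (d2 κ) x s) :=
    mean_test hk2 (fun z hz => hκ.d2_zero (mean_notMem hz)) x hs
  have i1 := A.h_ibp1 hg t1.toUniv
  have i2 := A.h_ibp2 hg t2.toUniv
  rw [mean_d1 hκ.c1, mean_d2 hκ.c1]
  have e : (fun y => g1 y * (s⁻¹ * mean_sc (d1 κ) x s y) + g2 y * (s⁻¹ * mean_sc (d2 κ) x s y)) =
      fun y => s⁻¹ * (g1 y * mean_sc (d1 κ) x s y) + s⁻¹ * (g2 y * mean_sc (d2 κ) x s y) := by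
    ext y; ring
  rw [e, integral_add ((int_mul hg.m1 t1.memLp).const_mul _) ((int_mul hg.m2 t2.memLp).const_mul _),
    integral_const_mul, integral_const_mul, i1, i2]
  have j1 := int_mul hg.m0 t1.memLp_d1
  have j2 := int_mul hg.m0 t2.memLp_d2
  have hs2 : 0 < s / 2 := by linarith
  have k1 : Integrable (fun y => g y * (((s / 2) ^ 2)⁻¹ * ψ ((s / 2)⁻¹ • (y - x)))) :=
    int_mul hg.m0 ((mean_memLp hc h0 x hs2).const_mul _)
  have k2 : Integrable (fun y => g y * ((s ^ 2)⁻¹ * ψ (s⁻¹ • (y - x)))) :=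
    int_mul hg.m0 ((mean_memLp hc h0 x hs).const_mul _)
  unfold mean_M
  rw [← integral_sub k1 k2, mul_neg, mul_neg, ← neg_add, ← integral_const_mul,
    ← integral_const_mul, ← integral_add (j1.const_mul _) (j2.const_mul _), ← integral_neg]
  refine integral_congr_ae (Eventually.of_forall fun y => ?_)
  simp only
  rw [mean_d1 hk1, mean_d2 hk2]
  simp only [mean_sc]
  have h2 : (s / 2)⁻¹ • (y - x) = (2 : ℝ) • (s⁻¹ • (y - x)) := by
    rw [smul_smul]; congr 1; field_simp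
  rw [h2]
  have := hL (s⁻¹ • (y - x))
  have h3 : ψ (s⁻¹ • (y - x)) = d1 (d1 κ) (s⁻¹ • (y - x)) + d2 (d2 κ) (s⁻¹ • (y - x)) +
    4 * ψ ((2 : ℝ) • (s⁻¹ • (y - x))) := by linarith
  rw [h3]
  field_simp
  ring

theorem mean_F {κ : P → ℝ} (hκ : IsTest (closedBall 0 1) κ) {F : P → ℝ} (hF : MemLp F 2 volume)
    (x : P) {s r : ℝ} (hs : 0 < s) (hsr : s ≤ r) :
    ∫ y, F y * mean_sc κ x s y ≤
      s * √(∫ y, κ y ^ 2) * √(∫ y in closedBall x r, F y ^ 2) := by
  have t : IsTest (closedBall x s) (mean_sc κ x s) :=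
    mean_test hκ.c1 (fun z hz => hκ.zero_of_notMem (mean_notMem hz)) x hs
  have e : ∫ y, F y * mean_sc κ x s y = ∫ y in closedBall x r, F y * mean_sc κ x s y := by
    symm
    apply setIntegral_eq_integral_of_forall_compl_eq_zero
    intro y hy
    rw [t.zero_of_notMem fun h => hy (closedBall_subset_closedBall hsr h), mul_zero]
  have e2 : ∫ y in closedBall x r, mean_sc κ x s y ^ 2 = s ^ 2 * ∫ y, κ y ^ 2 := by
    rw [← mean_int (fun y => κ y ^ 2) x hs]
    apply setIntegral_eq_integral_of_forall_compl_eq_zero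
    intro y hy
    rw [t.zero_of_notMem fun h => hy (closedBall_subset_closedBall hsr h)]; simp
  have h := cs_abs (μ := volume.restrict (closedBall x r)) (hF.restrict _) (t.memLp.restrict _)
  rw [e2, Real.sqrt_mul (by positivity), Real.sqrt_sq hs.le] at h
  rw [e]
  calc _ ≤ _ := le_abs_self _
    _ ≤ _ := h
    _ = _ := by ring

theorem mean_close {ψ : P → ℝ} (hc : Continuous ψ) (h0 : ∀ z : P, 1 < ‖z‖ → ψ z = 0) {C : ℝ}
    (hb : ∀ x, 0 ≤ ψ x ∧ ψ x ≤ C) (h1 : ∫ x, ψ x = 1) {g : P → ℝ} (hg : MemLp g 2 volume)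
    (x : P) {s : ℝ} (hs : 0 < s) :
    |mean_M g ψ x s - g x| ≤ 4 * C * ⨍ y in closedBall x s, ‖g y - g x‖ := by
  have hψ : Integrable (mean_sc ψ x s) :=
    (mean_sc_cont hc x s).integrable_of_hasCompactSupport (mean_hcs h0 x hs)
  have k2 : Integrable (fun y => g y * ((s ^ 2)⁻¹ * mean_sc ψ x s y)) :=
    int_mul hg ((mean_memLp hc h0 x hs).const_mul _)
  have k3 : Integrable (fun y => g x * ((s ^ 2)⁻¹ * mean_sc ψ x s y)) :=
    (hψ.const_mul _).const_mul _
  have e1 : g x = ∫ y, g x * ((s ^ 2)⁻¹ * mean_sc ψ x s y) := by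
    rw [integral_const_mul, integral_const_mul, mean_int ψ x hs, h1]; field_simp
  have e2 : mean_M g ψ x s - g x =
      ∫ y in closedBall x s, (g y - g x) * ((s ^ 2)⁻¹ * mean_sc ψ x s y) := by
    rw [setIntegral_eq_integral_of_forall_compl_eq_zero]
    · conv_lhs => rw [e1]
      change (∫ y, g y * ((s ^ 2)⁻¹ * mean_sc ψ x s y)) - _ = _
      rw [← integral_sub k2 k3]
      refine integral_congr_ae (Eventually.of_forall fun y => ?_)
      simp only; ring
    · intro y hy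
      have : mean_sc ψ x s y = 0 := h0 _ (mean_out hs hy)
      rw [this]; simp
  have hloc : IntegrableOn (fun y => ‖g y - g x‖) (closedBall x s) := by
    have := (hg.locallyIntegrable (by norm_num)).integrableOn_isCompact (isCompact_closedBall x s)
    have h2 : IntegrableOn (fun _ : P => g x) (closedBall x s) :=
      integrableOn_const (isCompact_closedBall x s).measure_lt_top.ne
    exact (this.sub h2).norm
  rw [e2, setAverage_eq, Measure.real, volume_closedBall_P x hs.le, smul_eq_mul]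
  rw [← Real.norm_eq_abs]
  calc _ ≤ ∫ y in closedBall x s, (C * (s ^ 2)⁻¹) * ‖g y - g x‖ := by
        refine norm_integral_le_of_norm_le (hloc.const_mul _) (Eventually.of_forall fun y => ?_)
        have hy := hb (s⁻¹ • (y - x))
        have h3 : 0 ≤ (s ^ 2)⁻¹ * mean_sc ψ x s y := mul_nonneg (by positivity) hy.1
        rw [norm_mul, Real.norm_of_nonneg h3, mul_comm]
        refine mul_le_mul_of_nonneg_right ?_ (norm_nonneg _)
        rw [mul_comm]
        exact mul_le_mul_of_nonneg_right hy.2 (by positivity)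
    _ = _ := by rw [integral_const_mul]; field_simp

theorem meanv (A : API) (hK : KERNEL) : MEANV := by
  obtain ⟨ψ, κ, hc, hnn, h0, hpos, h1, hκ, hk1, hk2, hκnn, hL⟩ := hK
  have h0' : ∀ z : P, 1 < ‖z‖ → ψ z = 0 := fun z hz => h0 z hz.le
  have hcs : HasCompactSupport ψ := by
    apply IsCompact.of_isClosed_subset (isCompact_closedBall (0 : P) 1) (isClosed_tsupport _)
    apply closure_minimal _ isClosed_closedBall
    intro y hy
    by_contra hcon
    rw [mem_closedBall, dist_zero_right, not_le] at hcon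
    exact hy (h0' y hcon)
  obtain ⟨B, hB⟩ := hc.bounded_above_of_compact_support hcs
  set K := √(∫ y, κ y ^ 2) with hKdef
  have hK0 : 0 ≤ K := Real.sqrt_nonneg _
  have hB0 : 0 ≤ B := (norm_nonneg _).trans (hB 0)
  have hb : ∀ x, 0 ≤ ψ x ∧ ψ x ≤ B + 2 * K + 1 := fun x =>
    ⟨hnn x, by have := hB x; rw [Real.norm_of_nonneg (hnn x)] at this; linarith⟩
  refine ⟨ψ, B + 2 * K + 1, by linarith, hc, hb, h0, hpos, h1, ?_⟩
  intro U g g1 g2 F hg hF hw r hr
  filter_upwards [IsUnifLocDoublingMeasure.ae_tendsto_average_norm_sub (volume : Measure P)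
    (hg.m0.locallyIntegrable (by norm_num)) 1] with x hx hU
  set E := √(∫ y in closedBall x r, F y ^ 2) with hE
  have hE0 : 0 ≤ E := Real.sqrt_nonneg _
  have step : ∀ s, 0 < s → s ≤ r → mean_M g ψ x (s / 2) ≤ mean_M g ψ x s + s * K * E := by
    intro s hs hsr
    have t : IsTest U (mean_sc κ x s) :=
      (mean_test hκ.c1 (fun z hz => hκ.zero_of_notMem (mean_notMem hz)) x hs).mono
        ((closedBall_subset_closedBall hsr).trans hU)
    have a := hw _ t (fun y => hκnn _)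
    rw [mean_step A hc h0' hκ hk1 hk2 hL hg x hs] at a
    have b := mean_F hκ hF x hs hsr
    linarith
  have ind : ∀ k : ℕ, mean_M g ψ x (r * (1 / 2) ^ k) ≤
      mean_M g ψ x r + 2 * (r - r * (1 / 2) ^ k) * K * E := by
    intro k
    induction k with
    | zero => simp
    | succ k ih =>
      have hp : (0 : ℝ) < (1 / 2) ^ k := by positivity
      have hp1 : ((1 : ℝ) / 2) ^ k ≤ 1 := pow_le_one₀ (by norm_num) (by norm_num)
      have := step (r * (1 / 2) ^ k) (by positivity) (by nlinarith)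
      have e : r * (1 / 2) ^ (k + 1) = r * (1 / 2) ^ k / 2 := by ring
      rw [e]
      nlinarith
  have hδ : Tendsto (fun k : ℕ => r * (1 / 2 : ℝ) ^ k) atTop (𝓝[>] 0) := by
    rw [tendsto_nhdsWithin_iff]
    refine ⟨?_, Eventually.of_forall fun k => ?_⟩
    · have := (tendsto_pow_atTop_nhds_zero_of_lt_one (r := (1 / 2 : ℝ)) (by norm_num)
        (by norm_num)).const_mul r
      simpa using this
    · change (0 : ℝ) < _
      positivity
  have hlim := hx (fun _ : ℕ => x) (fun k : ℕ => r * (1 / 2 : ℝ) ^ k) hδ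
    (Eventually.of_forall fun k => mem_closedBall_self (by positivity))
  have hlim2 := (hlim.const_mul (4 * (B + 2 * K + 1))).const_add (mean_M g ψ x r + 2 * r * K * E)
  have hle : g x ≤ mean_M g ψ x r + 2 * r * K * E + 4 * (B + 2 * K + 1) * 0 := by
    refine ge_of_tendsto' hlim2 fun k => ?_
    have hp : (0 : ℝ) < r * (1 / 2) ^ k := by positivity
    have c := mean_close hc h0' hb h1 hg.m0 x hp
    have d := ind k
    have e := neg_abs_le (mean_M g ψ x (r * (1 / 2) ^ k) - g x)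
    have f : 0 ≤ r * (1 / 2) ^ k * K * E := by positivity
    nlinarith
  change g x ≤ mean_M g ψ x r + (B + 2 * K + 1) * r * E
  have : 0 ≤ (B + 1) * r * E := by positivity
  nlinarith

end Pool.Agent.H92Z.Fq
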