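import Pool.Agent.H92Z.Fq.Stm

open MeasureTheory Set Filter Metric
open scoped Topology Pointwise

namespace Pool.Agent.H92Z.Fq

theorem near_FF (q : ℝ) (Ω : Set P) : FF q Ω = lam Ω * tors Ω ^ q / vol Ω ^ (2 * q - 1) := by
  unfold FF vol
  rw [show (2 * q + 2 * q - 2) / 2 = 2 * q - 1 by ring]

theorem near_JJ {C L : ℝ} {ξ : P → ℝ} (hL : 2 < L) (h1 : IsTest (ball 0 (L - 1)) ξ)
    (h2 : ∀ x, 0 ≤ ξ x ∧ ξ x ≤ 1) (h3 : ∀ x ∈ closedBall (0 : P) (L - 2), ξ x = 1)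
    (h4 : ∀ x, |d1 ξ x| ≤ C ∧ |d2 ξ x| ≤ C) :
    (1 + 2 * C ^ 2) * (4 * (L - 2) ^ 2) - 2 * C ^ 2 * (4 * L ^ 2) ≤
      JJ ((ball (0 : P) L).indicator fun _ => 1) ξ (d1 ξ) (d2 ξ) := by
  have i1 := h1.integrable
  have i2 := int_sq2 h1.memLp_d1 h1.memLp_d2
  have i3 : Integrable fun x => (ball (0 : P) L).indicator (fun _ => (1 : ℝ)) x * ξ x ^ 2 :=
    int_bdd_mul (L := 1) (aestronglyMeasurable_const.indicator measurableSet_ball)
      (Eventually.of_forall fun x => by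
        by_cases hx : x ∈ ball (0 : P) L <;> simp [hx]) (int_sq h1.memLp)
  have j : ∀ r : ℝ, Integrable ((ball (0 : P) r).indicator fun _ => (1 : ℝ)) := fun r =>
    (integrableOn_const measure_ball_lt_top.ne).integrable_indicator measurableSet_ball
  have k : ∀ r : ℝ, 0 ≤ r → ∫ x, (ball (0 : P) r).indicator (fun _ => (1 : ℝ)) x = 4 * r ^ 2 := by
    intro r hr
    rw [integral_indicator measurableSet_ball, setIntegral_const, smul_eq_mul, mul_one,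
      measureReal_def, volume_ball_P _ hr]
  have i4 : Integrable fun x => 2 * ξ x - (d1 ξ x ^ 2 + d2 ξ x ^ 2) := (i1.const_mul _).sub i2
  unfold JJ
  rw [← k _ (by linarith : 0 ≤ L - 2), ← k _ (by linarith : 0 ≤ L), ← integral_const_mul,
    ← integral_const_mul, ← integral_const_mul, ← integral_sub ((j _).const_mul _)
    ((j _).const_mul _), ← integral_sub (i1.const_mul _) i2,
    ← integral_sub i4 i3]
  refine integral_mono (((j _).const_mul _).sub ((j _).const_mul _))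
    (i4.sub i3) fun x => ?_
  simp only
  by_cases hx : x ∈ ball (0 : P) (L - 2)
  · have hx' : x ∈ ball (0 : P) L := ball_subset_ball (by linarith) hx
    have e : ξ =ᶠ[nhds x] fun _ => 1 := by
      filter_upwards [isOpen_ball.mem_nhds hx] with y hy
      exact h3 y (ball_subset_closedBall hy)
    rw [indicator_of_mem hx, indicator_of_mem hx', d1_congr e, d2_congr e,
      h3 x (ball_subset_closedBall hx)]
    simp only [d1_const, d2_const]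
    linarith
  by_cases hx' : x ∈ ball (0 : P) L
  · rw [indicator_of_notMem hx, indicator_of_mem hx']
    have a1 := sq_le_sq' (abs_le.1 (h4 x).1).1 (abs_le.1 (h4 x).1).2
    have a2 := sq_le_sq' (abs_le.1 (h4 x).2).1 (abs_le.1 (h4 x).2).2
    nlinarith [(h2 x).1, (h2 x).2]
  · have hx2 : x ∉ ball (0 : P) (L - 1) := fun h => hx' (ball_subset_ball (by linarith) h)
    rw [indicator_of_notMem hx, indicator_of_notMem hx', h1.zero_of_notMem hx2, h1.d1_zero hx2,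
      h1.d2_zero hx2]
    simp

theorem near_div {t V q : ℝ} (ht : 0 < t) (hV : 0 < V) :
    t ^ q / V ^ (2 * q - 1) = (t / V) ^ q / V ^ (q - 1) := by
  rw [Real.div_rpow ht.le hV.le, div_div, ← Real.rpow_add hV, show q + (q - 1) = 2 * q - 1 by ring]

theorem near (A : API) (hO : OPTR) (hV : VLAM) (hT : VTORS) (hc : CUTOFF) : NEAR := by
  intro η hη
  by_cases hη1 : 1 ≤ η
  · refine ⟨2, by norm_num, le_rfl, by linarith, fun Ω hΩ _ => ?_⟩
    have := (hT Ω hΩ.1).2.2.1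
    have := (hV.2 Ω hΩ.1).2.1
    nlinarith
  push Not at hη1
  obtain ⟨C, -, hC⟩ := hc
  obtain ⟨c0, c0p, hc0⟩ := hV.1
  set L : ℝ := 8 * (1 + 2 * C ^ 2) / η + 3 with hLdef
  have L1 : 0 < 8 * (1 + 2 * C ^ 2) / η := by positivity
  have L2 : 8 * (1 + 2 * C ^ 2) ≤ η * L := by
    rw [hLdef, mul_add η, mul_div_cancel₀ _ hη.ne']; linarith
  have hL : 2 < L := by linarith
  obtain ⟨ξ, x1, x2, x3, x4⟩ := hC 0 (L - 2) (L - 1) (by linarith) (by linarith)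
  rw [show L - 1 - (L - 2) = 1 by ring, div_one] at x4
  have hJ := near_JJ hL x1 x2 x3 x4
  have V1 : 0 < 4 * L ^ 2 := by positivity
  have hJ' : (1 - η / 2) * (4 * L ^ 2) ≤
      JJ ((ball (0 : P) L).indicator fun _ => 1) ξ (d1 ξ) (d2 ξ) := by
    refine le_trans ?_ hJ
    nlinarith [sq_nonneg C]
  set κ : ℝ := (1 - η) / (1 - η / 2) with hκ
  have κ0 : 0 < κ := div_pos (by linarith) (by linarith)
  have κ1 : κ < 1 := by rw [hκ, div_lt_one (by linarith)]; linarith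
  have r0 : 0 < c0 / (4 * L ^ 2) := by positivity
  have e1 : ∀ᶠ δ in 𝓝 (0 : ℝ), κ < (c0 / (4 * L ^ 2)) ^ δ := by
    refine (Real.continuous_const_rpow r0.ne').continuousAt.eventually (lt_mem_nhds ?_)
    simpa using κ1
  have e2 : ∀ᶠ δ in 𝓝 (0 : ℝ), δ < η := gt_mem_nhds hη
  obtain ⟨δ, ⟨d1', d2'⟩, d3⟩ :=
    (((e1.and e2).filter_mono (nhdsWithin_le_nhds (s := Ioi 0))).and self_mem_nhdsWithin).exists
  have d0 : 0 < δ := d3
  refine ⟨1 + δ, by linarith, by linarith, by linarith, fun Ω hΩ hl => ?_⟩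
  have Tp := (hT Ω hΩ.1).2.2.1
  have Vp := (hV.2 Ω hΩ.1).2.1
  have Vc := hc0 Ω hΩ.1
  rw [hl, one_mul] at Vc
  have tp : 0 < (1 - η / 2) * (4 * L ^ 2) := mul_pos (by linarith) V1
  have key := hO (1 + δ) Ω (ball 0 L) ((ball (0 : P) L).indicator fun _ => 1) L 1 _ (by linarith)
    hΩ isOpen_ball measure_ball_lt_top
    ((integrableOn_const measure_ball_lt_top.ne).integrable_indicator measurableSet_ball)
    (Eventually.of_forall fun x => indicator_nonneg (fun _ _ => zero_le_one) x)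
    (Eventually.of_forall fun x hx => indicator_of_notMem (by simpa using hx) _) one_pos tp
    (fun f f1 f2 hf => by
      have a1 : ∫ x, (ball (0 : P) L).indicator (fun _ => (1 : ℝ)) x * f x ^ 2 = ∫ x, f x ^ 2 := by
        refine integral_congr_ae ?_
        filter_upwards [A.h_zero (A.b_h hf)] with x hx
        by_cases h : x ∈ ball (0 : P) L
        · rw [indicator_of_mem h, one_mul]
        · rw [(hx h).1]; simp
      have a2 : 0 ≤ ∫ x, (f1 x ^ 2 + f2 x ^ 2) := integral_nonneg fun x => by positivity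
      rw [a1]; linarith)
    ξ (d1 ξ) (d2 ξ) (A.b_test (x1.mono (ball_subset_ball (by linarith)))) hJ'
  have v1 : vol (ball (0 : P) L) = 4 * L ^ 2 := volume_ball_P _ (by linarith)
  rw [near_FF, hl, one_mul, one_mul, v1,
    show (2 * (1 + δ) + 2 * (1 + δ) - 2) / 2 = 2 * (1 + δ) - 1 by ring, near_div tp V1,
    near_div Tp Vp, mul_div_cancel_right₀ _ V1.ne', add_sub_cancel_left] at key
  by_contra hcon
  push Not at hcon
  have a0 : 0 < 1 - η / 2 := by linarith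
  have b1 : tors Ω / vol Ω ≤ κ * (1 - η / 2) := by
    rw [hκ, div_mul_cancel₀ _ a0.ne', div_le_iff₀ Vp]; linarith
  have b2 : (tors Ω / vol Ω) ^ (1 + δ) ≤ κ * (1 - η / 2) ^ (1 + δ) := by
    refine (Real.rpow_le_rpow (by positivity) b1 (by linarith)).trans ?_
    rw [Real.mul_rpow κ0.le a0.le]
    refine mul_le_mul_of_nonneg_right ?_ (by positivity)
    exact Real.rpow_le_self_of_le_one κ0.le κ1.le (by linarith)
  have b3 : c0 ^ δ ≤ vol Ω ^ δ := Real.rpow_le_rpow c0p.le Vc d0.le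
  have b4 : 0 < c0 ^ δ := Real.rpow_pos_of_pos c0p _
  have b5 : 0 < (4 * L ^ 2) ^ δ := Real.rpow_pos_of_pos V1 _
  have b6 : 0 < (1 - η / 2) ^ (1 + δ) := Real.rpow_pos_of_pos a0 _
  rw [Real.div_rpow c0p.le V1.le, lt_div_iff₀ b5] at d1'
  rw [div_le_div_iff₀ b5 (b4.trans_le b3)] at key
  have b7 := mul_le_mul_of_nonneg_right b2 b5.le
  have b8 := mul_le_mul_of_nonneg_left b3 b6.le
  have b9 := mul_lt_mul_of_pos_left d1' b6
  nlinarith

theorem hmain (hN : NEAR) (hF : FIRST) (hS : SURG) (hsc : SCALE) (hV : VLAM) : MAIN := by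
  obtain ⟨ρ, ρ0, hρ⟩ := hS
  obtain ⟨q, q1, q2, q3, hq⟩ := hN (ρ ^ 6 / 32) (by positivity)
  refine ⟨q, q1, fun Ω hΩ => ?_⟩
  have l0 := (hV.2 Ω hΩ.1).1
  obtain ⟨a1, a2, -, -, a5⟩ := hsc (√(lam Ω)) Ω (Real.sqrt_pos.2 l0) hΩ.1
  rw [Real.sq_sqrt l0.le, div_self l0.ne'] at a2
  have ho : Opt q (√(lam Ω) • Ω) := ⟨a1, fun Ω' h' => by rw [a5]; exact hΩ.2 Ω' h'⟩
  obtain ⟨u, u1, u2, w, w1, w2, hD⟩ := hF q _ q1 ho a2
  refine hρ q _ u u1 u2 w w1 w2 q1 q2 ho a2 hD ?_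
  have b1 := hq _ ho a2
  have b2 := (hV.2 _ a1).2.1
  nlinarith

theorem near_norm (hsc : SCALE) (hV : VLAM) (q : ℝ) {Ω : Set P} (h : Adm Ω) :
    ∃ Ω', Adm Ω' ∧ vol Ω' = 1 ∧ FF q Ω = lam Ω' * tors Ω' ^ q := by
  have v0 := (hV.2 Ω h).2.1
  obtain ⟨a1, -, -, a4, a5⟩ := hsc (√(vol Ω))⁻¹ Ω (inv_pos.2 (Real.sqrt_pos.2 v0)) h
  rw [inv_pow, Real.sq_sqrt v0.le, inv_mul_cancel₀ v0.ne'] at a4
  refine ⟨_, a1, a4, ?_⟩
  rw [← a5, near_FF, a4, Real.one_rpow, div_one]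

theorem nclosed (hM : MAIN) (hsc : SCALE) (hV : VLAM) (hT : VTORS) : NCLOSED := by
  intro hcl
  obtain ⟨q, q1, hq⟩ := hM
  obtain ⟨c0, c0p, hc0⟩ := hV.1
  obtain ⟨Ω0, A0, v0, -⟩ := near_norm hsc hV q (Ω := ball 0 1)
    ⟨isOpen_ball, measure_ball_pos _ _ one_pos, measure_ball_lt_top⟩
  set m : ℝ := lam Ω0 * tors Ω0 ^ q with hm
  have m0 : 0 < m := mul_pos (hV.2 _ A0).1 (Real.rpow_pos_of_pos (hT _ A0).2.2.1 _)
  set S := {z : ℝ × ℝ | ∃ Ω : Set P, IsOpen Ω ∧ 0 < volume Ω ∧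
    volume Ω ≤ 1 ∧ z = (lam Ω, (lam Ω * tors Ω)⁻¹)} with hS
  let K : Set (ℝ × ℝ) := Icc c0 (m⁻¹ ^ (q - 1)⁻¹) ×ˢ Icc 1 (m * c0 ^ (q - 1))⁻¹
  let Φ : ℝ × ℝ → ℝ := fun z => z.1 * ((z.1 * z.2)⁻¹) ^ q
  have hΦ : ∀ Ω, Adm Ω → Φ (lam Ω, (lam Ω * tors Ω)⁻¹) = lam Ω * tors Ω ^ q := by
    intro Ω h
    have := (hV.2 Ω h).1
    simp only [Φ]
    rw [mul_inv, inv_inv, ← mul_assoc, inv_mul_cancel₀ this.ne', one_mul]
  have hK : ∀ Ω, Adm Ω → vol Ω = 1 → m ≤ lam Ω * tors Ω ^ q →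
      (lam Ω, (lam Ω * tors Ω)⁻¹) ∈ K ∩ S := by
    intro Ω h hv hle
    have l0 := (hV.2 Ω h).1
    have t0 := (hT Ω h).2.2.1
    have a1 := (hT Ω h).2.2.2.1
    have a2 := hc0 Ω h
    rw [hv] at a1
    rw [hv, mul_one] at a2
    have p0 : 0 < lam Ω * tors Ω := mul_pos l0 t0
    have p1 : 0 < lam Ω ^ (q - 1) := Real.rpow_pos_of_pos l0 _
    have e1 : lam Ω * tors Ω ^ q * lam Ω ^ (q - 1) = (lam Ω * tors Ω) ^ q := by
      rw [Real.mul_rpow l0.le t0.le, Real.rpow_sub_one l0.ne']; field_simp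
    have a3 : (lam Ω * tors Ω) ^ q ≤ lam Ω * tors Ω :=
      Real.rpow_le_self_of_le_one p0.le a1 q1.le
    have a4 : m * lam Ω ^ (q - 1) ≤ lam Ω * tors Ω := by
      rw [← e1] at a3
      exact (mul_le_mul_of_nonneg_right hle p1.le).trans a3
    have a5 : c0 ^ (q - 1) ≤ lam Ω ^ (q - 1) := Real.rpow_le_rpow c0p.le a2 (by linarith)
    refine ⟨⟨⟨a2, ?_⟩, (one_le_inv₀ p0).2 a1, ?_⟩, Ω, h.1, h.2.1, ?_, rfl⟩
    · rw [Real.le_rpow_inv_iff_of_pos l0.le (inv_pos.2 m0).le (by linarith), inv_eq_one_div,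
        le_div_iff₀ m0]
      linarith
    · refine inv_anti₀ (mul_pos m0 (Real.rpow_pos_of_pos c0p _)) ?_
      exact (mul_le_mul_of_nonneg_left a5 m0.le).trans a4
    · rw [← ENNReal.ofReal_toReal h.2.2.ne]
      change ENNReal.ofReal (vol Ω) ≤ 1
      rw [hv, ENNReal.ofReal_one]
  have hcomp : IsCompact (K ∩ S) := (isCompact_Icc.prod isCompact_Icc).inter_right hcl
  have hcont : ContinuousOn Φ (K ∩ S) := by
    have hne : ∀ z ∈ K ∩ S, z.1 * z.2 ≠ 0 := fun z hz =>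
      (mul_pos (c0p.trans_le hz.1.1.1) (one_pos.trans_le hz.1.2.1)).ne'
    exact continuousOn_fst.mul (((continuousOn_fst.mul continuousOn_snd).inv₀ hne).rpow_const
      fun z hz => Or.inl (inv_ne_zero (hne z hz)))
  obtain ⟨z, ⟨-, Ω, o1, o2, o3, rfl⟩, hz⟩ := hcomp.exists_isMaxOn ⟨_, hK Ω0 A0 v0 le_rfl⟩ hcont
  have hA : Adm Ω := ⟨o1, o2, o3.trans_lt ENNReal.one_lt_top⟩
  have hmax : ∀ Ω', Adm Ω' → vol Ω' = 1 → m ≤ lam Ω' * tors Ω' ^ q →
      lam Ω' * tors Ω' ^ q ≤ lam Ω * tors Ω ^ q := fun Ω' h1 h2 h3 => by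
    rw [← hΦ Ω' h1, ← hΦ Ω hA]
    exact hz (hK Ω' h1 h2 h3)
  have w0 := (hV.2 Ω hA).2.1
  have w1 : vol Ω ≤ 1 := by
    have := ENNReal.toReal_mono ENNReal.one_ne_top o3
    rwa [ENNReal.toReal_one] at this
  have hge : lam Ω * tors Ω ^ q ≤ FF q Ω := by
    rw [near_FF, le_div_iff₀ (Real.rpow_pos_of_pos w0 _)]
    exact mul_le_of_le_one_right
      (mul_pos (hV.2 _ hA).1 (Real.rpow_pos_of_pos (hT _ hA).2.2.1 _)).le
      (Real.rpow_le_one w0.le w1 (by linarith))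
  refine hq Ω ⟨hA, fun Ω' h' => le_trans ?_ hge⟩
  obtain ⟨Ω'', b1, b2, b3⟩ := near_norm hsc hV q h'
  rw [b3]
  rcases le_total m (lam Ω'' * tors Ω'' ^ q) with h | h
  · exact hmax _ b1 b2 h
  · exact h.trans (hmax _ A0 v0 le_rfl)

end Pool.Agent.H92Z.Fq
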