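import Pool.Agent.H92Z.Fq.Stm

open MeasureTheory Set Filter Metric
open scoped Topology

namespace Pool.Agent.H92Z.Fq

theorem neu_sm (e a : ℝ) (he : 0 < e) : ∃ g g' : ℝ → ℝ, (∀ t, HasDerivAt g (g' t) t) ∧
    Continuous g' ∧ (∀ t, |g' t| ≤ 1) ∧ ∀ t, |g t - (|t - a|)| ≤ e := by
  have hp : ∀ t : ℝ, 0 < (t - a) ^ 2 + e ^ 2 := fun t => by positivity
  refine ⟨fun t => √((t - a) ^ 2 + e ^ 2), fun t => (t - a) / √((t - a) ^ 2 + e ^ 2), ?_, ?_, ?_, ?_⟩
  · intro t
    have h1 : HasDerivAt (fun t : ℝ => (t - a) ^ 2 + e ^ 2) (2 * (t - a)) t := by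
      have := (((hasDerivAt_id t).sub_const a).pow 2).add_const (e ^ 2)
      simpa using this
    have h2 := h1.sqrt (hp t).ne'
    convert h2 using 1
    field_simp
  · exact Continuous.div (by fun_prop) (by fun_prop) (fun t => (Real.sqrt_pos.2 (hp t)).ne')
  · intro t
    rw [abs_div, abs_of_pos (Real.sqrt_pos.2 (hp t)), div_le_one (Real.sqrt_pos.2 (hp t))]
    exact Real.abs_le_sqrt (by nlinarith [sq_nonneg e])
  · intro t
    have h1 : |t - a| ≤ √((t - a) ^ 2 + e ^ 2) := Real.abs_le_sqrt (by nlinarith [sq_nonneg e])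
    have h2 : √((t - a) ^ 2 + e ^ 2) ≤ |t - a| + e := by
      apply Real.sqrt_le_iff.2
      refine ⟨by positivity, ?_⟩
      nlinarith [sq_abs (t - a), abs_nonneg (t - a), mul_nonneg (abs_nonneg (t - a)) he.le]
    rw [abs_le]
    constructor <;> linarith

/-- the fold map -/
noncomputable def neu_fold (r c t : ℝ) : ℝ := 2 * c - t - |t - (c + r)| + |t - (c - r)|

theorem neu_approx (r c e : ℝ) (he : 0 < e) : ∃ F F' : ℝ → ℝ, (∀ t, HasDerivAt F (F' t) t) ∧
    Continuous F' ∧ (∀ t, |F' t| ≤ 3) ∧ ∀ t, |F t - neu_fold r c t| ≤ 2 * e := by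
  obtain ⟨g, g', a1, a2, a3, a4⟩ := neu_sm e (c + r) he
  obtain ⟨k, k', b1, b2, b3, b4⟩ := neu_sm e (c - r) he
  refine ⟨fun t => 2 * c - t - g t + k t, fun t => -1 - g' t + k' t, ?_, by fun_prop, ?_, ?_⟩
  · intro t
    exact (((hasDerivAt_id t).const_sub (2 * c)).sub (a1 t)).add (b1 t)
  · intro t
    have := abs_le.1 (a3 t)
    have := abs_le.1 (b3 t)
    rw [abs_le]
    constructor <;> linarith
  · intro t
    have := abs_le.1 (a4 t)
    have := abs_le.1 (b4 t)
    unfold neu_fold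
    rw [abs_le]
    constructor <;> linarith

/-- the three branches of the fold map -/
def neu_ref (r c : ℝ) (i : Fin 3) (t : ℝ) : ℝ := ![t, 2 * (c + r) - t, 2 * (c - r) - t] i

theorem neu_ref_mp (r c : ℝ) (i : Fin 3) : MeasurePreserving (neu_ref r c i) volume volume := by
  fin_cases i
  · exact MeasurePreserving.id _
  · exact Measure.measurePreserving_sub_left volume (2 * (c + r))
  · exact Measure.measurePreserving_sub_left volume (2 * (c - r))

theorem neu_fold_id {r c t : ℝ} (h : |t - c| < r) : neu_fold r c t = t := by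
  have := abs_lt.1 h
  unfold neu_fold
  rw [abs_of_nonpos (by linarith), abs_of_nonneg (by linarith)]
  ring

theorem neu_fold_br {r c t : ℝ} (hr : 0 < r) (h : |t - c| < 3 * r / 2) :
    |neu_fold r c t - c| ≤ r ∧ ∃ i, neu_fold r c t = neu_ref r c i t := by
  have := abs_lt.1 h
  unfold neu_fold
  rw [abs_le]
  rcases le_total t (c - r) with h1 | h1
  · rw [abs_of_nonpos (by linarith), abs_of_nonpos (by linarith)]
    refine ⟨⟨by linarith, by linarith⟩, 2, ?_⟩
    show _ = 2 * (c - r) - t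
    ring
  · rcases le_total t (c + r) with h2 | h2
    · rw [abs_of_nonpos (by linarith), abs_of_nonneg (by linarith)]
      refine ⟨⟨by linarith, by linarith⟩, 0, ?_⟩
      show _ = t
      ring
    · rw [abs_of_nonneg (by linarith), abs_of_nonneg (by linarith)]
      refine ⟨⟨by linarith, by linarith⟩, 1, ?_⟩
      show _ = 2 * (c + r) - t
      ring

theorem neu_mem_ball {x x0 : P} {r : ℝ} (h : x ∈ ball x0 r) :
    |x.1 - x0.1| < r ∧ |x.2 - x0.2| < r := by
  rw [mem_ball, Prod.dist_eq, max_lt_iff, Real.dist_eq, Real.dist_eq] at h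
  exact h

theorem neu_nine (G : P → ℝ) (hG : Continuous G) (h0 : ∀ x, 0 ≤ G x) (x0 : P) (r : ℝ)
    (hr : 0 < r) : ∫ x in ball x0 (3 * r / 2), G (neu_fold r x0.1 x.1, neu_fold r x0.2 x.2) ≤
      9 * ∫ x in ball x0 r, G x := by
  set H : P → ℝ := (closedBall x0 r).indicator G with hH
  have hHi : Integrable H := (integrable_indicator_iff measurableSet_closedBall).2
    (hG.continuousOn.integrableOn_compact (isCompact_closedBall _ _))
  have hH0 : ∀ x, 0 ≤ H x := fun x => indicator_nonneg (fun y _ => h0 y) x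
  have hmp : ∀ p : Fin 3 × Fin 3, MeasurePreserving
      (Prod.map (neu_ref r x0.1 p.1) (neu_ref r x0.2 p.2)) (volume : Measure P) volume :=
    fun p => (neu_ref_mp r x0.1 p.1).prod (neu_ref_mp r x0.2 p.2)
  have hi : ∀ p : Fin 3 × Fin 3, Integrable
      (fun x : P => H (Prod.map (neu_ref r x0.1 p.1) (neu_ref r x0.2 p.2) x)) :=
    fun p => (hmp p).integrable_comp_of_integrable hHi
  have he : ∀ p : Fin 3 × Fin 3,
      ∫ x : P, H (Prod.map (neu_ref r x0.1 p.1) (neu_ref r x0.2 p.2) x) =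
        ∫ x in ball x0 r, G x := by
    intro p
    rw [← integral_map (hmp p).measurable.aemeasurable
      (by rw [(hmp p).map_eq]; exact hHi.aestronglyMeasurable), (hmp p).map_eq, hH,
      integral_indicator measurableSet_closedBall]
    apply setIntegral_congr_set
    rw [← ball_union_sphere]
    exact union_ae_eq_left_of_ae_eq_empty (ae_eq_empty.2 (Measure.addHaar_sphere _ _ _))
  rw [← integral_indicator measurableSet_ball]
  have h1 : ∫ x : P, ∑ p : Fin 3 × Fin 3,
      H (Prod.map (neu_ref r x0.1 p.1) (neu_ref r x0.2 p.2) x) = 9 * ∫ x in ball x0 r, G x := by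
    rw [integral_finsetSum _ (fun p _ => hi p)]
    simp only [he]
    simp
  rw [← h1]
  refine integral_mono_of_nonneg (Eventually.of_forall (fun x => indicator_nonneg
    (fun y _ => h0 _) x)) (integrable_finsetSum _ (fun p _ => hi p))
    (Eventually.of_forall (fun x => ?_))
  by_cases hx : x ∈ ball x0 (3 * r / 2)
  · rw [indicator_of_mem hx]
    obtain ⟨e1, e2⟩ := neu_mem_ball hx
    obtain ⟨a1, i, a2⟩ := neu_fold_br hr e1
    obtain ⟨b1, j, b2⟩ := neu_fold_br hr e2
    refine le_trans (le_of_eq ?_) (Finset.single_le_sum (f := fun p : Fin 3 × Fin 3 =>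
      H (Prod.map (neu_ref r x0.1 p.1) (neu_ref r x0.2 p.2) x)) (fun p _ => hH0 _)
      (Finset.mem_univ (i, j)))
    have e3 : Prod.map (neu_ref r x0.1 i) (neu_ref r x0.2 j) x =
        (neu_fold r x0.1 x.1, neu_fold r x0.2 x.2) := Prod.ext a2.symm b2.symm
    simp only [e3, hH]
    rw [indicator_of_mem]
    rw [mem_closedBall, Prod.dist_eq, max_le_iff, Real.dist_eq, Real.dist_eq]
    exact ⟨a1, b1⟩
  · rw [indicator_of_notMem hx]
    exact Finset.sum_nonneg (fun p _ => hH0 _)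

theorem neu_comp {φ : P → ℝ} (hφ : ContDiff ℝ 1 φ) {F F' K K' : ℝ → ℝ}
    (hF : ∀ t, HasDerivAt F (F' t) t) (hF' : Continuous F') (hK : ∀ t, HasDerivAt K (K' t) t)
    (hK' : Continuous K') : ContDiff ℝ 1 (fun x : P => φ (F x.1, K x.2)) ∧
    ∀ x : P, d1 (fun x : P => φ (F x.1, K x.2)) x = d1 φ (F x.1, K x.2) * F' x.1 ∧
      d2 (fun x : P => φ (F x.1, K x.2)) x = d2 φ (F x.1, K x.2) * K' x.2 := by
  refine ⟨hφ.comp (((contDiff_one_of_hasDerivAt hF hF').comp contDiff_fst).prodMk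
    ((contDiff_one_of_hasDerivAt hK hK').comp contDiff_snd)), fun x => ?_⟩
  have h1 := ((hF x.1).comp_hasFDerivAt x (hasFDerivAt_fst (𝕜 := ℝ))).prodMk
    ((hK x.2).comp_hasFDerivAt x (hasFDerivAt_snd (𝕜 := ℝ)))
  have h2 := ((hφ.differentiable (by simp) (F x.1, K x.2)).hasFDerivAt.comp x h1).fderiv
  have h3 : fderiv ℝ (fun x : P => φ (F x.1, K x.2)) x = _ := h2
  constructor
  · unfold d1
    rw [h3, ContinuousLinearMap.comp_apply, fderiv_apply_eq]
    simp [d1]
  · unfold d2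
    rw [h3, ContinuousLinearMap.comp_apply, fderiv_apply_eq]
    simp [d2]

theorem neum (hc : CUTOFF) (hP : POINC) : NEUM := by
  obtain ⟨C, hC, hc⟩ := hc
  obtain ⟨Q, hQ, hP, -⟩ := hP
  refine ⟨9 * (16 * C ^ 2 * Q + 18) + 9 * Q, by positivity, ?_⟩
  intro β x0 r a b hβ hβ0 hr ha hb h φ hφ
  obtain ⟨c, hPc⟩ := hP φ x0 r hφ.c1 hr
  obtain ⟨ξ, hξ, hξ1, hξ2, hξ3⟩ := hc x0 r (3 * r / 2) hr (by linarith)
  refine ⟨c, ?_⟩
  set K : ℝ := C / (3 * r / 2 - r) with hK
  have hK0 : 0 < K := div_pos hC (by linarith)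
  have hKr : K * r = 2 * C := by
    rw [hK]
    field_simp
    ring
  obtain ⟨L, hL, hLb⟩ := hφ.bdd
  set G : P → ℝ := fun x => (4 * K ^ 2 * a + b) * (φ x - c) ^ 2 +
    18 * a * (d1 φ x ^ 2 + d2 φ x ^ 2) with hG
  have c0 := hφ.cont
  have c1 := hφ.d1_cont
  have c2 := hφ.d2_cont
  have hGc : Continuous G := by fun_prop
  have hG0 : ∀ x, 0 ≤ G x := fun x => by positivity
  have hφc : ∀ x, (φ x - c) ^ 2 ≤ (L + |c|) ^ 2 := by
    intro x
    rw [← sq_abs]
    exact pow_le_pow_left₀ (abs_nonneg _) ((abs_sub _ _).trans (by linarith [(hLb x).1])) 2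
  have hGb : ∀ x, G x ≤ (4 * K ^ 2 * a + b) * (L + |c|) ^ 2 + 18 * a * (L ^ 2 + L ^ 2) := by
    intro x
    have e1 : d1 φ x ^ 2 ≤ L ^ 2 := by
      rw [← sq_abs]; exact pow_le_pow_left₀ (abs_nonneg _) (hLb x).2.1 2
    have e2 : d2 φ x ^ 2 ≤ L ^ 2 := by
      rw [← sq_abs]; exact pow_le_pow_left₀ (abs_nonneg _) (hLb x).2.2 2
    have e3 := hφc x
    simp only [hG]
    gcongr
  have hpos : ∀ n : ℕ, (0 : ℝ) < 1 / ((n : ℝ) + 1) := fun n => by positivity
  choose F F' f1 f2 f3 f4 using fun n : ℕ => neu_approx r x0.1 _ (hpos n)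
  choose E E' e1 e2 e3 e4 using fun n : ℕ => neu_approx r x0.2 _ (hpos n)
  have lim : ∀ (U : ℕ → ℝ) (u : ℝ), (∀ n : ℕ, |U n - u| ≤ 2 * (1 / ((n : ℝ) + 1))) →
      Tendsto U atTop (𝓝 u) := by
    intro U u hU
    rw [tendsto_iff_norm_sub_tendsto_zero]
    refine squeeze_zero (fun n => norm_nonneg _) hU ?_
    have := tendsto_one_div_add_atTop_nhds_zero_nat (𝕜 := ℝ).const_mul 2
    simpa using this
  set Φ : ℕ → P → P := fun n x => (F n x.1, E n x.2) with hΦ
  have hΦc : ∀ n, Continuous (Φ n) := by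
    intro n
    have i1 : Continuous (F n) := continuous_iff_continuousAt.2 (fun t => (f1 n t).continuousAt)
    have i2 : Continuous (E n) := continuous_iff_continuousAt.2 (fun t => (e1 n t).continuousAt)
    simp only [hΦ]
    fun_prop
  have hΦl : ∀ x : P, Tendsto (fun n => Φ n x) atTop
      (𝓝 (neu_fold r x0.1 x.1, neu_fold r x0.2 x.2)) := fun x =>
    (lim _ _ (fun n => f4 n x.1)).prodMk_nhds (lim _ _ (fun n => e4 n x.2))
  have fin : ∀ s : ℝ, IsFiniteMeasure ((volume : Measure P).restrict (ball x0 s)) := fun s =>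
    isFiniteMeasure_restrict.2 measure_ball_lt_top.ne
  have step : ∀ n, ∫ x in ball x0 r, β x * (φ (Φ n x) - c) ^ 2 ≤
      ∫ x in ball x0 (3 * r / 2), G (Φ n x) := by
    intro n
    obtain ⟨k1, k2⟩ := neu_comp hφ.c1 (f1 n) (f2 n) (e1 n) (e2 n)
    have k3 : ContDiff ℝ 1 (fun x : P => φ (Φ n x) - c) := k1.sub contDiff_const
    have hψ := hξ.mul_c1 k3
    have k4 := h _ hψ
    set ψ : P → ℝ := fun x => ξ x * (φ (Φ n x) - c) with hψd
    obtain ⟨M, -, hM⟩ := hψ.bdd
    have i1 : Integrable (fun x => β x * ψ x ^ 2) := by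
      have := int_bdd_mul (b := fun x => ψ x ^ 2) (L := M ^ 2)
        (hψ.cont.pow 2).aestronglyMeasurable (Eventually.of_forall (fun x => by
          rw [abs_pow]; exact pow_le_pow_left₀ (abs_nonneg _) (hM x).1 2)) hβ
      simpa only [mul_comm] using this
    have k5 : ∫ x in ball x0 r, β x * (φ (Φ n x) - c) ^ 2 ≤ ∫ x, β x * ψ x ^ 2 := by
      refine le_trans (le_of_eq ?_) (setIntegral_le_integral (s := ball x0 r) i1 ?_)
      · refine setIntegral_congr_fun measurableSet_ball (fun x hx => ?_)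
        simp only [hψd, hξ2 x (ball_subset_closedBall hx), one_mul]
      · filter_upwards [hβ0] with x hx
        exact mul_nonneg hx (sq_nonneg _)
    refine k5.trans (k4.trans ?_)
    have i2 := int_sq2 hψ.memLp_d1 hψ.memLp_d2
    have i3 := int_sq hψ.memLp
    rw [← integral_const_mul, ← integral_const_mul, ← integral_add (i2.const_mul a)
      (i3.const_mul b), ← setIntegral_eq_integral_of_forall_compl_eq_zero
        (s := ball x0 (3 * r / 2)) (fun x hx => by
          rw [hψ.d1_zero hx, hψ.d2_zero hx, hψ.zero_of_notMem hx]; simp)]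
    have := fin (3 * r / 2)
    refine setIntegral_mono ((i2.const_mul a).add (i3.const_mul b)).integrableOn
      (Integrable.of_bound (hGc.comp (hΦc n)).aestronglyMeasurable _
        (Eventually.of_forall (fun x => by
          rw [Real.norm_of_nonneg (hG0 _)]; exact hGb _))) (fun x => ?_)
    have dd := k1.differentiable (by simp) x
    have m1 : d1 ψ x = d1 ξ x * (φ (Φ n x) - c) + ξ x * (d1 φ (Φ n x) * F' n x.1) := by
      rw [hψd, d1_mul (hξ.diff x) (k3.differentiable (by simp) x),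
        d1_sub dd (differentiableAt_const c), d1_const, sub_zero, (k2 x).1]
    have m2 : d2 ψ x = d2 ξ x * (φ (Φ n x) - c) + ξ x * (d2 φ (Φ n x) * E' n x.2) := by
      rw [hψd, d2_mul (hξ.diff x) (k3.differentiable (by simp) x),
        d2_sub dd (differentiableAt_const c), d2_const, sub_zero, (k2 x).2]
    have gen : ∀ p u s d g : ℝ, |p| ≤ K → 0 ≤ s → s ≤ 1 → |g| ≤ 3 →
        (p * u + s * (d * g)) ^ 2 ≤ 2 * K ^ 2 * u ^ 2 + 18 * d ^ 2 := by
      intro p u s d g h1 h2 h3 h4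
      have q1 : p ^ 2 ≤ K ^ 2 := by
        rw [← sq_abs]; exact pow_le_pow_left₀ (abs_nonneg _) h1 2
      have q2 : g ^ 2 ≤ 3 ^ 2 := by
        rw [← sq_abs]; exact pow_le_pow_left₀ (abs_nonneg _) h4 2
      have q3 : s ^ 2 ≤ 1 := by nlinarith
      have q4 : (p * u) ^ 2 ≤ K ^ 2 * u ^ 2 := by
        rw [mul_pow]; gcongr
      have q5 : (s * (d * g)) ^ 2 ≤ 1 * (d ^ 2 * 3 ^ 2) := by
        rw [mul_pow, mul_pow]; gcongr
      nlinarith [sq_nonneg (p * u - s * (d * g))]
    have n1 := gen _ (φ (Φ n x) - c) _ (d1 φ (Φ n x)) _ (hξ3 x).1 (hξ1 x).1 (hξ1 x).2 (f3 n x.1)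
    have n2 := gen _ (φ (Φ n x) - c) _ (d2 φ (Φ n x)) _ (hξ3 x).2 (hξ1 x).1 (hξ1 x).2 (e3 n x.2)
    have n3 : ψ x ^ 2 ≤ (φ (Φ n x) - c) ^ 2 := by
      simp only [hψd, mul_pow]
      have q3 : ξ x ^ 2 ≤ 1 := by nlinarith [(hξ1 x).1, (hξ1 x).2]
      nlinarith [sq_nonneg (φ (Φ n x) - c)]
    rw [← m1] at n1
    rw [← m2] at n2
    have n4 := mul_le_mul_of_nonneg_left (add_le_add n1 n2) ha
    have n5 := mul_le_mul_of_nonneg_left n3 hb
    simp only [hG]
    linear_combination n4 + n5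
  have l1 : Tendsto (fun n => ∫ x in ball x0 r, β x * (φ (Φ n x) - c) ^ 2) atTop
      (𝓝 (∫ x in ball x0 r, β x * (φ x - c) ^ 2)) := by
    refine tendsto_integral_of_dominated_convergence (fun x => |β x| * (L + |c|) ^ 2)
      (fun n => ?_) (hβ.abs.mul_const _).integrableOn (fun n => Eventually.of_forall (fun x => ?_)) ?_
    · exact hβ.aestronglyMeasurable.restrict.mul
        (((c0.comp (hΦc n)).sub continuous_const).pow 2).aestronglyMeasurable
    · rw [norm_mul, Real.norm_eq_abs, Real.norm_of_nonneg (sq_nonneg _)]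
      exact mul_le_mul_of_nonneg_left (hφc _) (abs_nonneg _)
    · filter_upwards [ae_restrict_mem measurableSet_ball] with x hx
      obtain ⟨j1, j2⟩ := neu_mem_ball hx
      have := hΦl x
      rw [neu_fold_id j1, neu_fold_id j2] at this
      exact ((((c0.tendsto x).comp this).sub_const c).pow 2).const_mul _
  have l2 : Tendsto (fun n => ∫ x in ball x0 (3 * r / 2), G (Φ n x)) atTop
      (𝓝 (∫ x in ball x0 (3 * r / 2), G (neu_fold r x0.1 x.1, neu_fold r x0.2 x.2))) := by
    have := fin (3 * r / 2)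
    refine tendsto_integral_of_dominated_convergence (fun _ => (4 * K ^ 2 * a + b) * (L + |c|) ^ 2 +
      18 * a * (L ^ 2 + L ^ 2)) (fun n => (hGc.comp (hΦc n)).aestronglyMeasurable)
      (integrable_const _) (fun n => Eventually.of_forall (fun x => ?_))
      (Eventually.of_forall (fun x => (hGc.tendsto _).comp (hΦl x)))
    rw [Real.norm_of_nonneg (hG0 _)]
    exact hGb _
  refine (le_of_tendsto_of_tendsto' l1 l2 step).trans ((neu_nine G hGc hG0 x0 r hr).trans ?_)
  have j1 : IntegrableOn (fun x => (φ x - c) ^ 2) (ball x0 r) :=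
    (((c0.sub continuous_const).pow 2).continuousOn.integrableOn_compact
      (isCompact_closedBall x0 r)).mono_set ball_subset_closedBall
  have j2 : IntegrableOn (fun x => d1 φ x ^ 2 + d2 φ x ^ 2) (ball x0 r) :=
    (int_sq2 hφ.memLp_d1 hφ.memLp_d2).integrableOn
  simp only [hG]
  rw [integral_add (j1.const_mul _) (j2.const_mul _), integral_const_mul, integral_const_mul]
  set X := ∫ x in ball x0 r, (d1 φ x ^ 2 + d2 φ x ^ 2) with hX
  have hX0 : 0 ≤ X := integral_nonneg (fun x => by positivity)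
  have j3 := mul_le_mul_of_nonneg_left hPc (show 0 ≤ 4 * K ^ 2 * a + b by positivity)
  have j4 : (4 * K ^ 2 * a + b) * (Q * r ^ 2 * X) = 16 * C ^ 2 * Q * a * X + b * r ^ 2 * Q * X := by
    have : K ^ 2 * r ^ 2 = 4 * C ^ 2 := by rw [← mul_pow, hKr]; ring
    linear_combination (4 * a * Q * X) * this
  have j5 : 0 ≤ Q * a * X := by positivity
  have j6 : 0 ≤ (16 * C ^ 2 * Q + 18) * (b * r ^ 2) * X := by positivity
  rw [j4] at j3
  linear_combination 9 * j3 + 9 * j5 + 9 * j6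

end Pool.Agent.H92Z.Fq
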