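import Pool.Agent.H92Z.Fq.Perf1

open MeasureTheory Set Filter Metric
open scoped Topology

namespace Pool.Agent.H92Z.Fq

theorem perf_aff_c1 (e : ℝ) (c : P) : ContDiff ℝ 1 fun x : P => e⁻¹ • (x - c) := by fun_prop

theorem perf_aff_fderiv (e : ℝ) (c : P) {K : P → ℝ} (hK : ContDiff ℝ 1 K) (x v : P) :
    fderiv ℝ (fun x : P => K (e⁻¹ • (x - c))) x v = e⁻¹ * fderiv ℝ K (e⁻¹ • (x - c)) v := by
  have h1 : HasFDerivAt (fun x : P => e⁻¹ • (x - c)) (e⁻¹ • ContinuousLinearMap.id ℝ P) x :=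
    ((hasFDerivAt_id x).sub_const c).const_smul e⁻¹
  have h2 := (hK.differentiable (by simp) (e⁻¹ • (x - c))).hasFDerivAt.comp x h1
  have h3 := h2.fderiv
  change fderiv ℝ (K ∘ fun x : P => e⁻¹ • (x - c)) x v = _
  rw [h3]
  simp

theorem perf_aff_d1 (m e : ℝ) (c : P) {K : P → ℝ} (hK : ContDiff ℝ 1 K) :
    d1 (fun x : P => m * K (e⁻¹ • (x - c))) = fun x => (m * e⁻¹) * d1 K (e⁻¹ • (x - c)) := by
  ext x
  rw [d1_const_mul (u := fun x : P => K (e⁻¹ • (x - c))) m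
    ((hK.comp (perf_aff_c1 e c)).differentiable (by simp) x)]
  unfold d1
  rw [perf_aff_fderiv e c hK]; ring

theorem perf_aff_d2 (m e : ℝ) (c : P) {K : P → ℝ} (hK : ContDiff ℝ 1 K) :
    d2 (fun x : P => m * K (e⁻¹ • (x - c))) = fun x => (m * e⁻¹) * d2 K (e⁻¹ • (x - c)) := by
  ext x
  rw [d2_const_mul (u := fun x : P => K (e⁻¹ • (x - c))) m
    ((hK.comp (perf_aff_c1 e c)).differentiable (by simp) x)]
  unfold d2
  rw [perf_aff_fderiv e c hK]; ring

theorem perf_aff_int {e : ℝ} (he : 0 < e) (c : P) (f : P → ℝ) :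
    ∫ x, f (e⁻¹ • (x - c)) = e ^ 2 * ∫ x, f x := by
  rw [integral_sub_right_eq_self (fun x => f (e⁻¹ • x)) c,
    Measure.integral_comp_inv_smul_of_nonneg _ f he.le]
  simp

theorem perf_aff_norm {e : ℝ} (he : 0 < e) {c x : P} (h : e ≤ ‖x - c‖) :
    1 ≤ ‖e⁻¹ • (x - c)‖ := by
  rw [norm_smul, Real.norm_eq_abs, abs_of_pos (inv_pos.mpr he), ← div_eq_inv_mul,
    le_div_iff₀ he]
  linarith

theorem perf_cs {f : P → ℝ} {c : P} {e : ℝ} (h : ∀ x, e ≤ ‖x - c‖ → f x = 0) :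
    HasCompactSupport f :=
  HasCompactSupport.intro (isCompact_closedBall c e) fun x hx => h x (by
    rw [mem_closedBall_iff_norm, not_le] at hx
    exact hx.le)

/-- one hole -/
theorem perf_hole : ∃ C0 : ℝ, 0 ≤ C0 ∧ ∀ (m e : ℝ) (c : P), 0 ≤ m → 0 < e → ∃ Z w : P → ℝ,
    ContDiff ℝ 1 Z ∧ ContDiff ℝ 1 (d1 Z) ∧ ContDiff ℝ 1 (d2 Z) ∧ Continuous w ∧
    (∀ x, 0 ≤ Z x) ∧ (∀ x, e ≤ ‖x - c‖ → Z x = 0 ∧ w x = 0) ∧
    (∀ x, 0 ≤ w x ∧ w x ≤ C0 * (m / e ^ 2)) ∧ ∫ x, w x = m ∧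
    (∀ x, Z x < 1 → d1 (d1 Z) x + d2 (d2 Z) x = w x) ∧
    ∫ x, Z x ≤ C0 * e ^ 2 * m ∧ ∫ x, (|d1 Z x| + |d2 Z x|) ≤ C0 * e * m := by
  obtain ⟨β, C0, bc, bb, bz, bi, hK⟩ := perf_unit
  refine ⟨C0, (bb 0).1.trans (bb 0).2, fun m e c hm he => ?_⟩
  obtain ⟨K, k0, k1, k2, kn, kz, kl, ki, kg⟩ := hK m⁻¹
  have ca := perf_aff_c1 e c
  refine ⟨fun x => m * K (e⁻¹ • (x - c)), fun x => (m / e ^ 2) * β (e⁻¹ • (x - c)),
    contDiff_const.mul (k0.comp ca), ?_, ?_, continuous_const.mul (bc.comp ca.continuous),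
    fun x => mul_nonneg hm (kn _), fun x hx => ?_, fun x => ⟨?_, ?_⟩, ?_, fun x hx => ?_, ?_, ?_⟩
  · rw [perf_aff_d1 m e c k0]; exact contDiff_const.mul (k1.comp ca)
  · rw [perf_aff_d2 m e c k0]; exact contDiff_const.mul (k2.comp ca)
  · simp only [kz _ (perf_aff_norm he hx), bz _ (perf_aff_norm he hx), mul_zero, and_self]
  · exact mul_nonneg (by positivity) (bb _).1
  · rw [mul_comm C0]
    exact mul_le_mul_of_nonneg_left (bb _).2 (by positivity)
  · rw [integral_const_mul, perf_aff_int he c β, bi]; field_simp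
  · rw [perf_aff_d1 m e c k0, perf_aff_d2 m e c k0, perf_aff_d1 _ e c k1, perf_aff_d2 _ e c k2]
    rcases hm.eq_or_lt with h0 | h0
    · simp [← h0]
    · have : K (e⁻¹ • (x - c)) < m⁻¹ := by
        rw [← one_div m, lt_div_iff₀ h0]
        simp only at hx
        linarith
      simp only
      rw [← mul_add, kl _ this]
      field_simp
  · rw [integral_const_mul, perf_aff_int he c K]
    have : m * (e ^ 2 * ∫ x, K x) ≤ m * (e ^ 2 * C0) := by gcongr
    linarith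
  · rw [perf_aff_d1 m e c k0, perf_aff_d2 m e c k0]
    have hme : 0 ≤ m * e⁻¹ := by positivity
    simp only [abs_mul (m * e⁻¹), abs_of_nonneg hme, ← mul_add]
    rw [integral_const_mul, perf_aff_int he c fun x => |d1 K x| + |d2 K x|]
    have : m * e⁻¹ * (e ^ 2 * ∫ x, (|d1 K x| + |d2 K x|)) ≤ m * e⁻¹ * (e ^ 2 * C0) := by gcongr
    refine this.trans (le_of_eq ?_)
    field_simp

theorem perf_d1_sum {ι : Type} (I : Finset ι) {Z : ι → P → ℝ} (h : ∀ i, ContDiff ℝ 1 (Z i)) :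
    d1 (fun x => ∑ i ∈ I, Z i x) = fun x => ∑ i ∈ I, d1 (Z i) x := by
  ext x
  unfold d1
  rw [fderiv_fun_sum fun i _ => (h i).differentiable (by simp) x]
  simp

theorem perf_d2_sum {ι : Type} (I : Finset ι) {Z : ι → P → ℝ} (h : ∀ i, ContDiff ℝ 1 (Z i)) :
    d2 (fun x => ∑ i ∈ I, Z i x) = fun x => ∑ i ∈ I, d2 (Z i) x := by
  ext x
  unfold d2
  rw [fderiv_fun_sum fun i _ => (h i).differentiable (by simp) x]
  simp

theorem perf_osc {w G : P → ℝ} {c : P} {η : ℝ} (hw : Integrable w)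
    (hwG : Integrable fun x => w x * G x) (h0 : ∀ x, 0 ≤ w x)
    (h : ∀ x, w x ≠ 0 → |G x - G c| ≤ η) :
    |(∫ x, w x * G x) - (∫ x, w x) * G c| ≤ η * ∫ x, w x := by
  rw [← integral_mul_const, ← integral_sub hwG (hw.mul_const _), ← integral_const_mul]
  refine (abs_integral_le_integral_abs).trans (integral_mono (hwG.sub (hw.mul_const _)).abs
    (hw.const_mul _) fun x => ?_)
  by_cases hx : w x = 0
  · simp [hx]
  · simp only
    rw [← mul_sub, abs_mul, abs_of_nonneg (h0 x), mul_comm]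
    exact mul_le_mul_of_nonneg_right (h x hx) (h0 x)

theorem perf_sum_le {ι : Type} (I : Finset ι) {f : ι → ℝ} {M : ℝ} (i0 : ι) (hM : 0 ≤ M)
    (h : ∀ i, f i ≤ M) (h0 : ∀ i, i ≠ i0 → f i = 0) : ∑ i ∈ I, f i ≤ M := by
  by_cases hi : i0 ∈ I
  · rw [Finset.sum_eq_single_of_mem i0 hi fun j _ hj => h0 j hj]; exact h i0
  · rw [Finset.sum_eq_zero fun j hj => h0 j (fun e => hi (e ▸ hj))]; exact hM

/-- index of the cell containing a point -/
noncomputable def perf_idx (ε : ℝ) (x : P) : ℤ × ℤ := (⌊x.1 / ε⌋, ⌊x.2 / ε⌋)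

/-- centre of a cell -/
noncomputable def perf_ctr (ε : ℝ) (i : ℤ × ℤ) : P := ((i.1 + 1 / 2) * ε, (i.2 + 1 / 2) * ε)

theorem perf_idx_meas (ε : ℝ) : Measurable (perf_idx ε) := by
  unfold perf_idx
  exact (measurable_fst.div_const ε).floor.prodMk (measurable_snd.div_const ε).floor

theorem perf_fl1 {ε : ℝ} (hε : 0 < ε) (t : ℝ) : |t - (⌊t / ε⌋ + 1 / 2) * ε| ≤ ε / 2 := by
  have h1 := Int.floor_le (t / ε)
  have h2 := Int.lt_floor_add_one (t / ε)
  rw [le_div_iff₀ hε] at h1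
  rw [div_lt_iff₀ hε] at h2
  rw [abs_le]; constructor <;> nlinarith

theorem perf_fl2 {ε : ℝ} (hε : 0 < ε) {t : ℝ} {i : ℤ} (h : |t - (i + 1 / 2) * ε| < ε / 2) :
    ⌊t / ε⌋ = i := by
  rw [abs_lt] at h
  rw [Int.floor_eq_iff, le_div_iff₀ hε, div_lt_iff₀ hε]
  constructor <;> nlinarith [h.1, h.2]

theorem perf_near {ε : ℝ} (hε : 0 < ε) (x : P) : ‖x - perf_ctr ε (perf_idx ε x)‖ ≤ ε / 2 := by
  rw [Prod.norm_def]
  exact max_le (perf_fl1 hε x.1) (perf_fl1 hε x.2)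

theorem perf_far {ε : ℝ} (hε : 0 < ε) {x : P} {i : ℤ × ℤ} (h : i ≠ perf_idx ε x) :
    ε / 2 ≤ ‖x - perf_ctr ε i‖ := by
  by_contra hc
  rw [not_le, Prod.norm_def, max_lt_iff] at hc
  exact h (Prod.ext (perf_fl2 hε hc.1).symm (perf_fl2 hε hc.2).symm)

/-- the finite index set -/
noncomputable def perf_I (ε R : ℝ) : Finset (ℤ × ℤ) :=
  Finset.Icc (-⌈|R| / ε⌉) ⌈|R| / ε⌉ ×ˢ Finset.Icc (-⌈|R| / ε⌉) ⌈|R| / ε⌉

theorem perf_fl3 {ε R t : ℝ} (hε : 0 < ε) (h : |t| ≤ |R|) :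
    ⌊t / ε⌋ ∈ Finset.Icc (-⌈|R| / ε⌉) ⌈|R| / ε⌉ := by
  rw [abs_le] at h
  rw [Finset.mem_Icc]
  constructor
  · rw [← Int.floor_neg]
    apply Int.floor_mono
    rw [← neg_div]
    exact div_le_div_of_nonneg_right h.1 hε.le
  · exact (Int.floor_mono (div_le_div_of_nonneg_right h.2 hε.le)).trans (Int.floor_le_ceil _)

theorem perf_idx_mem {ε R : ℝ} (hε : 0 < ε) {x : P} (h : ‖x‖ < R) : perf_idx ε x ∈ perf_I ε R := by
  have h1 := norm_fst_le x
  have h2 := norm_snd_le x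
  rw [Real.norm_eq_abs] at h1 h2
  exact Finset.mem_product.mpr ⟨perf_fl3 hε (by linarith [le_abs_self R]),
    perf_fl3 hε (by linarith [le_abs_self R])⟩

theorem perf_fl4 {ε R : ℝ} (hε : 0 < ε) {i : ℤ} (h : i ∈ Finset.Icc (-⌈|R| / ε⌉) ⌈|R| / ε⌉) :
    |(i + 1 / 2) * ε| ≤ |R| + 3 / 2 * ε := by
  rw [Finset.mem_Icc] at h
  have h1 : -(⌈|R| / ε⌉ : ℝ) ≤ i := by exact_mod_cast h.1
  have h2 : (i : ℝ) ≤ ⌈|R| / ε⌉ := by exact_mod_cast h.2
  have h3 := Int.ceil_lt_add_one (|R| / ε)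
  have h4 : (⌈|R| / ε⌉ : ℝ) * ε ≤ |R| + ε := by
    have : (⌈|R| / ε⌉ : ℝ) * ε ≤ (|R| / ε + 1) * ε := mul_le_mul_of_nonneg_right h3.le hε.le
    rwa [add_mul, div_mul_cancel₀ _ hε.ne', one_mul] at this
  rw [abs_le]; constructor <;> nlinarith

theorem perf_ctr_le {ε R : ℝ} (hε : 0 < ε) {i : ℤ × ℤ} (h : i ∈ perf_I ε R) :
    ‖perf_ctr ε i‖ ≤ |R| + 3 / 2 * ε := by
  rw [Prod.norm_def]
  have := Finset.mem_product.mp h
  exact max_le (perf_fl4 hε this.1) (perf_fl4 hε this.2)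

theorem perf_step : ∃ C0 : ℝ, 0 ≤ C0 ∧ ∀ (b : P → ℝ) (L R : ℝ), Measurable b →
    (∀ x, 0 ≤ b x ∧ b x ≤ L) → (∀ x, R ≤ ‖x‖ → b x = 0) → ∀ ε : ℝ, 0 < ε → ε ≤ 1 →
    ∃ p bn : P → ℝ, (ContDiff ℝ 1 p ∧ ContDiff ℝ 1 (d1 p) ∧ ContDiff ℝ 1 (d2 p) ∧
    Continuous bn ∧ (∀ x, p x ≤ 1) ∧ (∀ x, |R| + 2 ≤ ‖x‖ → p x = 1 ∧ bn x = 0) ∧
    (∀ x, 0 ≤ bn x ∧ bn x ≤ C0 * (4 * L)) ∧
    (∀ x, 0 < p x → d1 (d1 p) x + d2 (d2 p) x = - bn x)) ∧
    ∫ x, (1 - p x) ≤ C0 * ε * ∫ x, b x ∧ ∫ x, (|d1 p x| + |d2 p x|) ≤ C0 * ε * ∫ x, b x ∧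
    ∀ (G : P → ℝ) (η : ℝ), Continuous G → HasCompactSupport G →
      (∀ x y, ‖x - y‖ ≤ ε → |G x - G y| ≤ η) →
      |(∫ x, bn x * G x) - ∫ x, b x * G x| ≤ 2 * η * ∫ x, b x := by
  obtain ⟨C0, hC0, hole⟩ := perf_hole
  refine ⟨C0, hC0, fun b L R bm bb bz ε hε hε1 => ?_⟩
  have hL : 0 ≤ L := (bb 0).1.trans (bb 0).2
  have bint : Integrable b := by
    have h1 : IntegrableOn b (closedBall (0 : P) R) :=
      Measure.integrableOn_of_bounded (M := L) measure_closedBall_lt_top.ne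
        bm.aestronglyMeasurable (Eventually.of_forall fun x => by
          rw [Real.norm_eq_abs, abs_of_nonneg (bb x).1]; exact (bb x).2)
    refine (integrableOn_iff_integrable_of_support_subset ?_).mp h1
    intro x hx
    rw [mem_closedBall_zero_iff]
    by_contra hc
    exact hx (bz x (not_le.mp hc).le)
  set S : ℤ × ℤ → Set P := fun i => perf_idx ε ⁻¹' {i} with hS
  have Sm : ∀ i, MeasurableSet (S i) := fun i => perf_idx_meas ε (measurableSet_singleton i)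
  set v : ℤ × ℤ → P → ℝ := fun i => (S i).indicator b with hv
  have vint : ∀ i, Integrable (v i) := fun i => bint.indicator (Sm i)
  have vnn : ∀ i x, 0 ≤ v i x := fun i x => indicator_nonneg (fun y _ => (bb y).1) x
  have vnear : ∀ i x, v i x ≠ 0 → ‖x - perf_ctr ε i‖ ≤ ε / 2 := by
    intro i x hx
    have : x ∈ S i := mem_of_indicator_ne_zero hx
    have e : perf_idx ε x = i := this
    rw [← e]; exact perf_near hε x
  have vsum : ∀ x, ∑ i ∈ perf_I ε R, v i x = b x := by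
    intro x
    have h0 : ∀ j, j ≠ perf_idx ε x → v j x = 0 := fun j hj =>
      indicator_of_notMem (s := S j) (a := x) (fun h : perf_idx ε x = j => hj h.symm) b
    have h1 : v (perf_idx ε x) x = b x := indicator_of_mem (by simp [hS]) b
    rw [Finset.sum_eq_single (perf_idx ε x) (fun j _ hj => h0 j hj), h1]
    intro hn
    rw [h1]
    apply bz
    by_contra hc
    exact hn (perf_idx_mem hε (not_le.mp hc))
  set m : ℤ × ℤ → ℝ := fun i => ∫ x, v i x with hm
  have mnn : ∀ i, 0 ≤ m i := fun i => integral_nonneg (vnn i)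
  have msum : ∑ i ∈ perf_I ε R, m i = ∫ x, b x := by
    rw [← integral_finsetSum _ fun i _ => vint i]
    simp only [vsum]
  have mle : ∀ i, m i ≤ L * ε ^ 2 := by
    intro i
    have h1 : m i ≤ ∫ x, (closedBall (perf_ctr ε i) (ε / 2)).indicator (fun _ => L) x := by
      apply integral_mono (vint i)
      · exact (integrable_indicator_iff measurableSet_closedBall).mpr
          (integrableOn_const measure_closedBall_lt_top.ne)
      · intro x
        by_cases hx : v i x = 0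
        · rw [hx]; exact indicator_nonneg (fun _ _ => hL) x
        · rw [indicator_of_mem (mem_closedBall_iff_norm.mpr (vnear i x hx))]
          exact (indicator_le_self' (fun y _ => (bb y).1) x).trans (bb x).2
    rw [integral_indicator measurableSet_closedBall, setIntegral_const, Measure.real,
      volume_closedBall_P _ (by positivity), smul_eq_mul] at h1
    nlinarith
  have he : 0 < ε / 2 := by positivity
  choose Z w z0 z1 z2 wc zn zz wb wi zl zi zg using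
    fun i => hole (m i) (ε / 2) (perf_ctr ε i) (mnn i) he
  have zt : ∀ i, IsTest univ (Z i) := fun i =>
    ⟨z0 i, perf_cs fun x hx => (zz i x hx).1, subset_univ _⟩
  have wint : ∀ i, Integrable (w i) := fun i =>
    (wc i).integrable_of_hasCompactSupport (perf_cs fun x hx => (zz i x hx).2)
  have sc : ContDiff ℝ 1 fun x => ∑ i ∈ perf_I ε R, Z i x := ContDiff.sum fun i _ => z0 i
  have s1 : ContDiff ℝ 1 fun x => ∑ i ∈ perf_I ε R, d1 (Z i) x := ContDiff.sum fun i _ => z1 i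
  have s2 : ContDiff ℝ 1 fun x => ∑ i ∈ perf_I ε R, d2 (Z i) x := ContDiff.sum fun i _ => z2 i
  have e1 : d1 (fun x => 1 - ∑ i ∈ perf_I ε R, Z i x) =
      fun x => (-1) * ∑ i ∈ perf_I ε R, d1 (Z i) x := by
    ext x
    rw [d1_sub (differentiableAt_const _) (sc.differentiable (by simp) x), perf_d1_sum _ z0]
    simp
  have e2 : d2 (fun x => 1 - ∑ i ∈ perf_I ε R, Z i x) =
      fun x => (-1) * ∑ i ∈ perf_I ε R, d2 (Z i) x := by
    ext x
    rw [d2_sub (differentiableAt_const _) (sc.differentiable (by simp) x), perf_d2_sum _ z0]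
    simp
  have bnn : 0 ≤ ∫ x, b x := integral_nonneg fun x => (bb x).1
  refine ⟨fun x => 1 - ∑ i ∈ perf_I ε R, Z i x, fun x => ∑ i ∈ perf_I ε R, w i x,
    ⟨contDiff_const.sub sc, ?_, ?_, continuous_finsetSum _ fun i _ => wc i, fun x => ?_,
      fun x hx => ?_, fun x => ⟨Finset.sum_nonneg fun i _ => (wb i x).1, ?_⟩, fun x hx => ?_⟩,
    ?_, ?_, ?_⟩
  · rw [e1]; exact contDiff_const.mul s1
  · rw [e2]; exact contDiff_const.mul s2
  · have := Finset.sum_nonneg fun i (_ : i ∈ perf_I ε R) => zn i x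
    linarith
  · have key : ∀ i ∈ perf_I ε R, ε / 2 ≤ ‖x - perf_ctr ε i‖ := by
      intro i hi
      have h1 := perf_ctr_le hε hi
      have h2 := norm_sub_norm_le x (perf_ctr ε i)
      linarith
    constructor
    · simp only
      rw [Finset.sum_eq_zero fun i hi => (zz i x (key i hi)).1]; simp
    · exact Finset.sum_eq_zero fun i hi => (zz i x (key i hi)).2
  · refine perf_sum_le _ (perf_idx ε x) (by positivity) (fun i => (wb i x).2.trans ?_)
      fun i hi => (zz i x (perf_far hε hi)).2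
    apply mul_le_mul_of_nonneg_left _ hC0
    rw [div_le_iff₀ (by positivity)]
    nlinarith [mle i]
  · rw [e1, e2, d1_const_mul _ (s1.differentiable (by simp) x),
      d2_const_mul _ (s2.differentiable (by simp) x), perf_d1_sum _ z1, perf_d2_sum _ z2]
    simp only at hx ⊢
    rw [← mul_add, ← Finset.sum_add_distrib, neg_one_mul, neg_inj]
    refine Finset.sum_congr rfl fun i hi => zl i x ?_
    have := Finset.single_le_sum (f := fun i => Z i x) (fun j _ => zn j x) hi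
    linarith
  · simp only [sub_sub_cancel]
    rw [integral_finsetSum _ fun i _ => (zt i).integrable, ← msum, Finset.mul_sum]
    refine Finset.sum_le_sum fun i _ => (zi i).trans ?_
    apply mul_le_mul_of_nonneg_right _ (mnn i)
    apply mul_le_mul_of_nonneg_left _ hC0
    nlinarith
  · rw [e1, e2]
    have hi : ∀ i, Integrable fun x => |d1 (Z i) x| + |d2 (Z i) x| := fun i =>
      (zt i).integrable_d1.abs.add (zt i).integrable_d2.abs
    have h1 : ∫ x, (|(-1) * ∑ i ∈ perf_I ε R, d1 (Z i) x| + |(-1) * ∑ i ∈ perf_I ε R, d2 (Z i) x|)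
        ≤ ∫ x, ∑ i ∈ perf_I ε R, (|d1 (Z i) x| + |d2 (Z i) x|) := by
      apply integral_mono_of_nonneg (Eventually.of_forall fun x => by positivity)
        (integrable_finsetSum _ fun i _ => hi i)
      refine Eventually.of_forall fun x => ?_
      simp only [neg_one_mul, abs_neg, Finset.sum_add_distrib]
      exact add_le_add (Finset.abs_sum_le_sum_abs _ _) (Finset.abs_sum_le_sum_abs _ _)
    refine h1.trans ?_
    rw [integral_finsetSum _ fun i _ => hi i, ← msum, Finset.mul_sum]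
    refine Finset.sum_le_sum fun i _ => (zg i).trans ?_
    apply mul_le_mul_of_nonneg_right _ (mnn i)
    apply mul_le_mul_of_nonneg_left _ hC0
    linarith
  · intro G η Gc Gs Gη
    obtain ⟨M, hM⟩ := Gc.bounded_above_of_compact_support Gs
    have gi : ∀ f : P → ℝ, Integrable f → Integrable fun x => f x * G x := fun f hf =>
      hf.mul_bdd Gc.aestronglyMeasurable (Eventually.of_forall hM)
    have a1 : ∫ x, (∑ i ∈ perf_I ε R, w i x) * G x = ∑ i ∈ perf_I ε R, ∫ x, w i x * G x := by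
      rw [← integral_finsetSum _ fun i _ => gi _ (wint i)]
      simp only [Finset.sum_mul]
    have a2 : ∫ x, b x * G x = ∑ i ∈ perf_I ε R, ∫ x, v i x * G x := by
      rw [← integral_finsetSum _ fun i _ => gi _ (vint i)]
      simp only [← Finset.sum_mul, vsum]
    rw [a1, a2, ← Finset.sum_sub_distrib, ← msum, Finset.mul_sum]
    refine (Finset.abs_sum_le_sum_abs _ _).trans (Finset.sum_le_sum fun i _ => ?_)
    have o1 := perf_osc (c := perf_ctr ε i) (η := η) (wint i) (gi _ (wint i))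
      (fun x => (wb i x).1) fun x hx => Gη _ _ (by
        by_contra hc
        exact hx (zz i x (by linarith [not_le.mp hc])).2)
    have o2 := perf_osc (c := perf_ctr ε i) (η := η) (vint i) (gi _ (vint i)) (vnn i)
      fun x hx => Gη _ _ (by linarith [vnear i x hx])
    rw [wi i] at o1
    change |_ - m i * _| ≤ η * m i at o2
    rw [abs_le] at o1 o2 ⊢
    constructor <;> linarith [o1.1, o1.2, o2.1, o2.2]

theorem perf : PERF := by
  intro b L R bm bb bz
  obtain ⟨C0, hC0, step⟩ := perf_step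
  have hε : ∀ n : ℕ, (0 : ℝ) < 1 / ((n : ℝ) + 1) := fun n => by positivity
  have hε1 : ∀ n : ℕ, 1 / ((n : ℝ) + 1) ≤ 1 := fun n => by
    rw [div_le_one (by positivity)]
    linarith [n.cast_nonneg (α := ℝ)]
  choose p bn h1 h2 h3 h4 using fun n : ℕ => step b L R bm bb bz _ (hε n) (hε1 n)
  have lim : Tendsto (fun n : ℕ => C0 * (1 / ((n : ℝ) + 1)) * ∫ x, b x) atTop (𝓝 0) := by
    have := (tendsto_one_div_add_atTop_nhds_zero_nat (𝕜 := ℝ)).const_mul C0 |>.mul_const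
      (∫ x, b x)
    simpa using this
  refine ⟨p, bn, C0 * (4 * L), |R| + 2, h1, ?_, ?_, ?_⟩
  · refine squeeze_zero (fun n => integral_nonneg fun x => ?_) h2 lim
    exact sub_nonneg.mpr ((h1 n).2.2.2.2.1 x)
  · exact squeeze_zero (fun n => integral_nonneg fun x => by positivity) h3 lim
  · intro G Gc Gs
    have bnn : 0 ≤ ∫ x, b x := integral_nonneg fun x => (bb x).1
    have uc : UniformContinuous G := Gs.uniformContinuous_of_continuous Gc
    rw [Metric.tendsto_atTop]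
    intro η hη
    set η' : ℝ := η / (2 * (∫ x, b x) + 1) with hη'
    have hp : 0 < η' := by positivity
    obtain ⟨δ, hδ, hG⟩ := Metric.uniformContinuous_iff.mp uc η' hp
    obtain ⟨N, hN⟩ := exists_nat_one_div_lt hδ
    refine ⟨N, fun n hn => ?_⟩
    have hn' : 1 / ((n : ℝ) + 1) < δ := lt_of_le_of_lt (Nat.one_div_le_one_div hn) hN
    have := h4 n G η' Gc Gs fun x y hxy => by
      have := hG (a := x) (b := y) (by rw [dist_eq_norm]; linarith)
      rw [Real.dist_eq] at this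
      exact this.le
    rw [Real.dist_eq]
    refine this.trans_lt ?_
    have e : η' * (2 * (∫ x, b x) + 1) = η := by rw [hη']; field_simp
    nlinarith

end Pool.Agent.H92Z.Fq
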