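import Pool.Agent.H92Z.Fq.Stm

open MeasureTheory Set Filter Metric
open scoped Topology

namespace Pool.Agent.H92Z.Fq

/-- squared positive part -/
noncomputable def perf_q (t : ℝ) : ℝ := (max t 0) ^ 2

theorem perf_q_deriv (t : ℝ) : HasDerivAt perf_q (2 * max t 0) t := by
  rcases lt_trichotomy t 0 with h | h | h
  · have : perf_q =ᶠ[𝓝 t] fun _ => 0 := by
      filter_upwards [Iio_mem_nhds h] with s hs
      simp [perf_q, max_eq_right (le_of_lt (mem_Iio.mp hs))]
    rw [max_eq_right h.le]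
    simpa using (hasDerivAt_const t (0 : ℝ)).congr_of_eventuallyEq this
  · subst h
    rw [hasDerivAt_iff_isLittleO_nhds_zero]
    have h2 : (fun s : ℝ => s ^ 2) =o[𝓝 0] fun s => s := Asymptotics.isLittleO_pow_id (by norm_num)
    refine Asymptotics.IsBigO.trans_isLittleO ?_ h2
    refine Asymptotics.IsBigO.of_bound 1 (Eventually.of_forall fun s => ?_)
    simp only [perf_q, zero_add, max_self, mul_zero, smul_eq_mul, ne_eq, OfNat.ofNat_ne_zero,
      not_false_eq_true, zero_pow, sub_zero, norm_pow, Real.norm_eq_abs, sq_abs, one_mul]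
    rcases le_total s 0 with hs | hs
    · rw [max_eq_right hs]; nlinarith [sq_nonneg s]
    · rw [max_eq_left hs]
  · have : perf_q =ᶠ[𝓝 t] fun s => s ^ 2 := by
      filter_upwards [Ioi_mem_nhds h] with s hs
      simp [perf_q, max_eq_left (le_of_lt (mem_Ioi.mp hs))]
    rw [max_eq_left h.le]
    simpa using (hasDerivAt_pow 2 t).congr_of_eventuallyEq this

theorem perf_q_c1 : ContDiff ℝ 1 perf_q :=
  contDiff_one_of_hasDerivAt perf_q_deriv (by fun_prop)

theorem perf_q_nonneg (t : ℝ) : 0 ≤ perf_q t := by unfold perf_q; positivity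

theorem perf_q_zero {t : ℝ} (h : t ≤ 0) : perf_q t = 0 := by simp [perf_q, max_eq_right h]

theorem perf_q_pos {t : ℝ} (h : 0 ≤ t) : perf_q t = t ^ 2 := by simp [perf_q, max_eq_left h]

/-- regularised identity -/
noncomputable def perf_r (h s : ℝ) : ℝ := s + perf_q (h - s) / (2 * h)

theorem perf_r_eq {h s : ℝ} (hs : h ≤ s) : perf_r h s = s := by
  simp [perf_r, perf_q_zero (sub_nonpos.mpr hs)]

theorem perf_r_ge {h : ℝ} (hh : 0 < h) (s : ℝ) : s ≤ perf_r h s := by
  unfold perf_r
  have := perf_q_nonneg (h - s)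
  have : 0 ≤ perf_q (h - s) / (2 * h) := by positivity
  linarith

theorem perf_r_pos {h : ℝ} (hh : 0 < h) (s : ℝ) : 0 < perf_r h s := by
  rcases le_total h s with hs | hs
  · rw [perf_r_eq hs]; linarith
  · unfold perf_r
    rw [perf_q_pos (sub_nonneg.mpr hs)]
    have : s + (h - s) ^ 2 / (2 * h) = (s ^ 2 + h ^ 2) / (2 * h) := by field_simp; ring
    rw [this]; positivity

theorem perf_r_c1 (h : ℝ) : ContDiff ℝ 1 (perf_r h) := by
  unfold perf_r
  exact contDiff_id.add ((perf_q_c1.comp (contDiff_const.sub contDiff_id)).div_const _)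

/-- minus the radial derivative -/
noncomputable def perf_a (h s : ℝ) : ℝ := perf_q (1 - s) / perf_r h s

theorem perf_a_c1 {h : ℝ} (hh : 0 < h) : ContDiff ℝ 1 (perf_a h) := by
  unfold perf_a
  exact (perf_q_c1.comp (contDiff_const.sub contDiff_id)).div (perf_r_c1 h)
    fun s => (perf_r_pos hh s).ne'

theorem perf_a_nonneg {h : ℝ} (hh : 0 < h) (s : ℝ) : 0 ≤ perf_a h s :=
  div_nonneg (perf_q_nonneg _) (perf_r_pos hh s).le

theorem perf_a_zero (h : ℝ) {s : ℝ} (hs : 1 ≤ s) : perf_a h s = 0 := by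
  simp [perf_a, perf_q_zero (sub_nonpos.mpr hs)]

theorem perf_a_le {h : ℝ} (hh : 0 < h) {s : ℝ} (hs : 0 ≤ s) : perf_a h s * s ≤ 1 := by
  have h1 : perf_q (1 - s) ≤ 1 := by
    rcases le_total s 1 with h1 | h1
    · rw [perf_q_pos (by linarith)]; nlinarith
    · rw [perf_q_zero (by linarith)]; norm_num
  have h2 := perf_r_pos hh s
  have h3 := perf_r_ge hh s
  unfold perf_a
  rw [div_mul_eq_mul_div, div_le_one h2]
  nlinarith [perf_q_nonneg (1 - s)]

theorem perf_a_deriv {h s : ℝ} (hh : 0 < h) (hs : h < s) :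
    ∃ a', HasDerivAt (perf_a h) a' s ∧ -(4 * s * a') - 4 * perf_a h s = 8 * max (1 - s) 0 := by
  have hs0 : s ≠ 0 := by linarith [hh.trans hs] |> fun h : 0 < s => h.ne'
  have e : perf_a h =ᶠ[𝓝 s] fun t => perf_q (1 - t) / t := by
    filter_upwards [Ioi_mem_nhds hs] with t ht
    unfold perf_a; rw [perf_r_eq (le_of_lt ht)]
  have h1 : HasDerivAt (fun t : ℝ => perf_q (1 - t)) (2 * max (1 - s) 0 * (-1)) s :=
    (perf_q_deriv (1 - s)).comp s ((hasDerivAt_id s).const_sub 1)
  have h2 := (h1.div (hasDerivAt_id s) hs0).congr_of_eventuallyEq e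
  refine ⟨_, h2, ?_⟩
  unfold perf_a
  rw [perf_r_eq hs.le]
  simp only [id]
  field_simp
  ring

/-- the radial profile -/
noncomputable def perf_k (h s : ℝ) : ℝ := -∫ t in (1 : ℝ)..s, perf_a h t

theorem perf_k_deriv {h : ℝ} (hh : 0 < h) (s : ℝ) : HasDerivAt (perf_k h) (-perf_a h s) s :=
  (((perf_a_c1 hh).continuous.integral_hasStrictDerivAt 1 s).hasDerivAt).neg

theorem perf_k_c1 {h : ℝ} (hh : 0 < h) : ContDiff ℝ 1 (perf_k h) :=
  contDiff_one_of_hasDerivAt (perf_k_deriv hh) (perf_a_c1 hh).continuous.neg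

theorem perf_k_zero (h : ℝ) {s : ℝ} (hs : 1 ≤ s) : perf_k h s = 0 := by
  unfold perf_k
  rw [intervalIntegral.integral_congr (g := fun _ => 0)]
  · simp
  · intro t ht
    rw [uIcc_of_le hs] at ht
    exact perf_a_zero h ht.1

theorem perf_k_nonneg {h : ℝ} (hh : 0 < h) (s : ℝ) : 0 ≤ perf_k h s := by
  rcases le_total 1 s with hs | hs
  · rw [perf_k_zero h hs]
  · unfold perf_k
    rw [← intervalIntegral.integral_symm]
    exact intervalIntegral.integral_nonneg hs fun t _ => perf_a_nonneg hh t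

theorem perf_k_big (A : ℝ) : ∃ h : ℝ, 0 < h ∧ ∀ s, s ≤ h → A ≤ perf_k h s := by
  set h : ℝ := Real.exp (-(4 * |A|)) / 2 with hdef
  have hh : 0 < h := by positivity
  have hh2 : h ≤ 1 / 2 := by
    have : Real.exp (-(4 * |A|)) ≤ 1 := Real.exp_le_one_iff.mpr (by linarith [abs_nonneg A])
    rw [hdef]; linarith
  refine ⟨h, hh, fun s hs => ?_⟩
  have hc := (perf_a_c1 hh).continuous
  have e1 : perf_k h s = (∫ t in s..h, perf_a h t) + (∫ t in h..(1 / 2), perf_a h t) +
      ∫ t in (1 / 2 : ℝ)..1, perf_a h t := by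
    unfold perf_k
    rw [← intervalIntegral.integral_symm,
      intervalIntegral.integral_add_adjacent_intervals (hc.intervalIntegrable _ _)
        (hc.intervalIntegrable _ _),
      intervalIntegral.integral_add_adjacent_intervals (hc.intervalIntegrable _ _)
        (hc.intervalIntegrable _ _)]
  have p1 : 0 ≤ ∫ t in s..h, perf_a h t :=
    intervalIntegral.integral_nonneg hs fun t _ => perf_a_nonneg hh t
  have p3 : 0 ≤ ∫ t in (1 / 2 : ℝ)..1, perf_a h t :=
    intervalIntegral.integral_nonneg (by norm_num) fun t _ => perf_a_nonneg hh t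
  have p2 : ∫ t in h..(1 / 2), (1 / 4 : ℝ) * t⁻¹ ≤ ∫ t in h..(1 / 2), perf_a h t := by
    apply intervalIntegral.integral_mono_on hh2
    · apply ContinuousOn.intervalIntegrable
      apply ContinuousOn.mul continuousOn_const
      apply ContinuousOn.inv₀ continuousOn_id
      intro t ht
      rw [uIcc_of_le hh2] at ht
      exact (hh.trans_le ht.1).ne'
    · exact hc.intervalIntegrable _ _
    · intro t ht
      have ht0 : 0 < t := hh.trans_le ht.1
      unfold perf_a
      rw [perf_r_eq ht.1, perf_q_pos (by linarith [ht.2]), div_eq_mul_inv ((1 - t) ^ 2)]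
      apply mul_le_mul_of_nonneg_right _ (by positivity)
      nlinarith [ht.2]
  rw [intervalIntegral.integral_const_mul, integral_inv_of_pos hh (by norm_num)] at p2
  have e2 : (1 / 2 : ℝ) / h = Real.exp (4 * |A|) := by
    rw [hdef, Real.exp_neg]; field_simp
  rw [e2, Real.log_exp] at p2
  linarith [le_abs_self A]

/-- squared Euclidean norm -/
def perf_s (x : P) : ℝ := x.1 ^ 2 + x.2 ^ 2

theorem perf_s_c1 : ContDiff ℝ 1 perf_s := by unfold perf_s; fun_prop

theorem perf_s_diff (x : P) : DifferentiableAt ℝ perf_s x :=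
  perf_s_c1.differentiable (by simp) x

theorem perf_s_nonneg (x : P) : 0 ≤ perf_s x := by unfold perf_s; positivity

theorem perf_s_ge (x : P) : ‖x‖ ^ 2 ≤ perf_s x := by
  unfold perf_s
  rw [Prod.norm_def]
  rcases le_total ‖x.1‖ ‖x.2‖ with h | h
  · rw [max_eq_right h, Real.norm_eq_abs, sq_abs]; nlinarith [sq_nonneg x.1]
  · rw [max_eq_left h, Real.norm_eq_abs, sq_abs]; nlinarith [sq_nonneg x.2]

theorem perf_s_one {x : P} (hx : 1 ≤ ‖x‖) : 1 ≤ perf_s x := by
  nlinarith [perf_s_ge x]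

theorem perf_s_d1 (x : P) : d1 perf_s x = 2 * x.1 := by
  have : perf_s = fun z : P => z.1 * z.1 + z.2 * z.2 := by ext z; unfold perf_s; ring
  rw [this, d1_add (by fun_prop) (by fun_prop), d1_mul (by fun_prop) (by fun_prop),
    d1_mul (by fun_prop) (by fun_prop), d1_fst, d1_snd]
  ring

theorem perf_s_d2 (x : P) : d2 perf_s x = 2 * x.2 := by
  have : perf_s = fun z : P => z.1 * z.1 + z.2 * z.2 := by ext z; unfold perf_s; ring
  rw [this, d2_add (by fun_prop) (by fun_prop), d2_mul (by fun_prop) (by fun_prop),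
    d2_mul (by fun_prop) (by fun_prop), d2_fst, d2_snd]
  ring

theorem perf_as_le {h : ℝ} (hh : 0 < h) (x : P) {y : ℝ} (hy : |y| ≤ ‖x‖) :
    perf_a h (perf_s x) * |y| ≤ ‖x‖⁻¹ := by
  rcases (norm_nonneg x).eq_or_lt with h0 | h0
  · rw [← h0] at hy ⊢
    have : |y| = 0 := le_antisymm hy (abs_nonneg y)
    simp [this]
  · have h1 := perf_a_le hh (perf_s_nonneg x)
    have h2 := perf_a_nonneg hh (perf_s x)
    have h3 := perf_s_ge x
    rw [← one_div, le_div_iff₀ h0]
    have h4 : |y| * ‖x‖ ≤ perf_s x := by nlinarith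
    nlinarith

theorem perf_g_int : Integrable ((ball (0 : P) 1).indicator fun x => 4 * ‖x‖⁻¹) := by
  rw [integrable_indicator_iff measurableSet_ball]
  refine integrableOn_ball_of_norm_le_rpow (C := 4) (α := 1) (by simp) (by simp) ?_ ?_
  · refine Eventually.of_forall fun x => ?_
    rw [Real.rpow_neg_one, Real.norm_eq_abs, abs_of_nonneg (by positivity)]
  · exact (measurable_const.mul measurable_norm.inv).aestronglyMeasurable

/-- the unnormalised unit profile -/
theorem perf_unit0 : ∃ C1 : ℝ, ∀ A : ℝ, ∃ K : P → ℝ, ContDiff ℝ 1 K ∧ ContDiff ℝ 1 (d1 K) ∧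
    ContDiff ℝ 1 (d2 K) ∧ (∀ x, 0 ≤ K x) ∧ (∀ x, 1 ≤ ‖x‖ → K x = 0) ∧
    (∀ x, K x < A → d1 (d1 K) x + d2 (d2 K) x = 8 * max (1 - perf_s x) 0) ∧
    ∫ x, K x ≤ C1 ∧ ∫ x, (|d1 K x| + |d2 K x|) ≤ C1 := by
  refine ⟨∫ x, (ball (0 : P) 1).indicator (fun x => 4 * ‖x‖⁻¹) x, fun A => ?_⟩
  obtain ⟨h, hh, hA⟩ := perf_k_big A
  set K : P → ℝ := fun x => perf_k h (perf_s x) with hK
  have c0 : ContDiff ℝ 1 K := (perf_k_c1 hh).comp perf_s_c1
  have ca : ContDiff ℝ 1 fun x : P => perf_a h (perf_s x) := (perf_a_c1 hh).comp perf_s_c1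
  have e1 : d1 K = fun x => (-2) * (perf_a h (perf_s x) * x.1) := by
    ext x
    rw [hK, d1_comp (perf_s_diff x) (perf_k_deriv hh _), perf_s_d1]; ring
  have e2 : d2 K = fun x => (-2) * (perf_a h (perf_s x) * x.2) := by
    ext x
    rw [hK, d2_comp (perf_s_diff x) (perf_k_deriv hh _), perf_s_d2]; ring
  have z0 : ∀ x : P, 1 ≤ ‖x‖ → K x = 0 := fun x hx => perf_k_zero h (perf_s_one hx)
  have ht : IsTest univ K := by
    refine ⟨c0, HasCompactSupport.intro (isCompact_closedBall 0 1) fun x hx => z0 x ?_,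
      subset_univ _⟩
    rw [mem_closedBall_zero_iff, not_le] at hx
    exact hx.le
  have hb : ∀ x, |d1 K x| + |d2 K x| ≤ (ball (0 : P) 1).indicator (fun x => 4 * ‖x‖⁻¹) x := by
    intro x
    by_cases hx : x ∈ ball (0 : P) 1
    · rw [indicator_of_mem hx, e1, e2]
      have b1 := perf_as_le hh x (y := x.1) (by simpa using norm_fst_le x)
      have b2 := perf_as_le hh x (y := x.2) (by simpa using norm_snd_le x)
      have h2 := perf_a_nonneg hh (perf_s x)
      simp only [abs_mul, abs_of_nonneg h2, abs_neg, abs_two]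
      linarith
    · rw [indicator_of_notMem hx, e1, e2]
      rw [mem_ball_zero_iff, not_lt] at hx
      simp [perf_a_zero h (perf_s_one hx)]
  refine ⟨K, c0, ?_, ?_, fun x => perf_k_nonneg hh _, z0, ?_, ?_, ?_⟩
  · rw [e1]; exact contDiff_const.mul (ca.mul contDiff_fst)
  · rw [e2]; exact contDiff_const.mul (ca.mul contDiff_snd)
  · intro x hx
    have hs : h < perf_s x := by
      by_contra hc
      exact absurd (hA _ (not_lt.mp hc)) (not_le.mpr hx)
    obtain ⟨a', ha', he⟩ := perf_a_deriv hh hs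
    have da : DifferentiableAt ℝ (fun x : P => perf_a h (perf_s x)) x :=
      ca.differentiable (by simp) x
    have da1 : DifferentiableAt ℝ (fun x : P => perf_a h (perf_s x) * x.1) x :=
      da.mul differentiableAt_fst
    have da2 : DifferentiableAt ℝ (fun x : P => perf_a h (perf_s x) * x.2) x :=
      da.mul differentiableAt_snd
    rw [e1, e2, d1_const_mul _ da1, d2_const_mul _ da2,
      d1_mul da (by fun_prop), d2_mul da (by fun_prop), d1_comp (perf_s_diff x) ha',
      d2_comp (perf_s_diff x) ha', perf_s_d1, perf_s_d2, d1_fst, d2_snd, ← he]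
    unfold perf_s
    ring
  · have := ibp1 ht (X := fun x => x.1) contDiff_fst
    simp only [d1_fst, mul_one] at this
    have e : ∫ x, K x = ∫ x, -(d1 K x * x.1) := by rw [integral_neg, this, neg_neg]
    rw [e]
    apply integral_mono _ perf_g_int
    · intro x
      refine le_trans ?_ (hb x)
      by_cases hx : 1 ≤ ‖x‖
      · simp [e1, e2, perf_a_zero h (perf_s_one hx)]
      · have h1 : |x.1| ≤ 1 := by
          have := norm_fst_le x
          rw [Real.norm_eq_abs] at this
          linarith [not_le.mp hx]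
        have h2 : -(d1 K x * x.1) ≤ |d1 K x| * |x.1| := by
          rw [← abs_mul]; exact neg_le_abs _
        nlinarith [abs_nonneg (d1 K x), abs_nonneg (d2 K x)]
    · exact ((ht.d1_cont.mul continuous_fst).integrable_of_hasCompactSupport
        ht.d1_cs.mul_right).neg
  · exact integral_mono (ht.integrable_d1.abs.add ht.integrable_d2.abs) perf_g_int hb

/-- the normalised unit profile -/
theorem perf_unit : ∃ (β : P → ℝ) (C0 : ℝ), Continuous β ∧ (∀ x, 0 ≤ β x ∧ β x ≤ C0) ∧
    (∀ x, 1 ≤ ‖x‖ → β x = 0) ∧ ∫ x, β x = 1 ∧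
    ∀ A : ℝ, ∃ K : P → ℝ, ContDiff ℝ 1 K ∧ ContDiff ℝ 1 (d1 K) ∧
    ContDiff ℝ 1 (d2 K) ∧ (∀ x, 0 ≤ K x) ∧ (∀ x, 1 ≤ ‖x‖ → K x = 0) ∧
    (∀ x, K x < A → d1 (d1 K) x + d2 (d2 K) x = β x) ∧
    ∫ x, K x ≤ C0 ∧ ∫ x, (|d1 K x| + |d2 K x|) ≤ C0 := by
  obtain ⟨C1, hC⟩ := perf_unit0
  have cb : Continuous fun x : P => max (1 - perf_s x) 0 :=
    (continuous_const.sub perf_s_c1.continuous).max continuous_const
  have zb : ∀ x : P, 1 ≤ ‖x‖ → max (1 - perf_s x) 0 = 0 := fun x hx =>
    max_eq_right (by linarith [perf_s_one hx])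
  have sb : HasCompactSupport fun x : P => max (1 - perf_s x) 0 :=
    HasCompactSupport.intro (isCompact_closedBall 0 1) fun x hx => zb x (by
      rw [mem_closedBall_zero_iff, not_le] at hx
      exact hx.le)
  set I0 : ℝ := ∫ x : P, max (1 - perf_s x) 0 with hI
  have I0pos : 0 < I0 :=
    cb.integral_pos_of_hasCompactSupport_nonneg_nonzero sb (fun x => le_max_right _ _)
      (x := 0) (by simp [perf_s])
  set c : ℝ := (8 * I0)⁻¹ with hc
  have cpos : 0 < c := by positivity
  refine ⟨fun x => I0⁻¹ * max (1 - perf_s x) 0, max I0⁻¹ (c * C1), continuous_const.mul cb,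
    fun x => ⟨by positivity, ?_⟩, fun x hx => by simp [zb x hx], ?_, fun A => ?_⟩
  · refine le_trans ?_ (le_max_left _ _)
    have : max (1 - perf_s x) 0 ≤ 1 := max_le (by linarith [perf_s_nonneg x]) zero_le_one
    have h2 : 0 ≤ I0⁻¹ := by positivity
    nlinarith
  · rw [integral_const_mul, ← hI]; field_simp
  · obtain ⟨K, k0, k1, k2, kn, kz, kl, ki, kg⟩ := hC (A / c)
    have e1 : d1 (fun x => c * K x) = fun x => c * d1 K x := by
      ext x; exact d1_const_mul c (k0.differentiable (by simp) x)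
    have e2 : d2 (fun x => c * K x) = fun x => c * d2 K x := by
      ext x; exact d2_const_mul c (k0.differentiable (by simp) x)
    refine ⟨fun x => c * K x, contDiff_const.mul k0, ?_, ?_,
      fun x => mul_nonneg cpos.le (kn x), fun x hx => by simp [kz x hx], ?_, ?_, ?_⟩
    · rw [e1]; exact contDiff_const.mul k1
    · rw [e2]; exact contDiff_const.mul k2
    · intro x hx
      have : K x < A / c := by rw [lt_div_iff₀ cpos]; linarith
      rw [e1, e2, d1_const_mul c (k1.differentiable (by simp) x),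
        d2_const_mul c (k2.differentiable (by simp) x), ← mul_add, kl x this, hc]
      field_simp
    · rw [integral_const_mul]
      exact le_trans (mul_le_mul_of_nonneg_left ki cpos.le) (le_max_right _ _)
    · rw [e1, e2]
      simp only [abs_mul, abs_of_pos cpos, ← mul_add]
      rw [integral_const_mul]
      exact le_trans (mul_le_mul_of_nonneg_left kg cpos.le) (le_max_right _ _)

end Pool.Agent.H92Z.Fq
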