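import Pool.Agent.H92Z.Fq.Stm

open MeasureTheory Set Filter Metric
open scoped Topology

namespace Pool.Agent.H92Z.Fq

theorem poi_expand {α : Type*} [MeasurableSpace α] {μ : Measure α} [IsFiniteMeasure μ] {f : α → ℝ}
    (hf : MemLp f 2 μ) (c : ℝ) :
    ∫ x, (f x - c) ^ 2 ∂μ = (∫ x, f x ^ 2 ∂μ) - 2 * c * (∫ x, f x ∂μ) + c ^ 2 * μ.real univ := by
  have h1 : Integrable f μ := hf.integrable (by norm_num)
  have e : (fun x => (f x - c) ^ 2) = fun x => (f x ^ 2 - 2 * c * f x) + c ^ 2 := by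
    ext x; ring
  have h2 : Integrable (fun x => f x ^ 2 - 2 * c * f x) μ := hf.integrable_sq.sub (h1.const_mul _)
  rw [e, integral_add h2 (integrable_const _),
    integral_sub hf.integrable_sq (h1.const_mul _), integral_const_mul, integral_const]
  simp [mul_comm]

theorem poi_var_le {α : Type*} [MeasurableSpace α] {μ : Measure α} [IsFiniteMeasure μ] {f : α → ℝ}
    (hf : MemLp f 2 μ) {m : ℝ} (hm : μ.real univ = m) (h0 : 0 < m) (c : ℝ) :
    (∫ x, f x ^ 2 ∂μ) - (∫ x, f x ∂μ) ^ 2 / m ≤ ∫ x, (f x - c) ^ 2 ∂μ := by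
  rw [poi_expand hf, hm]
  generalize (∫ x, f x ∂μ) = a
  have : 0 ≤ (a - c * m) ^ 2 / m := by positivity
  have e : (a - c * m) ^ 2 / m = a ^ 2 / m - 2 * c * a + c ^ 2 * m := by field_simp; ring
  linarith

theorem poi_var_eq {α : Type*} [MeasurableSpace α] {μ : Measure α} [IsFiniteMeasure μ] {f : α → ℝ}
    (hf : MemLp f 2 μ) {m : ℝ} (hm : μ.real univ = m) (h0 : 0 < m) :
    ∫ x, (f x - (∫ x, f x ∂μ) / m) ^ 2 ∂μ = (∫ x, f x ^ 2 ∂μ) - (∫ x, f x ∂μ) ^ 2 / m := by
  rw [poi_expand hf, hm]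
  field_simp
  ring

theorem poi_intOn {X : Type*} [PseudoMetricSpace X] [ProperSpace X] [MeasureSpace X]
    [OpensMeasurableSpace X] [T2Space X] [IsFiniteMeasureOnCompacts (volume : Measure X)]
    {g : X → ℝ} (hg : Continuous g) (a : X) (r : ℝ) : IntegrableOn g (ball a r) :=
  (hg.continuousOn.integrableOn_compact (isCompact_closedBall a r)).mono_set ball_subset_closedBall

theorem poi_real_ball (a : ℝ) {r : ℝ} (hr : 0 < r) :
    (volume.restrict (ball a r)).real univ = 2 * r := by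
  rw [measureReal_restrict_apply_univ, Measure.real, Real.volume_ball,
    ENNReal.toReal_ofReal (by linarith)]

theorem poi_line {f f' g : ℝ → ℝ} (hf : ∀ x, HasDerivAt f (f' x) x) (hc : Continuous f')
    (hg : Continuous g) (hle : ∀ x, f' x ^ 2 ≤ g x) {a r s t : ℝ} (hr : 0 < r) (hs : s ∈ ball a r)
    (ht : t ∈ ball a r) : (f s - f t) ^ 2 ≤ 2 * r * ∫ x in ball a r, g x := by
  have : IsFiniteMeasure (volume.restrict (ball a r)) :=
    isFiniteMeasure_restrict.2 measure_ball_lt_top.ne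
  have h1 : f s - f t = ∫ x in t..s, f' x :=
    (intervalIntegral.integral_eq_sub_of_hasDerivAt (fun x _ => hf x)
      (hc.intervalIntegrable _ _)).symm
  have hsub : uIoc t s ⊆ ball a r :=
    uIoc_subset_uIcc.trans ((convex_ball a r).ordConnected.uIcc_subset ht hs)
  have h2 : |f s - f t| ≤ ∫ x in ball a r, |f' x| := by
    rw [h1]
    refine (intervalIntegral.norm_integral_le_integral_norm_uIoc (f := f') (a := t) (b := s)
      (μ := volume)).trans ?_
    exact setIntegral_mono_set (poi_intOn hc.abs a r) (Eventually.of_forall fun x => abs_nonneg _)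
      hsub.eventuallyLE
  have hm : MemLp (fun x => |f' x|) 2 (volume.restrict (ball a r)) :=
    (memLp_two_iff_integrable_sq hc.abs.aestronglyMeasurable).2 (poi_intOn (hc.abs.pow 2) a r)
  have h3 := poi_var_eq hm (poi_real_ball a hr) (by linarith)
  have h4 : 0 ≤ ∫ x in ball a r, (|f' x| - (∫ x in ball a r, |f' x|) / (2 * r)) ^ 2 :=
    integral_nonneg fun x => by positivity
  have h5 : ∫ x in ball a r, |f' x| ^ 2 ≤ ∫ x in ball a r, g x :=
    integral_mono (poi_intOn (hc.abs.pow 2) a r) (poi_intOn hg a r) fun x => by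
      simpa using hle x
  have h6 : (∫ x in ball a r, |f' x|) ^ 2 / (2 * r) ≤ ∫ x in ball a r, g x := by linarith
  rw [div_le_iff₀ (by linarith)] at h6
  have h7 : (f s - f t) ^ 2 ≤ (∫ x in ball a r, |f' x|) ^ 2 := by
    rw [← sq_abs]
    gcongr
  linarith

theorem poi_hd1 {φ : P → ℝ} (hφ : ContDiff ℝ 1 φ) (t s : ℝ) :
    HasDerivAt (fun s => φ (s, t)) (d1 φ (s, t)) s := by
  have h := (hφ.differentiable (by simp) (s, t)).hasFDerivAt
  have h2 : HasDerivAt (fun s : ℝ => ((s, t) : P)) ((1 : ℝ), (0 : ℝ)) s :=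
    (hasDerivAt_id s).prodMk (hasDerivAt_const s t)
  exact h.comp_hasDerivAt s h2

theorem poi_hd2 {φ : P → ℝ} (hφ : ContDiff ℝ 1 φ) (s t : ℝ) :
    HasDerivAt (fun t => φ (s, t)) (d2 φ (s, t)) t := by
  have h := (hφ.differentiable (by simp) (s, t)).hasFDerivAt
  have h2 : HasDerivAt (fun t : ℝ => ((s, t) : P)) ((0 : ℝ), (1 : ℝ)) t :=
    (hasDerivAt_const t s).prodMk (hasDerivAt_id t)
  exact h.comp_hasDerivAt t h2

theorem poi_c1 (φ : P → ℝ) (x0 : P) (r : ℝ) (hφ : ContDiff ℝ 1 φ) (hr : 0 < r) : ∃ c : ℝ,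
    ∫ x in ball x0 r, (φ x - c) ^ 2 ≤
      16 * r ^ 2 * ∫ x in ball x0 r, (d1 φ x ^ 2 + d2 φ x ^ 2) := by
  obtain ⟨a, b⟩ := x0
  have f1 : IsFiniteMeasure (volume.restrict (ball a r)) :=
    isFiniteMeasure_restrict.2 measure_ball_lt_top.ne
  have f2 : IsFiniteMeasure (volume.restrict (ball b r)) :=
    isFiniteMeasure_restrict.2 measure_ball_lt_top.ne
  have hμ : (volume : Measure P).restrict (ball (a, b) r) =
      (volume.restrict (ball a r)).prod (volume.restrict (ball b r)) := by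
    rw [← ball_prod_same, Measure.volume_eq_prod, Measure.prod_restrict]
  obtain ⟨G, hG⟩ : ∃ G : P → ℝ, G = fun x => d1 φ x ^ 2 + d2 φ x ^ 2 := ⟨_, rfl⟩
  have hGc : Continuous G := hG ▸ ((d1_cont hφ).pow 2).add ((d2_cont hφ).pow 2)
  have hGi : Integrable G ((volume.restrict (ball a r)).prod (volume.restrict (ball b r))) :=
    hμ ▸ poi_intOn hGc (a, b) r
  rw [← hG]
  obtain ⟨E, hE⟩ : ∃ E, E = ∫ x in ball (a, b) r, G x := ⟨_, rfl⟩
  have hE1 : E = ∫ s in ball a r, ∫ t in ball b r, G (s, t) := by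
    rw [hE, hμ, integral_prod _ hGi]
  have hE2 : E = ∫ t in ball b r, ∫ s in ball a r, G (s, t) := by
    rw [hE, hμ, integral_prod_symm _ hGi]
  obtain ⟨t0, ht0, ht1⟩ := exists_le_setAverage (μ := volume) (s := ball b r)
    (f := fun t => ∫ s in ball a r, G (s, t)) (measure_ball_pos _ _ hr).ne'
    measure_ball_lt_top.ne hGi.integral_prod_right
  rw [average_eq, poi_real_ball b hr, ← hE2, smul_eq_mul, ← div_eq_inv_mul,
    le_div_iff₀ (by linarith)] at ht1
  refine ⟨φ (a, t0), ?_⟩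
  rw [← hE]
  have key : ∀ x ∈ ball (a, b) r, (φ x - φ (a, t0)) ^ 2 ≤
      4 * r * (∫ t in ball b r, G (x.1, t)) + 2 * E := by
    rintro ⟨s, t⟩ hx
    rw [← ball_prod_same] at hx
    have h1 := poi_line (poi_hd2 hφ s) ((d2_cont hφ).comp (by fun_prop))
      (g := fun t => G (s, t)) (hGc.comp (by fun_prop))
      (fun x => by rw [hG]; exact le_add_of_nonneg_left (sq_nonneg _)) hr hx.2 ht0
    have h2 := poi_line (poi_hd1 hφ t0) ((d1_cont hφ).comp (by fun_prop))
      (g := fun s => G (s, t0)) (hGc.comp (by fun_prop))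
      (fun x => by rw [hG]; exact le_add_of_nonneg_right (sq_nonneg _)) hr hx.1 (mem_ball_self hr)
    nlinarith [sq_nonneg (φ (s, t) - φ (s, t0) - (φ (s, t0) - φ (a, t0)))]
  have hv : Integrable (fun x : P => ∫ t in ball b r, G (x.1, t))
      ((volume.restrict (ball a r)).prod (volume.restrict (ball b r))) :=
    hGi.integral_prod_left.comp_fst _
  have hle : ∫ x in ball (a, b) r, (φ x - φ (a, t0)) ^ 2 ≤
      ∫ x in ball (a, b) r, (4 * r * (∫ t in ball b r, G (x.1, t)) + 2 * E) := by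
    refine setIntegral_mono_on (poi_intOn ((hφ.continuous.sub continuous_const).pow 2) _ _) ?_
      measurableSet_ball key
    unfold IntegrableOn
    rw [hμ]
    exact (hv.const_mul _).add (integrable_const _)
  refine hle.trans (le_of_eq ?_)
  rw [hμ, integral_add (hv.const_mul _) (integrable_const _), integral_const_mul,
    integral_fun_fst (fun s => ∫ t in ball b r, G (s, t)), ← hE1, integral_const,
    ← univ_prod_univ, measureReal_prod_prod, poi_real_ball a hr, poi_real_ball b hr]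
  simp only [smul_eq_mul]
  ring

theorem poi_ind (B : Set P) (hB : MeasurableSet B) (F : P → ℝ) :
    ∫ x, B.indicator (fun _ => (1 : ℝ)) x * F x = ∫ x in B, F x := by
  rw [← integral_indicator hB]
  congr 1
  ext x
  by_cases h : x ∈ B <;> simp [h]

theorem poi_real_ballP (x0 : P) {r : ℝ} (hr : 0 < r) :
    (volume.restrict (ball x0 r)).real univ = 4 * r ^ 2 := by
  rw [measureReal_restrict_apply_univ, Measure.real, volume_ball_P x0 hr.le]

theorem poinc (A : API) : POINC := by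
  refine ⟨16, by norm_num, poi_c1, fun u u1 u2 x0 r hu hr => ?_⟩
  have f1 : IsFiniteMeasure (volume.restrict (ball x0 r)) :=
    isFiniteMeasure_restrict.2 measure_ball_lt_top.ne
  obtain ⟨φ, hφ, l0, l1, l2⟩ := A.h_iff.1 hu
  have hm := poi_real_ballP x0 hr
  have hp : 0 < 4 * r ^ 2 := by positivity
  refine ⟨(∫ x in ball x0 r, u x) / (4 * r ^ 2), ?_⟩
  rw [poi_var_eq (hu.m0.restrict _) hm hp]
  have hb : AEStronglyMeasurable ((ball x0 r).indicator fun _ => (1 : ℝ)) volume :=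
    (aestronglyMeasurable_const.indicator measurableSet_ball)
  have hb1 : ∀ᵐ x, |(ball x0 r).indicator (fun _ => (1 : ℝ)) x| ≤ 1 :=
    Eventually.of_forall fun x => by by_cases h : x ∈ ball x0 r <;> simp [h]
  have t0 := A.l_wsq l0 hb hb1
  have t1 := A.l_wsq l1 hb hb1
  have t2 := A.l_wsq l2 hb hb1
  have t3 := A.l_weak l0 _ (memLp_indicator_const 2 (measurableSet_ball (x := x0) (ε := r)) (1 : ℝ)
    (Or.inr measure_ball_lt_top.ne))
  simp only [poi_ind _ measurableSet_ball] at t0 t1 t2 t3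
  rw [integral_add (int_sq (hu.m1.restrict _)) (int_sq (hu.m2.restrict _))]
  refine le_of_tendsto_of_tendsto' (t0.sub ((t3.pow 2).div_const _))
    ((t1.add t2).const_mul (16 * r ^ 2)) fun n => ?_
  obtain ⟨c, hc⟩ := poi_c1 (φ n) x0 r (hφ n).c1 hr
  rw [integral_add (int_sq ((hφ n).memLp_d1.restrict _)) (int_sq ((hφ n).memLp_d2.restrict _))]
    at hc
  exact (poi_var_le ((hφ n).memLp.restrict _) hm hp c).trans hc

theorem poi_avg {K : P → ℝ} (hK : Integrable K) (hneg : ∫ x, K x < 0) {ρ : ℝ} (hρ : 0 < ρ) :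
    ∃ x0 : P, ∫ x in ball x0 ρ, K x < 0 := by
  by_contra hcon
  push Not at hcon
  have hg : Integrable ((ball (0 : P) ρ).indicator fun _ => (1 : ℝ)) :=
    (integrable_indicator_iff measurableSet_ball).2
      (integrableOn_const measure_ball_lt_top.ne)
  have h := integral_convolution (ContinuousLinearMap.mul ℝ ℝ) (μ := volume) (ν := volume) hK hg
  have h1 : ∀ x0 : P, convolution K ((ball (0 : P) ρ).indicator fun _ => (1 : ℝ))
      (ContinuousLinearMap.mul ℝ ℝ) volume x0 = ∫ x in ball x0 ρ, K x := by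
    intro x0
    rw [convolution_def, ← poi_ind _ measurableSet_ball]
    congr 1
    ext t
    have : x0 - t ∈ ball (0 : P) ρ ↔ t ∈ ball x0 ρ := by
      rw [mem_ball_zero_iff, mem_ball, dist_comm, dist_eq_norm]
    by_cases ht : t ∈ ball x0 ρ
    · simp [ht, this.2 ht]
    · rw [indicator_of_notMem ht, indicator_of_notMem (fun h => ht (this.1 h))]
      simp
  simp only [h1] at h
  rw [integral_indicator measurableSet_ball, integral_const, poi_real_ballP _ hρ] at h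
  have h2 : 0 ≤ ∫ x0 : P, ∫ x in ball x0 ρ, K x := integral_nonneg hcon
  rw [h] at h2
  have h3 : (∫ x, K x) * (4 * ρ ^ 2) < 0 := mul_neg_of_neg_of_pos hneg (by positivity)
  simp only [ContinuousLinearMap.mul_apply', smul_eq_mul, mul_one] at h2
  linarith

theorem poi_tri {μ : Measure P} [IsFiniteMeasure μ] {f g : P → ℝ} (hf : MemLp f 2 μ)
    (hg : MemLp g 2 μ) :
    ∫ x, (f x + g x) ^ 2 ∂μ ≤ 2 * (∫ x, f x ^ 2 ∂μ) + 2 * ∫ x, g x ^ 2 ∂μ := by
  rw [← integral_const_mul, ← integral_const_mul,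
    ← integral_add ((int_sq hf).const_mul _) ((int_sq hg).const_mul _)]
  refine integral_mono (int_sq (hf.add hg)) (((int_sq hf).const_mul _).add
    ((int_sq hg).const_mul _)) fun x => ?_
  nlinarith [sq_nonneg (f x - g x)]

theorem poi_arith {a b c p q z Ar C ρ : ℝ} (hC : 0 < C) (hρ : 0 < ρ) (hρ1 : ρ ≤ 1) (ha : 0 ≤ a)
    (hb : 0 ≤ b) (hc : 0 ≤ c) (hAr : Ar ≤ 4 * ρ ^ 2) (h : a + (ρ ^ 6)⁻¹ * (b + c) < 3 * Ar)
    (hp : p ≤ C * ρ ^ 2 * a) (hz : z ^ 2 * Ar ≤ 2 * b + 2 * p)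
    (hq : q ≤ 2 * (z ^ 2 * (4 * ρ ^ 2)) + 2 * p) :
    a ≤ (60 + 72 * C) * ρ ^ 2 ∧ b ≤ (60 + 72 * C) * ρ ^ 8 ∧ c ≤ (60 + 72 * C) * ρ ^ 8 ∧
      q ≤ (60 + 72 * C) * ρ ^ 4 := by
  have h6 : 0 < ρ ^ 6 := by positivity
  have h2 : 0 < ρ ^ 2 := by positivity
  have h8 : 0 < ρ ^ 8 := by positivity
  have h4 : 0 < ρ ^ 4 := by positivity
  have hbc : 0 ≤ (ρ ^ 6)⁻¹ * (b + c) := by positivity
  have hA0 : 0 < Ar := by linarith
  have h1 : b + c ≤ ρ ^ 6 * (3 * Ar) := by
    have : (ρ ^ 6)⁻¹ * (b + c) ≤ 3 * Ar := by linarith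
    rwa [inv_mul_le_iff₀ h6] at this
  have h3 : ρ ^ 6 * (3 * Ar) ≤ 12 * ρ ^ 8 := by
    calc ρ ^ 6 * (3 * Ar) ≤ ρ ^ 6 * (3 * (4 * ρ ^ 2)) := by gcongr
      _ = _ := by ring
  have ha3 : a ≤ 3 * Ar := by linarith
  have hp3 : p ≤ C * ρ ^ 2 * (3 * Ar) := hp.trans (by gcongr)
  have h62 : ρ ^ 6 ≤ ρ ^ 2 := pow_le_pow_of_le_one hρ.le hρ1 (by norm_num)
  have hb3 : b ≤ ρ ^ 2 * (3 * Ar) := by
    have : ρ ^ 6 * (3 * Ar) ≤ ρ ^ 2 * (3 * Ar) := by gcongr
    linarith
  have hz2 : z ^ 2 ≤ (6 + 6 * C) * ρ ^ 2 := by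
    refine le_of_mul_le_mul_right ?_ hA0
    linarith
  have hz3 : z ^ 2 * (4 * ρ ^ 2) ≤ (6 + 6 * C) * ρ ^ 2 * (4 * ρ ^ 2) := by gcongr
  have hp4 : C * ρ ^ 2 * (3 * Ar) ≤ C * ρ ^ 2 * (3 * (4 * ρ ^ 2)) := by gcongr
  have e1 := mul_pos hC h2
  have e2 := mul_pos hC h8
  have e3 := mul_pos hC h4
  refine ⟨by linarith, by linarith, by linarith, by linarith⟩

theorem good (_A : API) (hP : POINC) : GOOD := by
  obtain ⟨C, hC, -, hP⟩ := hP
  refine ⟨60 + 72 * C, by positivity, fun Ω u u1 u2 w ρ hΩ hΩ0 hΩ1 hu hw hρ hρ1 h1 h2 => ?_⟩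
  have fΩ : IsFiniteMeasure (volume.restrict Ω) := isFiniteMeasure_restrict.2 hΩ1.ne
  have hv : 0 < vol Ω := ENNReal.toReal_pos hΩ0.ne' hΩ1.ne
  have i1 : Integrable fun x => u1 x ^ 2 + u2 x ^ 2 := int_sq2 hu.m1 hu.m2
  have i2 : Integrable (Ω.indicator fun x => (1 - u x) ^ 2) :=
    (integrable_indicator_iff hΩ).2 (int_sq ((memLp_const 1).sub (hu.m0.restrict Ω)))
  have i3 : Integrable fun x => (w x - u x) ^ 2 := int_sq (hw.sub hu.m0)
  have i4 : Integrable (Ω.indicator fun _ => (1 : ℝ)) :=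
    (integrable_indicator_iff hΩ).2 (integrableOn_const hΩ1.ne)
  have split : ∀ μ : Measure P, Integrable (fun x => u1 x ^ 2 + u2 x ^ 2) μ →
      Integrable (Ω.indicator fun x => (1 - u x) ^ 2) μ → Integrable (fun x => (w x - u x) ^ 2) μ →
      Integrable (Ω.indicator fun _ => (1 : ℝ)) μ →
      ∫ x, ((u1 x ^ 2 + u2 x ^ 2) + (ρ ^ 6)⁻¹ * (Ω.indicator (fun x => (1 - u x) ^ 2) x +
        (w x - u x) ^ 2) - 3 * Ω.indicator (fun _ => (1 : ℝ)) x) ∂μ =
      (∫ x, (u1 x ^ 2 + u2 x ^ 2) ∂μ) + (ρ ^ 6)⁻¹ * ((∫ x in Ω, (1 - u x) ^ 2 ∂μ) +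
        ∫ x, (w x - u x) ^ 2 ∂μ) - 3 * μ.real Ω := by
    intro μ j1 j2 j3 j4
    have j5 : Integrable (fun x => (ρ ^ 6)⁻¹ * (Ω.indicator (fun x => (1 - u x) ^ 2) x +
        (w x - u x) ^ 2)) μ := (j2.add j3).const_mul _
    have j6 : Integrable (fun x => (u1 x ^ 2 + u2 x ^ 2) + (ρ ^ 6)⁻¹ *
        (Ω.indicator (fun x => (1 - u x) ^ 2) x + (w x - u x) ^ 2)) μ := j1.add j5
    rw [integral_sub j6 (j4.const_mul _), integral_add j1 j5, integral_const_mul,
      integral_const_mul,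
      integral_add j2 j3, integral_indicator hΩ, integral_indicator hΩ]
    simp
  have h6 : 0 < ρ ^ 6 := by positivity
  obtain ⟨x0, hx0⟩ := poi_avg (K := fun x => (u1 x ^ 2 + u2 x ^ 2) + (ρ ^ 6)⁻¹ *
      (Ω.indicator (fun x => (1 - u x) ^ 2) x + (w x - u x) ^ 2) -
        3 * Ω.indicator (fun _ => (1 : ℝ)) x)
    ((i1.add ((i2.add i3).const_mul _)).sub (i4.const_mul _)) (by
      rw [split _ i1 i2 i3 i4]
      have : (ρ ^ 6)⁻¹ * ((∫ x in Ω, (1 - u x) ^ 2) + ∫ x, (w x - u x) ^ 2) ≤ vol Ω := by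
        rwa [inv_mul_le_iff₀ h6]
      have e : (volume : Measure P).real Ω = vol Ω := rfl
      linarith) hρ
  rw [split _ i1.restrict i2.restrict i3.restrict i4.restrict, Measure.restrict_restrict hΩ,
    measureReal_restrict_apply hΩ, inter_comm] at hx0
  obtain ⟨c, hc⟩ := hP u u1 u2 x0 ρ hu hρ
  have fB : IsFiniteMeasure (volume.restrict (ball x0 ρ)) :=
    isFiniteMeasure_restrict.2 measure_ball_lt_top.ne
  have fBΩ : IsFiniteMeasure (volume.restrict (ball x0 ρ ∩ Ω)) :=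
    isFiniteMeasure_restrict.2 ((measure_mono inter_subset_right).trans_lt hΩ1).ne
  refine ⟨x0, poi_arith (z := 1 - c) hC hρ hρ1 (integral_nonneg fun x => by positivity)
    (integral_nonneg fun x => by positivity) (integral_nonneg fun x => by positivity)
    (Ar := (volume : Measure P).real (ball x0 ρ ∩ Ω)) ?_ (by linarith) hc ?_ ?_⟩
  · rw [← volume_ball_P x0 hρ.le]
    exact measureReal_mono inter_subset_left measure_ball_lt_top.ne
  · have t := poi_tri (μ := volume.restrict (ball x0 ρ ∩ Ω)) (f := fun x => 1 - u x)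
      (g := fun x => u x - c) ((memLp_const 1).sub (hu.m0.restrict _))
      ((hu.m0.restrict _).sub (memLp_const c))
    simp only [sub_add_sub_cancel, integral_const, measureReal_restrict_apply_univ,
      smul_eq_mul] at t
    have t2 : ∫ x in ball x0 ρ ∩ Ω, (u x - c) ^ 2 ≤ ∫ x in ball x0 ρ, (u x - c) ^ 2 :=
      setIntegral_mono_set (int_sq ((hu.m0.restrict _).sub (memLp_const c)))
        (Eventually.of_forall fun x => by positivity) inter_subset_left.eventuallyLE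
    linarith
  · have t := poi_tri (μ := volume.restrict (ball x0 ρ)) (f := fun _ => 1 - c)
      (g := fun x => c - u x) (memLp_const _) ((memLp_const c).sub (hu.m0.restrict _))
    simp only [sub_add_sub_cancel, integral_const, poi_real_ballP x0 hρ, smul_eq_mul] at t
    have e : ∫ x in ball x0 ρ, (c - u x) ^ 2 = ∫ x in ball x0 ρ, (u x - c) ^ 2 := by
      congr 1
      ext x
      ring
    linarith

end Pool.Agent.H92Z.Fq
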