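import Pool.Agent.H92Z.Fq.Stm

open MeasureTheory Set Filter Metric
open scoped Topology

namespace Pool.Agent.H92Z.Fq

theorem pos_piece (hV : VLAM) (hT : VTORS) {q : ℝ} {Ω X : Set P} (hq : 1 < q) (hO : Opt q Ω)
    (hX : Adm X) (hXΩ : X ⊆ Ω) (hlt : vol X < vol Ω) : tors X < tors Ω * (vol X / vol Ω) := by
  obtain ⟨l1, v1, g1, -⟩ := hV.2 Ω hO.1
  obtain ⟨l2, v2, -, -, g2, -⟩ := hV.2 X hX
  have t1 := (hT Ω hO.1).2.2.1
  have t2 := (hT X hX).2.2.1
  have hl : lam Ω ≤ lam X := g2 _ fun φ hφ => g1 φ (hφ.mono hXΩ)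
  have hF := hO.2 X hX
  unfold FF at hF
  change lam X * tors X ^ q / vol X ^ ((2 * q + 2 * q - 2) / 2) ≤
    lam Ω * tors Ω ^ q / vol Ω ^ ((2 * q + 2 * q - 2) / 2) at hF
  set al := (2 * q + 2 * q - 2) / 2 with hal
  have hs0 : 0 < vol X / vol Ω := div_pos v2 v1
  have hs1 : vol X / vol Ω < 1 := (div_lt_one v1).2 hlt
  have a1 : 0 < vol X ^ al := Real.rpow_pos_of_pos v2 _
  have a2 : 0 < vol Ω ^ al := Real.rpow_pos_of_pos v1 _
  have a3 : 0 < tors X ^ q := Real.rpow_pos_of_pos t2 _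
  have a4 : 0 < tors Ω ^ q := Real.rpow_pos_of_pos t1 _
  have b1 : tors X ^ q ≤ tors Ω ^ q * (vol X / vol Ω) ^ al := by
    rw [Real.div_rpow v2.le v1.le, ← mul_div_assoc, le_div_iff₀ a2]
    rw [div_le_div_iff₀ a1 a2] at hF
    have b2 : lam Ω * (tors X ^ q * vol Ω ^ al) ≤ lam X * (tors X ^ q * vol Ω ^ al) :=
      mul_le_mul_of_nonneg_right hl (by positivity)
    apply le_of_mul_le_mul_left _ l1
    linarith
  have b3 : (vol X / vol Ω) ^ al < (vol X / vol Ω) ^ q :=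
    Real.rpow_lt_rpow_of_exponent_gt hs0 hs1 (by rw [hal]; linarith)
  have b4 : tors X ^ q < (tors Ω * (vol X / vol Ω)) ^ q := by
    rw [Real.mul_rpow t1.le hs0.le]
    exact b1.trans_lt (mul_lt_mul_of_pos_left b3 a4)
  exact (Real.rpow_lt_rpow_iff t2.le (by positivity) (by linarith)).1 b4

theorem pos_frontier {Ω X Y : Set P} (hX : IsOpen X) (hY : IsOpen Y) (hd : Disjoint X Y)
    (hu : X ∪ Y = Ω) {φ : P → ℝ} (hφ : IsTest Ω φ) :
    ∀ x ∈ frontier X, φ =ᶠ[nhds x] fun _ => 0 := by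
  intro x hx
  rw [hX.frontier_eq] at hx
  apply eventually_zero_of_notMem
  intro h
  have h1 := hφ.supp h
  rw [← hu] at h1
  rcases h1 with h1 | h1
  · exact hx.2 h1
  · exact (hd.closure_left hY).notMem_of_mem_left hx.1 h1

theorem pos_split (A : API) (hV : VLAM) (hT : VTORS) {q : ℝ} {Ω X Y : Set P} (hq : 1 < q)
    (hO : Opt q Ω) (hX : IsOpen X) (hY : IsOpen Y) (hd : Disjoint X Y) (hu : X ∪ Y = Ω)
    (nX : X.Nonempty) (nY : Y.Nonempty) : False := by
  have sX : X ⊆ Ω := hu ▸ subset_union_left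
  have sY : Y ⊆ Ω := hu ▸ subset_union_right
  have aX : Adm X := ⟨hX, hX.measure_pos _ nX, (measure_mono sX).trans_lt hO.1.2.2⟩
  have aY : Adm Y := ⟨hY, hY.measure_pos _ nY, (measure_mono sY).trans_lt hO.1.2.2⟩
  have hv : vol Ω = vol X + vol Y := by
    unfold vol
    rw [← hu, measure_union hd hY.measurableSet, ENNReal.toReal_add aX.2.2.ne aY.2.2.ne]
  have vX := (hV.2 X aX).2.1
  have vY := (hV.2 Y aY).2.1
  have p1 := pos_piece hV hT hq hO aX sX (by linarith)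
  have p2 := pos_piece hV hT hq hO aY sY (by linarith)
  have p3 : tors Ω * (vol X / vol Ω) + tors Ω * (vol Y / vol Ω) = tors Ω := by
    rw [← mul_add, ← add_div, ← hv, div_self (by linarith), mul_one]
  have p4 : tors Ω ≤ tors X + tors Y := by
    refine (hT Ω hO.1).2.1 _ fun φ hφ => ?_
    have fX := pos_frontier hX hY hd hu hφ
    have fY := pos_frontier hY hX hd.symm ((union_comm _ _).trans hu) hφ
    have tX := cut_isTest hX hφ.c1 fX (Or.inr hφ.cs)
    have tY := cut_isTest hY hφ.c1 fY (Or.inr hφ.cs)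
    have jX := (hT X aX).1 _ _ _ (A.h_test tX)
    have jY := (hT Y aY).1 _ _ _ (A.h_test tY)
    have e1 : ∫ x, φ x = (∫ x, X.indicator φ x) + ∫ x, Y.indicator φ x := by
      rw [← integral_add tX.integrable tY.integrable]
      congr 1
      funext x
      rw [← indicator_union_of_disjoint hd φ |> congrFun <| x, hu]
      by_cases h : x ∈ Ω
      · rw [indicator_of_mem h]
      · rw [indicator_of_notMem h, hφ.zero_of_notMem h]
    have e2 : ∫ x, (d1 φ x ^ 2 + d2 φ x ^ 2) =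
        (∫ x, (d1 (X.indicator φ) x ^ 2 + d2 (X.indicator φ) x ^ 2)) +
          ∫ x, (d1 (Y.indicator φ) x ^ 2 + d2 (Y.indicator φ) x ^ 2) := by
      rw [← integral_add (int_sq2 tX.memLp_d1 tX.memLp_d2) (int_sq2 tY.memLp_d1 tY.memLp_d2),
        cut_d1 hX fX, cut_d2 hX fX, cut_d1 hY fY, cut_d2 hY fY]
      congr 1
      funext x
      by_cases h1 : x ∈ X
      · have h2 : x ∉ Y := hd.notMem_of_mem_left h1
        simp [h1, h2]
      · by_cases h2 : x ∈ Y
        · simp [h1, h2]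
        · have h3 : x ∉ Ω := by rw [← hu]; exact fun h => h.elim h1 h2
          simp [h1, h2, hφ.d1_zero h3, hφ.d2_zero h3]
    unfold JJ at jX jY ⊢
    simp only [zero_mul, integral_zero, sub_zero] at jX jY ⊢
    linarith
  linarith

theorem pos_local (Ω : Set P) (p : P → Prop) :
    IsOpen {x : P | ∃ r, 0 < r ∧ ball x r ⊆ Ω ∧ ∀ᵐ y, y ∈ ball x r → p y} ∧
      ∀ᵐ x, x ∈ {x : P | ∃ r, 0 < r ∧ ball x r ⊆ Ω ∧ ∀ᵐ y, y ∈ ball x r → p y} → p x := by
  constructor
  · rw [Metric.isOpen_iff]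
    rintro x ⟨r, hr, h1, h2⟩
    refine ⟨r, hr, fun y hy => ?_⟩
    obtain ⟨r', hr', h3⟩ := Metric.isOpen_iff.1 isOpen_ball y hy
    refine ⟨r', hr', h3.trans h1, ?_⟩
    filter_upwards [h2] with z hz hz' using hz (h3 hz')
  · rw [ae_iff]
    apply measure_null_of_locally_null
    intro x hx
    simp only [mem_ofPred_eq, Classical.not_imp] at hx
    obtain ⟨⟨r, hr, -, h2⟩, -⟩ := hx
    refine ⟨_, inter_mem_nhdsWithin _ (ball_mem_nhds x hr), measure_mono_null ?_ (ae_iff.1 h2)⟩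
    rintro y ⟨h3, h4⟩ h5
    exact h3 fun _ => h5 h4

theorem hpos (A : API) (hD : DICH) (hV : VLAM) (hT : VTORS) : POS := by
  intro q Ω v v1 v2 hq hO hv hnn hw hi
  have hl := (hV.2 Ω hO.1).1
  have hd := hD Ω v v1 v2 _ hO.1.1 hv hnn (hv.m0.const_mul (lam Ω))
    (by filter_upwards [hnn] with x hx using mul_nonneg hl.le hx) hw
  obtain ⟨o1, a1⟩ := pos_local Ω (fun y => 0 < v y)
  obtain ⟨o2, a2⟩ := pos_local Ω (fun y => v y = 0)
  set X := {x : P | ∃ r, 0 < r ∧ ball x r ⊆ Ω ∧ ∀ᵐ y, y ∈ ball x r → 0 < v y} with hX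
  set Y := {x : P | ∃ r, 0 < r ∧ ball x r ⊆ Ω ∧ ∀ᵐ y, y ∈ ball x r → v y = 0} with hY
  have hu : X ∪ Y = Ω := by
    apply Subset.antisymm
    · rintro x (⟨r, hr, h, -⟩ | ⟨r, hr, h, -⟩) <;> exact h (mem_ball_self hr)
    · intro x hx
      obtain ⟨r, hr, h1, h2 | h2⟩ := hd x hx
      · exact Or.inl ⟨r, hr, h1, h2⟩
      · exact Or.inr ⟨r, hr, h1, h2⟩
  have hdis : Disjoint X Y := by
    rw [Set.disjoint_iff_inter_eq_empty, ← (o1.inter o2).measure_eq_zero_iff (μ := volume),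
      measure_eq_zero_iff_ae_notMem]
    filter_upwards [a1, a2] with x h1 h2 h3
    exact (h1 h3.1).ne' (h2 h3.2)
  have nX : X.Nonempty := by
    by_contra h
    rw [not_nonempty_iff_eq_empty] at h
    rw [h, empty_union] at hu
    have : ∫ x, v x ^ 2 = 0 := by
      apply integral_eq_zero_of_ae
      filter_upwards [a2, A.h_zero hv] with x h1 h2
      by_cases hx : x ∈ Ω
      · simp [h1 (hu ▸ hx)]
      · simp [(h2 hx).1]
    linarith
  have nY : Y = ∅ := by
    by_contra h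
    exact pos_split A hV hT hq hO o1 o2 hdis hu nX (nonempty_iff_ne_empty.2 h)
  rw [nY, union_empty] at hu
  filter_upwards [a1] with x h1 hx using h1 (hu ▸ hx)

theorem pos_sign (A : API) (hP : POS) (hA : ABS) (hV : VLAM) {q : ℝ} {Ω : Set P}
    {z z1 z2 : P → ℝ} (hq : 1 < q) (hO : Opt q Ω) (hz : H10 Ω z z1 z2)
    (he : ∫ x, (z1 x ^ 2 + z2 x ^ 2) ≤ lam Ω * ∫ x, z x ^ 2) (hi : 0 < ∫ x, z x ^ 2) :
    (∀ᵐ x, x ∈ Ω → 0 < z x) ∨ (∀ᵐ x, x ∈ Ω → z x < 0) := by
  obtain ⟨g1, g2, hg, hge⟩ := hA Ω z z1 z2 hz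
  have hW := (hV.2 Ω hO.1).2.2.2.2.2.2
  have w1 := hW z z1 z2 hz he
  have w2 := hW _ g1 g2 hg (by simp only [sq_abs]; exact hge.trans he)
  have hs := A.h_add hz hg
  have w3 : Weak Ω (fun x => z1 x + g1 x) (fun x => z2 x + g2 x)
      (fun x => lam Ω * (z x + |z x|)) := by
    intro φ hφ
    have b1 := w1 φ hφ
    have b2 := w2 φ hφ
    have e1 : (fun x => (z1 x + g1 x) * d1 φ x + (z2 x + g2 x) * d2 φ x) =
        fun x => (z1 x * d1 φ x + z2 x * d2 φ x) + (g1 x * d1 φ x + g2 x * d2 φ x) := by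
      funext x; ring
    have e2 : (fun x => lam Ω * (z x + |z x|) * φ x) =
        fun x => lam Ω * z x * φ x + lam Ω * |z x| * φ x := by
      funext x; ring
    rw [e1, e2, integral_add (int_dot hz.m1 hz.m2 hφ.memLp_d1 hφ.memLp_d2)
      (int_dot hg.m1 hg.m2 hφ.memLp_d1 hφ.memLp_d2),
      integral_add (int_mul (hz.m0.const_mul _) hφ.memLp) (int_mul (hg.m0.const_mul _) hφ.memLp),
      b1, b2]
  by_cases h : 0 < ∫ x, (z x + |z x|) ^ 2
  · left
    filter_upwards [hP q Ω _ _ _ hq hO hs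
      (Eventually.of_forall fun x => by linarith [neg_abs_le (z x)]) w3 h] with x hx hx'
    have := hx hx'
    by_contra h1
    rw [abs_of_nonpos (not_lt.1 h1)] at this
    linarith
  · right
    have h0 : ∫ x, (z x + |z x|) ^ 2 = 0 :=
      le_antisymm (not_lt.1 h) (integral_nonneg fun x => by positivity)
    rw [integral_eq_zero_iff_of_nonneg (fun x => by positivity) (int_sq hs.m0)] at h0
    filter_upwards [hP q Ω _ _ _ hq hO hg (Eventually.of_forall fun x => abs_nonneg _) w2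
      (by simp only [sq_abs]; exact hi), h0] with x hx h1 hx'
    have h2 := hx hx'
    have h3 : z x + |z x| = 0 := pow_eq_zero_iff two_ne_zero |>.1 h1
    linarith

theorem pos_three {a b c : P → ℝ} (ha : Integrable a) (hb : Integrable b) (hc : Integrable c)
    (s r : ℝ) : ∫ x, (a x - s * b x + r * c x) = (∫ x, a x) - s * (∫ x, b x) + r * ∫ x, c x := by
  have h1 : Integrable fun x => a x - s * b x := ha.sub (hb.const_mul s)
  rw [integral_add h1 (hc.const_mul r), integral_sub ha (hb.const_mul s), integral_const_mul,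
    integral_const_mul]

theorem simple (A : API) (hP : POS) (hA : ABS) (hV : VLAM) : SIMPLE := by
  intro q Ω u u1 u2 f f1 f2 hq hO hu hun hu2 hue hf hf2 hfe
  have hW := (hV.2 Ω hO.1).2.2.2.2.2.2
  have wu := hW u u1 u2 hu (by rw [hu2, hue, mul_one])
  have upos := hP q Ω u u1 u2 hq hO hu hun wu (by rw [hu2]; exact one_pos)
  obtain ⟨t, ht⟩ : ∃ t, t = ∫ x, u x * f x := ⟨_, rfl⟩
  have hz := A.h_sub hf (A.h_smul t hu)
  have hB : ∫ x, (u1 x * f1 x + u2 x * f2 x) = lam Ω * t := by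
    rw [A.h_weak wu hu.m1 hu.m2 (hu.m0.const_mul _) hf, ht, ← integral_const_mul]
    congr 1
    funext x; ring
  have z2 : ∫ x, (f x - t * u x) ^ 2 = 1 - t ^ 2 := by
    have e : (fun x => (f x - t * u x) ^ 2) =
        fun x => (f x ^ 2 - (2 * t) * (u x * f x)) + t ^ 2 * u x ^ 2 := by funext x; ring
    rw [e, pos_three (int_sq hf.m0) (int_mul hu.m0 hf.m0) (int_sq hu.m0), hf2, hu2, ← ht]
    ring
  have ze : ∫ x, ((f1 x - t * u1 x) ^ 2 + (f2 x - t * u2 x) ^ 2) ≤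
      lam Ω * ∫ x, (f x - t * u x) ^ 2 := by
    have e : (fun x => (f1 x - t * u1 x) ^ 2 + (f2 x - t * u2 x) ^ 2) =
        fun x => ((f1 x ^ 2 + f2 x ^ 2) - (2 * t) * (u1 x * f1 x + u2 x * f2 x)) +
          t ^ 2 * (u1 x ^ 2 + u2 x ^ 2) := by funext x; ring
    rw [e, pos_three (int_sq2 hf.m1 hf.m2) (int_dot hu.m1 hu.m2 hf.m1 hf.m2) (int_sq2 hu.m1 hu.m2),
      hB, hue, z2]
    linarith
  have zu : ∫ x, (f x - t * u x) * u x = 0 := by
    have e : (fun x => (f x - t * u x) * u x) = fun x => u x * f x - t * u x ^ 2 := by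
      funext x; ring
    rw [e, integral_sub (int_mul hu.m0 hf.m0) ((int_sq hu.m0).const_mul _), integral_const_mul,
      hu2, ← ht]
    ring
  have hint := int_mul hz.m0 hu.m0
  have hΩ : ¬ ∀ᵐ x, x ∉ Ω := fun h => hO.1.2.1.ne' (measure_eq_zero_iff_ae_notMem.2 h)
  have h0 : ∫ x, (f x - t * u x) ^ 2 = 0 := by
    by_contra hne
    have hi : 0 < ∫ x, (f x - t * u x) ^ 2 :=
      lt_of_le_of_ne (integral_nonneg fun x => by positivity) (Ne.symm hne)
    rcases pos_sign A hP hA hV hq hO hz ze hi with h | h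
    · have h1 : 0 ≤ᵐ[volume] fun x => (f x - t * u x) * u x := by
        filter_upwards [h, upos, A.h_zero hu] with x a1 a2 a3
        by_cases hx : x ∈ Ω
        · exact (mul_pos (a1 hx) (a2 hx)).le
        · simp [(a3 hx).1]
      rw [integral_eq_zero_iff_of_nonneg_ae h1 hint] at zu
      apply hΩ
      filter_upwards [h, upos, zu] with x a1 a2 a3 hx
      exact (mul_pos (a1 hx) (a2 hx)).ne' a3
    · have h1 : 0 ≤ᵐ[volume] fun x => -((f x - t * u x) * u x) := by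
        filter_upwards [h, upos, A.h_zero hu] with x a1 a2 a3
        by_cases hx : x ∈ Ω
        · exact (neg_pos.2 (mul_neg_of_neg_of_pos (a1 hx) (a2 hx))).le
        · simp [(a3 hx).1]
      have zu' : ∫ x, -((f x - t * u x) * u x) = 0 := by rw [integral_neg, zu, neg_zero]
      rw [integral_eq_zero_iff_of_nonneg_ae h1 hint.neg] at zu'
      apply hΩ
      filter_upwards [h, upos, zu'] with x a1 a2 a3 hx
      exact (neg_pos.2 (mul_neg_of_neg_of_pos (a1 hx) (a2 hx))).ne' a3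
  have ht2 : t ^ 2 = 1 := by linarith
  rw [integral_eq_zero_iff_of_nonneg (fun x => by positivity) (int_sq hz.m0)] at h0
  filter_upwards [h0] with x hx
  have h3 : f x - t * u x = 0 := pow_eq_zero_iff two_ne_zero |>.1 hx
  rw [sub_eq_zero.1 h3, mul_pow, ht2, one_mul]

end Pool.Agent.H92Z.Fq
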