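import Pool.Agent.H92Z.Fq.Stm

open MeasureTheory Set Filter Metric
open scoped Topology Pointwise

namespace Pool.Agent.H92Z.Fq

theorem rlx_min_bdd {m : P → ℝ} (h0 : ∀ x, 0 ≤ m x) (L : ℕ) (x : P) :
    0 ≤ min (m x) L ∧ min (m x) L ≤ L :=
  ⟨le_min (h0 x) (Nat.cast_nonneg L), min_le_right _ _⟩

theorem rlx_min_abs {m : P → ℝ} (h0 : ∀ x, 0 ≤ m x) (L : ℕ) :
    ∀ᵐ x : P, |min (m x) L| ≤ (L : ℝ) :=
  Eventually.of_forall fun x => by
    rw [abs_of_nonneg (rlx_min_bdd h0 L x).1]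
    exact (rlx_min_bdd h0 L x).2

theorem rlx_norm {Ω : Set P} {b : P → ℝ} {c : ℝ} (h0 : ∀ x, 0 ≤ b x) (h : ¬ LamGe Ω b c) :
    ∃ ψ, IsTest Ω ψ ∧ ∫ x, ψ x ^ 2 = 1 ∧
      (∫ x, (d1 ψ x ^ 2 + d2 ψ x ^ 2)) + ∫ x, b x * ψ x ^ 2 < c := by
  unfold LamGe at h
  push Not at h
  obtain ⟨φ, hφ, h⟩ := h
  have h1 : 0 ≤ ∫ x, (d1 φ x ^ 2 + d2 φ x ^ 2) := integral_nonneg fun x => by positivity
  have h2 : 0 ≤ ∫ x, b x * φ x ^ 2 := integral_nonneg fun x => mul_nonneg (h0 x) (sq_nonneg _)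
  have h3 : 0 ≤ ∫ x, φ x ^ 2 := integral_nonneg fun x => sq_nonneg _
  have h4 : 0 < ∫ x, φ x ^ 2 := by
    rcases h3.eq_or_lt with h5 | h5
    · rw [← h5, mul_zero] at h
      linarith
    · exact h5
  obtain ⟨s, hs⟩ : ∃ s : ℝ, s ^ 2 = (∫ x, φ x ^ 2)⁻¹ :=
    ⟨√(∫ x, φ x ^ 2)⁻¹, Real.sq_sqrt (inv_nonneg.2 h3)⟩
  refine ⟨fun x => s * φ x, hφ.const_mul s, ?_, ?_⟩
  · simp only [mul_pow]
    rw [integral_const_mul, hs, inv_mul_cancel₀ h4.ne']
  · have e1 : ∀ x, d1 (fun x => s * φ x) x ^ 2 + d2 (fun x => s * φ x) x ^ 2 =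
        s ^ 2 * (d1 φ x ^ 2 + d2 φ x ^ 2) := fun x => by
      rw [d1_const_mul s (hφ.diff x), d2_const_mul s (hφ.diff x)]
      ring
    have e2 : ∀ x, b x * (s * φ x) ^ 2 = s ^ 2 * (b x * φ x ^ 2) := fun x => by ring
    simp only [e1, e2]
    rw [integral_const_mul, integral_const_mul, ← mul_add, hs, inv_mul_lt_iff₀ h4, mul_comm]
    exact h

theorem rlx_int {m g : P → ℝ} {M : ℝ} (hm : Integrable m) (hg : AEStronglyMeasurable g volume)
    (hM : ∀ᵐ x, |g x| ≤ M) : Integrable fun x => m x * g x ^ 2 := by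
  have h := int_bdd_mul (b := fun x => g x ^ 2) (L := M ^ 2) (hg.pow 2)
    (hM.mono fun x hx => by
      rw [abs_pow]
      exact pow_le_pow_left₀ (abs_nonneg _) hx 2) hm
  simpa only [mul_comm] using h

theorem rlx_claim (A : API) (hC : COMPACT) {Ω : Set P} {m : P → ℝ} {c δ : ℝ} (hΩ : IsOpen Ω)
    (hfin : volume Ω < ⊤) (hm : Measurable m) (hi : Integrable m) (h0 : ∀ x, 0 ≤ m x)
    (H : ∀ f f1 f2, BH Ω f f1 f2 →
      c * ∫ x, f x ^ 2 ≤ (∫ x, (f1 x ^ 2 + f2 x ^ 2)) + ∫ x, m x * f x ^ 2) (hδ : 0 < δ) :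
    ∃ L : ℕ, LamGe Ω (fun x => min (m x) L) (c - δ) := by
  by_contra hcon
  push Not at hcon
  choose ψ h1 h2 h3 using fun L => rlx_norm (fun x => (rlx_min_bdd h0 L x).1) (hcon L)
  have hb : ∀ L : ℕ, AEStronglyMeasurable (fun x => min (m x) (L : ℝ)) volume := fun L =>
    (hm.min measurable_const).aestronglyMeasurable
  have h4 : ∀ (L : ℕ) (g : P → ℝ), 0 ≤ ∫ x, min (m x) L * g x ^ 2 := fun L g =>
    integral_nonneg fun x => mul_nonneg (rlx_min_bdd h0 L x).1 (sq_nonneg _)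
  obtain ⟨σ, f, f1, f2, hσ, hf, hl, -, -, hlsc⟩ := hC Ω ψ (max 1 (c - δ)) hΩ.measurableSet hfin h1
    (fun n => (h2 n).le.trans (le_max_left _ _))
    (fun n => le_trans (by linarith [h3 n, h4 n (ψ n)]) (le_max_right _ _))
  have hf1 : ∫ x, f x ^ 2 = 1 := by
    have := A.l_sq hl
    simp only [h2] at this
    exact tendsto_nhds_unique this tendsto_const_nhds
  have hE : ∀ L : ℕ, ∫ x, (f1 x ^ 2 + f2 x ^ 2) ≤ c - δ - ∫ x, min (m x) L * f x ^ 2 := by
    intro L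
    refine hlsc _ fun ε hε => ?_
    filter_upwards [(A.l_wsq hl (hb L) (rlx_min_abs h0 L)).eventually
      (lt_mem_nhds (sub_lt_self _ hε)), eventually_ge_atTop L] with n h5 h6
    have h7 : ∫ x, min (m x) L * ψ (σ n) x ^ 2 ≤ ∫ x, min (m x) (σ n) * ψ (σ n) x ^ 2 :=
      integral_mono (int_bdd_mul (hb L) (rlx_min_abs h0 L) (int_sq (h1 _).memLp))
        (int_bdd_mul (hb _) (rlx_min_abs h0 _) (int_sq (h1 _).memLp)) fun x =>
        mul_le_mul_of_nonneg_right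
          (min_le_min_left _ (Nat.cast_le.2 (le_trans h6 (hσ.id_le n)))) (sq_nonneg _)
    linarith [h3 (σ n)]
  choose T T' t1 t2 t3 t4 t5 M t6 using fun M : ℕ => A.trunc M
  have hT : ∀ k, H10 Ω (fun x => T k (f x)) (fun x => T' k (f x) * f1 x)
      (fun x => T' k (f x) * f2 x) := fun k =>
    A.h_comp (K := 1) hf (t1 k) (t2 k)
      (fun s => by rw [abs_of_nonneg (t3 k s).1]; exact (t3 k s).2)
      (by simpa using t5 k 0)
  have hsq : ∀ k x, T k (f x) ^ 2 ≤ f x ^ 2 := fun k x => sq_le_sq.2 (t5 k _)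
  have hk : ∀ k, c * ∫ x, T k (f x) ^ 2 ≤ c - δ := by
    intro k
    have h5 := H _ _ _ (A.h_bh (hT k) (Eventually.of_forall fun x => t6 k (f x)))
    have h6 : ∫ x, ((T' k (f x) * f1 x) ^ 2 + (T' k (f x) * f2 x) ^ 2) ≤
        ∫ x, (f1 x ^ 2 + f2 x ^ 2) := by
      refine integral_mono (int_sq2 (hT k).m1 (hT k).m2) (int_sq2 hf.m1 hf.m2) fun x => ?_
      have h7 : T' k (f x) ^ 2 ≤ 1 := pow_le_one₀ (t3 k _).1 (t3 k _).2
      have h8 := mul_le_mul_of_nonneg_right h7 (show 0 ≤ f1 x ^ 2 + f2 x ^ 2 by positivity)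
      simp only [mul_pow]
      linarith
    have h7 : Tendsto (fun L : ℕ => ∫ x, min (m x) L * T k (f x) ^ 2) atTop
        (𝓝 (∫ x, m x * T k (f x) ^ 2)) := by
      refine tendsto_integral_of_dominated_convergence (fun x => m x * T k (f x) ^ 2)
        (fun L => (hb L).mul ((hT k).m0.1.pow 2))
        (rlx_int hi (hT k).m0.1 (Eventually.of_forall fun x => t6 k (f x)))
        (fun L => Eventually.of_forall fun x => ?_) (Eventually.of_forall fun x => ?_)
      · rw [Real.norm_eq_abs, abs_of_nonneg (mul_nonneg (rlx_min_bdd h0 L x).1 (sq_nonneg _))]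
        exact mul_le_mul_of_nonneg_right (min_le_left _ _) (sq_nonneg _)
      · refine tendsto_const_nhds.congr' ?_
        filter_upwards [tendsto_natCast_atTop_atTop.eventually_ge_atTop (m x)] with L hL
        rw [min_eq_left hL]
    have h8 : ∫ x, m x * T k (f x) ^ 2 ≤ c - δ - ∫ x, (f1 x ^ 2 + f2 x ^ 2) := by
      refine le_of_tendsto' h7 fun L => ?_
      have h9 : ∫ x, min (m x) L * T k (f x) ^ 2 ≤ ∫ x, min (m x) L * f x ^ 2 :=
        integral_mono (int_bdd_mul (hb L) (rlx_min_abs h0 L) (int_sq (hT k).m0))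
          (int_bdd_mul (hb L) (rlx_min_abs h0 L) (int_sq hf.m0)) fun x =>
          mul_le_mul_of_nonneg_left (hsq k x) (rlx_min_bdd h0 L x).1
      linarith [hE L]
    linarith
  have hlim : Tendsto (fun k : ℕ => ∫ x, T k (f x) ^ 2) atTop (𝓝 (∫ x, f x ^ 2)) := by
    refine tendsto_integral_of_dominated_convergence (fun x => f x ^ 2)
      (fun k => (hT k).m0.1.pow 2) (int_sq hf.m0)
      (fun k => Eventually.of_forall fun x => ?_) (Eventually.of_forall fun x => ?_)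
    · rw [Real.norm_eq_abs, abs_of_nonneg (sq_nonneg _)]
      exact hsq k x
    · refine tendsto_const_nhds.congr' ?_
      filter_upwards [tendsto_natCast_atTop_atTop.eventually_ge_atTop |f x|] with k hk'
      rw [(t4 k _ hk').1]
  have h9 := le_of_tendsto' (hlim.const_mul c) hk
  rw [hf1] at h9
  linarith

theorem relax (A : API) (hP : PERF) (hT : RELT) (hL : RELL) (hC : COMPACT) : RELAX := by
  intro Ω μ R c hΩ hfin hμ hμ0 hμR H v v1 v2 hv ε hε
  let m : P → ℝ := fun x => if ‖x‖ < R then max (hμ.1.mk μ x) 0 else 0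
  have hm : Measurable m :=
    Measurable.ite (measurableSet_lt measurable_norm measurable_const)
      (hμ.1.measurable_mk.max measurable_const) measurable_const
  have h0 : ∀ x, 0 ≤ m x := fun x => by
    simp only [m]
    split_ifs
    · exact le_max_right _ _
    · exact le_rfl
  have hmR : ∀ x, R ≤ ‖x‖ → m x = 0 := fun x hx => if_neg (not_lt.2 hx)
  have hae : μ =ᵐ[volume] m := by
    filter_upwards [hμ.1.ae_eq_mk, hμ0, hμR] with x h1 h2 h3
    simp only [m]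
    split_ifs with h4
    · rw [← h1, max_eq_left h2]
    · exact h3 (not_lt.1 h4)
  have hi : Integrable m := hμ.congr hae
  have he : ∀ g : P → ℝ, ∫ x, μ x * g x ^ 2 = ∫ x, m x * g x ^ 2 := fun g =>
    integral_congr_ae (hae.mono fun x hx => by simp only [hx])
  obtain ⟨L, hLam⟩ := rlx_claim A hC hΩ hfin hm hi h0 (fun f f1 f2 hf => he f ▸ H f f1 f2 hf)
    (half_pos hε)
  have hbm : Measurable fun x => min (m x) (L : ℝ) := hm.min measurable_const
  have hv' := A.b_h hv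
  obtain ⟨M, -, hM⟩ := A.b_bdd hv
  have h1 : JJ μ v v1 v2 ≤ JJ (fun x => min (m x) L) v v1 v2 := by
    unfold JJ
    rw [he]
    have := integral_mono
      (int_bdd_mul hbm.aestronglyMeasurable (rlx_min_abs h0 L) (int_sq hv'.m0))
      (rlx_int hi hv'.m0.1 hM) fun x =>
      mul_le_mul_of_nonneg_right (min_le_left (m x) (L : ℝ)) (sq_nonneg (v x))
    linarith
  obtain ⟨φ, h2, h3, h4, h5⟩ := A.h_iff.1 hv'
  have h6 : Tendsto (fun n => JJ (fun x => min (m x) L) (φ n) (d1 (φ n)) (d2 (φ n))) atTop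
      (𝓝 (JJ (fun x => min (m x) L) v v1 v2)) :=
    (((A.h_int_lim h2 h3 hΩ.measurableSet hfin).const_mul 2).sub (A.l_sq2 h4 h5)).sub
      (A.l_wsq h3 hbm.aestronglyMeasurable (rlx_min_abs h0 L))
  obtain ⟨k, hk⟩ := (h6.eventually (lt_mem_nhds (sub_lt_self _ (half_pos hε)))).exists
  obtain ⟨p, bn, C, R', hD⟩ := hP (fun x => min (m x) L) L R hbm (rlx_min_bdd h0 L)
    (fun x hx => by rw [hmR x hx, min_eq_left (Nat.cast_nonneg L)])
  obtain ⟨n, ⟨ψ, h7, h8⟩, h9⟩ := ((hT Ω _ p bn C R' hD (φ k) (h2 k) _ (half_pos hε)).and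
    (hL Ω _ L _ p bn C R' hΩ hfin hbm (rlx_min_bdd h0 L) hD hLam _ (half_pos hε))).exists
  refine ⟨_, inter_subset_left,
    hΩ.inter (isOpen_lt continuous_const (hD.1 n).1.continuous), ?_, ψ, h7, by linarith⟩
  rwa [show c - ε / 2 - ε / 2 = c - ε by ring] at h9

theorem optr (A : API) (hR : RELAX) (hV : VLAM) (hT : VTORS) : OPTR := by
  intro q Ω Ω1 μ R c t hq hopt hΩ1 hfin hμ hμ0 hμR hc ht H v v1 v2 hv htv
  have key : ∀ ε : ℝ, 0 < ε → ε < c → ε < t →
      (c - ε) * (t - ε) ^ q / vol Ω1 ^ ((2 * q + 2 * q - 2) / 2) ≤ FF q Ω := by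
    intro ε hε h1 h2
    obtain ⟨Ω', hsub, hopen, hlam, ψ, hψ, hJ⟩ := hR Ω1 μ R c hΩ1 hfin hμ hμ0 hμR H v v1 v2 hv ε hε
    have hne : Ω'.Nonempty := by
      by_contra hcon
      rw [not_nonempty_iff_eq_empty] at hcon
      have h3 : ψ = fun _ => 0 := funext fun x => hψ.zero_of_notMem (by simp [hcon])
      rw [h3] at hJ
      simp [JJ] at hJ
      unfold JJ at htv
      linarith
    have hadm : Adm Ω' := ⟨hopen, hopen.measure_pos volume hne,
      (measure_mono hsub).trans_lt hfin⟩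
    obtain ⟨h3, h4, -, -, h5, -⟩ := hV.2 Ω' hadm
    have h6 := h5 _ hlam
    have h7 : t - ε ≤ tors Ω' := by linarith [(hT Ω' hadm).1 _ _ _ (A.h_test hψ)]
    have h8 : vol Ω' ≤ vol Ω1 := ENNReal.toReal_mono hfin.ne (measure_mono hsub)
    refine le_trans ?_ (hopt.2 Ω' hadm)
    have h9 : 0 ≤ tors Ω' ^ q := Real.rpow_nonneg (by linarith) _
    exact div_le_div₀ (mul_nonneg h3.le h9)
      (mul_le_mul h6 (Real.rpow_le_rpow (by linarith) h7 (by linarith))
        (Real.rpow_nonneg (by linarith) _) h3.le)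
      (Real.rpow_pos_of_pos h4 _) (Real.rpow_le_rpow h4.le h8 (by linarith))
  have h1 : ContinuousAt
      (fun ε : ℝ => (c - ε) * (t - ε) ^ q / vol Ω1 ^ ((2 * q + 2 * q - 2) / 2)) 0 :=
    ((continuousAt_const.sub continuousAt_id).mul
      ((continuousAt_const.sub continuousAt_id).rpow_const (Or.inr (by linarith)))).div_const _
  have h2 := h1.tendsto.mono_left (nhdsWithin_le_nhds (s := Ioi 0))
  simp only [sub_zero] at h2
  refine le_of_tendsto h2 ?_
  filter_upwards [self_mem_nhdsWithin, nhdsWithin_le_nhds (gt_mem_nhds hc),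
    nhdsWithin_le_nhds (gt_mem_nhds ht)] with ε h3 h4 h5 using key ε h3 h4 h5

end Pool.Agent.H92Z.Fq
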