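import Pool.Agent.H92Z.Fq.Stm

open MeasureTheory Set Filter Metric
open scoped Topology

namespace Pool.Agent.H92Z.Fq

theorem rell_cs {X : Type*} [MeasurableSpace X] {μ : Measure X} [IsFiniteMeasure μ] {f : X → ℝ}
    (hf : MemLp f 2 μ) : (∫ x, f x ∂μ) ^ 2 ≤ μ.real univ * ∫ x, f x ^ 2 ∂μ := by
  have hi : Integrable f μ := hf.integrable (by norm_num)
  have key : ∀ t : ℝ, 0 ≤ μ.real univ * (t * t) + (2 * ∫ x, f x ∂μ) * t + ∫ x, f x ^ 2 ∂μ := by
    intro t
    have h : ∫ x, (f x + t) ^ 2 ∂μ = μ.real univ * (t * t)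
        + (2 * ∫ x, f x ∂μ) * t + ∫ x, f x ^ 2 ∂μ := by
      have e : (fun x => (f x + t) ^ 2) =
          fun x => (t * t) + (2 * t) * f x + f x ^ 2 := by ext x; ring
      rw [e, integral_add, integral_add, integral_const, integral_const_mul]
      · simp only [smul_eq_mul]; ring
      · exact integrable_const _
      · exact hi.const_mul _
      · exact (integrable_const _).add (hi.const_mul _)
      · exact hf.integrable_sq
    rw [← h]; exact integral_nonneg fun x => by positivity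
  have := discrim_le_zero key
  unfold discrim at this
  nlinarith

theorem rell_fub {Y : Type*} [MeasurableSpace Y] (ν : Measure Y) [IsFiniteMeasure ν]
    (F : P → Y → ℝ) (M : ℝ)
    (hm : AEStronglyMeasurable (Function.uncurry F) ((volume : Measure P).prod ν))
    (h0 : ∀ x y, 0 ≤ F x y) (hi : ∀ y, Integrable (fun x => F x y))
    (hM : ∀ᵐ y ∂ν, ∫ x, F x y ≤ M) :
    Integrable (fun x => ∫ y, F x y ∂ν) ∧ ∫ x, ∫ y, F x y ∂ν ≤ M * ν.real univ := by
  have hn : ∀ y, ∫ x, ‖F x y‖ = ∫ x, F x y := fun y => by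
    congr 1; ext x; rw [Real.norm_eq_abs, abs_of_nonneg (h0 x y)]
  have hI : Integrable (Function.uncurry F) ((volume : Measure P).prod ν) := by
    rw [integrable_prod_iff' hm]
    refine ⟨Eventually.of_forall fun y => hi y, ?_⟩
    refine Integrable.of_bound (C := M) hm.norm.prod_swap.integral_prod_right' ?_
    filter_upwards [hM] with y hy
    have h1 : ∫ x, ‖Function.uncurry F (x, y)‖ = ∫ x, F x y := hn y
    rw [h1, Real.norm_eq_abs, abs_of_nonneg (integral_nonneg fun x => h0 x y)]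
    exact hy
  refine ⟨hI.integral_prod_left, ?_⟩
  rw [integral_integral_swap hI]
  calc ∫ y, (∫ x, F x y) ∂ν ≤ ∫ _y, M ∂ν :=
        integral_mono_ae hI.integral_prod_right (integrable_const _) hM
    _ = M * ν.real univ := by rw [integral_const, smul_eq_mul, mul_comm]

theorem rell_pt {φ : P → ℝ} (hφ : ContDiff ℝ 1 φ) (x h : P) :
    (φ (x + h) - φ x) ^ 2 ≤ (h.1 ^ 2 + h.2 ^ 2) *
      ∫ t in Icc (0 : ℝ) 1, (d1 φ (x + t • h) ^ 2 + d2 φ (x + t • h) ^ 2) := by
  have hd : Differentiable ℝ φ := hφ.differentiable (by simp)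
  have hl : Continuous fun t : ℝ => x + t • h := by fun_prop
  have hc1 : Continuous fun t : ℝ => d1 φ (x + t • h) := (d1_cont hφ).comp hl
  have hc2 : Continuous fun t : ℝ => d2 φ (x + t • h) := (d2_cont hφ).comp hl
  have hg : ∀ t : ℝ, HasDerivAt (fun t : ℝ => φ (x + t • h))
      (d1 φ (x + t • h) * h.1 + d2 φ (x + t • h) * h.2) t := by
    intro t
    have h1 : HasDerivAt (fun t : ℝ => x + t • h) h t := by
      simpa using ((hasDerivAt_id t).smul_const h).const_add x
    have := (hd (x + t • h)).hasFDerivAt.comp_hasDerivAt t h1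
    rw [fderiv_apply_eq] at this
    exact this
  have hc : Continuous fun t : ℝ => d1 φ (x + t • h) * h.1 + d2 φ (x + t • h) * h.2 :=
    (hc1.mul continuous_const).add (hc2.mul continuous_const)
  have e := intervalIntegral.integral_eq_sub_of_hasDerivAt (a := (0 : ℝ)) (b := 1)
    (fun t _ => hg t) (hc.intervalIntegrable 0 1)
  rw [intervalIntegral.integral_of_le zero_le_one, ← integral_Icc_eq_integral_Ioc] at e
  simp only [one_smul, zero_smul, add_zero] at e
  rw [← e]
  have hm : MemLp (fun t : ℝ => d1 φ (x + t • h) * h.1 + d2 φ (x + t • h) * h.2) 2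
      (volume.restrict (Icc (0 : ℝ) 1)) := by
    rw [memLp_two_iff_integrable_sq hc.aestronglyMeasurable]
    exact (hc.pow 2).continuousOn.integrableOn_compact isCompact_Icc
  refine (rell_cs hm).trans ?_
  have hv : (volume.restrict (Icc (0 : ℝ) 1)).real univ = 1 := by
    simp [Measure.real]
  rw [hv, one_mul, ← integral_const_mul]
  refine integral_mono hm.integrable_sq ?_ fun t => ?_
  · exact (continuous_const.mul ((hc1.pow 2).add (hc2.pow 2))).continuousOn.integrableOn_compact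
      isCompact_Icc
  · simp only
    nlinarith [sq_nonneg (d1 φ (x + t • h) * h.2 - d2 φ (x + t • h) * h.1)]

theorem rell_trans {U : Set P} {φ : P → ℝ} (hφ : IsTest U φ) (h : P) :
    Integrable (fun x => (φ (x + h) - φ x) ^ 2) ∧
    ∫ x, (φ (x + h) - φ x) ^ 2 ≤ (h.1 ^ 2 + h.2 ^ 2) * ∫ x, (d1 φ x ^ 2 + d2 φ x ^ 2) := by
  have hE : Integrable (fun x => d1 φ x ^ 2 + d2 φ x ^ 2) := int_sq2 hφ.memLp_d1 hφ.memLp_d2
  have hI : Integrable (fun x => (φ (x + h) - φ x) ^ 2) := by
    have h1 : MemLp (fun x => φ (x + h)) 2 (volume : Measure P) := by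
      rw [memLp_two_iff_integrable_sq (by
        exact (hφ.cont.comp (by fun_prop)).aestronglyMeasurable)]
      exact (int_sq hφ.memLp).comp_add_right h
    exact int_sq (h1.sub hφ.memLp)
  refine ⟨hI, ?_⟩
  have hc : Continuous (Function.uncurry fun (x : P) (t : ℝ) =>
      d1 φ (x + t • h) ^ 2 + d2 φ (x + t • h) ^ 2) := by
    have hl : Continuous fun p : P × ℝ => p.1 + p.2 • h := by fun_prop
    exact ((hφ.d1_cont.comp hl).pow 2).add ((hφ.d2_cont.comp hl).pow 2)
  obtain ⟨h1, h2⟩ := rell_fub (volume.restrict (Icc (0 : ℝ) 1))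
    (fun (x : P) (t : ℝ) => d1 φ (x + t • h) ^ 2 + d2 φ (x + t • h) ^ 2)
    (∫ x, (d1 φ x ^ 2 + d2 φ x ^ 2)) hc.aestronglyMeasurable (fun x t => by positivity)
    (fun t => hE.comp_add_right (t • h))
    (Eventually.of_forall fun t => le_of_eq
      (integral_add_right_eq_self (fun x => d1 φ x ^ 2 + d2 φ x ^ 2) (t • h)))
  have hv : (volume.restrict (Icc (0 : ℝ) 1)).real univ = 1 := by
    simp [Measure.real]
  rw [hv, mul_one] at h2
  calc ∫ x, (φ (x + h) - φ x) ^ 2 ≤ ∫ x, (h.1 ^ 2 + h.2 ^ 2) *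
        ∫ t in Icc (0 : ℝ) 1, (d1 φ (x + t • h) ^ 2 + d2 φ (x + t • h) ^ 2) :=
        integral_mono hI (h1.const_mul _) fun x => rell_pt hφ.c1 x h
    _ ≤ _ := by
        rw [integral_const_mul]
        exact mul_le_mul_of_nonneg_left h2 (by positivity)

/-- average over the square of half side `r` -/
noncomputable def rellAv (r : ℝ) (g : P → ℝ) (x : P) : ℝ :=
  (4 * r ^ 2)⁻¹ * ∫ h in closedBall (0 : P) r, g (x + h)

instance rell_fin (x : P) (r : ℝ) : IsFiniteMeasure ((volume : Measure P).restrict (closedBall x r)) :=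
  isFiniteMeasure_restrict.2 (isCompact_closedBall x r).measure_lt_top.ne

theorem rell_real (x : P) {r : ℝ} (hr : 0 ≤ r) :
    ((volume : Measure P).restrict (closedBall x r)).real univ = 4 * r ^ 2 := by
  rw [Measure.real, Measure.restrict_apply MeasurableSet.univ, univ_inter, volume_closedBall_P x hr]

theorem rell_av_cont {φ : P → ℝ} (hφ : Continuous φ) (r : ℝ) : Continuous (rellAv r φ) := by
  unfold rellAv
  refine continuous_const.mul ?_
  exact continuous_parametric_integral_of_continuous (f := fun (x h : P) => φ (x + h))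
    (hφ.comp (by fun_prop)) (isCompact_closedBall 0 r)

theorem rell_av_eq (r : ℝ) (g : P → ℝ) (x : P) :
    rellAv r g x = (4 * r ^ 2)⁻¹ * ∫ y, (closedBall x r).indicator (fun _ => (1 : ℝ)) y * g y := by
  unfold rellAv
  congr 1
  rw [← integral_indicator measurableSet_closedBall,
    ← integral_add_left_eq_self (fun y => (closedBall x r).indicator (fun _ => (1 : ℝ)) y * g y) x]
  congr 1
  ext h
  by_cases hh : h ∈ closedBall (0 : P) r
  · have : x + h ∈ closedBall x r := by simpa using hh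
    rw [indicator_of_mem hh, indicator_of_mem this, one_mul]
  · have : x + h ∉ closedBall x r := by simpa using hh
    rw [indicator_of_notMem hh, indicator_of_notMem this, zero_mul]

theorem rell_ind_mem (x : P) (r : ℝ) :
    MemLp ((closedBall x r).indicator (fun _ => (1 : ℝ))) 2 (volume : Measure P) :=
  memLp_indicator_const 2 measurableSet_closedBall 1
    (Or.inr (isCompact_closedBall x r).measure_lt_top.ne)

theorem rell_av_bd {r K : ℝ} {g : P → ℝ} (hg : MemLp g 2 volume) (hK : ∫ x, g x ^ 2 ≤ K)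
    (hr : 0 < r) (x : P) : |rellAv r g x| ≤ (4 * r ^ 2)⁻¹ * (√(4 * r ^ 2) * √K) := by
  rw [rell_av_eq, abs_mul, abs_of_pos (by positivity : (0 : ℝ) < (4 * r ^ 2)⁻¹)]
  refine mul_le_mul_of_nonneg_left ?_ (by positivity)
  refine (cs_abs (rell_ind_mem x r) hg).trans ?_
  have e : ∫ y, ((closedBall x r).indicator (fun _ => (1 : ℝ)) y) ^ 2 = 4 * r ^ 2 := by
    have : (fun y => ((closedBall x r).indicator (fun _ => (1 : ℝ)) y) ^ 2) =
        (closedBall x r).indicator (fun _ => (1 : ℝ)) := by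
      ext y
      by_cases hy : y ∈ closedBall x r
      · rw [indicator_of_mem hy]; ring
      · rw [indicator_of_notMem hy]; ring
    rw [this, integral_indicator measurableSet_closedBall, integral_const, rell_real x hr.le]
    simp
  rw [e]
  exact mul_le_mul_of_nonneg_left (Real.sqrt_le_sqrt hK) (Real.sqrt_nonneg _)

theorem rell_av_est {U : Set P} {φ : P → ℝ} (hφ : IsTest U φ) {r : ℝ} (hr : 0 < r) :
    Integrable (fun x => (rellAv r φ x - φ x) ^ 2) ∧
    ∫ x, (rellAv r φ x - φ x) ^ 2 ≤ 2 * r ^ 2 * ∫ x, (d1 φ x ^ 2 + d2 φ x ^ 2) := by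
  have hE0 : 0 ≤ ∫ x, (d1 φ x ^ 2 + d2 φ x ^ 2) := integral_nonneg fun x => by positivity
  have hc : Continuous (Function.uncurry fun (x h : P) => (φ (x + h) - φ x) ^ 2) :=
    ((hφ.cont.comp (by fun_prop : Continuous fun p : P × P => p.1 + p.2)).sub
      (hφ.cont.comp continuous_fst)).pow 2
  obtain ⟨h1, h2⟩ := rell_fub ((volume : Measure P).restrict (closedBall 0 r))
    (fun (x h : P) => (φ (x + h) - φ x) ^ 2)
    (2 * r ^ 2 * ∫ x, (d1 φ x ^ 2 + d2 φ x ^ 2)) hc.aestronglyMeasurable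
    (fun x t => by positivity) (fun h => (rell_trans hφ h).1) (by
      filter_upwards [ae_restrict_mem measurableSet_closedBall] with h hh
      refine (rell_trans hφ h).2.trans (mul_le_mul_of_nonneg_right ?_ hE0)
      rw [mem_closedBall_zero_iff] at hh
      have a1 : |h.1| ≤ r := (norm_fst_le h).trans hh
      have a2 : |h.2| ≤ r := (norm_snd_le h).trans hh
      have b1 : h.1 ^ 2 ≤ r ^ 2 := sq_le_sq' (abs_le.1 a1).1 (abs_le.1 a1).2
      have b2 : h.2 ^ 2 ≤ r ^ 2 := sq_le_sq' (abs_le.1 a2).1 (abs_le.1 a2).2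
      linarith)
  rw [rell_real 0 hr.le] at h2
  have hpos : (0 : ℝ) < 4 * r ^ 2 := by positivity
  have hpt : ∀ x, (rellAv r φ x - φ x) ^ 2 ≤
      (4 * r ^ 2)⁻¹ * ∫ h in closedBall (0 : P) r, (φ (x + h) - φ x) ^ 2 := by
    intro x
    have hcx : Continuous fun h : P => φ (x + h) := hφ.cont.comp (by fun_prop)
    have hcx' : Continuous fun h : P => φ (x + h) - φ x := hcx.sub continuous_const
    have hm : MemLp (fun h : P => φ (x + h) - φ x) 2 (volume.restrict (closedBall (0 : P) r)) := by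
      rw [memLp_two_iff_integrable_sq hcx'.aestronglyMeasurable]
      exact (hcx'.pow 2).continuousOn.integrableOn_compact (isCompact_closedBall 0 r)
    have e : rellAv r φ x - φ x =
        (4 * r ^ 2)⁻¹ * ∫ h in closedBall (0 : P) r, (φ (x + h) - φ x) := by
      rw [integral_sub (hcx.continuousOn.integrableOn_compact (isCompact_closedBall 0 r))
        (integrable_const _), integral_const, rell_real 0 hr.le]
      unfold rellAv
      rw [smul_eq_mul]
      field_simp
    have := rell_cs hm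
    rw [rell_real 0 hr.le] at this
    rw [e, mul_pow]
    calc ((4 * r ^ 2)⁻¹) ^ 2 * (∫ h in closedBall (0 : P) r, (φ (x + h) - φ x)) ^ 2
        ≤ ((4 * r ^ 2)⁻¹) ^ 2 * (4 * r ^ 2 *
          ∫ h in closedBall (0 : P) r, (φ (x + h) - φ x) ^ 2) :=
          mul_le_mul_of_nonneg_left this (by positivity)
      _ = _ := by field_simp
  have hI : Integrable (fun x => (rellAv r φ x - φ x) ^ 2) := by
    refine Integrable.mono' (h1.const_mul (4 * r ^ 2)⁻¹)
      (((rell_av_cont hφ.cont r).sub hφ.cont).pow 2).aestronglyMeasurable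
      (Eventually.of_forall fun x => ?_)
    rw [Real.norm_eq_abs, abs_of_nonneg (by positivity)]
    exact hpt x
  refine ⟨hI, ?_⟩
  calc ∫ x, (rellAv r φ x - φ x) ^ 2
      ≤ ∫ x, (4 * r ^ 2)⁻¹ * ∫ h in closedBall (0 : P) r, (φ (x + h) - φ x) ^ 2 :=
        integral_mono hI (h1.const_mul _) hpt
    _ ≤ (4 * r ^ 2)⁻¹ * (2 * r ^ 2 * (∫ x, (d1 φ x ^ 2 + d2 φ x ^ 2)) * (4 * r ^ 2)) := by
        rw [integral_const_mul]
        exact mul_le_mul_of_nonneg_left h2 (by positivity)
    _ = _ := by field_simp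

theorem rell_dom {Ω : Set P} {φ : ℕ → P → ℝ} {f : P → ℝ} {K r : ℝ} (hΩ : volume Ω < ⊤)
    (hc : ∀ n, Continuous (φ n)) (hm : ∀ n, MemLp (φ n) 2 volume)
    (hK : ∀ n, ∫ x, φ n x ^ 2 ≤ K) (hw : WLim φ f) (hr : 0 < r) :
    (∀ n, IntegrableOn (fun x => (rellAv r (φ n) x - rellAv r f x) ^ 2) Ω) ∧
    Tendsto (fun n => ∫ x in Ω, (rellAv r (φ n) x - rellAv r f x) ^ 2) atTop (𝓝 0) := by
  have : IsFiniteMeasure ((volume : Measure P).restrict Ω) := isFiniteMeasure_restrict.2 hΩ.ne
  set B : ℝ := (4 * r ^ 2)⁻¹ * (√(4 * r ^ 2) * √K) with hB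
  have hlim : ∀ x, Tendsto (fun n => rellAv r (φ n) x) atTop (𝓝 (rellAv r f x)) := by
    intro x
    simp only [rell_av_eq]
    exact (hw _ (rell_ind_mem x r)).const_mul _
  have hb : ∀ n x, |rellAv r (φ n) x| ≤ B := fun n x => rell_av_bd (hm n) (hK n) hr x
  have hbf : ∀ x, |rellAv r f x| ≤ B := fun x =>
    le_of_tendsto' (hlim x).abs fun n => hb n x
  have hmf : Measurable (rellAv r f) :=
    measurable_of_tendsto_metrizable (fun n => (rell_av_cont (hc n) r).measurable)
      (tendsto_pi_nhds.2 hlim)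
  have hme : ∀ n, AEStronglyMeasurable (fun x => (rellAv r (φ n) x - rellAv r f x) ^ 2)
      ((volume : Measure P).restrict Ω) := fun n =>
    (((rell_av_cont (hc n) r).measurable.sub hmf).pow_const 2).aestronglyMeasurable
  have hbd : ∀ n x, ‖(rellAv r (φ n) x - rellAv r f x) ^ 2‖ ≤ (2 * B) ^ 2 := by
    intro n x
    rw [Real.norm_eq_abs, abs_of_nonneg (by positivity)]
    have a := abs_le.1 (hb n x)
    have b := abs_le.1 (hbf x)
    exact sq_le_sq' (by linarith [a.1, b.2]) (by linarith [a.2, b.1])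
  refine ⟨fun n => Integrable.of_bound (hme n) _ (Eventually.of_forall (hbd n)), ?_⟩
  have := tendsto_integral_of_dominated_convergence (μ := (volume : Measure P).restrict Ω)
    (F := fun n x => (rellAv r (φ n) x - rellAv r f x) ^ 2) (f := fun _ => (0 : ℝ))
    (fun _ => (2 * B) ^ 2) hme (integrable_const _) (fun n => Eventually.of_forall (hbd n))
    (Eventually.of_forall fun x => by
      have := ((hlim x).sub_const (rellAv r f x)).pow 2
      simpa using this)
  simpa using this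

theorem rell_cauchy {Ω : Set P} {φ : ℕ → P → ℝ} {f : P → ℝ} {K r : ℝ} 
    (hΩ : volume Ω < ⊤) (ht : ∀ n, IsTest Ω (φ n)) (hK : ∀ n, ∫ x, φ n x ^ 2 ≤ K)
    (hE : ∀ n, ∫ x, (d1 (φ n) x ^ 2 + d2 (φ n) x ^ 2) ≤ K) (hw : WLim φ f) (hr : 0 < r)
    (n m : ℕ) : ∫ x, (φ n x - φ m x) ^ 2 ≤ 16 * r ^ 2 * K +
      4 * (∫ x in Ω, (rellAv r (φ n) x - rellAv r f x) ^ 2) +
      4 * ∫ x in Ω, (rellAv r (φ m) x - rellAv r f x) ^ 2 := by
  obtain ⟨hI, -⟩ := rell_dom hΩ (fun n => (ht n).cont) (fun n => (ht n).memLp) hK hw hr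
  have e : ∫ x, (φ n x - φ m x) ^ 2 = ∫ x in Ω, (φ n x - φ m x) ^ 2 := by
    rw [setIntegral_eq_integral_of_forall_compl_eq_zero]
    intro x hx
    rw [(ht n).zero_of_notMem hx, (ht m).zero_of_notMem hx]; ring
  have hA : ∀ k, ∫ x in Ω, (rellAv r (φ k) x - φ k x) ^ 2 ≤ 2 * r ^ 2 * K := by
    intro k
    obtain ⟨a, b⟩ := rell_av_est (ht k) hr
    refine (setIntegral_le_integral a (Eventually.of_forall fun x => by positivity)).trans ?_
    exact b.trans (mul_le_mul_of_nonneg_left (hE k) (by positivity))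
  have hAi : ∀ k, IntegrableOn (fun x => (rellAv r (φ k) x - φ k x) ^ 2) Ω := fun k =>
    (rell_av_est (ht k) hr).1.integrableOn
  have i1 : IntegrableOn (fun x => 4 * (rellAv r (φ n) x - φ n x) ^ 2) Ω := (hAi n).const_mul 4
  have i2 : IntegrableOn (fun x => 4 * (rellAv r (φ m) x - φ m x) ^ 2) Ω := (hAi m).const_mul 4
  have i3 : IntegrableOn (fun x => 4 * (rellAv r (φ n) x - rellAv r f x) ^ 2) Ω :=
    (hI n).const_mul 4
  have i4 : IntegrableOn (fun x => 4 * (rellAv r (φ m) x - rellAv r f x) ^ 2) Ω :=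
    (hI m).const_mul 4
  have i12 : IntegrableOn (fun x => 4 * (rellAv r (φ n) x - φ n x) ^ 2 +
      4 * (rellAv r (φ m) x - φ m x) ^ 2) Ω := i1.add i2
  have i123 : IntegrableOn (fun x => 4 * (rellAv r (φ n) x - φ n x) ^ 2 +
      4 * (rellAv r (φ m) x - φ m x) ^ 2 + 4 * (rellAv r (φ n) x - rellAv r f x) ^ 2) Ω :=
    i12.add i3
  rw [e]
  calc ∫ x in Ω, (φ n x - φ m x) ^ 2 ≤ ∫ x in Ω, (4 * (rellAv r (φ n) x - φ n x) ^ 2 +
        4 * (rellAv r (φ m) x - φ m x) ^ 2 + 4 * (rellAv r (φ n) x - rellAv r f x) ^ 2 +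
        4 * (rellAv r (φ m) x - rellAv r f x) ^ 2) := by
        refine integral_mono (int_sq ((ht n).memLp.sub (ht m).memLp)).integrableOn
          (i123.add i4) fun x => ?_
        simp only
        set a := rellAv r (φ n) x - φ n x with ha
        set b := rellAv r (φ m) x - φ m x with hb
        set c := rellAv r (φ n) x - rellAv r f x with hc
        set d := rellAv r (φ m) x - rellAv r f x with hd
        have : φ n x - φ m x = -a + b + c - d := by rw [ha, hb, hc, hd]; ring
        rw [this]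
        nlinarith [sq_nonneg (a + b), sq_nonneg (a + c), sq_nonneg (a - d), sq_nonneg (b - c),
          sq_nonneg (b + d), sq_nonneg (c + d)]
    _ ≤ _ := by
        rw [integral_add i123 i4, integral_add i12 i3, integral_add i1 i2, integral_const_mul,
          integral_const_mul, integral_const_mul, integral_const_mul]
        linarith [hA n, hA m]

theorem rell_lsc {φ : ℕ → P → ℝ} {f g : P → ℝ} {c : ℝ} (hm : ∀ n, MemLp (φ n) 2 volume)
    (hf : MemLp f 2 volume) (hg : MemLp g 2 volume) (hw : WLim φ f)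
    (hc : ∀ᶠ m in atTop, ∫ x, (g x - φ m x) ^ 2 ≤ c) : ∫ x, (g x - f x) ^ 2 ≤ c := by
  have hG : MemLp (fun x => g x - f x) 2 (volume : Measure P) := hg.sub hf
  set D := ∫ x, (g x - f x) ^ 2 with hD
  have hD0 : 0 ≤ D := integral_nonneg fun x => by positivity
  have hlim : Tendsto (fun m => ∫ x, (g x - f x) * (g x - φ m x)) atTop (𝓝 D) := by
    have e1 : ∀ m, ∫ x, (g x - f x) * (g x - φ m x) =
        (∫ x, (g x - f x) * g x) - ∫ x, (g x - f x) * φ m x := by
      intro m
      rw [← integral_sub (int_mul hG hg) (int_mul hG (hm m))]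
      congr 1; ext x; ring
    have e2 : D = (∫ x, (g x - f x) * g x) - ∫ x, (g x - f x) * f x := by
      rw [← integral_sub (int_mul hG hg) (int_mul hG hf), hD]
      congr 1; ext x; ring
    simp only [e1]
    rw [e2]
    exact (hw _ hG).const_sub _
  have hc0 : 0 ≤ c := by
    obtain ⟨m, hm'⟩ := hc.exists
    exact (integral_nonneg fun x => by positivity).trans hm'
  have h2 : D ^ 2 ≤ D * c := by
    refine le_of_tendsto (hlim.pow 2) ?_
    filter_upwards [hc] with m hm'
    exact (cs_sq hG (hg.sub (hm m))).trans (mul_le_mul_of_nonneg_left hm' hD0)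
  by_contra hcon
  push Not at hcon
  nlinarith

theorem rellich (A : API) : RELLICH := by
  intro Ω φ f K _ hΩ ht hK hE hf hw
  have _A := A
  refine ⟨fun n => (ht n).memLp, hf, ?_⟩
  have hK0 : 0 ≤ K := (integral_nonneg fun x => by positivity).trans (hK 0)
  rw [Metric.tendsto_atTop]
  intro ε hε
  obtain ⟨r, hr, hrK⟩ : ∃ r : ℝ, 0 < r ∧ 16 * r ^ 2 * K ≤ ε / 4 := by
    refine ⟨√(ε / (64 * (K + 1))), Real.sqrt_pos.2 (by positivity), ?_⟩
    rw [Real.sq_sqrt (by positivity)]
    have : 16 * (ε / (64 * (K + 1))) * K = ε / 4 * (K / (K + 1)) := by field_simp; ring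
    rw [this]
    have h1 : K / (K + 1) ≤ 1 := by rw [div_le_one (by positivity)]; linarith
    nlinarith
  obtain ⟨-, hlim⟩ := rell_dom hΩ (fun n => (ht n).cont) (fun n => (ht n).memLp) hK hw hr
  have hev : ∀ᶠ m in atTop, ∫ x in Ω, (rellAv r (φ m) x - rellAv r f x) ^ 2 ≤ ε / 16 :=
    hlim.eventually (ge_mem_nhds (by positivity))
  obtain ⟨N, hN⟩ := eventually_atTop.1 hev
  refine ⟨N, fun n hn => ?_⟩
  have : ∫ x, (φ n x - f x) ^ 2 ≤ 3 * ε / 4 := by
    refine rell_lsc (fun n => (ht n).memLp) hf (ht n).memLp hw ?_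
    filter_upwards [hev] with m hm
    have := rell_cauchy hΩ ht hK hE hw hr n m
    linarith [hN n hn]
  rw [Real.dist_eq, sub_zero, abs_of_nonneg (integral_nonneg fun x => by positivity)]
  linarith

end Pool.Agent.H92Z.Fq
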