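import Pool.Agent.H92Z.Fq.Stm

open MeasureTheory Set Filter Metric
open scoped Topology

namespace Pool.Agent.H92Z.Fq

theorem rel2_T {a : ℝ} (ha : 0 < a) : ∃ T T' : ℝ → ℝ, (∀ s, HasDerivAt T (T' s) s) ∧
    Continuous T' ∧ (∀ s, 0 ≤ T' s ∧ T' s ≤ 1) ∧ (∀ s, a ≤ s → T' s = 1) ∧
    (∀ s, s ≤ 0 → T s = 0) ∧ (∀ s, s ≤ 1 → 0 ≤ T s ∧ T s ≤ 1) := by
  let T' : ℝ → ℝ := fun s => max 0 (min 1 (s / a))
  have hc : Continuous T' := by fun_prop
  have hb : ∀ s, 0 ≤ T' s ∧ T' s ≤ 1 := fun s =>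
    ⟨le_max_left _ _, max_le zero_le_one (min_le_left _ _)⟩
  have h0 : ∀ s, s ≤ 0 → ∫ t in (0 : ℝ)..s, T' t = 0 := by
    intro s hs
    rw [intervalIntegral.integral_congr (g := fun _ => (0 : ℝ))]
    · simp
    intro t ht
    rw [uIcc_of_ge hs] at ht
    have : t / a ≤ 0 := div_nonpos_of_nonpos_of_nonneg ht.2 ha.le
    exact max_eq_left (min_le_of_right_le this)
  refine ⟨fun s => ∫ t in (0 : ℝ)..s, T' t, T',
    fun s => (hc.integral_hasStrictDerivAt 0 s).hasDerivAt, hc, hb, ?_, h0, ?_⟩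
  · intro s hs
    have : 1 ≤ s / a := (one_le_div ha).2 hs
    simp [T', min_eq_left this]
  · intro s hs
    rcases le_total s 0 with h | h
    · simp [h0 s h]
    · constructor
      · exact intervalIntegral.integral_nonneg h fun t _ => (hb t).1
      · have := intervalIntegral.integral_mono_on (μ := volume) h (hc.intervalIntegrable 0 s)
          ((continuous_const (y := (1 : ℝ))).intervalIntegrable 0 s) (fun t _ => (hb t).2)
        simp at this
        linarith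

theorem rel2_int {U : Set P} {φ g : P → ℝ} (hφ : IsTest U φ) (hg : Continuous g)
    (h : ∀ z, z ∉ tsupport φ → g z = 0) : Integrable g :=
  hg.integrable_of_hasCompactSupport (hcs_of_notMem hφ.cs h)

theorem rel2_mem {U : Set P} {φ g : P → ℝ} (hφ : IsTest U φ) (hg : Continuous g)
    (h : ∀ z, z ∉ tsupport φ → g z = 0) : MemLp g 2 (volume : Measure P) :=
  hg.memLp_of_hasCompactSupport (hcs_of_notMem hφ.cs h)

theorem rel2_lim {g ψ h : ℕ → P → ℝ} {f : P → ℝ} {l : ℕ → ℝ} {l0 K : ℝ} (hg : L2Lim g f)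
    (hψ : L2Lim ψ f) (hh : ∀ n, MemLp (h n) 2 volume) (hK : ∀ᶠ n in atTop, ∫ x, h n x ^ 2 ≤ K)
    (h1 : ∀ k, Tendsto (fun n => ∫ x, ψ k x * h n x) atTop (𝓝 (l k)))
    (h2 : Tendsto l atTop (𝓝 l0)) : Tendsto (fun n => ∫ x, g n x * h n x) atTop (𝓝 l0) := by
  have sq : ∀ {u : ℕ → P → ℝ}, L2Lim u f →
      Tendsto (fun n => √(∫ x, (u n x - f x) ^ 2) * √K) atTop (𝓝 0) := by
    intro u hu
    have := (hu.tend.sqrt).mul_const (√K)
    simpa using this
  have bd : ∀ {u : P → ℝ} (n : ℕ), MemLp u 2 volume → ∫ x, h n x ^ 2 ≤ K →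
      |(∫ x, u x * h n x) - ∫ x, f x * h n x| ≤ √(∫ x, (u x - f x) ^ 2) * √K := by
    intro u n hu hn
    have e : (∫ x, u x * h n x) - ∫ x, f x * h n x = ∫ x, (u x - f x) * h n x := by
      rw [← integral_sub (int_mul hu (hh n)) (int_mul hg.lim (hh n))]
      congr 1; ext x; ring
    rw [e]
    refine (cs_abs (f := fun x => u x - f x) (hu.sub hg.lim) (hh n)).trans ?_
    exact mul_le_mul_of_nonneg_left (Real.sqrt_le_sqrt hn) (Real.sqrt_nonneg _)
  rw [Metric.tendsto_nhds]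
  intro ε hε
  have hε4 : 0 < ε / 4 := by linarith
  obtain ⟨k, hk1, hk2⟩ := (((sq hψ).eventually (gt_mem_nhds hε4)).and
    ((Metric.tendsto_nhds.1 h2) _ hε4)).exists
  filter_upwards [hK, (sq hg).eventually (gt_mem_nhds hε4), (Metric.tendsto_nhds.1 (h1 k)) _ hε4]
    with n hn a1 a2
  have b1 := bd n (hg.mem n) hn
  have b2 := bd n (hψ.mem k) hn
  rw [Real.dist_eq] at *
  rw [abs_lt] at hk2 a2 ⊢
  rw [abs_le] at b1 b2
  constructor <;> linarith [b1.1, b1.2, b2.1, b2.2, hk2.1, hk2.2, a2.1, a2.2]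

/-- one perforation potential -/
structure rel2_Pot (p bn : P → ℝ) (C R' : ℝ) : Prop where
  c0 : ContDiff ℝ 1 p
  c1 : ContDiff ℝ 1 (d1 p)
  c2 : ContDiff ℝ 1 (d2 p)
  cb : Continuous bn
  le1 : ∀ x, p x ≤ 1
  out : ∀ x, R' ≤ ‖x‖ → p x = 1 ∧ bn x = 0
  bb : ∀ x, 0 ≤ bn x ∧ bn x ≤ C
  lap : ∀ x, 0 < p x → d1 (d1 p) x + d2 (d2 p) x = - bn x

theorem rel2_intJ {p bn : P → ℝ} {C R' : ℝ} (h : rel2_Pot p bn C R') :
    Integrable (fun x => |d1 p x| + |d2 p x|) := by
  have hc : Continuous (fun x => |d1 p x| + |d2 p x|) :=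
    h.c1.continuous.abs.add h.c2.continuous.abs
  refine hc.integrable_of_hasCompactSupport
    (HasCompactSupport.intro (isCompact_closedBall (0 : P) R') fun x hx => ?_)
  have hx' : R' < ‖x‖ := by simpa using hx
  have : p =ᶠ[nhds x] fun _ => 1 := by
    filter_upwards [(isOpen_lt continuous_const continuous_norm).mem_nhds hx'] with y hy
    exact (h.out y (le_of_lt hy)).1
  rw [d1_congr this, d2_congr this]; simp

theorem rel2_green {p bn : P → ℝ} {C R' : ℝ} (h : rel2_Pot p bn C R') {U : Set P} {u : P → ℝ}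
    (hu : IsTest U u) (hs : ∀ x, u x ≠ 0 → 0 < p x) :
    ∫ x, (d1 u x * d1 p x + d2 u x * d2 p x) = ∫ x, bn x * u x := by
  have i1 : Integrable fun x => d1 u x * d1 p x :=
    rel2_int hu (hu.d1_cont.mul h.c1.continuous) fun z hz => by simp [d1_zero_of_notMem hz]
  have i2 : Integrable fun x => d2 u x * d2 p x :=
    rel2_int hu (hu.d2_cont.mul h.c2.continuous) fun z hz => by simp [d2_zero_of_notMem hz]
  have i3 : Integrable fun x => u x * d1 (d1 p) x :=
    rel2_int hu (hu.cont.mul (d1_cont h.c1)) fun z hz => by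
      simp [image_eq_zero_of_notMem_tsupport hz]
  have i4 : Integrable fun x => u x * d2 (d2 p) x :=
    rel2_int hu (hu.cont.mul (d2_cont h.c2)) fun z hz => by
      simp [image_eq_zero_of_notMem_tsupport hz]
  rw [integral_add i1 i2, ibp1 hu h.c1, ibp2 hu h.c2, ← neg_add, ← integral_add i3 i4,
    ← integral_neg]
  congr 1; ext x
  by_cases hx : u x = 0
  · simp [hx]
  · have := h.lap x (hs x hx)
    linear_combination (- u x) * this

/-- the key energy estimate -/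
theorem rel2_key {p bn : P → ℝ} {C R' : ℝ} (h : rel2_Pot p bn C R') {T T' : ℝ → ℝ}
    (hT : ∀ s, HasDerivAt T (T' s) s) (hT' : Continuous T') (hT0 : ∀ s, s ≤ 0 → T s = 0)
    (hT1 : ∀ s, s ≤ 1 → 0 ≤ T s ∧ T s ≤ 1) {U : Set P} {χ : P → ℝ} (hχ : IsTest U χ) {M : ℝ}
    (hM : ∀ x, |χ x| ≤ M ∧ |d1 χ x| ≤ M ∧ |d2 χ x| ≤ M) :
    ∫ x, χ x ^ 2 * (T' (p x) * (d1 p x ^ 2 + d2 p x ^ 2)) ≤
      (∫ x, bn x * χ x ^ 2) + 2 * M ^ 2 * ∫ x, (|d1 p x| + |d2 p x|) := by
  have hTc : ContDiff ℝ 1 T := contDiff_one_of_hasDerivAt hT hT'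
  have hTp : ContDiff ℝ 1 fun x => T (p x) := hTc.comp h.c0
  have hu : IsTest U fun x => χ x * (χ x * T (p x)) := hχ.mul_c1 (hχ.c1.mul hTp)
  have pd : ∀ x, DifferentiableAt ℝ p x := fun x => h.c0.differentiable (by simp) x
  have Td : ∀ x, DifferentiableAt ℝ (fun x => T (p x)) x :=
    fun x => hTp.differentiable (by simp) x
  have e1 : ∀ x, d1 (fun x => χ x * (χ x * T (p x))) x =
      2 * χ x * d1 χ x * T (p x) + χ x ^ 2 * (T' (p x) * d1 p x) := by
    intro x
    rw [d1_mul (hχ.diff x) ((hχ.diff x).fun_mul (Td x)), d1_mul (hχ.diff x) (Td x),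
      d1_comp (pd x) (hT _)]
    ring
  have e2 : ∀ x, d2 (fun x => χ x * (χ x * T (p x))) x =
      2 * χ x * d2 χ x * T (p x) + χ x ^ 2 * (T' (p x) * d2 p x) := by
    intro x
    rw [d2_mul (hχ.diff x) ((hχ.diff x).fun_mul (Td x)), d2_mul (hχ.diff x) (Td x),
      d2_comp (pd x) (hT _)]
    ring
  have g := rel2_green h hu fun x hx => by
    by_contra hcon
    exact hx (by simp [hT0 _ (not_lt.1 hcon)])
  have i0 : Integrable fun x => χ x ^ 2 * (T' (p x) * (d1 p x ^ 2 + d2 p x ^ 2)) :=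
    rel2_int hχ ((hχ.cont.pow 2).mul ((hT'.comp h.c0.continuous).mul
      ((h.c1.continuous.pow 2).add (h.c2.continuous.pow 2)))) fun z hz => by
        simp [image_eq_zero_of_notMem_tsupport hz]
  have i1 : Integrable fun x => d1 (fun x => χ x * (χ x * T (p x))) x * d1 p x +
      d2 (fun x => χ x * (χ x * T (p x))) x * d2 p x :=
    rel2_int hu ((hu.d1_cont.mul h.c1.continuous).add (hu.d2_cont.mul h.c2.continuous))
      fun z hz => by simp [d1_zero_of_notMem hz, d2_zero_of_notMem hz]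
  have i2 := (rel2_intJ h).const_mul (2 * M ^ 2)
  have i3 : Integrable fun x => bn x * (χ x * (χ x * T (p x))) :=
    rel2_int hχ (h.cb.mul hu.cont) fun z hz => by simp [image_eq_zero_of_notMem_tsupport hz]
  have i4 : Integrable fun x => bn x * χ x ^ 2 :=
    rel2_int hχ (h.cb.mul (hχ.cont.pow 2)) fun z hz => by
      simp [image_eq_zero_of_notMem_tsupport hz]
  have m1 := integral_mono i0 (i1.add i2) fun x => by
    obtain ⟨a0, a1, a2⟩ := hM x
    obtain ⟨t0, t1⟩ := hT1 _ (h.le1 x)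
    have hM0 : 0 ≤ M := (abs_nonneg _).trans a0
    have aux : ∀ u v : ℝ, |u| ≤ M → -(χ x * u * T (p x) * v) ≤ M ^ 2 * |v| := by
      intro u v hu
      refine (neg_le_abs _).trans ?_
      rw [abs_mul, abs_mul, abs_mul, abs_of_nonneg t0]
      refine mul_le_mul_of_nonneg_right ?_ (abs_nonneg _)
      have : |χ x| * |u| ≤ M * M := mul_le_mul a0 hu (abs_nonneg _) hM0
      nlinarith [mul_nonneg (abs_nonneg (χ x)) (abs_nonneg u)]
    have b1 := aux _ (d1 p x) a1
    have b2 := aux _ (d2 p x) a2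
    simp only [Pi.add_apply, e1, e2]
    nlinarith
  have m2 := integral_mono i3 i4 fun x => by
    obtain ⟨t0, t1⟩ := hT1 _ (h.le1 x)
    have := (h.bb x).1
    simp only
    nlinarith [mul_nonneg this (sq_nonneg (χ x))]
  rw [integral_add' i1 i2, g, integral_const_mul] at m1
  linarith

/-- the inequality for one index -/
theorem rel2_one {p bn : P → ℝ} {C R' : ℝ} (h : rel2_Pot p bn C R') {T T' : ℝ → ℝ}
    (hT : ∀ s, HasDerivAt T (T' s) s) (hT' : Continuous T') (hb : ∀ s, 0 ≤ T' s ∧ T' s ≤ 1)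
    (hT0 : ∀ s, s ≤ 0 → T s = 0) (hT1 : ∀ s, s ≤ 1 → 0 ≤ T s ∧ T s ≤ 1)
    {U V : Set P} {φ f : P → ℝ} (hφ : IsTest U φ) (hf : IsTest V f) {M : ℝ}
    (hM : ∀ x, |φ x| ≤ M ∧ |d1 φ x| ≤ M ∧ |d2 φ x| ≤ M)
    (hpos : ∀ x ∈ tsupport f, 0 < p x) (hone : ∀ x ∈ tsupport f, T' (p x) = 1) :
    2 * ((∫ x, d1 φ x * d1 f x) + ∫ x, d2 φ x * d2 f x) + 2 * (∫ x, f x * (bn x * φ x)) ≤
      (∫ x, (d1 f x ^ 2 + d2 f x ^ 2)) + (∫ x, (d1 φ x ^ 2 + d2 φ x ^ 2)) +
      2 * (∫ x, f x * (T' (p x) * (d1 φ x * d1 p x + d2 φ x * d2 p x))) +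
      (∫ x, bn x * φ x ^ 2) + 4 * M ^ 2 * ∫ x, (|d1 p x| + |d2 p x|) := by
  have key := rel2_key h hT hT' hT0 hT1 hφ hM
  have hu : IsTest V fun x => f x * φ x := hf.mul_c1 hφ.c1
  have g := rel2_green h hu fun x hx => hpos x (subset_tsupport _ fun h0 => hx (by simp [h0]))
  have cT : Continuous fun x => T' (p x) := hT'.comp h.c0.continuous
  have j1 := int_mul hφ.memLp_d1 hf.memLp_d1
  have j2 := int_mul hφ.memLp_d2 hf.memLp_d2
  have j3 : Integrable fun x => d1 (fun x => f x * φ x) x * d1 p x +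
      d2 (fun x => f x * φ x) x * d2 p x :=
    rel2_int hu ((hu.d1_cont.mul h.c1.continuous).add (hu.d2_cont.mul h.c2.continuous))
      fun z hz => by simp [d1_zero_of_notMem hz, d2_zero_of_notMem hz]
  have k1 := int_sq2 hf.memLp_d1 hf.memLp_d2
  have k2 := int_sq2 hφ.memLp_d1 hφ.memLp_d2
  have k3 : Integrable fun x => f x * (T' (p x) * (d1 φ x * d1 p x + d2 φ x * d2 p x)) :=
    rel2_int hf (hf.cont.mul (cT.mul ((hφ.d1_cont.mul h.c1.continuous).add
      (hφ.d2_cont.mul h.c2.continuous)))) fun z hz => by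
        simp [image_eq_zero_of_notMem_tsupport hz]
  have k4 : Integrable fun x => φ x ^ 2 * (T' (p x) * (d1 p x ^ 2 + d2 p x ^ 2)) :=
    rel2_int hφ ((hφ.cont.pow 2).mul (cT.mul
      ((h.c1.continuous.pow 2).add (h.c2.continuous.pow 2)))) fun z hz => by
        simp [image_eq_zero_of_notMem_tsupport hz]
  have k5 := rel2_intJ h
  have m := integral_mono (((j1.add j2).const_mul 2).add (j3.const_mul 2))
    ((((k1.add k2).add (k3.const_mul 2)).add k4).add (k5.const_mul (2 * M ^ 2))) fun x => by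
      obtain ⟨a0, a1, a2⟩ := hM x
      obtain ⟨t0, t1⟩ := hb (p x)
      have hM0 : 0 ≤ M := (abs_nonneg _).trans a0
      have aux : ∀ u v : ℝ, |u| ≤ M → φ x * u * T' (p x) * v ≤ M ^ 2 * |v| := by
        intro u v hu
        refine (le_abs_self _).trans ?_
        rw [abs_mul, abs_mul, abs_mul, abs_of_nonneg t0]
        refine mul_le_mul_of_nonneg_right ?_ (abs_nonneg _)
        have : |φ x| * |u| ≤ M * M := mul_le_mul a0 hu (abs_nonneg _) hM0
        nlinarith [mul_nonneg (abs_nonneg (φ x)) (abs_nonneg u)]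
      have b1 := aux _ (d1 p x) a1
      have b2 := aux _ (d2 p x) a2
      simp only [Pi.add_apply, d1_mul (hf.diff x) (hφ.diff x), d2_mul (hf.diff x) (hφ.diff x)]
      by_cases hx : x ∈ tsupport f
      · rw [hone x hx] at b1 b2 ⊢
        nlinarith [sq_nonneg (d1 f x - d1 φ x - φ x * d1 p x),
          sq_nonneg (d2 f x - d2 φ x - φ x * d2 p x)]
      · rw [d1_zero_of_notMem hx, d2_zero_of_notMem hx, image_eq_zero_of_notMem_tsupport hx]
        have := mul_nonneg (sq_nonneg (φ x))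
          (mul_nonneg t0 (add_nonneg (sq_nonneg (d1 p x)) (sq_nonneg (d2 p x))))
        have := mul_nonneg (sq_nonneg M) (add_nonneg (abs_nonneg (d1 p x)) (abs_nonneg (d2 p x)))
        nlinarith [sq_nonneg (d1 φ x), sq_nonneg (d2 φ x)]
  rw [integral_add' ((j1.add j2).const_mul 2) (j3.const_mul 2), integral_const_mul,
    integral_const_mul, g,
    integral_add' (((k1.add k2).add (k3.const_mul 2)).add k4) (k5.const_mul (2 * M ^ 2)),
    integral_add' ((k1.add k2).add (k3.const_mul 2)) k4,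
    integral_add' (k1.add k2) (k3.const_mul 2), integral_add' k1 k2, integral_const_mul,
    integral_const_mul] at m
  have e1 : ∫ x, ((fun x => d1 φ x * d1 f x) + fun x => d2 φ x * d2 f x) x =
      (∫ x, d1 φ x * d1 f x) + ∫ x, d2 φ x * d2 f x := integral_add' j1 j2
  have e2 : ∫ x, bn x * (f x * φ x) = ∫ x, f x * (bn x * φ x) := by
    congr 1; ext x; ring
  rw [e1, e2] at m
  linarith

theorem rel2_pot {b : P → ℝ} {p bn : ℕ → P → ℝ} {C R' : ℝ} (h : PerfData b p bn C R') (n : ℕ) :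
    rel2_Pot (p n) (bn n) C R' := by
  obtain ⟨a1, a2, a3, a4, a5, a6, a7, a8⟩ := h.1 n
  exact ⟨a1, a2, a3, a4, a5, a6, a7, a8⟩

theorem rel2_sub {b : P → ℝ} {p bn : ℕ → P → ℝ} {C R' : ℝ} (h : PerfData b p bn C R')
    {σ : ℕ → ℕ} (hσ : Tendsto σ atTop atTop) :
    PerfData b (fun n => p (σ n)) (fun n => bn (σ n)) C R' :=
  ⟨fun n => h.1 (σ n), h.2.1.comp hσ, h.2.2.1.comp hσ, fun G h1 h2 => (h.2.2.2 G h1 h2).comp hσ⟩

/-- the limit inequality for one test function -/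
theorem rel2_core (A : API) (hcut : CUTOFF) {Ω : Set P} {b : P → ℝ} {L e : ℝ}
    {p bn : ℕ → P → ℝ} {C R' : ℝ} (hbm : Measurable b) (hb : ∀ x, 0 ≤ b x ∧ b x ≤ L)
    (hP : PerfData b p bn C R') {g ψ : ℕ → P → ℝ} {f f1 f2 : P → ℝ}
    (hg : ∀ n, IsTest (Ω ∩ {x | 0 < p n x}) (g n)) (hgf : L2Lim g f)
    (w1 : WLim (fun n => d1 (g n)) f1) (w2 : WLim (fun n => d2 (g n)) f2)
    (he : ∀ n, ∫ x, (d1 (g n) x ^ 2 + d2 (g n) x ^ 2) ≤ e)
    (hψ : ∀ k, IsTest Ω (ψ k)) (hψf : L2Lim ψ f) {φ : P → ℝ} (hφ : IsTest Ω φ) :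
    2 * ((∫ x, d1 φ x * f1 x) + ∫ x, d2 φ x * f2 x) + 2 * (∫ x, (b x * φ x) * f x) ≤
      e + (∫ x, (d1 φ x ^ 2 + d2 φ x ^ 2)) + ∫ x, b x * φ x ^ 2 := by
  have hp := rel2_pot hP
  have hpos : ∀ n, ∀ x ∈ tsupport (g n), 0 < p n x := fun n x hx => ((hg n).supp hx).2
  have ha : ∀ n, ∃ a, 0 < a ∧ ∀ x ∈ tsupport (g n), a ≤ p n x := fun n =>
    IsCompact.exists_forall_le' (hg n).cs (hp n).c0.continuous.continuousOn (hpos n)
  choose a ha0 ha1 using ha
  choose T T' hT hT' hTb hTa hT0 hT1 using fun n => rel2_T (ha0 n)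
  obtain ⟨M, hM0, hM⟩ := hφ.bdd
  have hJ := hP.2.2.1
  have hC : 0 ≤ C := ((hp 0).bb 0).1.trans ((hp 0).bb 0).2
  have hbs : AEStronglyMeasurable b volume := hbm.aestronglyMeasurable
  have hbL : ∀ᵐ x, |b x| ≤ L := ae_of_all _ fun x => by
    rw [abs_of_nonneg (hb x).1]; exact (hb x).2
  -- the term with the potential
  have tB : Tendsto (fun n => ∫ x, g n x * (bn n x * φ x)) atTop
      (𝓝 (∫ x, (b x * φ x) * f x)) := by
    refine rel2_lim (K := C ^ 2 * ∫ x, φ x ^ 2) (l := fun k => ∫ x, (b x * φ x) * ψ k x) hgf hψf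
      (fun n => rel2_mem hφ ((hp n).cb.mul hφ.cont) fun z hz => by
        simp [image_eq_zero_of_notMem_tsupport hz]) (Eventually.of_forall fun n => ?_)
      (fun k => ?_) (A.l_weak hψf _ (memLp_bdd_mul hbs hbL hφ.memLp))
    · rw [← integral_const_mul]
      refine integral_mono_of_nonneg (ae_of_all _ fun x => by positivity)
        ((int_sq hφ.memLp).const_mul _) (ae_of_all _ fun x => ?_)
      obtain ⟨b0, b1⟩ := (hp n).bb x
      simp only [mul_pow]
      exact mul_le_mul_of_nonneg_right (pow_le_pow_left₀ b0 b1 2) (sq_nonneg _)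
    · have := hP.2.2.2 (fun x => φ x * ψ k x) (hφ.cont.mul (hψ k).cont) hφ.cs.mul_right
      have e1 : (fun n => ∫ x, ψ k x * (bn n x * φ x)) =
          fun n => ∫ x, bn n x * (φ x * ψ k x) := by
        ext n; congr 1; ext x; ring
      have e2 : ∫ x, (b x * φ x) * ψ k x = ∫ x, b x * (φ x * ψ k x) := by
        congr 1; ext x; ring
      rw [e1, e2]; exact this
  -- the cross term
  have tC : Tendsto (fun n => ∫ x, g n x *
      (T' n (p n x) * (d1 φ x * d1 (p n) x + d2 φ x * d2 (p n) x))) atTop (𝓝 0) := by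
    obtain ⟨r, hr0, hr⟩ := hφ.cs.isCompact.isBounded.subset_closedBall_lt 0 (0 : P)
    obtain ⟨C0, -, hc⟩ := hcut
    obtain ⟨χ, hχ, -, hχ1, -⟩ := hc 0 r (r + 1) hr0 (by linarith)
    obtain ⟨N, hN0, hN⟩ := hχ.bdd
    have cont : ∀ n, Continuous fun x =>
        T' n (p n x) * (d1 φ x * d1 (p n) x + d2 φ x * d2 (p n) x) := fun n =>
      ((hT' n).comp (hp n).c0.continuous).mul ((hφ.d1_cont.mul (hp n).c1.continuous).add
        (hφ.d2_cont.mul (hp n).c2.continuous))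
    refine rel2_lim (K := 2 * M ^ 2 * (C * (∫ x, χ x ^ 2) + 2 * N ^ 2)) (l := fun _ => 0) hgf hψf
      (fun n => rel2_mem hφ (cont n) fun z hz => by
        simp [d1_zero_of_notMem hz, d2_zero_of_notMem hz]) ?_ (fun k => ?_) tendsto_const_nhds
    · filter_upwards [hJ.eventually (gt_mem_nhds one_pos)] with n hn
      have key := rel2_key (hp n) (hT n) (hT' n) (hT0 n) (hT1 n) hχ hN
      have i0 : Integrable fun x =>
          χ x ^ 2 * (T' n (p n x) * (d1 (p n) x ^ 2 + d2 (p n) x ^ 2)) :=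
        rel2_int hχ ((hχ.cont.pow 2).mul (((hT' n).comp (hp n).c0.continuous).mul
          (((hp n).c1.continuous.pow 2).add ((hp n).c2.continuous.pow 2)))) fun z hz => by
            simp [image_eq_zero_of_notMem_tsupport hz]
      have m1 : ∫ x, (T' n (p n x) * (d1 φ x * d1 (p n) x + d2 φ x * d2 (p n) x)) ^ 2 ≤
          ∫ x, 2 * M ^ 2 * (χ x ^ 2 * (T' n (p n x) * (d1 (p n) x ^ 2 + d2 (p n) x ^ 2))) := by
        refine integral_mono_of_nonneg (ae_of_all _ fun x => by positivity)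
          (i0.const_mul _) (ae_of_all _ fun x => ?_)
        obtain ⟨t0, t1⟩ := hTb n (p n x)
        by_cases hx : x ∈ tsupport φ
        · obtain ⟨-, a1, a2⟩ := hM x
          have s1 : d1 φ x ^ 2 ≤ M ^ 2 := sq_le_sq' (abs_le.1 a1).1 (abs_le.1 a1).2
          have s2 : d2 φ x ^ 2 ≤ M ^ 2 := sq_le_sq' (abs_le.1 a2).1 (abs_le.1 a2).2
          have s3 : (d1 φ x * d1 (p n) x + d2 φ x * d2 (p n) x) ^ 2 ≤
              2 * M ^ 2 * (d1 (p n) x ^ 2 + d2 (p n) x ^ 2) := by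
            have q1 := mul_le_mul_of_nonneg_right (add_le_add s1 s2)
              (add_nonneg (sq_nonneg (d1 (p n) x)) (sq_nonneg (d2 (p n) x)))
            nlinarith [sq_nonneg (d1 φ x * d2 (p n) x - d2 φ x * d1 (p n) x)]
          have s4 : T' n (p n x) ^ 2 ≤ T' n (p n x) := by nlinarith
          simp only [hχ1 x (hr hx), mul_pow]
          have q2 := mul_le_mul s4 s3 (sq_nonneg _) t0
          nlinarith
        · simp only [d1_zero_of_notMem hx, d2_zero_of_notMem hx]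
          have := mul_nonneg (sq_nonneg M) (mul_nonneg (sq_nonneg (χ x)) (mul_nonneg t0
            (add_nonneg (sq_nonneg (d1 (p n) x)) (sq_nonneg (d2 (p n) x)))))
          nlinarith
      have m2 : ∫ x, bn n x * χ x ^ 2 ≤ C * ∫ x, χ x ^ 2 := by
        rw [← integral_const_mul]
        refine integral_mono_of_nonneg
          (ae_of_all _ fun x => mul_nonneg ((hp n).bb x).1 (sq_nonneg _))
          ((int_sq hχ.memLp).const_mul _) (ae_of_all _ fun x => ?_)
        exact mul_le_mul_of_nonneg_right ((hp n).bb x).2 (sq_nonneg _)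
      rw [integral_const_mul] at m1
      refine m1.trans (mul_le_mul_of_nonneg_left ?_ (by positivity))
      have := mul_le_mul_of_nonneg_left hn.le (by positivity : (0 : ℝ) ≤ 2 * N ^ 2)
      linarith
    · obtain ⟨S, hS0, hS⟩ := (hψ k).bdd
      have lim : Tendsto (fun n => S * M * ∫ x, (|d1 (p n) x| + |d2 (p n) x|)) atTop (𝓝 0) := by
        simpa using hJ.const_mul (S * M)
      refine squeeze_zero_norm (fun n => ?_) lim
      rw [← integral_const_mul]
      refine norm_integral_le_of_norm_le ((rel2_intJ (hp n)).const_mul _) (ae_of_all _ fun x => ?_)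
      obtain ⟨t0, t1⟩ := hTb n (p n x)
      obtain ⟨-, a1, a2⟩ := hM x
      have q1 : |d1 φ x * d1 (p n) x + d2 φ x * d2 (p n) x| ≤
          M * (|d1 (p n) x| + |d2 (p n) x|) := by
        refine (abs_add_le _ _).trans ?_
        rw [abs_mul, abs_mul, mul_add]
        exact add_le_add (mul_le_mul_of_nonneg_right a1 (abs_nonneg _))
          (mul_le_mul_of_nonneg_right a2 (abs_nonneg _))
      rw [Real.norm_eq_abs, abs_mul, abs_mul, abs_of_nonneg t0, mul_assoc]
      refine mul_le_mul (hS x).1 ?_ (by positivity) hS0.le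
      exact (mul_le_of_le_one_left (abs_nonneg _) t1).trans q1
  have tD := hP.2.2.2 (fun x => φ x ^ 2) (hφ.cont.pow 2)
    (hcs_of_zero hφ.cs fun z hz => by simp [hz])
  have tA1 := w1 _ hφ.memLp_d1
  have tA2 := w2 _ hφ.memLp_d2
  have lhs := ((tA1.add tA2).const_mul 2).add (tB.const_mul 2)
  have rhs := ((((tendsto_const_nhds (x := e + ∫ x, (d1 φ x ^ 2 + d2 φ x ^ 2))).add
    (tC.const_mul 2)).add tD).add (hJ.const_mul (4 * M ^ 2)))
  have := le_of_tendsto_of_tendsto' lhs rhs fun n => by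
    have o := rel2_one (hp n) (hT n) (hT' n) (hTb n) (hT0 n) (hT1 n) hφ (hg n) hM (hpos n)
      (fun x hx => hTa n _ (ha1 n x hx))
    have := he n
    linarith
  linarith

theorem rell2 (A : API) (hC : COMPACT) (hcut : CUTOFF) : RELL := by
  intro Ω b L c p bn C R' hΩ hvol hbm hb hP hL ε hε
  by_contra hcon
  rw [not_eventually] at hcon
  obtain ⟨τ, hτ, hbad⟩ := extraction_of_frequently_atTop hcon
  have hex : ∀ n, ∃ g, IsTest (Ω ∩ {x | 0 < p (τ n) x}) g ∧ ∫ x, g x ^ 2 = 1 ∧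
      ∫ x, (d1 g x ^ 2 + d2 g x ^ 2) ≤ c - ε := by
    intro n
    have h0 := hbad n
    unfold LamGe at h0
    push Not at h0
    obtain ⟨g, hg, hlt⟩ := h0
    simp only [zero_mul, integral_zero, add_zero] at hlt
    have hE : 0 ≤ ∫ x, (d1 g x ^ 2 + d2 g x ^ 2) := integral_nonneg fun x => by positivity
    have hI : 0 ≤ ∫ x, g x ^ 2 := integral_nonneg fun x => by positivity
    have hI' : 0 < ∫ x, g x ^ 2 := by
      rcases hI.lt_or_eq with h | h
      · exact h
      · rw [← h] at hlt; linarith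
    set I := ∫ x, g x ^ 2 with hIdef
    have hs : ((√I)⁻¹) ^ 2 = I⁻¹ := by rw [inv_pow, Real.sq_sqrt hI]
    refine ⟨fun x => (√I)⁻¹ * g x, hg.const_mul _, ?_, ?_⟩
    · simp only [mul_pow, hs]
      rw [integral_const_mul, ← hIdef, inv_mul_cancel₀ hI'.ne']
    · simp only [d1_const_mul _ (hg.diff _), d2_const_mul _ (hg.diff _), mul_pow, hs, ← mul_add]
      rw [integral_const_mul, inv_mul_le_iff₀ hI']
      linarith
  choose g hg hg1 hgE using hex
  obtain ⟨σ, f, f1, f2, hσ, hf, l0, w1, w2, -⟩ := hC Ω g (max 1 (c - ε)) hΩ.measurableSet hvol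
    (fun n => (hg n).mono inter_subset_left) (fun n => (hg1 n).le.trans (le_max_left _ _))
    (fun n => (hgE n).trans (le_max_right _ _))
  have hP' := rel2_sub hP (hτ.comp hσ).tendsto_atTop
  obtain ⟨ψ, hψ, p0, p1, p2⟩ := A.h_iff.1 hf
  have hbs : AEStronglyMeasurable b volume := hbm.aestronglyMeasurable
  have hbL : ∀ᵐ x, |b x| ≤ L := ae_of_all _ fun x => by
    rw [abs_of_nonneg (hb x).1]; exact (hb x).2
  have core := fun k => rel2_core A hcut hbm hb hP' (fun n => hg (σ n)) l0 w1 w2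
    (fun n => hgE (σ n)) hψ p0 (hψ k)
  have t1 := A.l_mul p1 (A.l_const hf.m1)
  have t2 := A.l_mul p2 (A.l_const hf.m2)
  have t3 := A.l_mul (A.l_bmul p0 hbs hbL) (A.l_const hf.m0)
  have t4 := A.l_sq2 p1 p2
  have t5 := A.l_wsq p0 hbs hbL
  have lim := le_of_tendsto_of_tendsto' (((t1.add t2).const_mul 2).add (t3.const_mul 2))
    (((tendsto_const_nhds (x := c - ε)).add t4).add t5) core
  have e1 : (∫ x, f1 x * f1 x) + ∫ x, f2 x * f2 x = ∫ x, (f1 x ^ 2 + f2 x ^ 2) := by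
    rw [← integral_add (int_mul hf.m1 hf.m1) (int_mul hf.m2 hf.m2)]
    congr 1; ext x; ring
  have e2 : ∫ x, b x * f x * f x = ∫ x, b x * f x ^ 2 := by
    congr 1; ext x; ring
  have e3 : ∫ x, f x ^ 2 = 1 := by
    have := A.l_sq l0
    simp only [hg1] at this
    exact (tendsto_nhds_unique tendsto_const_nhds this).symm
  have fin := A.h_lamge hL hbs hbL hf
  rw [e1, e2] at lim
  rw [e3] at fin
  linarith

end Pool.Agent.H92Z.Fq
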