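import Pool.Agent.H92Z.Fq.Stm

open MeasureTheory Set Filter Metric
open scoped Topology

namespace Pool.Agent.H92Z.Fq

/-- the truncation profile -/
theorem relt_T {a : ℝ} (ha : 0 < a) : ∃ T T' : ℝ → ℝ, (∀ s, HasDerivAt T (T' s) s) ∧
    Continuous T' ∧ (∀ s, 0 ≤ T' s ∧ T' s ≤ 1) ∧ (∀ s, s ≤ a / 2 → T s = 0) ∧
    (∀ s, s - a ≤ T s) ∧ (∀ s, 0 ≤ T s) ∧ ∀ s, T s ≤ max s 0 := by
  set T' : ℝ → ℝ := fun s => max 0 (min 1 (2 * s / a - 1)) with hT'
  have hc : Continuous T' := by fun_prop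
  have hb : ∀ s, 0 ≤ T' s ∧ T' s ≤ 1 := fun s =>
    ⟨le_max_left _ _, max_le zero_le_one (min_le_left _ _)⟩
  set T : ℝ → ℝ := fun s => ∫ t in (0 : ℝ)..s, T' t with hT
  have hd : ∀ s, HasDerivAt T (T' s) s := fun s => (hc.integral_hasStrictDerivAt 0 s).hasDerivAt
  have h0 : ∀ s, s ≤ a / 2 → T s = 0 := by
    intro s hs
    have : ∫ t in (0 : ℝ)..s, T' t = ∫ t in (0 : ℝ)..s, (0 : ℝ) := by
      refine intervalIntegral.integral_congr fun t ht => ?_
      have ht' : t ≤ a / 2 := ht.2.trans (max_le (by linarith) hs)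
      have : 2 * t / a - 1 ≤ 0 := by
        rw [sub_nonpos, div_le_one ha]; linarith
      exact max_eq_left ((min_le_right _ _).trans this)
    simpa using this
  have hm : Monotone T := monotone_of_deriv_nonneg (fun s => (hd s).differentiableAt)
    fun s => by rw [(hd s).deriv]; exact (hb s).1
  have hd2 : ∀ s, HasDerivAt (fun s => s - T s) (1 - T' s) s := fun s =>
    (hasDerivAt_id s).sub (hd s)
  have hm2 : Monotone fun s => s - T s :=
    monotone_of_deriv_nonneg (fun s => (hd2 s).differentiableAt)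
      fun s => by rw [(hd2 s).deriv]; linarith [(hb s).2]
  have hnn : ∀ s, 0 ≤ T s := by
    intro s
    rcases le_total s (a / 2) with h | h
    · exact (h0 s h).ge
    · exact (h0 _ le_rfl).ge.trans (hm h)
  refine ⟨T, T', hd, hc, hb, h0, fun s => ?_, hnn, fun s => ?_⟩
  · rcases le_total s a with h | h
    · linarith [hnn s]
    · have e : T s - T a = ∫ t in a..s, T' t :=
        intervalIntegral.integral_interval_sub_left (hc.intervalIntegrable _ _)
          (hc.intervalIntegrable _ _)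
      have e2 : ∫ t in a..s, T' t = ∫ t in a..s, (1 : ℝ) := by
        refine intervalIntegral.integral_congr fun t ht => ?_
        have ht' : a ≤ t := (le_min le_rfl h).trans ht.1
        have : 1 ≤ 2 * t / a - 1 := by
          rw [le_sub_iff_add_le, le_div_iff₀ ha]; linarith
        simp only [hT']
        rw [min_eq_left this, max_eq_right zero_le_one]
      rw [e2] at e
      simp only [intervalIntegral.integral_const, smul_eq_mul, mul_one] at e
      linarith [hnn a]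
  · rcases le_total s 0 with h | h
    · rw [h0 s (by linarith)]; exact le_max_right _ _
    · have := hm2 h
      simp only [h0 0 (by linarith)] at this
      exact le_trans (by linarith) (le_max_left _ _)

theorem relt_add2 {k f g : P → ℝ} (hk : Integrable k) (hf : Integrable f) (hg : Integrable g)
    (h : ∀ x, k x ≤ f x + g x) : ∫ x, k x ≤ (∫ x, f x) + ∫ x, g x := by
  rw [← integral_add hf hg]
  exact integral_mono hk (hf.add hg) h

theorem relt_add3 {k f g e : P → ℝ} (hk : Integrable k) (hf : Integrable f) (hg : Integrable g)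
    (he : Integrable e) (h : ∀ x, k x ≤ f x + g x + e x) :
    ∫ x, k x ≤ (∫ x, f x) + (∫ x, g x) + ∫ x, e x := by
  rw [← integral_add hf hg]
  exact relt_add2 hk (hf.add hg) he h

/-- integration by parts against the perforation potential -/
theorem relt_ibp {U : Set P} {η p bn : P → ℝ} (hη : IsTest U η) (h1 : ContDiff ℝ 1 (d1 p))
    (h2 : ContDiff ℝ 1 (d2 p)) (hs : ∀ x, η x ≠ 0 → 0 < p x)
    (hL : ∀ x, 0 < p x → d1 (d1 p) x + d2 (d2 p) x = - bn x) :
    ∫ x, (d1 η x * d1 p x + d2 η x * d2 p x) = ∫ x, bn x * η x := by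
  have i1 : Integrable fun x => d1 η x * d1 p x :=
    (hη.d1_cont.mul h1.continuous).integrable_of_hasCompactSupport hη.d1_cs.mul_right
  have i2 : Integrable fun x => d2 η x * d2 p x :=
    (hη.d2_cont.mul h2.continuous).integrable_of_hasCompactSupport hη.d2_cs.mul_right
  have i3 : Integrable fun x => η x * d1 (d1 p) x :=
    (hη.cont.mul (d1_cont h1)).integrable_of_hasCompactSupport hη.cs.mul_right
  have i4 : Integrable fun x => η x * d2 (d2 p) x :=
    (hη.cont.mul (d2_cont h2)).integrable_of_hasCompactSupport hη.cs.mul_right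
  rw [integral_add i1 i2, ibp1 hη h1, ibp2 hη h2, ← neg_add, ← integral_add i3 i4, ← integral_neg]
  refine integral_congr_ae (Eventually.of_forall fun x => ?_)
  by_cases h : η x = 0
  · simp [h]
  · have := hL x (hs x h)
    simp only
    linear_combination (-η x) * this

theorem relt_int_grad {p : P → ℝ} {R' : ℝ} (hp : ContDiff ℝ 1 p)
    (hR : ∀ x, R' ≤ ‖x‖ → p x = 1) : Integrable fun x => |d1 p x| + |d2 p x| := by
  refine Continuous.integrable_of_hasCompactSupport ((d1_cont hp).abs.add (d2_cont hp).abs) ?_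
  refine HasCompactSupport.intro (isCompact_closedBall (0 : P) R') fun x hx => ?_
  have he : p =ᶠ[nhds x] fun _ => 1 := by
    filter_upwards [isClosed_closedBall.isOpen_compl.mem_nhds hx] with y hy
    refine hR y ?_
    have : ¬ ‖y‖ ≤ R' := by simpa using hy
    exact (not_le.1 this).le
  rw [d1_congr he, d2_congr he]
  simp

theorem relt_int_one_sub {p : P → ℝ} {R' : ℝ} (hp : ContDiff ℝ 1 p)
    (hR : ∀ x, R' ≤ ‖x‖ → p x = 1) : Integrable fun x => 1 - p x := by
  refine Continuous.integrable_of_hasCompactSupport (continuous_const.sub hp.continuous) ?_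
  refine HasCompactSupport.intro (isCompact_closedBall (0 : P) R') fun x hx => ?_
  have : ¬ ‖x‖ ≤ R' := by simpa using hx
  rw [hR x (not_le.1 this).le, sub_self]

theorem relt_dot {f g1 g2 q1 q2 L t : ℝ} (hf : |f| ≤ L) (h1 : |g1| ≤ L) (h2 : |g2| ≤ L)
    (ht : |t| ≤ 1) : |f * t * (g1 * q1 + g2 * q2)| ≤ L ^ 2 * (|q1| + |q2|) := by
  have hL : 0 ≤ L := (abs_nonneg _).trans hf
  have a1 : |g1 * q1 + g2 * q2| ≤ L * (|q1| + |q2|) := by
    refine (abs_add_le _ _).trans ?_
    rw [abs_mul, abs_mul, mul_add]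
    exact add_le_add (mul_le_mul_of_nonneg_right h1 (abs_nonneg _))
      (mul_le_mul_of_nonneg_right h2 (abs_nonneg _))
  have a2 : |f * t| ≤ L := by
    rw [abs_mul]
    exact (mul_le_mul hf ht (abs_nonneg _) hL).trans (by rw [mul_one])
  rw [abs_mul]
  calc _ ≤ L * (L * (|q1| + |q2|)) := mul_le_mul a2 a1 (abs_nonneg _) hL
    _ = _ := by ring

section

variable {U : Set P} {χ p bn : P → ℝ} {T T' : ℝ → ℝ} {a L R' : ℝ}

theorem relt_eta (hχ : IsTest U χ) (hp : ContDiff ℝ 1 p) (hd : ∀ s, HasDerivAt T (T' s) s)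
    (hc : Continuous T') : IsTest U (fun x => χ x * χ x * T (p x)) ∧
    ∀ x, d1 (fun x => χ x * χ x * T (p x)) x * d1 p x + d2 (fun x => χ x * χ x * T (p x)) x * d2 p x
      = 2 * (χ x * T (p x) * (d1 χ x * d1 p x + d2 χ x * d2 p x)) +
        χ x ^ 2 * (T' (p x) * (d1 p x ^ 2 + d2 p x ^ 2)) := by
  have hT := contDiff_one_of_hasDerivAt hd hc
  have hpd := hp.differentiable (by simp)
  refine ⟨(hχ.mul_c1 hχ.c1).mul_c1 (hT.comp hp), fun x => ?_⟩
  have hTd : DifferentiableAt ℝ (fun x => T (p x)) x :=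
    (hd (p x)).differentiableAt.comp x (hpd x)
  have hχ2 : DifferentiableAt ℝ (fun x => χ x * χ x) x := (hχ.diff x).mul (hχ.diff x)
  rw [d1_mul hχ2 hTd, d2_mul hχ2 hTd,
    d1_mul (hχ.diff x) (hχ.diff x), d2_mul (hχ.diff x) (hχ.diff x), d1_comp (hpd x) (hd _),
    d2_comp (hpd x) (hd _)]
  ring

theorem relt_bn (hχ : IsTest U χ) (hp : ContDiff ℝ 1 p) (h1 : ContDiff ℝ 1 (d1 p))
    (h2 : ContDiff ℝ 1 (d2 p)) (hbc : Continuous bn) (hb : ∀ x, 0 ≤ bn x)
    (hL : ∀ x, 0 < p x → d1 (d1 p) x + d2 (d2 p) x = - bn x)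
    (hd : ∀ s, HasDerivAt T (T' s) s) (hc : Continuous T') (h0 : ∀ s, s ≤ 0 → T s = 0)
    (hT1 : ∀ x, T (p x) ≤ 1) :
    ∫ x, (d1 (fun x => χ x * χ x * T (p x)) x * d1 p x +
      d2 (fun x => χ x * χ x * T (p x)) x * d2 p x) ≤ ∫ x, bn x * χ x ^ 2 := by
  have hη := (relt_eta hχ hp hd hc).1
  rw [relt_ibp hη h1 h2 (fun x hx => by
    by_contra h
    exact hx (by simp [h0 _ (not_lt.1 h)])) hL]
  refine integral_mono ((hbc.mul hη.cont).integrable_of_hasCompactSupport hη.cs.mul_left)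
    ((hbc.mul (hχ.cont.pow 2)).integrable_of_hasCompactSupport
      (hcs_of_zero hχ.cs fun z hz => by simp [hz])) fun x => ?_
  refine mul_le_mul_of_nonneg_left ?_ (hb x)
  nlinarith [mul_self_nonneg (χ x), hT1 x]

/-- the key estimate -/
theorem relt_key (hχ : IsTest U χ) (hp : ContDiff ℝ 1 p) (h1 : ContDiff ℝ 1 (d1 p))
    (h2 : ContDiff ℝ 1 (d2 p)) (hbc : Continuous bn) (hb : ∀ x, 0 ≤ bn x)
    (hR : ∀ x, R' ≤ ‖x‖ → p x = 1)
    (hL : ∀ x, 0 < p x → d1 (d1 p) x + d2 (d2 p) x = - bn x)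
    (hd : ∀ s, HasDerivAt T (T' s) s) (hc : Continuous T') (h0 : ∀ s, s ≤ 0 → T s = 0)
    (hT0 : ∀ x, 0 ≤ T (p x)) (hT1 : ∀ x, T (p x) ≤ 1)
    (hB : ∀ x, |χ x| ≤ L ∧ |d1 χ x| ≤ L ∧ |d2 χ x| ≤ L) :
    ∫ x, χ x ^ 2 * (T' (p x) * (d1 p x ^ 2 + d2 p x ^ 2)) ≤
      (∫ x, bn x * χ x ^ 2) + 2 * L ^ 2 * ∫ x, (|d1 p x| + |d2 p x|) := by
  obtain ⟨hη, he⟩ := relt_eta hχ hp hd hc
  have hI := relt_int_grad hp hR
  have hE : Integrable fun x => d1 (fun x => χ x * χ x * T (p x)) x * d1 p x +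
      d2 (fun x => χ x * χ x * T (p x)) x * d2 p x :=
    ((hη.d1_cont.mul h1.continuous).integrable_of_hasCompactSupport hη.d1_cs.mul_right).add
      ((hη.d2_cont.mul h2.continuous).integrable_of_hasCompactSupport hη.d2_cs.mul_right)
  refine le_trans ?_ (add_le_add (relt_bn hχ hp h1 h2 hbc hb hL hd hc h0 hT1) le_rfl)
  rw [← integral_const_mul]
  refine relt_add2 ?_ hE (hI.const_mul _) fun x => ?_
  · exact ((hχ.cont.pow 2).mul ((hc.comp hp.continuous).mul
      ((h1.continuous.pow 2).add (h2.continuous.pow 2)))).integrable_of_hasCompactSupport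
      (hcs_of_zero hχ.cs fun z hz => by simp [hz])
  · have := relt_dot (q1 := d1 p x) (q2 := d2 p x) (hB x).1 (hB x).2.1 (hB x).2.2
      (t := T (p x)) (abs_le.2 ⟨by linarith [hT0 x], hT1 x⟩)
    rw [he]
    linarith [(abs_le.1 this).1]

end

theorem relt (_A : API) : RELT := by
  intro Ω b p bn C R' hP φ hφ ε hε
  obtain ⟨hP1, hP2, hP3, hP4⟩ := hP
  obtain ⟨L, hL0, hB⟩ := hφ.bdd
  have hIφ : Integrable fun x => |φ x| := hφ.integrable.abs
  have hA0 : 0 ≤ ∫ x, |φ x| := integral_nonneg fun x => abs_nonneg _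
  set a : ℝ := ε / (4 * ((∫ x, |φ x|) + 1)) with ha
  have ha0 : 0 < a := by positivity
  have haε : 2 * (a * ∫ x, |φ x|) ≤ ε / 2 := by
    have : a * (4 * ((∫ x, |φ x|) + 1)) = ε := by rw [ha]; field_simp
    linarith
  obtain ⟨T, T', hd, hc, hT', h0, hlo, hnn, hup⟩ := relt_T ha0
  have hφ2 : HasCompactSupport fun x => φ x ^ 2 := hcs_of_zero hφ.cs fun z hz => by simp [hz]
  have hlim : Tendsto (fun n => 2 * (L * ∫ x, (1 - p n x)) +
      ((∫ x, bn n x * φ x ^ 2) - ∫ x, b x * φ x ^ 2) +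
      2 * L ^ 2 * ∫ x, (|d1 (p n) x| + |d2 (p n) x|)) atTop
      (𝓝 (2 * (L * 0) + ((∫ x, b x * φ x ^ 2) - ∫ x, b x * φ x ^ 2) + 2 * L ^ 2 * 0)) :=
    (((hP2.const_mul L).const_mul 2).add
      ((hP4 _ (hφ.cont.pow 2) hφ2).sub tendsto_const_nhds)).add (hP3.const_mul _)
  simp only [mul_zero, sub_self, add_zero] at hlim
  filter_upwards [hlim.eventually (ge_mem_nhds (half_pos hε))] with n hn
  obtain ⟨hp, h1, h2, hbc, hp1, hR, hb, hL⟩ := hP1 n
  have hT := contDiff_one_of_hasDerivAt hd hc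
  have hpd := hp.differentiable (by simp)
  have hT1 : ∀ x, T (p n x) ≤ 1 := fun x => (hup _).trans (max_le (hp1 x) zero_le_one)
  have hψ0 : IsTest Ω fun x => φ x * T (p n x) := hφ.mul_c1 (hT.comp hp)
  have hψ : IsTest (Ω ∩ {x | 0 < p n x}) fun x => φ x * T (p n x) := by
    refine hψ0.restrict (subset_inter hψ0.supp ?_)
    have hcl : IsClosed {x | a / 2 ≤ p n x} := isClosed_le continuous_const hp.continuous
    refine (closure_minimal ?_ hcl).trans fun x hx => ?_
    · intro x hx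
      by_contra h
      exact hx (by simp [h0 _ (not_le.1 h).le])
    · exact lt_of_lt_of_le (half_pos ha0) hx
  refine ⟨_, hψ, ?_⟩
  obtain ⟨hη, he⟩ := relt_eta hφ hp hd hc
  have hI := relt_int_grad hp fun x hx => (hR x hx).1
  have hI1 := relt_int_one_sub hp fun x hx => (hR x hx).1
  have hE : Integrable fun x => d1 (fun x => φ x * φ x * T (p n x)) x * d1 (p n) x +
      d2 (fun x => φ x * φ x * T (p n x)) x * d2 (p n) x :=
    ((hη.d1_cont.mul h1.continuous).integrable_of_hasCompactSupport hη.d1_cs.mul_right).add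
      ((hη.d2_cont.mul h2.continuous).integrable_of_hasCompactSupport hη.d2_cs.mul_right)
  have hG := int_sq2 hφ.memLp_d1 hφ.memLp_d2
  have k1 := relt_bn hφ hp h1 h2 hbc (fun x => (hb x).1) hL hd hc
    (fun s hs => h0 s (by linarith)) hT1
  have k2 : ∫ x, (d1 (fun x => φ x * T (p n x)) x ^ 2 + d2 (fun x => φ x * T (p n x)) x ^ 2) ≤
      (∫ x, (d1 φ x ^ 2 + d2 φ x ^ 2)) +
      (∫ x, (d1 (fun x => φ x * φ x * T (p n x)) x * d1 (p n) x +
        d2 (fun x => φ x * φ x * T (p n x)) x * d2 (p n) x)) +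
      2 * L ^ 2 * ∫ x, (|d1 (p n) x| + |d2 (p n) x|) := by
    rw [← integral_const_mul]
    refine relt_add3 (int_sq2 hψ.memLp_d1 hψ.memLp_d2) hG hE (hI.const_mul _) fun x => ?_
    have hTd : DifferentiableAt ℝ (fun x => T (p n x)) x :=
      (hd (p n x)).differentiableAt.comp x (hpd x)
    have t0 := hnn (p n x)
    have t1 := hT1 x
    obtain ⟨s0, s1⟩ := hT' (p n x)
    have := relt_dot (q1 := d1 (p n) x) (q2 := d2 (p n) x) (hB x).1 (hB x).2.1 (hB x).2.2
      (t := T (p n x) * (T' (p n x) - 1)) (abs_le.2 ⟨by nlinarith, by nlinarith⟩)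
    have u1 : T (p n x) ^ 2 * (d1 φ x ^ 2 + d2 φ x ^ 2) ≤ 1 * (d1 φ x ^ 2 + d2 φ x ^ 2) :=
      mul_le_mul_of_nonneg_right (by nlinarith) (by positivity)
    have u2 : T' (p n x) ^ 2 * (φ x ^ 2 * (d1 (p n) x ^ 2 + d2 (p n) x ^ 2)) ≤
        T' (p n x) * (φ x ^ 2 * (d1 (p n) x ^ 2 + d2 (p n) x ^ 2)) :=
      mul_le_mul_of_nonneg_right (by nlinarith) (by positivity)
    rw [he]
    rw [d1_mul (hφ.diff x) hTd, d2_mul (hφ.diff x) hTd, d1_comp (hpd x) (hd _),
      d2_comp (hpd x) (hd _)]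
    linarith [(abs_le.1 this).2]
  have k3 : ∫ x, φ x ≤ (∫ x, φ x * T (p n x)) + a * (∫ x, |φ x|) + L * ∫ x, (1 - p n x) := by
    rw [← integral_const_mul, ← integral_const_mul]
    refine relt_add3 hφ.integrable hψ.integrable (hIφ.const_mul _) (hI1.const_mul _) fun x => ?_
    have v1 : φ x * (1 - T (p n x)) ≤ |φ x| * (1 - T (p n x)) :=
      mul_le_mul_of_nonneg_right (le_abs_self _) (by linarith [hT1 x])
    have v2 : |φ x| * (1 - T (p n x)) ≤ |φ x| * (a + (1 - p n x)) :=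
      mul_le_mul_of_nonneg_left (by linarith [hlo (p n x)]) (abs_nonneg _)
    have v3 : |φ x| * (1 - p n x) ≤ L * (1 - p n x) :=
      mul_le_mul_of_nonneg_right (hB x).1 (by linarith [hp1 x])
    linarith
  unfold JJ
  simp only [zero_mul, integral_zero, sub_zero]
  linarith

end Pool.Agent.H92Z.Fq
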