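import Pool.Agent.H92Z.Fq.Basic

open MeasureTheory Set Filter Metric
open scoped Topology Pointwise

namespace Pool.Agent.H92Z.Fq

/-- strong `L²` convergence -/
structure L2Lim (g : ℕ → P → ℝ) (f : P → ℝ) : Prop where
  mem : ∀ n, MemLp (g n) 2 volume
  lim : MemLp f 2 volume
  tend : Tendsto (fun n => ∫ x, (g n x - f x) ^ 2) atTop (𝓝 0)

/-- weak `L²` convergence -/
def WLim (g : ℕ → P → ℝ) (f : P → ℝ) : Prop :=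
  ∀ G : P → ℝ, MemLp G 2 volume → Tendsto (fun n => ∫ x, G x * g n x) atTop (𝓝 (∫ x, G x * f x))

/-- uniformly bounded test functions converging a.e. and in `H¹` -/
structure Approx (φ : ℕ → P → ℝ) (f f1 f2 : P → ℝ) : Prop where
  test : ∀ n, IsTest univ (φ n)
  bdd : ∃ L, ∀ n x, |φ n x| ≤ L
  ae : ∀ᵐ x, Tendsto (fun n => φ n x) atTop (𝓝 (f x))
  l0 : L2Lim φ f
  l1 : L2Lim (fun n => d1 (φ n)) f1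
  l2 : L2Lim (fun n => d2 (φ n)) f2

/-- bounded elements of `H¹₀(Ω)`, with their approximating sequence -/
def BH (Ω : Set P) (f f1 f2 : P → ℝ) : Prop :=
  ∃ φ, Approx φ f f1 f2 ∧ ∀ n, tsupport (φ n) ⊆ Ω

/-- weak form of `-div (f1, f2) = R` in `Ω` -/
def Weak (Ω : Set P) (f1 f2 R : P → ℝ) : Prop :=
  ∀ φ, IsTest Ω φ → ∫ x, (f1 x * d1 φ x + f2 x * d2 φ x) = ∫ x, R x * φ x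

/-- the bottom of the spectrum of `-Δ + b` in `Ω` is at least `c` -/
def LamGe (Ω : Set P) (b : P → ℝ) (c : ℝ) : Prop :=
  ∀ φ, IsTest Ω φ →
    c * ∫ x, φ x ^ 2 ≤ (∫ x, (d1 φ x ^ 2 + d2 φ x ^ 2)) + ∫ x, b x * φ x ^ 2

/-- torsion energy with potential `b` -/
noncomputable def JJ (b v v1 v2 : P → ℝ) : ℝ :=
  2 * (∫ x, v x) - (∫ x, (v1 x ^ 2 + v2 x ^ 2)) - ∫ x, b x * v x ^ 2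

/-- `Ω` maximises `F_q` -/
def Opt (q : ℝ) (Ω : Set P) : Prop := Adm Ω ∧ ∀ Ω', Adm Ω' → FF q Ω' ≤ FF q Ω

/-- area as a real number -/
noncomputable def vol (Ω : Set P) : ℝ := (volume Ω).toReal

/-! ### the calculus of `L2Lim`, `H10`, `Approx`, `BH` -/

structure API : Prop where
  l_const : ∀ {f : P → ℝ}, MemLp f 2 volume → L2Lim (fun _ => f) f
  l_add : ∀ {g h : ℕ → P → ℝ} {f k : P → ℝ}, L2Lim g f → L2Lim h k →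
    L2Lim (fun n x => g n x + h n x) (fun x => f x + k x)
  l_sub : ∀ {g h : ℕ → P → ℝ} {f k : P → ℝ}, L2Lim g f → L2Lim h k →
    L2Lim (fun n x => g n x - h n x) (fun x => f x - k x)
  l_smul : ∀ {g : ℕ → P → ℝ} {f : P → ℝ} (c : ℝ), L2Lim g f →
    L2Lim (fun n x => c * g n x) (fun x => c * f x)
  l_bmul : ∀ {g : ℕ → P → ℝ} {f b : P → ℝ} {L : ℝ}, L2Lim g f → AEStronglyMeasurable b volume →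
    (∀ᵐ x, |b x| ≤ L) → L2Lim (fun n x => b x * g n x) (fun x => b x * f x)
  l_dom : ∀ {g b : ℕ → P → ℝ} {f b0 : P → ℝ} {L : ℝ}, L2Lim g f →
    (∀ n, AEStronglyMeasurable (b n) volume) → (∀ n, ∀ᵐ x, |b n x| ≤ L) →
    (∀ᵐ x, Tendsto (fun n => b n x) atTop (𝓝 (b0 x))) →
    L2Lim (fun n x => b n x * g n x) (fun x => b0 x * f x)
  l_subseq : ∀ {g : ℕ → P → ℝ} {f : P → ℝ} {σ : ℕ → ℕ}, L2Lim g f → Tendsto σ atTop atTop →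
    L2Lim (fun n => g (σ n)) f
  l_ae : ∀ {g : ℕ → P → ℝ} {f : P → ℝ}, L2Lim g f → ∃ σ : ℕ → ℕ, StrictMono σ ∧
    ∀ᵐ x, Tendsto (fun n => g (σ n) x) atTop (𝓝 (f x))
  l_congr : ∀ {g h : ℕ → P → ℝ} {f k : P → ℝ}, L2Lim g f → (∀ n, g n =ᵐ[volume] h n) →
    f =ᵐ[volume] k → L2Lim h k
  l_mul : ∀ {g h : ℕ → P → ℝ} {f k : P → ℝ}, L2Lim g f → L2Lim h k →
    Tendsto (fun n => ∫ x, g n x * h n x) atTop (𝓝 (∫ x, f x * k x))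
  l_sq : ∀ {g : ℕ → P → ℝ} {f : P → ℝ}, L2Lim g f →
    Tendsto (fun n => ∫ x, g n x ^ 2) atTop (𝓝 (∫ x, f x ^ 2))
  l_sq2 : ∀ {g h : ℕ → P → ℝ} {f k : P → ℝ}, L2Lim g f → L2Lim h k →
    Tendsto (fun n => ∫ x, (g n x ^ 2 + h n x ^ 2)) atTop (𝓝 (∫ x, (f x ^ 2 + k x ^ 2)))
  l_wsq : ∀ {g : ℕ → P → ℝ} {f b : P → ℝ} {L : ℝ}, L2Lim g f → AEStronglyMeasurable b volume →
    (∀ᵐ x, |b x| ≤ L) →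
    Tendsto (fun n => ∫ x, b x * g n x ^ 2) atTop (𝓝 (∫ x, b x * f x ^ 2))
  l_weak : ∀ {g : ℕ → P → ℝ} {f : P → ℝ}, L2Lim g f → WLim g f
  l_mul_weak : ∀ {g h : ℕ → P → ℝ} {f k : P → ℝ}, L2Lim g f → WLim h k →
    (∀ n, MemLp (h n) 2 volume) → (∃ K, ∀ n, ∫ x, h n x ^ 2 ≤ K) →
    Tendsto (fun n => ∫ x, g n x * h n x) atTop (𝓝 (∫ x, f x * k x))
  h_iff : ∀ {Ω : Set P} {f f1 f2 : P → ℝ}, H10 Ω f f1 f2 ↔ ∃ φ : ℕ → P → ℝ,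
    (∀ n, IsTest Ω (φ n)) ∧ L2Lim φ f ∧ L2Lim (fun n => d1 (φ n)) f1 ∧
      L2Lim (fun n => d2 (φ n)) f2
  h_test : ∀ {Ω : Set P} {φ : P → ℝ}, IsTest Ω φ → H10 Ω φ (d1 φ) (d2 φ)
  h_mono : ∀ {Ω Ω' : Set P} {f f1 f2 : P → ℝ}, H10 Ω f f1 f2 → Ω ⊆ Ω' → H10 Ω' f f1 f2
  h_congr : ∀ {Ω : Set P} {f f1 f2 g g1 g2 : P → ℝ}, H10 Ω f f1 f2 → f =ᵐ[volume] g →
    f1 =ᵐ[volume] g1 → f2 =ᵐ[volume] g2 → H10 Ω g g1 g2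
  h_add : ∀ {Ω : Set P} {f f1 f2 g g1 g2 : P → ℝ}, H10 Ω f f1 f2 → H10 Ω g g1 g2 →
    H10 Ω (fun x => f x + g x) (fun x => f1 x + g1 x) (fun x => f2 x + g2 x)
  h_sub : ∀ {Ω : Set P} {f f1 f2 g g1 g2 : P → ℝ}, H10 Ω f f1 f2 → H10 Ω g g1 g2 →
    H10 Ω (fun x => f x - g x) (fun x => f1 x - g1 x) (fun x => f2 x - g2 x)
  h_smul : ∀ {Ω : Set P} {f f1 f2 : P → ℝ} (c : ℝ), H10 Ω f f1 f2 →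
    H10 Ω (fun x => c * f x) (fun x => c * f1 x) (fun x => c * f2 x)
  h_zero : ∀ {Ω : Set P} {f f1 f2 : P → ℝ}, H10 Ω f f1 f2 →
    ∀ᵐ x, x ∉ Ω → f x = 0 ∧ f1 x = 0 ∧ f2 x = 0
  h_int : ∀ {Ω : Set P} {f f1 f2 : P → ℝ}, H10 Ω f f1 f2 → MeasurableSet Ω → volume Ω < ⊤ →
    Integrable f
  h_int_lim : ∀ {Ω : Set P} {φ : ℕ → P → ℝ} {f : P → ℝ}, (∀ n, IsTest Ω (φ n)) → L2Lim φ f →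
    MeasurableSet Ω → volume Ω < ⊤ → Tendsto (fun n => ∫ x, φ n x) atTop (𝓝 (∫ x, f x))
  h_comp : ∀ {Ω : Set P} {f f1 f2 : P → ℝ} {a a' : ℝ → ℝ} {K : ℝ}, H10 Ω f f1 f2 →
    (∀ s, HasDerivAt a (a' s) s) → Continuous a' → (∀ s, |a' s| ≤ K) → a 0 = 0 →
    H10 Ω (fun x => a (f x)) (fun x => a' (f x) * f1 x) (fun x => a' (f x) * f2 x)
  h_bh : ∀ {Ω : Set P} {f f1 f2 : P → ℝ} {L : ℝ}, H10 Ω f f1 f2 → (∀ᵐ x, |f x| ≤ L) →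
    BH Ω f f1 f2
  h_weak : ∀ {Ω : Set P} {f1 f2 R ψ ψ1 ψ2 : P → ℝ}, Weak Ω f1 f2 R → MemLp f1 2 volume →
    MemLp f2 2 volume → MemLp R 2 volume → H10 Ω ψ ψ1 ψ2 →
    ∫ x, (f1 x * ψ1 x + f2 x * ψ2 x) = ∫ x, R x * ψ x
  h_ibp1 : ∀ {Ω : Set P} {f f1 f2 X : P → ℝ}, H10 Ω f f1 f2 → IsTest univ X →
    ∫ x, f1 x * X x = - ∫ x, f x * d1 X x
  h_ibp2 : ∀ {Ω : Set P} {f f1 f2 X : P → ℝ}, H10 Ω f f1 f2 → IsTest univ X →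
    ∫ x, f2 x * X x = - ∫ x, f x * d2 X x
  h_lamge : ∀ {Ω : Set P} {b f f1 f2 : P → ℝ} {c L : ℝ}, LamGe Ω b c →
    AEStronglyMeasurable b volume → (∀ᵐ x, |b x| ≤ L) → H10 Ω f f1 f2 →
    c * ∫ x, f x ^ 2 ≤ (∫ x, (f1 x ^ 2 + f2 x ^ 2)) + ∫ x, b x * f x ^ 2
  a_const : ∀ {φ : P → ℝ}, IsTest univ φ → Approx (fun _ => φ) φ (d1 φ) (d2 φ)
  a_add : ∀ {φ ψ : ℕ → P → ℝ} {f f1 f2 g g1 g2 : P → ℝ}, Approx φ f f1 f2 → Approx ψ g g1 g2 →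
    Approx (fun n x => φ n x + ψ n x) (fun x => f x + g x) (fun x => f1 x + g1 x)
      (fun x => f2 x + g2 x)
  a_sub : ∀ {φ ψ : ℕ → P → ℝ} {f f1 f2 g g1 g2 : P → ℝ}, Approx φ f f1 f2 → Approx ψ g g1 g2 →
    Approx (fun n x => φ n x - ψ n x) (fun x => f x - g x) (fun x => f1 x - g1 x)
      (fun x => f2 x - g2 x)
  a_smul : ∀ {φ : ℕ → P → ℝ} {f f1 f2 : P → ℝ} (c : ℝ), Approx φ f f1 f2 →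
    Approx (fun n x => c * φ n x) (fun x => c * f x) (fun x => c * f1 x) (fun x => c * f2 x)
  a_mul : ∀ {φ ψ : ℕ → P → ℝ} {f f1 f2 g g1 g2 : P → ℝ}, Approx φ f f1 f2 → Approx ψ g g1 g2 →
    Approx (fun n x => φ n x * ψ n x) (fun x => f x * g x) (fun x => f1 x * g x + f x * g1 x)
      (fun x => f2 x * g x + f x * g2 x)
  a_comp : ∀ {φ : ℕ → P → ℝ} {f f1 f2 : P → ℝ} {a a' : ℝ → ℝ}, Approx φ f f1 f2 →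
    (∀ s, HasDerivAt a (a' s) s) → Continuous a' → a 0 = 0 →
    Approx (fun n x => a (φ n x)) (fun x => a (f x)) (fun x => a' (f x) * f1 x)
      (fun x => a' (f x) * f2 x)
  a_cut : ∀ {φ : ℕ → P → ℝ} {f f1 f2 : P → ℝ} {a a' : ℝ → ℝ} {U : Set P}, Approx φ f f1 f2 →
    (∀ s, HasDerivAt a (a' s) s) → Continuous a' → IsOpen U → Bornology.IsBounded U →
    (∀ n, ∀ x ∈ frontier U, (fun y => a (φ n y)) =ᶠ[nhds x] fun _ => 0) →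
    Approx (fun n => U.indicator fun x => a (φ n x)) (U.indicator fun x => a (f x))
      (U.indicator fun x => a' (f x) * f1 x) (U.indicator fun x => a' (f x) * f2 x)
  a_subseq : ∀ {φ : ℕ → P → ℝ} {f f1 f2 : P → ℝ} {σ : ℕ → ℕ}, Approx φ f f1 f2 →
    Tendsto σ atTop atTop → Approx (fun n => φ (σ n)) f f1 f2
  a_congr : ∀ {φ : ℕ → P → ℝ} {f f1 f2 g g1 g2 : P → ℝ}, Approx φ f f1 f2 → f =ᵐ[volume] g →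
    f1 =ᵐ[volume] g1 → f2 =ᵐ[volume] g2 → Approx φ g g1 g2
  a_int : ∀ {φ : ℕ → P → ℝ} {f f1 f2 R : P → ℝ}, Approx φ f f1 f2 → Integrable R →
    Tendsto (fun n => ∫ x, R x * φ n x) atTop (𝓝 (∫ x, R x * f x))
  b_h : ∀ {Ω : Set P} {f f1 f2 : P → ℝ}, BH Ω f f1 f2 → H10 Ω f f1 f2
  b_bdd : ∀ {Ω : Set P} {f f1 f2 : P → ℝ}, BH Ω f f1 f2 → ∃ L, 0 < L ∧ ∀ᵐ x, |f x| ≤ L
  b_test : ∀ {Ω : Set P} {φ : P → ℝ}, IsTest Ω φ → BH Ω φ (d1 φ) (d2 φ)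
  b_mono : ∀ {Ω Ω' : Set P} {f f1 f2 : P → ℝ}, BH Ω f f1 f2 → Ω ⊆ Ω' → BH Ω' f f1 f2
  b_congr : ∀ {Ω : Set P} {f f1 f2 g g1 g2 : P → ℝ}, BH Ω f f1 f2 → f =ᵐ[volume] g →
    f1 =ᵐ[volume] g1 → f2 =ᵐ[volume] g2 → BH Ω g g1 g2
  b_add : ∀ {Ω : Set P} {f f1 f2 g g1 g2 : P → ℝ}, BH Ω f f1 f2 → BH Ω g g1 g2 →
    BH Ω (fun x => f x + g x) (fun x => f1 x + g1 x) (fun x => f2 x + g2 x)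
  b_sub : ∀ {Ω : Set P} {f f1 f2 g g1 g2 : P → ℝ}, BH Ω f f1 f2 → BH Ω g g1 g2 →
    BH Ω (fun x => f x - g x) (fun x => f1 x - g1 x) (fun x => f2 x - g2 x)
  b_smul : ∀ {Ω : Set P} {f f1 f2 : P → ℝ} (c : ℝ), BH Ω f f1 f2 →
    BH Ω (fun x => c * f x) (fun x => c * f1 x) (fun x => c * f2 x)
  b_mul : ∀ {Ω Ω' : Set P} {f f1 f2 g g1 g2 : P → ℝ}, BH Ω f f1 f2 → BH Ω' g g1 g2 →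
    BH Ω (fun x => f x * g x) (fun x => f1 x * g x + f x * g1 x)
      (fun x => f2 x * g x + f x * g2 x)
  b_comp : ∀ {Ω : Set P} {f f1 f2 : P → ℝ} {a a' : ℝ → ℝ}, BH Ω f f1 f2 →
    (∀ s, HasDerivAt a (a' s) s) → Continuous a' → a 0 = 0 →
    BH Ω (fun x => a (f x)) (fun x => a' (f x) * f1 x) (fun x => a' (f x) * f2 x)
  b_mul_comp : ∀ {Ω Ω' : Set P} {f f1 f2 g g1 g2 : P → ℝ} {a a' : ℝ → ℝ}, BH Ω f f1 f2 →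
    BH Ω' g g1 g2 → (∀ s, HasDerivAt a (a' s) s) → Continuous a' →
    BH Ω (fun x => f x * a (g x)) (fun x => f1 x * a (g x) + f x * (a' (g x) * g1 x))
      (fun x => f2 x * a (g x) + f x * (a' (g x) * g2 x))
  trunc : ∀ L : ℝ, ∃ T T' : ℝ → ℝ, (∀ s, HasDerivAt T (T' s) s) ∧ Continuous T' ∧
    (∀ s, 0 ≤ T' s ∧ T' s ≤ 1) ∧ (∀ s, |s| ≤ L → T s = s ∧ T' s = 1) ∧ (∀ s, |T s| ≤ |s|) ∧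
    ∃ M, ∀ s, |T s| ≤ M
  recip : ∃ B B' : ℝ → ℝ, (∀ s, HasDerivAt B (B' s) s) ∧ Continuous B' ∧
    (∀ s, 1 ≤ s → B s = 1 / s ∧ B' s = -1 / s ^ 2) ∧ (∀ s, s ≤ 1 → B s = 2 - s ∧ B' s = -1)

/-! ### inequalities and compactness -/

/-- Ladyzhenskaya inequality -/
def LADY : Prop := ∃ C : ℝ, 0 < C ∧ ∀ φ, IsTest univ φ →
  ∫ x, φ x ^ 4 ≤ C * (∫ x, φ x ^ 2) * ∫ x, (d1 φ x ^ 2 + d2 φ x ^ 2)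

/-- cut-off functions between concentric squares (balls of `P` are squares) -/
def CUTOFF : Prop := ∃ C : ℝ, 0 < C ∧ ∀ (x0 : P) (a b : ℝ), 0 < a → a < b → ∃ ξ : P → ℝ,
  IsTest (ball x0 b) ξ ∧ (∀ x, 0 ≤ ξ x ∧ ξ x ≤ 1) ∧ (∀ x ∈ closedBall x0 a, ξ x = 1) ∧
    ∀ x, |d1 ξ x| ≤ C / (b - a) ∧ |d2 ξ x| ≤ C / (b - a)

/-- weak compactness in `H¹₀`, with lower semicontinuity of the energy -/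
def WCOMP : Prop := ∀ (Ω : Set P) (φ : ℕ → P → ℝ) (K : ℝ), (∀ n, IsTest Ω (φ n)) →
  (∀ n, ∫ x, φ n x ^ 2 ≤ K) → (∀ n, ∫ x, (d1 (φ n) x ^ 2 + d2 (φ n) x ^ 2) ≤ K) →
  ∃ (σ : ℕ → ℕ) (f f1 f2 : P → ℝ), StrictMono σ ∧ H10 Ω f f1 f2 ∧ WLim (fun n => φ (σ n)) f ∧
    WLim (fun n => d1 (φ (σ n))) f1 ∧ WLim (fun n => d2 (φ (σ n))) f2 ∧
    ∀ e : ℝ, (∀ ε : ℝ, 0 < ε → ∀ᶠ n in atTop,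
      ∫ x, (d1 (φ (σ n)) x ^ 2 + d2 (φ (σ n)) x ^ 2) ≤ e + ε) →
      ∫ x, (f1 x ^ 2 + f2 x ^ 2) ≤ e

/-- Rellich theorem for sets of finite measure -/
def RELLICH : Prop := ∀ (Ω : Set P) (φ : ℕ → P → ℝ) (f : P → ℝ) (K : ℝ), MeasurableSet Ω →
  volume Ω < ⊤ → (∀ n, IsTest Ω (φ n)) → (∀ n, ∫ x, φ n x ^ 2 ≤ K) →
  (∀ n, ∫ x, (d1 (φ n) x ^ 2 + d2 (φ n) x ^ 2) ≤ K) → MemLp f 2 volume → WLim φ f → L2Lim φ f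

/-- `WCOMP` and `RELLICH` together -/
def COMPACT : Prop := ∀ (Ω : Set P) (φ : ℕ → P → ℝ) (K : ℝ), MeasurableSet Ω → volume Ω < ⊤ →
  (∀ n, IsTest Ω (φ n)) →
  (∀ n, ∫ x, φ n x ^ 2 ≤ K) → (∀ n, ∫ x, (d1 (φ n) x ^ 2 + d2 (φ n) x ^ 2) ≤ K) →
  ∃ (σ : ℕ → ℕ) (f f1 f2 : P → ℝ), StrictMono σ ∧ H10 Ω f f1 f2 ∧ L2Lim (fun n => φ (σ n)) f ∧
    WLim (fun n => d1 (φ (σ n))) f1 ∧ WLim (fun n => d2 (φ (σ n))) f2 ∧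
    ∀ e : ℝ, (∀ ε : ℝ, 0 < ε → ∀ᶠ n in atTop,
      ∫ x, (d1 (φ (σ n)) x ^ 2 + d2 (φ (σ n)) x ^ 2) ≤ e + ε) →
      ∫ x, (f1 x ^ 2 + f2 x ^ 2) ≤ e

/-- the absolute value of an `H¹₀` function -/
def ABS : Prop := ∀ (Ω : Set P) (f f1 f2 : P → ℝ), H10 Ω f f1 f2 → ∃ g1 g2 : P → ℝ,
  H10 Ω (fun x => |f x|) g1 g2 ∧ ∫ x, (g1 x ^ 2 + g2 x ^ 2) ≤ ∫ x, (f1 x ^ 2 + f2 x ^ 2)

/-! ### variational facts -/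

def VLAM : Prop :=
  (∃ c0 : ℝ, 0 < c0 ∧ ∀ Ω, Adm Ω → c0 ≤ lam Ω * vol Ω) ∧
  (∀ Ω, Adm Ω → 0 < lam Ω ∧ 0 < vol Ω ∧ LamGe Ω (fun _ => 0) (lam Ω) ∧
    (∀ u u1 u2, H10 Ω u u1 u2 → lam Ω * ∫ x, u x ^ 2 ≤ ∫ x, (u1 x ^ 2 + u2 x ^ 2)) ∧
    (∀ c, LamGe Ω (fun _ => 0) c → c ≤ lam Ω) ∧
    (∃ φ, IsTest Ω φ ∧ 0 < ∫ x, φ x ^ 2) ∧
    (∀ f f1 f2, H10 Ω f f1 f2 → ∫ x, (f1 x ^ 2 + f2 x ^ 2) ≤ lam Ω * ∫ x, f x ^ 2 →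
      Weak Ω f1 f2 (fun x => lam Ω * f x)))

def VTORS : Prop := ∀ Ω, Adm Ω →
  (∀ u u1 u2, H10 Ω u u1 u2 → JJ (fun _ => 0) u u1 u2 ≤ tors Ω) ∧
  (∀ t, (∀ φ, IsTest Ω φ → JJ (fun _ => 0) φ (d1 φ) (d2 φ) ≤ t) → tors Ω ≤ t) ∧
  0 < tors Ω ∧ lam Ω * tors Ω ≤ vol Ω ∧
  ∃ w w1 w2, H10 Ω w w1 w2 ∧ Weak Ω w1 w2 (Ω.indicator fun _ => 1) ∧ ∫ x, w x = tors Ω ∧
    ∫ x, (w1 x ^ 2 + w2 x ^ 2) = tors Ω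

def GROUND : Prop := ∀ Ω, Adm Ω → ∃ u u1 u2, H10 Ω u u1 u2 ∧ (∀ᵐ x, 0 ≤ u x) ∧
  ∫ x, u x ^ 2 = 1 ∧ ∫ x, (u1 x ^ 2 + u2 x ^ 2) = lam Ω

def SCALE : Prop := ∀ (s : ℝ) (Ω : Set P), 0 < s → Adm Ω →
  Adm (s • Ω) ∧ lam (s • Ω) = lam Ω / s ^ 2 ∧ tors (s • Ω) = s ^ 4 * tors Ω ∧
    vol (s • Ω) = s ^ 2 * vol Ω ∧ ∀ q, FF q (s • Ω) = FF q Ω

/-! ### mean value inequalities -/

def KERNEL : Prop := ∃ ψ κ : P → ℝ, Continuous ψ ∧ (∀ x, 0 ≤ ψ x) ∧ (∀ x, 1 ≤ ‖x‖ → ψ x = 0) ∧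
  (∀ x, ‖x‖ ≤ 1 / 2 → 0 < ψ x) ∧ ∫ x, ψ x = 1 ∧ IsTest (closedBall 0 1) κ ∧
  ContDiff ℝ 1 (d1 κ) ∧ ContDiff ℝ 1 (d2 κ) ∧ (∀ x, 0 ≤ κ x) ∧
  ∀ x, d1 (d1 κ) x + d2 (d2 κ) x = ψ x - 4 * ψ ((2 : ℝ) • x)

def MEANV : Prop := ∃ (ψ : P → ℝ) (C : ℝ), 0 < C ∧ Continuous ψ ∧ (∀ x, 0 ≤ ψ x ∧ ψ x ≤ C) ∧
  (∀ x, 1 ≤ ‖x‖ → ψ x = 0) ∧ (∀ x, ‖x‖ ≤ 1 / 2 → 0 < ψ x) ∧ ∫ x, ψ x = 1 ∧
  ∀ (U : Set P) (g g1 g2 F : P → ℝ), H10 univ g g1 g2 → MemLp F 2 volume →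
    (∀ φ, IsTest U φ → (∀ x, 0 ≤ φ x) →
      ∫ x, (g1 x * d1 φ x + g2 x * d2 φ x) ≤ ∫ x, F x * φ x) →
    ∀ r : ℝ, 0 < r → ∀ᵐ x, closedBall x r ⊆ U →
      g x ≤ (∫ y, g y * ((r ^ 2)⁻¹ * ψ (r⁻¹ • (y - x)))) +
        C * r * √(∫ y in closedBall x r, F y ^ 2)

def SUPB : Prop := ∃ C : ℝ, 0 < C ∧ ∀ (Ω : Set P) (y y1 y2 R : P → ℝ), H10 Ω y y1 y2 →
  MemLp R 2 volume → Weak Ω y1 y2 R → ∀ r c : ℝ, 0 < r → ∀ᵐ x,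
    |y x| ≤ c + C * (r⁻¹ * √(∫ z in closedBall x r, (|y z| - c) ^ 2) +
      r * √(∫ z in closedBall x r, R z ^ 2))

def DICH : Prop := ∀ (Ω : Set P) (v v1 v2 R : P → ℝ), IsOpen Ω → H10 Ω v v1 v2 →
  (∀ᵐ x, 0 ≤ v x) → MemLp R 2 volume → (∀ᵐ x, 0 ≤ R x) → Weak Ω v1 v2 R →
  ∀ x ∈ Ω, ∃ r, 0 < r ∧ ball x r ⊆ Ω ∧
    ((∀ᵐ y, y ∈ ball x r → 0 < v y) ∨ (∀ᵐ y, y ∈ ball x r → v y = 0))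

def NONDEG : Prop := ∃ c : ℝ, 0 < c ∧ ∀ (u u1 u2 : P → ℝ) (x0 : P) (r : ℝ), H10 univ u u1 u2 →
  0 < r → Weak (ball x0 r) u1 u2 u → (∀ᵐ x, x ∈ ball x0 r → 1 / 2 ≤ u x) →
  c * r ^ 3 ≤ √(∫ x in ball x0 r, (1 - u x) ^ 2)

/-! ### relaxation -/

/-- explicit perforation potentials -/
def PERF : Prop := ∀ (b : P → ℝ) (L R : ℝ), Measurable b → (∀ x, 0 ≤ b x ∧ b x ≤ L) →
  (∀ x, R ≤ ‖x‖ → b x = 0) → ∃ (p bn : ℕ → P → ℝ) (C R' : ℝ),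
  (∀ n, ContDiff ℝ 1 (p n) ∧ ContDiff ℝ 1 (d1 (p n)) ∧ ContDiff ℝ 1 (d2 (p n)) ∧
    Continuous (bn n) ∧ (∀ x, p n x ≤ 1) ∧ (∀ x, R' ≤ ‖x‖ → p n x = 1 ∧ bn n x = 0) ∧
    (∀ x, 0 ≤ bn n x ∧ bn n x ≤ C) ∧
    (∀ x, 0 < p n x → d1 (d1 (p n)) x + d2 (d2 (p n)) x = - bn n x)) ∧
  Tendsto (fun n => ∫ x, (1 - p n x)) atTop (𝓝 0) ∧
  Tendsto (fun n => ∫ x, (|d1 (p n) x| + |d2 (p n) x|)) atTop (𝓝 0) ∧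
  ∀ G : P → ℝ, Continuous G → HasCompactSupport G →
    Tendsto (fun n => ∫ x, bn n x * G x) atTop (𝓝 (∫ x, b x * G x))

/-- output of `PERF`, named -/
def PerfData (b : P → ℝ) (p bn : ℕ → P → ℝ) (C R' : ℝ) : Prop :=
  (∀ n, ContDiff ℝ 1 (p n) ∧ ContDiff ℝ 1 (d1 (p n)) ∧ ContDiff ℝ 1 (d2 (p n)) ∧
    Continuous (bn n) ∧ (∀ x, p n x ≤ 1) ∧ (∀ x, R' ≤ ‖x‖ → p n x = 1 ∧ bn n x = 0) ∧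
    (∀ x, 0 ≤ bn n x ∧ bn n x ≤ C) ∧
    (∀ x, 0 < p n x → d1 (d1 (p n)) x + d2 (d2 (p n)) x = - bn n x)) ∧
  Tendsto (fun n => ∫ x, (1 - p n x)) atTop (𝓝 0) ∧
  Tendsto (fun n => ∫ x, (|d1 (p n) x| + |d2 (p n) x|)) atTop (𝓝 0) ∧
  ∀ G : P → ℝ, Continuous G → HasCompactSupport G →
    Tendsto (fun n => ∫ x, bn n x * G x) atTop (𝓝 (∫ x, b x * G x))

/-- torsion side of the relaxation -/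
def RELT : Prop := ∀ (Ω : Set P) (b : P → ℝ) (p bn : ℕ → P → ℝ) (C R' : ℝ),
  PerfData b p bn C R' → ∀ φ, IsTest Ω φ → ∀ ε : ℝ, 0 < ε → ∀ᶠ n in atTop,
  ∃ ψ, IsTest (Ω ∩ {x | 0 < p n x}) ψ ∧
    JJ b φ (d1 φ) (d2 φ) - ε ≤ JJ (fun _ => 0) ψ (d1 ψ) (d2 ψ)

/-- eigenvalue side of the relaxation -/
def RELL : Prop := ∀ (Ω : Set P) (b : P → ℝ) (L c : ℝ) (p bn : ℕ → P → ℝ) (C R' : ℝ),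
  IsOpen Ω → volume Ω < ⊤ → Measurable b → (∀ x, 0 ≤ b x ∧ b x ≤ L) →
  PerfData b p bn C R' → LamGe Ω b c → ∀ ε : ℝ, 0 < ε → ∀ᶠ n in atTop,
  LamGe (Ω ∩ {x | 0 < p n x}) (fun _ => 0) (c - ε)

/-- relaxation for integrable potentials -/
def RELAX : Prop := ∀ (Ω : Set P) (μ : P → ℝ) (R c : ℝ), IsOpen Ω → volume Ω < ⊤ →
  Integrable μ → (∀ᵐ x, 0 ≤ μ x) → (∀ᵐ x, R ≤ ‖x‖ → μ x = 0) →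
  (∀ f f1 f2, BH Ω f f1 f2 →
    c * ∫ x, f x ^ 2 ≤ (∫ x, (f1 x ^ 2 + f2 x ^ 2)) + ∫ x, μ x * f x ^ 2) →
  ∀ v v1 v2, BH Ω v v1 v2 → ∀ ε : ℝ, 0 < ε → ∃ Ω', Ω' ⊆ Ω ∧ IsOpen Ω' ∧
    LamGe Ω' (fun _ => 0) (c - ε) ∧
    ∃ ψ, IsTest Ω' ψ ∧ JJ μ v v1 v2 - ε ≤ JJ (fun _ => 0) ψ (d1 ψ) (d2 ψ)

/-- a maximiser also beats all relaxed competitors -/
def OPTR : Prop := ∀ (q : ℝ) (Ω Ω1 : Set P) (μ : P → ℝ) (R c t : ℝ), 1 ≤ q → Opt q Ω →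
  IsOpen Ω1 → volume Ω1 < ⊤ →
  Integrable μ → (∀ᵐ x, 0 ≤ μ x) → (∀ᵐ x, R ≤ ‖x‖ → μ x = 0) → 0 < c → 0 < t →
  (∀ f f1 f2, BH Ω1 f f1 f2 →
    c * ∫ x, f x ^ 2 ≤ (∫ x, (f1 x ^ 2 + f2 x ^ 2)) + ∫ x, μ x * f x ^ 2) →
  ∀ v v1 v2, BH Ω1 v v1 v2 → t ≤ JJ μ v v1 v2 →
  c * t ^ q / vol Ω1 ^ ((2 * q + 2 * q - 2) / 2) ≤ FF q Ω

/-! ### consequences of optimality -/

def POS : Prop := ∀ (q : ℝ) (Ω : Set P) (v v1 v2 : P → ℝ), 1 < q → Opt q Ω → H10 Ω v v1 v2 →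
  (∀ᵐ x, 0 ≤ v x) → Weak Ω v1 v2 (fun x => lam Ω * v x) → 0 < ∫ x, v x ^ 2 →
  ∀ᵐ x, x ∈ Ω → 0 < v x

def SIMPLE : Prop := ∀ (q : ℝ) (Ω : Set P) (u u1 u2 f f1 f2 : P → ℝ), 1 < q → Opt q Ω →
  H10 Ω u u1 u2 → (∀ᵐ x, 0 ≤ u x) → ∫ x, u x ^ 2 = 1 → ∫ x, (u1 x ^ 2 + u2 x ^ 2) = lam Ω →
  H10 Ω f f1 f2 → ∫ x, f x ^ 2 = 1 → ∫ x, (f1 x ^ 2 + f2 x ^ 2) ≤ lam Ω →
  ∀ᵐ x, f x ^ 2 = u x ^ 2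

/-- first order optimality condition with respect to added potentials -/
def FIRSTB : Prop := ∀ (q : ℝ) (Ω : Set P) (u u1 u2 w w1 w2 b : P → ℝ) (R : ℝ), 1 < q →
  Opt q Ω → lam Ω = 1 →
  H10 Ω u u1 u2 → (∀ᵐ x, 0 ≤ u x) → ∫ x, u x ^ 2 = 1 → ∫ x, (u1 x ^ 2 + u2 x ^ 2) = 1 →
  BH Ω w w1 w2 → JJ (fun _ => 0) w w1 w2 = tors Ω →
  Measurable b → (∀ x, 0 ≤ b x ∧ b x ≤ 1) → (∀ x, R ≤ ‖x‖ → b x = 0) →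
  ∫ x, b x * u x ^ 2 ≤ q / tors Ω * ∫ x, b x * w x ^ 2

/-- the normalised eigenfunction and the torsion function of a maximiser with `λ = 1` -/
structure Data (q : ℝ) (Ω : Set P) (u u1 u2 w w1 w2 : P → ℝ) : Prop where
  hu : BH Ω u u1 u2
  hw : BH Ω w w1 w2
  unn : ∀ᵐ x, 0 ≤ u x
  upos : ∀ᵐ x, x ∈ Ω → 0 < u x
  wu : Weak Ω u1 u2 u
  ww : Weak Ω w1 w2 (Ω.indicator fun _ => 1)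
  wint : ∫ x, w x = tors Ω
  wen : ∫ x, (w1 x ^ 2 + w2 x ^ 2) = tors Ω
  uen : ∫ x, (u1 x ^ 2 + u2 x ^ 2) ≤ vol Ω
  close : (∫ x in Ω, (1 - u x) ^ 2) + ∫ x, (w x - u x) ^ 2 ≤
    26 * (vol Ω - tors Ω) + 6 * (q - 1) * vol Ω

def FIRST : Prop := ∀ (q : ℝ) (Ω : Set P), 1 < q → Opt q Ω → lam Ω = 1 →
  ∃ u u1 u2 w w1 w2, Data q Ω u u1 u2 w w1 w2

def NEAR : Prop := ∀ η : ℝ, 0 < η → ∃ q : ℝ, 1 < q ∧ q ≤ 2 ∧ q - 1 ≤ η ∧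
  ∀ Ω, Opt q Ω → lam Ω = 1 → vol Ω - tors Ω ≤ η * vol Ω

/-! ### squares -/

def POINC : Prop := ∃ C : ℝ, 0 < C ∧
  (∀ (φ : P → ℝ) (x0 : P) (r : ℝ), ContDiff ℝ 1 φ → 0 < r → ∃ c : ℝ,
    ∫ x in ball x0 r, (φ x - c) ^ 2 ≤
      C * r ^ 2 * ∫ x in ball x0 r, (d1 φ x ^ 2 + d2 φ x ^ 2)) ∧
  (∀ (u u1 u2 : P → ℝ) (x0 : P) (r : ℝ), H10 univ u u1 u2 → 0 < r → ∃ c : ℝ,
    ∫ x in ball x0 r, (u x - c) ^ 2 ≤ C * r ^ 2 * ∫ x in ball x0 r, (u1 x ^ 2 + u2 x ^ 2))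

def GOOD : Prop := ∃ C : ℝ, 0 < C ∧ ∀ (Ω : Set P) (u u1 u2 w : P → ℝ) (ρ : ℝ),
  MeasurableSet Ω → 0 < volume Ω → volume Ω < ⊤ → H10 univ u u1 u2 → MemLp w 2 volume →
  0 < ρ → ρ ≤ 1 → ∫ x, (u1 x ^ 2 + u2 x ^ 2) ≤ vol Ω →
  (∫ x in Ω, (1 - u x) ^ 2) + ∫ x, (w x - u x) ^ 2 ≤ ρ ^ 6 * vol Ω →
  ∃ x0 : P, ∫ x in ball x0 ρ, (u1 x ^ 2 + u2 x ^ 2) ≤ C * ρ ^ 2 ∧
    ∫ x in ball x0 ρ ∩ Ω, (1 - u x) ^ 2 ≤ C * ρ ^ 8 ∧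
    ∫ x in ball x0 ρ, (w x - u x) ^ 2 ≤ C * ρ ^ 8 ∧
    ∫ x in ball x0 ρ, (1 - u x) ^ 2 ≤ C * ρ ^ 4

/-- Courant-Lebesgue lemma on boundaries of squares -/
def CL : Prop := ∃ C : ℝ, 0 < C ∧ ∀ (φ : ℕ → P → ℝ) (u u1 u2 : P → ℝ) (x0 : P) (ρ A B : ℝ),
  Approx φ u u1 u2 → 0 < ρ → ∫ x in ball x0 ρ, (u1 x ^ 2 + u2 x ^ 2) < A →
  ∫ x in ball x0 ρ, (1 - u x) ^ 2 < B →
  ∃ r ∈ Icc (ρ / 4) (ρ / 2), ∃ σ : ℕ → ℕ, StrictMono σ ∧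
    ∀ n, ∀ x ∈ sphere x0 r, |φ (σ n) x - 1| ≤ C * (√A + √B / ρ)

/-- the convex filling profile -/
structure HF (τ0 τ : ℝ) (H H1 H2 : ℝ → ℝ) : Prop where
  d0 : ∀ s, HasDerivAt H (H1 s) s
  d1 : ∀ s, HasDerivAt H1 (H2 s) s
  c2 : Continuous H2
  nn2 : ∀ s, 0 ≤ H2 s
  b1 : ∀ s, 0 ≤ H1 s ∧ H1 s ≤ 1
  low : ∀ s, s ≤ τ0 → H s = H 0 ∧ H1 s = 0 ∧ H2 s = 0
  high : ∀ s, τ ≤ s → H s = s ∧ H1 s = 1 ∧ H2 s = 0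
  gt : ∀ s, s < τ → s < H s
  le : ∀ s, s ≤ τ → H s ≤ τ
  ge0 : ∀ s, H 0 ≤ H s
  tang : ∀ s, 0 ≤ s → 0 ≤ H s - s * H1 s ∧ H s - s * H1 s ≤ H 0

def HFUN : Prop := ∀ τ0 τ : ℝ, 0 < τ0 → τ0 < τ → ∃ H H1 H2, HF τ0 τ H H1 H2

def TRACE : Prop := ∀ (Ω U : Set P) (u u1 u2 : P → ℝ) (τ0 τ M s1 : ℝ) (H H1 H2 : ℝ → ℝ),
  0 < τ0 → τ0 < τ → HF τ0 τ H H1 H2 → BH Ω u u1 u2 → Weak Ω u1 u2 u → (∀ᵐ x, 0 ≤ u x) →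
  τ ≤ M → (∀ᵐ x, x ∈ U → u x ≤ M) → 0 < s1 → M - H 0 ≤ s1 → ∀ φ, IsTest U φ →
  ∫ x, H2 (u x) * (u1 x ^ 2 + u2 x ^ 2) * φ x ^ 2 ≤
    3 * s1 * (∫ x, (d1 φ x ^ 2 + d2 φ x ^ 2)) + 3 * M * ∫ x, φ x ^ 2

def NEUM : Prop := ∃ C : ℝ, 0 < C ∧ ∀ (β : P → ℝ) (x0 : P) (r a b : ℝ), Integrable β →
  (∀ᵐ x, 0 ≤ β x) → 0 < r → 0 ≤ a → 0 ≤ b →
  (∀ φ, IsTest (ball x0 (3 * r / 2)) φ → ∫ x, β x * φ x ^ 2 ≤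
    a * (∫ x, (d1 φ x ^ 2 + d2 φ x ^ 2)) + b * ∫ x, φ x ^ 2) →
  ∀ φ, IsTest univ φ → ∃ c : ℝ, ∫ x in ball x0 r, β x * (φ x - c) ^ 2 ≤
    C * (a + b * r ^ 2) * ∫ x in ball x0 r, (d1 φ x ^ 2 + d2 φ x ^ 2)

def YLEM : Prop := ∀ (Q : Set P) (σ : P → ℝ) (N : ℝ), MeasurableSet Q → Integrable σ → 0 ≤ N →
  (∀ φ, IsTest univ φ →
    (∫ x, σ x * φ x) ^ 2 ≤ N * ∫ x in Q, (d1 φ x ^ 2 + d2 φ x ^ 2)) →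
  ∃ Y1 Y2 : P → ℝ, MemLp Y1 2 volume ∧ MemLp Y2 2 volume ∧ (∀ x, x ∉ Q → Y1 x = 0 ∧ Y2 x = 0) ∧
    ∫ x, (Y1 x ^ 2 + Y2 x ^ 2) ≤ N ∧
    ∀ φ, IsTest univ φ → ∫ x, σ x * φ x = ∫ x, (Y1 x * d1 φ x + Y2 x * d2 φ x)

/-! ### the surgery -/

/-- the amount added to `u` in `Q` -/
noncomputable def tg (Q : Set P) (H : ℝ → ℝ) (u : P → ℝ) : P → ℝ :=
  Q.indicator fun x => H (u x) - u x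

/-- the factor multiplying the gradient -/
noncomputable def tG (Q : Set P) (H1 : ℝ → ℝ) (u : P → ℝ) : P → ℝ :=
  fun x => 1 - Q.indicator (fun x => 1 - H1 (u x)) x

/-- the density `Δ ũ + ũ` -/
noncomputable def tb (Q : Set P) (H H1 H2 : ℝ → ℝ) (u u1 u2 : P → ℝ) : P → ℝ :=
  Q.indicator fun x => H2 (u x) * (u1 x ^ 2 + u2 x ^ 2) + (H (u x) - u x * H1 (u x))

def TILDE : Prop := ∀ (Ω : Set P) (φ : ℕ → P → ℝ) (u u1 u2 : P → ℝ) (τ0 τ : ℝ)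
  (H H1 H2 : ℝ → ℝ) (x0 : P) (r : ℝ), 0 < τ0 → τ0 < τ → HF τ0 τ H H1 H2 → 0 < r →
  Approx φ u u1 u2 → (∀ n, tsupport (φ n) ⊆ Ω) → (∀ n, ∀ x ∈ sphere x0 r, τ < φ n x) →
  Weak Ω u1 u2 u →
  BH (ball x0 r) (tg (ball x0 r) H u) (fun x => (tG (ball x0 r) H1 u x - 1) * u1 x)
    (fun x => (tG (ball x0 r) H1 u x - 1) * u2 x) ∧
  BH (Ω ∪ ball x0 r) (fun x => u x + tg (ball x0 r) H u x)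
    (fun x => tG (ball x0 r) H1 u x * u1 x) (fun x => tG (ball x0 r) H1 u x * u2 x) ∧
  Integrable (tb (ball x0 r) H H1 H2 u u1 u2) ∧
  ∀ ψ ψ1 ψ2, BH (Ω ∪ ball x0 r) ψ ψ1 ψ2 →
    ∫ x, (tG (ball x0 r) H1 u x * u1 x * ψ1 x + tG (ball x0 r) H1 u x * u2 x * ψ2 x) =
      ∫ x, (u x + tg (ball x0 r) H u x - tb (ball x0 r) H H1 H2 u u1 u2 x) * ψ x

/-- the new potential -/
noncomputable def tmu (Q : Set P) (z β σ Y1 Y2 : P → ℝ) : P → ℝ :=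
  Q.indicator fun x => (β x * z x - σ x) / z x ^ 2 + (Y1 x ^ 2 + Y2 x ^ 2) / z x ^ 4

/-- Barta certificate with a divergence field -/
def CERT : Prop := ∀ (Ω Q : Set P) (z z1 z2 β σ Y1 Y2 : P → ℝ) (h0 : ℝ), MeasurableSet Ω →
  MeasurableSet Q → BH Ω z z1 z2 → (∀ᵐ x, 0 ≤ z x) → (∀ᵐ x, x ∈ Ω → 0 < z x) → 0 < h0 →
  (∀ᵐ x, x ∈ Q → h0 ≤ z x) → Integrable β → (∀ᵐ x, 0 ≤ β x) → (∀ x, x ∉ Q → β x = 0) →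
  Integrable σ → (∀ x, x ∉ Q → σ x = 0) → MemLp Y1 2 volume → MemLp Y2 2 volume →
  (∀ x, x ∉ Q → Y1 x = 0 ∧ Y2 x = 0) →
  (∀ φ, IsTest univ φ → ∫ x, σ x * φ x = ∫ x, (Y1 x * d1 φ x + Y2 x * d2 φ x)) →
  (∀ ψ ψ1 ψ2, BH Ω ψ ψ1 ψ2 →
    ∫ x, (z1 x * ψ1 x + z2 x * ψ2 x) = ∫ x, (z x - β x) * ψ x) →
  Integrable (tmu Q z β σ Y1 Y2) ∧ ∀ f f1 f2, BH Ω f f1 f2 →
    1 * ∫ x, f x ^ 2 ≤ (∫ x, (f1 x ^ 2 + f2 x ^ 2)) + ∫ x, tmu Q z β σ Y1 Y2 x * f x ^ 2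

def SURG : Prop := ∃ ρ : ℝ, 0 < ρ ∧ ∀ (q : ℝ) (Ω : Set P) (u u1 u2 w w1 w2 : P → ℝ),
  1 < q → q ≤ 2 → Opt q Ω → lam Ω = 1 → Data q Ω u u1 u2 w w1 w2 →
  26 * (vol Ω - tors Ω) + 6 * (q - 1) * vol Ω ≤ ρ ^ 6 * vol Ω → False

def MAIN : Prop := ∃ q : ℝ, 1 < q ∧ ∀ Ω, ¬ Opt q Ω

def NCLOSED : Prop := ¬ IsClosed {z : ℝ × ℝ | ∃ Ω : Set P, IsOpen Ω ∧ 0 < volume Ω ∧
  volume Ω ≤ 1 ∧ z = (lam Ω, (lam Ω * tors Ω)⁻¹)}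

end Pool.Agent.H92Z.Fq
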