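import Pool.Agent.H92Z.Fq.Stm

open MeasureTheory Set Filter Metric
open scoped Topology

namespace Pool.Agent.H92Z.Fq

theorem supb_ker_zero {ψ : P → ℝ} (h0 : ∀ x, 1 ≤ ‖x‖ → ψ x = 0) {r : ℝ} (hr : 0 < r) (x z : P)
    (hz : z ∉ closedBall x r) : (r ^ 2)⁻¹ * ψ (r⁻¹ • (z - x)) = 0 := by
  rw [h0, mul_zero]
  rw [mem_closedBall, dist_eq_norm, not_le] at hz
  rw [norm_smul, norm_inv, Real.norm_eq_abs, abs_of_pos hr, ← div_eq_inv_mul, le_div_iff₀ hr]
  linarith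

theorem supb_ker_memLp {ψ : P → ℝ} (hc : Continuous ψ) (h0 : ∀ x, 1 ≤ ‖x‖ → ψ x = 0) {r : ℝ}
    (hr : 0 < r) (x : P) :
    Continuous (fun z : P => (r ^ 2)⁻¹ * ψ (r⁻¹ • (z - x))) ∧
      HasCompactSupport (fun z : P => (r ^ 2)⁻¹ * ψ (r⁻¹ • (z - x))) :=
  ⟨by fun_prop, HasCompactSupport.intro (isCompact_closedBall x r) (supb_ker_zero h0 hr x)⟩

theorem supb_ker_int {ψ : P → ℝ} (h1 : ∫ x, ψ x = 1) {r : ℝ} (hr : 0 < r) (x : P) :
    ∫ z : P, (r ^ 2)⁻¹ * ψ (r⁻¹ • (z - x)) = 1 := by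
  rw [integral_const_mul, integral_sub_right_eq_self (fun z : P => ψ (r⁻¹ • z)) x,
    Measure.integral_comp_inv_smul_of_nonneg volume ψ hr.le, h1]
  simp only [Module.finrank_prod, Module.finrank_self, smul_eq_mul, mul_one]
  field_simp

theorem supb_j {e : ℝ} (he : 0 < e) : ∃ j j1 j2 : ℝ → ℝ, (∀ s, HasDerivAt j (j1 s) s) ∧
    (∀ s, HasDerivAt j1 (j2 s) s) ∧ Continuous j1 ∧ Continuous j2 ∧ j 0 = 0 ∧ j1 0 = 0 ∧
    (∀ s, |j1 s| ≤ 1) ∧ (∀ s, 0 ≤ j2 s) ∧ (∀ s, |j2 s| ≤ 1 / e) ∧ (∀ s, j s ≤ |s|) ∧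
    ∀ s, |s| - e ≤ j s := by
  have hp : ∀ s : ℝ, 0 < s ^ 2 + e ^ 2 := fun s => by positivity
  have hq : ∀ s : ℝ, 0 < √(s ^ 2 + e ^ 2) := fun s => Real.sqrt_pos.2 (hp s)
  have hsq : ∀ s : ℝ, √(s ^ 2 + e ^ 2) ^ 2 = s ^ 2 + e ^ 2 := fun s => Real.sq_sqrt (hp s).le
  have hd : ∀ s : ℝ, HasDerivAt (fun s : ℝ => √(s ^ 2 + e ^ 2)) (s / √(s ^ 2 + e ^ 2)) s := by
    intro s
    have h1 : HasDerivAt (fun s : ℝ => s ^ 2 + e ^ 2) (2 * s) s := by
      simpa using (hasDerivAt_pow 2 s).add_const (e ^ 2)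
    convert h1.sqrt (hp s).ne' using 1
    field_simp
  have hs : ∀ s : ℝ, |s| ≤ √(s ^ 2 + e ^ 2) := fun s => Real.abs_le_sqrt (by nlinarith)
  have he2 : ∀ s : ℝ, e ≤ √(s ^ 2 + e ^ 2) := fun s => Real.le_sqrt_of_sq_le (by nlinarith)
  have hc : Continuous fun s : ℝ => √(s ^ 2 + e ^ 2) := by fun_prop
  refine ⟨fun s => √(s ^ 2 + e ^ 2) - e, fun s => s / √(s ^ 2 + e ^ 2),
    fun s => e ^ 2 / √(s ^ 2 + e ^ 2) ^ 3, fun s => (hd s).sub_const e, fun s => ?_,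
    continuous_id.div hc fun s => (hq s).ne', continuous_const.div (hc.pow 3)
      fun s => (pow_pos (hq s) 3).ne', by simp [Real.sqrt_sq he.le], by simp, fun s => ?_,
    fun s => by have := hq s; positivity, fun s => ?_, fun s => ?_, fun s => by linarith [hs s]⟩
  · have h3 := (hasDerivAt_id' s).fun_div (hd s) (hq s).ne'
    refine h3.congr_deriv ?_
    have h1 := hq s
    have h2 := hsq s
    beta_reduce
    generalize √(s ^ 2 + e ^ 2) = q at h1 h2 ⊢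
    field_simp
    nlinarith
  · rw [abs_div, abs_of_pos (hq s), div_le_one (hq s)]
    exact hs s
  · have h1 := hq s
    rw [abs_of_nonneg (by positivity), div_le_div_iff₀ (by positivity) he]
    calc e ^ 2 * e = e ^ 3 := by ring
      _ ≤ √(s ^ 2 + e ^ 2) ^ 3 := pow_le_pow_left₀ he.le (he2 s) 3
      _ = 1 * √(s ^ 2 + e ^ 2) ^ 3 := by ring
  · have : √(s ^ 2 + e ^ 2) ≤ |s| + e := by
      rw [Real.sqrt_le_left (by positivity)]
      nlinarith [sq_abs s, abs_nonneg s]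
    linarith

theorem supb_avg {ψ : P → ℝ} {C : ℝ} (hC : 0 < C) (hc : Continuous ψ)
    (hb : ∀ x, 0 ≤ ψ x ∧ ψ x ≤ C) (h0 : ∀ x, 1 ≤ ‖x‖ → ψ x = 0) (h1 : ∫ x, ψ x = 1)
    {f : P → ℝ} (hf : MemLp f 2 volume) {r : ℝ} (hr : 0 < r) (c : ℝ) (x : P) :
    ∫ z, f z * ((r ^ 2)⁻¹ * ψ (r⁻¹ • (z - x))) ≤
      c + 2 * C * (r⁻¹ * √(∫ z in closedBall x r, (f z - c) ^ 2)) := by
  obtain ⟨k1, k2⟩ := supb_ker_memLp hc h0 hr x
  have k3 := supb_ker_int h1 hr x
  have k4 := supb_ker_zero h0 hr x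
  have k5 : ∀ z : P, 0 ≤ (r ^ 2)⁻¹ * ψ (r⁻¹ • (z - x)) ∧
      (r ^ 2)⁻¹ * ψ (r⁻¹ • (z - x)) ≤ (r ^ 2)⁻¹ * C := fun z =>
    ⟨mul_nonneg (by positivity) (hb _).1, mul_le_mul_of_nonneg_left (hb _).2 (by positivity)⟩
  set k : P → ℝ := fun z : P => (r ^ 2)⁻¹ * ψ (r⁻¹ • (z - x)) with hk
  have km : MemLp k 2 volume := k1.memLp_of_hasCompactSupport k2
  have ki : Integrable k := k1.integrable_of_hasCompactSupport k2
  have : IsFiniteMeasure (volume.restrict (closedBall x r) : Measure P) :=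
    ⟨by simpa using measure_closedBall_lt_top⟩
  have e1 : ∫ z, f z * k z = c + ∫ z, (f z - c) * k z := by
    simp only [sub_mul]
    rw [integral_sub (int_mul hf km) (ki.const_mul c), integral_const_mul, k3]
    ring
  have e2 : ∫ z, (f z - c) * k z = ∫ z in closedBall x r, (f z - c) * k z := by
    refine (setIntegral_eq_integral_of_forall_compl_eq_zero fun z hz => ?_).symm
    rw [show k z = 0 from k4 z hz, mul_zero]
  have e3 := cs_abs (μ := volume.restrict (closedBall x r)) (f := fun z => f z - c) (g := k)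
    ((hf.restrict _).sub (memLp_const c)) (km.restrict _)
  have e4 : √(∫ z in closedBall x r, k z ^ 2) ≤ 2 * C * r⁻¹ := by
    rw [Real.sqrt_le_left (by positivity)]
    calc ∫ z in closedBall x r, k z ^ 2 ≤ ∫ _z in closedBall x r, ((r ^ 2)⁻¹ * C) ^ 2 :=
          integral_mono (int_sq (km.restrict _)) (integrable_const _)
            fun z => pow_le_pow_left₀ (k5 z).1 (k5 z).2 2
      _ = (2 * C * r⁻¹) ^ 2 := by
          rw [setIntegral_const, Measure.real, volume_closedBall_P x hr.le, smul_eq_mul]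
          field_simp
          ring
  change ∫ z, f z * k z ≤ _
  rw [e1, e2]
  have e5 := mul_le_mul_of_nonneg_left e4 (Real.sqrt_nonneg (∫ z in closedBall x r, (f z - c) ^ 2))
  have e6 := le_abs_self (∫ z in closedBall x r, (f z - c) * k z)
  nlinarith

theorem supb (A : API) (hM : MEANV) : SUPB := by
  obtain ⟨ψ, C, hC, hc, hb, h0, -, h1, hM⟩ := hM
  refine ⟨2 * C, by positivity, fun Ω y y1 y2 R hy hR hw r c hr => ?_⟩
  have key : ∀ e : ℝ, 0 < e → ∀ᵐ x, |y x| - e ≤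
      c + 2 * C * (r⁻¹ * √(∫ z in closedBall x r, (|y z| - c) ^ 2) +
        r * √(∫ z in closedBall x r, R z ^ 2)) := by
    intro e he
    obtain ⟨j, j1, j2, a1, a2, a3, a4, a5, a6, a7, a8, a9, a10, a11⟩ := supb_j he
    have hg := A.h_comp hy a1 a3 a7 a5
    have hg1 := A.h_bh (L := 1) (A.h_comp hy a2 a4 a9 a6) (Eventually.of_forall fun x => a7 _)
    have hineq : ∀ φ, IsTest univ φ → (∀ x, 0 ≤ φ x) →
        ∫ x, (j1 (y x) * y1 x * d1 φ x + j1 (y x) * y2 x * d2 φ x) ≤ ∫ x, |R x| * φ x := by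
      intro φ hφ hφ0
      have ht := A.b_h (A.b_mul hg1 (A.b_test hφ))
      have hw2 := A.h_weak hw hy.m1 hy.m2 hR ht
      refine le_trans (integral_mono (int_dot hg.m1 hg.m2 hφ.memLp_d1 hφ.memLp_d2)
        (int_dot hy.m1 hy.m2 ht.m1 ht.m2) fun x => ?_) (hw2.le.trans
        (integral_mono (int_mul hR ht.m0) (int_mul hR.abs hφ.memLp) fun x => ?_))
      · have b1 := mul_nonneg (mul_nonneg (a8 (y x)) (hφ0 x)) (sq_nonneg (y1 x))
        have b2 := mul_nonneg (mul_nonneg (a8 (y x)) (hφ0 x)) (sq_nonneg (y2 x))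
        simp only
        nlinarith
      · simp only
        rw [← mul_assoc]
        refine mul_le_mul_of_nonneg_right ((le_abs_self _).trans ?_) (hφ0 x)
        rw [abs_mul]
        exact mul_le_of_le_one_right (abs_nonneg _) (a7 _)
    filter_upwards [hM univ _ _ _ (fun x => |R x|) (A.h_mono hg (subset_univ _)) hR.abs hineq r hr]
      with x hx
    have b1 := hx (subset_univ _)
    simp only [sq_abs] at b1
    have b2 := supb_avg hC hc hb h0 h1 (f := fun z => |y z|) hy.m0.abs hr c x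
    obtain ⟨k1, k2⟩ := supb_ker_memLp hc h0 hr x
    have km := k1.memLp_of_hasCompactSupport (μ := (volume : Measure P)) (p := 2) k2
    have b3 : ∫ z, j (y z) * ((r ^ 2)⁻¹ * ψ (r⁻¹ • (z - x))) ≤
        ∫ z, |y z| * ((r ^ 2)⁻¹ * ψ (r⁻¹ • (z - x))) :=
      integral_mono (int_mul hg.m0 km) (int_mul hy.m0.abs km) fun z =>
        mul_le_mul_of_nonneg_right (a10 _) (mul_nonneg (by positivity) (hb _).1)
    have b4 : 0 ≤ C * r * √(∫ z in closedBall x r, R z ^ 2) := by positivity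
    have b5 := a11 (y x)
    nlinarith
  have key2 := ae_all_iff.2 fun n : ℕ => key (1 / (n + 1)) (by positivity)
  filter_upwards [key2] with x hx
  refine le_of_forall_pos_le_add fun ε hε => ?_
  obtain ⟨n, hn⟩ := exists_nat_one_div_lt hε
  linarith [hx n]

theorem dich (A : API) (hM : MEANV) : DICH := by
  obtain ⟨ψ, C, hC, hc, hb, h0, hp, h1, hM⟩ := hM
  intro Ω v v1 v2 R hΩ hv hv0 hR hR0 hw x hx
  obtain ⟨ρ, hρ, hball⟩ := Metric.isOpen_iff.1 hΩ x hx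
  refine ⟨ρ / 8, by positivity, (ball_subset_ball (by linarith)).trans hball, ?_⟩
  rw [or_iff_not_imp_right]
  intro hne
  have hs : 0 < ρ / 2 := by positivity
  have hg := A.h_mono (A.h_smul (-1) hv) (subset_univ _)
  have hineq : ∀ φ, IsTest Ω φ → (∀ x, 0 ≤ φ x) →
      ∫ x, (-1 * v1 x * d1 φ x + -1 * v2 x * d2 φ x) ≤ ∫ x, (fun _ : P => (0 : ℝ)) x * φ x := by
    intro φ hφ hφ0
    have e : (fun x => -1 * v1 x * d1 φ x + -1 * v2 x * d2 φ x) =
        fun x => -(v1 x * d1 φ x + v2 x * d2 φ x) := by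
      funext x
      ring
    rw [e, integral_neg, hw φ hφ]
    simp only [zero_mul, integral_zero, neg_nonpos]
    refine integral_nonneg_of_ae ?_
    filter_upwards [hR0] with x hx using mul_nonneg hx (hφ0 x)
  filter_upwards [hM Ω _ _ _ (fun _ => 0) hg MemLp.zero' hineq _ hs] with x' hx' hx2
  have b1 := hx' (by
    refine Subset.trans (fun z hz => ?_) hball
    rw [mem_closedBall] at hz
    rw [mem_ball] at hx2 ⊢
    linarith [dist_triangle z x' x])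
  obtain ⟨k1, k2⟩ := supb_ker_memLp hc h0 hs x'
  have km := k1.memLp_of_hasCompactSupport (μ := (volume : Measure P)) (p := 2) k2
  have e : (fun z => -1 * v z * (((ρ / 2) ^ 2)⁻¹ * ψ ((ρ / 2)⁻¹ • (z - x')))) =
      fun z => -(v z * (((ρ / 2) ^ 2)⁻¹ * ψ ((ρ / 2)⁻¹ • (z - x')))) := by
    funext z
    ring
  rw [e, integral_neg] at b1
  simp only [ne_eq, OfNat.ofNat_ne_zero, not_false_eq_true, zero_pow, integral_zero,
    Real.sqrt_zero, mul_zero, add_zero] at b1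
  have hnn : 0 ≤ᵐ[volume] fun z => v z * (((ρ / 2) ^ 2)⁻¹ * ψ ((ρ / 2)⁻¹ • (z - x'))) := by
    filter_upwards [hv0] with z hz using mul_nonneg hz (mul_nonneg (by positivity) (hb _).1)
  by_contra hle
  have b2 : ∫ z, v z * (((ρ / 2) ^ 2)⁻¹ * ψ ((ρ / 2)⁻¹ • (z - x'))) = 0 :=
    le_antisymm (by linarith [not_lt.1 hle]) (integral_nonneg_of_ae hnn)
  rw [integral_eq_zero_iff_of_nonneg_ae hnn (int_mul hv.m0 km)] at b2
  refine hne ?_
  filter_upwards [b2] with z hz hz2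
  refine (mul_eq_zero.1 hz).resolve_right (mul_pos (by positivity) (hp _ ?_)).ne'
  rw [norm_smul, norm_inv, Real.norm_eq_abs, abs_of_pos hs, ← div_eq_inv_mul, div_le_iff₀ hs,
    ← dist_eq_norm]
  rw [mem_ball] at hz2 hx2
  linarith [dist_triangle_right z x' x]

end Pool.Agent.H92Z.Fq
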