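import Pool.Agent.H92Z.Fq.Stm

open MeasureTheory Set Filter Metric
open scoped Topology Pointwise

namespace Pool.Agent.H92Z.Fq

theorem tors_JJ (v v1 v2 : P → ℝ) :
    JJ (fun _ => 0) v v1 v2 = 2 * (∫ x, v x) - ∫ x, (v1 x ^ 2 + v2 x ^ 2) := by
  simp [JJ]

theorem tors_ind_mem {Ω : Set P} (h : Adm Ω) : MemLp (Ω.indicator fun _ => (1 : ℝ)) 2 volume :=
  memLp_indicator_const 2 h.1.measurableSet 1 (Or.inr h.2.2.ne)

theorem tors_ind_sq {Ω : Set P} (h : Adm Ω) :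
    ∫ x, (Ω.indicator (fun _ => (1 : ℝ)) x) ^ 2 = vol Ω := by
  have : (fun x => (Ω.indicator (fun _ => (1 : ℝ)) x) ^ 2) = Ω.indicator fun _ => (1 : ℝ) := by
    ext x
    by_cases hx : x ∈ Ω <;> simp [hx]
  rw [this, integral_indicator h.1.measurableSet]
  simp [vol, Measure.real]

theorem tors_int_ind (A : API) {Ω : Set P} {u u1 u2 : P → ℝ} (hu : H10 Ω u u1 u2) :
    ∫ x, Ω.indicator (fun _ => (1 : ℝ)) x * u x = ∫ x, u x := by
  apply integral_congr_ae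
  filter_upwards [A.h_zero hu] with x hx
  by_cases h : x ∈ Ω
  · simp [h]
  · simp [h, (hx h).1]

theorem tors_cs (A : API) {Ω : Set P} (h : Adm Ω) {u u1 u2 : P → ℝ} (hu : H10 Ω u u1 u2) :
    (∫ x, u x) ^ 2 ≤ vol Ω * ∫ x, u x ^ 2 := by
  have := cs_sq (tors_ind_mem h) hu.m0
  rwa [tors_int_ind A hu, tors_ind_sq h] at this

theorem tors_key (A : API) (hV : VLAM) {Ω : Set P} (h : Adm Ω) {u u1 u2 : P → ℝ}
    (hu : H10 Ω u u1 u2) : lam Ω * (∫ x, u x) ^ 2 ≤ vol Ω * ∫ x, (u1 x ^ 2 + u2 x ^ 2) := by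
  obtain ⟨h1, h2, -, h4, -⟩ := hV.2 Ω h
  have a1 := mul_le_mul_of_nonneg_left (tors_cs A h hu) h1.le
  have a2 := mul_le_mul_of_nonneg_left (h4 u u1 u2 hu) h2.le
  linarith

theorem tors_bdd (A : API) (hV : VLAM) {Ω : Set P} (h : Adm Ω) :
    BddAbove {t : ℝ | ∃ u u1 u2 : P → ℝ, H10 Ω u u1 u2 ∧
      t = 2 * (∫ x, u x) - ∫ x, (u1 x ^ 2 + u2 x ^ 2)} := by
  obtain ⟨h1, h2, -⟩ := hV.2 Ω h
  refine ⟨vol Ω / lam Ω, ?_⟩
  rintro t ⟨u, u1, u2, hu, rfl⟩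
  have a1 := tors_key A hV h hu
  rw [le_div_iff₀ h1]
  have a2 : vol Ω * ((2 * (∫ x, u x) - ∫ x, (u1 x ^ 2 + u2 x ^ 2)) * lam Ω) ≤ vol Ω * vol Ω := by
    nlinarith [sq_nonneg (vol Ω - lam Ω * ∫ x, u x), mul_le_mul_of_nonneg_left a1 h1.le]
  exact le_of_mul_le_mul_left a2 h2

theorem tors_le (A : API) (hV : VLAM) {Ω : Set P} (h : Adm Ω) {u u1 u2 : P → ℝ}
    (hu : H10 Ω u u1 u2) : 2 * (∫ x, u x) - ∫ x, (u1 x ^ 2 + u2 x ^ 2) ≤ tors Ω :=
  le_csSup (tors_bdd A hV h) ⟨u, u1, u2, hu, rfl⟩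

theorem tors_lim (A : API) {Ω : Set P} (h : Adm Ω) {φ : ℕ → P → ℝ} {u u1 u2 : P → ℝ}
    (hφ : ∀ n, IsTest Ω (φ n)) (l0 : L2Lim φ u) (l1 : L2Lim (fun n => d1 (φ n)) u1)
    (l2 : L2Lim (fun n => d2 (φ n)) u2) :
    Tendsto (fun n => 2 * (∫ x, φ n x) - ∫ x, (d1 (φ n) x ^ 2 + d2 (φ n) x ^ 2)) atTop
      (𝓝 (2 * (∫ x, u x) - ∫ x, (u1 x ^ 2 + u2 x ^ 2))) :=
  ((A.h_int_lim hφ l0 h.1.measurableSet h.2.2).const_mul 2).sub (A.l_sq2 l1 l2)

theorem tors_dense (A : API) {Ω : Set P} (h : Adm Ω) {t : ℝ}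
    (ht : ∀ φ, IsTest Ω φ → 2 * (∫ x, φ x) - ∫ x, (d1 φ x ^ 2 + d2 φ x ^ 2) ≤ t) :
    tors Ω ≤ t := by
  refine csSup_le ⟨_, _, _, _, A.h_test (IsTest.zero Ω), rfl⟩ ?_
  rintro r ⟨u, u1, u2, hu, rfl⟩
  obtain ⟨φ, hφ, l0, l1, l2⟩ := A.h_iff.1 hu
  exact le_of_tendsto' (tors_lim A h hφ l0 l1 l2) fun n => ht _ (hφ n)

theorem tors_expand {a1 a2 b1 b2 : P → ℝ} (ha1 : MemLp a1 2 volume) (ha2 : MemLp a2 2 volume)
    (hb1 : MemLp b1 2 volume) (hb2 : MemLp b2 2 volume) (s t : ℝ) :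
    ∫ x, ((s * a1 x + t * b1 x) ^ 2 + (s * a2 x + t * b2 x) ^ 2) =
      s ^ 2 * (∫ x, (a1 x ^ 2 + a2 x ^ 2)) + 2 * s * t * (∫ x, (a1 x * b1 x + a2 x * b2 x)) +
        t ^ 2 * ∫ x, (b1 x ^ 2 + b2 x ^ 2) := by
  have i1 := (int_sq2 ha1 ha2).const_mul (s ^ 2)
  have i2 := (int_dot ha1 ha2 hb1 hb2).const_mul (2 * s * t)
  have i3 := (int_sq2 hb1 hb2).const_mul (t ^ 2)
  have i4 : Integrable (fun x => s ^ 2 * (a1 x ^ 2 + a2 x ^ 2) +
      2 * s * t * (a1 x * b1 x + a2 x * b2 x)) volume := i1.add i2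
  rw [← integral_const_mul, ← integral_const_mul, ← integral_const_mul, ← integral_add i1 i2,
    ← integral_add i4 i3]
  congr 1
  ext x
  ring

theorem tors_comb (A : API) (hV : VLAM) {Ω : Set P} (h : Adm Ω) {u u1 u2 v v1 v2 : P → ℝ}
    (hu : H10 Ω u u1 u2) (hv : H10 Ω v v1 v2) (s t : ℝ) :
    2 * (s * (∫ x, u x) + t * ∫ x, v x) - (s ^ 2 * (∫ x, (u1 x ^ 2 + u2 x ^ 2)) +
      2 * s * t * (∫ x, (u1 x * v1 x + u2 x * v2 x)) + t ^ 2 * ∫ x, (v1 x ^ 2 + v2 x ^ 2))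
      ≤ tors Ω := by
  have := tors_le A hV h (A.h_add (A.h_smul s hu) (A.h_smul t hv))
  rw [tors_expand hu.m1 hu.m2 hv.m1 hv.m2,
    integral_add ((A.h_int hu h.1.measurableSet h.2.2).const_mul s)
      ((A.h_int hv h.1.measurableSet h.2.2).const_mul t), integral_const_mul,
    integral_const_mul] at this
  exact this

theorem tors_pos (A : API) (hV : VLAM) {Ω : Set P} (h : Adm Ω) : 0 < tors Ω := by
  obtain ⟨-, -, -, -, -, ⟨φ, hφ, hpos⟩, -⟩ := hV.2 Ω h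
  have hψ : IsTest Ω (fun z => φ z * φ z) := hφ.mul_c1 hφ.c1
  have hI : 0 < ∫ x, φ x * φ x := by simpa [sq] using hpos
  have hH := A.h_test hψ
  set E := ∫ x, (d1 (fun z => φ z * φ z) x ^ 2 + d2 (fun z => φ z * φ z) x ^ 2) with hE
  have hE0 : 0 ≤ E := integral_nonneg fun x => by positivity
  have := tors_comb A hV h hH hH ((∫ x, φ x * φ x) / (E + 1)) 0
  rw [← hE] at this
  refine lt_of_lt_of_le ?_ this
  generalize (∫ x, φ x * φ x) = I at hI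
  have e : 2 * (I / (E + 1) * I + 0 * I) - ((I / (E + 1)) ^ 2 * E + 2 * (I / (E + 1)) * 0 *
      (∫ x, (d1 (fun z => φ z * φ z) x * d1 (fun z => φ z * φ z) x +
        d2 (fun z => φ z * φ z) x * d2 (fun z => φ z * φ z) x)) + 0 ^ 2 * E) =
      I ^ 2 * (E + 2) / (E + 1) ^ 2 := by
    field_simp
    ring
  rw [e]
  positivity

theorem tors_norm_sq (h : Lp ℝ 2 (volume : Measure P)) : ‖h‖ ^ 2 = ∫ x, h x ^ 2 := by
  rw [← real_inner_self_eq_norm_sq, L2.inner_def]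
  congr 1
  ext x
  simp [sq]

theorem tors_complete {g : ℕ → P → ℝ} (hg : ∀ n, MemLp (g n) 2 volume) {C : ℝ}
    (hC : ∀ n k : ℕ, ∫ x, (g n x - g k x) ^ 2 ≤ C * (1 / ((n : ℝ) + 1) + 1 / ((k : ℝ) + 1))) :
    ∃ f, L2Lim g f := by
  have hC0 : 0 ≤ C := by
    have := hC 0 0
    simp at this
    linarith
  have hd : ∀ (n : ℕ) (F : Lp ℝ 2 (volume : Measure P)),
      dist ((hg n).toLp (g n)) F ^ 2 = ∫ x, (g n x - F x) ^ 2 := by
    intro n F
    rw [dist_eq_norm, tors_norm_sq]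
    apply integral_congr_ae
    filter_upwards [Lp.coeFn_sub ((hg n).toLp (g n)) F, (hg n).coeFn_toLp] with x h1 h2
    rw [h1, Pi.sub_apply, h2]
  have hd2 : ∀ n k : ℕ, dist ((hg n).toLp (g n)) ((hg k).toLp (g k)) ^ 2 =
      ∫ x, (g n x - g k x) ^ 2 := by
    intro n k
    rw [hd]
    apply integral_congr_ae
    filter_upwards [(hg k).coeFn_toLp] with x h2
    rw [h2]
  have hb : Tendsto (fun N : ℕ => √(C * (1 / ((N : ℝ) + 1) + 1 / ((N : ℝ) + 1)))) atTop (𝓝 0) := by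
    have h1 := (tendsto_one_div_add_atTop_nhds_zero_nat (𝕜 := ℝ))
    have h2 := ((h1.add h1).const_mul C).sqrt
    simpa using h2
  have hcau : CauchySeq fun n => (hg n).toLp (g n) := by
    refine cauchySeq_of_le_tendsto_0 _ (fun n k N hn hk => ?_) hb
    apply Real.le_sqrt_of_sq_le
    rw [hd2]
    refine (hC n k).trans (mul_le_mul_of_nonneg_left ?_ hC0)
    have a1 : (N : ℝ) ≤ n := by exact_mod_cast hn
    have a2 : (N : ℝ) ≤ k := by exact_mod_cast hk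
    gcongr
  obtain ⟨F, hF⟩ := cauchySeq_tendsto_of_complete hcau
  refine ⟨F, hg, Lp.memLp F, ?_⟩
  have h1 := (tendsto_iff_dist_tendsto_zero.1 hF).pow 2
  simp only [hd] at h1
  simpa using h1

theorem tors_exists (A : API) (hV : VLAM) {Ω : Set P} (h : Adm Ω) :
    ∃ w w1 w2, H10 Ω w w1 w2 ∧ 2 * (∫ x, w x) - ∫ x, (w1 x ^ 2 + w2 x ^ 2) = tors Ω := by
  have hex : ∀ n : ℕ, ∃ φ, IsTest Ω φ ∧ tors Ω - 1 / ((n : ℝ) + 1) <
      2 * (∫ x, φ x) - ∫ x, (d1 φ x ^ 2 + d2 φ x ^ 2) := by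
    intro n
    by_contra hcon
    push Not at hcon
    have := tors_dense A h hcon
    have h2 : (0 : ℝ) < 1 / ((n : ℝ) + 1) := by positivity
    linarith
  choose φ hφ hJ using hex
  obtain ⟨h1, -, -, h4, -⟩ := hV.2 Ω h
  have hE : ∀ n k : ℕ, ∫ x, ((d1 (φ n) x - d1 (φ k) x) ^ 2 + (d2 (φ n) x - d2 (φ k) x) ^ 2) ≤
      2 * (1 / ((n : ℝ) + 1) + 1 / ((k : ℝ) + 1)) := by
    intro n k
    have a1 := tors_comb A hV h (A.h_test (hφ n)) (A.h_test (hφ k)) (1 / 2) (1 / 2)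
    have a2 := tors_expand (hφ n).memLp_d1 (hφ n).memLp_d2 (hφ k).memLp_d1 (hφ k).memLp_d2 1 (-1)
    simp only [one_mul, neg_mul, ← sub_eq_add_neg] at a2
    rw [a2]
    linarith [hJ n, hJ k]
  have m1 : ∀ n k : ℕ, MemLp (fun x => d1 (φ n) x - d1 (φ k) x) 2 volume := fun n k =>
    (hφ n).memLp_d1.sub (hφ k).memLp_d1
  have m2 : ∀ n k : ℕ, MemLp (fun x => d2 (φ n) x - d2 (φ k) x) 2 volume := fun n k =>
    (hφ n).memLp_d2.sub (hφ k).memLp_d2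
  obtain ⟨w, l0⟩ := tors_complete (g := φ) (fun n => (hφ n).memLp) (C := 2 / lam Ω)
    (fun n k => by
      have a1 := h4 _ _ _ (A.h_sub (A.h_test (hφ n)) (A.h_test (hφ k)))
      have a2 := a1.trans (hE n k)
      rw [div_mul_eq_mul_div, le_div_iff₀ h1]
      linarith)
  obtain ⟨w1, l1⟩ := tors_complete (g := fun n => d1 (φ n)) (fun n => (hφ n).memLp_d1) (C := 2)
    (fun n k => le_trans (integral_mono (int_sq (m1 n k)) (int_sq2 (m1 n k) (m2 n k))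
      (fun x => by simp only; nlinarith [sq_nonneg (d2 (φ n) x - d2 (φ k) x)])) (hE n k))
  obtain ⟨w2, l2⟩ := tors_complete (g := fun n => d2 (φ n)) (fun n => (hφ n).memLp_d2) (C := 2)
    (fun n k => le_trans (integral_mono (int_sq (m2 n k)) (int_sq2 (m1 n k) (m2 n k))
      (fun x => by simp only; nlinarith [sq_nonneg (d1 (φ n) x - d1 (φ k) x)])) (hE n k))
  have hw : H10 Ω w w1 w2 := A.h_iff.2 ⟨φ, hφ, l0, l1, l2⟩
  refine ⟨w, w1, w2, hw, le_antisymm (tors_le A hV h hw) ?_⟩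
  have t1 : Tendsto (fun n : ℕ => tors Ω - 1 / ((n : ℝ) + 1)) atTop (𝓝 (tors Ω - 0)) :=
    tendsto_const_nhds.sub (tendsto_one_div_add_atTop_nhds_zero_nat (𝕜 := ℝ))
  rw [sub_zero] at t1
  exact le_of_tendsto_of_tendsto' t1 (tors_lim A h hφ l0 l1 l2) fun n => (hJ n).le

theorem vtors (A : API) (hV : VLAM) : VTORS := by
  intro Ω h
  obtain ⟨w, w1, w2, hw, hJ⟩ := tors_exists A hV h
  have hweak : Weak Ω w1 w2 (Ω.indicator fun _ => 1) := by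
    intro φ hφ
    rw [tors_int_ind A (A.h_test hφ)]
    have key := fun t => tors_comb A hV h hw (A.h_test hφ) 1 t
    have hE0 : 0 ≤ ∫ x, (d1 φ x ^ 2 + d2 φ x ^ 2) := integral_nonneg fun x => by positivity
    generalize (∫ x, (d1 φ x ^ 2 + d2 φ x ^ 2)) = E at key hE0
    generalize (∫ x, (w1 x * d1 φ x + w2 x * d2 φ x)) = B at key ⊢
    generalize (∫ x, φ x) = I at key ⊢
    have k1 := key ((I - B) / (E + 1))
    have e : 2 * ((I - B) / (E + 1)) * (I - B) - ((I - B) / (E + 1)) ^ 2 * E =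
        (I - B) ^ 2 * ((E + 2) / (E + 1) ^ 2) := by
      field_simp
      ring
    have k2 : (I - B) ^ 2 * ((E + 2) / (E + 1) ^ 2) ≤ 0 := by
      rw [← e]
      linarith
    have k3 : 0 < (E + 2) / (E + 1) ^ 2 := by positivity
    have k4 : (I - B) ^ 2 ≤ 0 := by
      by_contra hc
      push Not at hc
      have := mul_pos hc k3
      linarith
    have k5 : I - B = 0 := pow_eq_zero_iff two_ne_zero |>.1 (le_antisymm k4 (sq_nonneg _))
    linarith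
  have hE : ∫ x, (w1 x ^ 2 + w2 x ^ 2) = ∫ x, w x := by
    have := A.h_weak hweak hw.m1 hw.m2 (tors_ind_mem h) hw
    rw [tors_int_ind A hw] at this
    rw [← this]
    simp only [sq]
  have hI : ∫ x, w x = tors Ω := by linarith
  have hpos := tors_pos A hV h
  refine ⟨fun u u1 u2 hu => ?_, fun t ht => ?_, hpos, ?_, w, w1, w2, hw, hweak, hI, hE.trans hI⟩
  · rw [tors_JJ]; exact tors_le A hV h hu
  · exact tors_dense A h fun φ hφ => by rw [← tors_JJ]; exact ht φ hφ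
  · have := tors_key A hV h hw
    rw [hE, hI] at this
    have h2 : (lam Ω * tors Ω) * tors Ω ≤ vol Ω * tors Ω := by nlinarith
    exact le_of_mul_le_mul_right h2 hpos

theorem tors_finrank : Module.finrank ℝ P = 2 := by
  simp [P]

theorem tors_int_smul (F : P → ℝ) {s : ℝ} (hs : 0 < s) :
    ∫ x, F (s⁻¹ • x) = s ^ 2 * ∫ x, F x := by
  rw [Measure.integral_comp_smul, tors_finrank, inv_pow, inv_inv, abs_of_pos (by positivity),
    smul_eq_mul]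

theorem tors_memLp_smul {F : P → ℝ} (hF : MemLp F 2 volume) {s : ℝ} (hs : 0 < s) :
    MemLp (fun x => F (s⁻¹ • x)) 2 volume := by
  have h1 : MemLp F 2 (Measure.map (fun x : P => s⁻¹ • x) volume) := by
    rw [Measure.map_addHaar_smul volume (inv_ne_zero hs.ne')]
    exact hF.smul_measure ENNReal.ofReal_ne_top
  exact h1.comp_of_map (by fun_prop)

theorem tors_l2_smul {g : ℕ → P → ℝ} {f : P → ℝ} (h : L2Lim g f) {s : ℝ} (hs : 0 < s) :
    L2Lim (fun n x => g n (s⁻¹ • x)) (fun x => f (s⁻¹ • x)) := by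
  refine ⟨fun n => tors_memLp_smul (h.mem n) hs, tors_memLp_smul h.lim hs, ?_⟩
  have e : ∀ n, ∫ x, (g n (s⁻¹ • x) - f (s⁻¹ • x)) ^ 2 = s ^ 2 * ∫ x, (g n x - f x) ^ 2 :=
    fun n => tors_int_smul (fun x => (g n x - f x) ^ 2) hs
  simp only [e]
  simpa using h.tend.const_mul (s ^ 2)

theorem tors_test_smul {Ω : Set P} {φ : P → ℝ} (h : IsTest Ω φ) {s : ℝ} (hs : 0 < s) :
    IsTest (s • Ω) (fun x => φ (s⁻¹ • x)) := by
  refine ⟨h.c1.comp (by fun_prop), h.cs.comp_smul (inv_ne_zero hs.ne'), fun x hx => ?_⟩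
  rw [mem_smul_set_iff_inv_smul_mem₀ hs.ne']
  apply h.supp
  exact map_mem_closure (f := fun x : P => s⁻¹ • x) (by fun_prop) hx (fun y hy => hy)

theorem tors_d1_smul (φ : P → ℝ) (c : ℝ) (x : P) :
    d1 (fun x => φ (c • x)) x = c * d1 φ (c • x) := by
  unfold d1
  rw [fderiv_comp_smul]
  simp

theorem tors_d2_smul (φ : P → ℝ) (c : ℝ) (x : P) :
    d2 (fun x => φ (c • x)) x = c * d2 φ (c • x) := by
  unfold d2
  rw [fderiv_comp_smul]
  simp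

theorem tors_h_smul (A : API) {Ω : Set P} {u u1 u2 : P → ℝ} (hu : H10 Ω u u1 u2) {s : ℝ}
    (hs : 0 < s) : H10 (s • Ω) (fun x => u (s⁻¹ • x)) (fun x => s⁻¹ * u1 (s⁻¹ • x))
      (fun x => s⁻¹ * u2 (s⁻¹ • x)) := by
  obtain ⟨φ, hφ, l0, l1, l2⟩ := A.h_iff.1 hu
  refine A.h_iff.2 ⟨fun n x => φ n (s⁻¹ • x), fun n => tors_test_smul (hφ n) hs,
    tors_l2_smul l0 hs, ?_, ?_⟩
  · have := A.l_smul s⁻¹ (tors_l2_smul l1 hs)
    refine A.l_congr this (fun n => Eventually.of_forall fun x => ?_) EventuallyEq.rfl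
    exact (tors_d1_smul _ _ _).symm
  · have := A.l_smul s⁻¹ (tors_l2_smul l2 hs)
    refine A.l_congr this (fun n => Eventually.of_forall fun x => ?_) EventuallyEq.rfl
    exact (tors_d2_smul _ _ _).symm

theorem tors_energy_smul (u1 u2 : P → ℝ) {s : ℝ} (hs : 0 < s) (c : ℝ) :
    ∫ x, ((c * (s⁻¹ * u1 (s⁻¹ • x))) ^ 2 + (c * (s⁻¹ * u2 (s⁻¹ • x))) ^ 2) =
      c ^ 2 * ∫ x, (u1 x ^ 2 + u2 x ^ 2) := by
  have e : (fun x : P => (c * (s⁻¹ * u1 (s⁻¹ • x))) ^ 2 + (c * (s⁻¹ * u2 (s⁻¹ • x))) ^ 2) =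
      fun x => (c * s⁻¹) ^ 2 * (u1 (s⁻¹ • x) ^ 2 + u2 (s⁻¹ • x) ^ 2) := by
    ext x; ring
  rw [e, integral_const_mul, tors_int_smul (fun x => u1 x ^ 2 + u2 x ^ 2) hs]
  field_simp

theorem tors_vol_smul (Ω : Set P) {s : ℝ} (hs : 0 < s) :
    volume (s • Ω) = ENNReal.ofReal (s ^ 2) * volume Ω := by
  rw [Measure.addHaar_smul_of_nonneg volume hs.le, tors_finrank]

theorem tors_adm_smul {Ω : Set P} (h : Adm Ω) {s : ℝ} (hs : 0 < s) : Adm (s • Ω) := by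
  refine ⟨h.1.smul₀ hs.ne', ?_, ?_⟩
  · rw [tors_vol_smul Ω hs]
    exact ENNReal.mul_pos (ENNReal.ofReal_pos.2 (by positivity)).ne' h.2.1.ne'
  · rw [tors_vol_smul Ω hs]
    exact ENNReal.mul_lt_top ENNReal.ofReal_lt_top h.2.2

theorem tors_lam_le (A : API) (hV : VLAM) {Ω : Set P} (h : Adm Ω) {s : ℝ} (hs : 0 < s) :
    s ^ 2 * lam (s • Ω) ≤ lam Ω := by
  obtain ⟨-, -, -, -, h5, -⟩ := hV.2 Ω h
  obtain ⟨-, -, -, h4, -⟩ := hV.2 _ (tors_adm_smul h hs)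
  apply h5
  intro φ hφ
  have a1 := h4 _ _ _ (A.h_smul 1 (tors_h_smul A (A.h_test hφ) hs))
  rw [tors_energy_smul _ _ hs] at a1
  simp only [one_mul, one_pow] at a1
  rw [tors_int_smul (fun x => φ x ^ 2) hs] at a1
  simp only [zero_mul, integral_zero, add_zero]
  linarith

theorem tors_tors_le (A : API) (hV : VLAM) {Ω : Set P} (h : Adm Ω) {s : ℝ} (hs : 0 < s) :
    s ^ 4 * tors Ω ≤ tors (s • Ω) := by
  have : tors Ω ≤ tors (s • Ω) / s ^ 4 := by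
    apply tors_dense A h
    intro φ hφ
    have a1 := tors_le A hV (tors_adm_smul h hs)
      (A.h_smul (s ^ 2) (tors_h_smul A (A.h_test hφ) hs))
    rw [tors_energy_smul _ _ hs, integral_const_mul, tors_int_smul φ hs] at a1
    rw [le_div_iff₀ (by positivity)]
    linarith
  rw [le_div_iff₀ (by positivity)] at this
  linarith

theorem scale (A : API) (hV : VLAM) (hT : VTORS) : SCALE := by
  intro s Ω hs h
  have hs' : 0 < s⁻¹ := inv_pos.2 hs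
  have h' := tors_adm_smul h hs
  have back : s⁻¹ • s • Ω = Ω := by rw [smul_smul, inv_mul_cancel₀ hs.ne', one_smul]
  have e1 : lam (s • Ω) = lam Ω / s ^ 2 := by
    have a1 := tors_lam_le A hV h hs
    have a2 := tors_lam_le A hV h' hs'
    rw [back, inv_pow, inv_mul_le_iff₀ (by positivity)] at a2
    rw [eq_div_iff (by positivity)]
    linarith
  have e2 : tors (s • Ω) = s ^ 4 * tors Ω := by
    have a1 := tors_tors_le A hV h hs
    have a2 := tors_tors_le A hV h' hs'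
    rw [back, inv_pow, inv_mul_le_iff₀ (by positivity)] at a2
    linarith
  have e3 : vol (s • Ω) = s ^ 2 * vol Ω := by
    unfold vol
    rw [tors_vol_smul Ω hs, ENNReal.toReal_mul, ENNReal.toReal_ofReal (by positivity)]
  refine ⟨h', e1, e2, e3, fun q => ?_⟩
  have hv : 0 < vol Ω := (hV.2 Ω h).2.1
  have ht : 0 < tors Ω := (hT Ω h).2.2.1
  change lam (s • Ω) * tors (s • Ω) ^ q / vol (s • Ω) ^ ((2 * q + 2 * q - 2) / 2) =
    lam Ω * tors Ω ^ q / vol Ω ^ ((2 * q + 2 * q - 2) / 2)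
  rw [e1, e2, e3, Real.mul_rpow (by positivity) ht.le, Real.mul_rpow (by positivity) hv.le]
  have e4 : (s ^ 4) ^ q = s ^ 2 * (s ^ 2) ^ ((2 * q + 2 * q - 2) / 2) := by
    rw [← Real.rpow_natCast s 4, ← Real.rpow_natCast s 2, ← Real.rpow_mul hs.le,
      ← Real.rpow_mul hs.le, ← Real.rpow_add hs]
    congr 1
    push_cast
    ring
  have p1 : 0 < (s ^ 2) ^ ((2 * q + 2 * q - 2) / 2) := Real.rpow_pos_of_pos (by positivity) _
  have p2 : 0 < vol Ω ^ ((2 * q + 2 * q - 2) / 2) := Real.rpow_pos_of_pos hv _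
  rw [e4]
  field_simp

end Pool.Agent.H92Z.Fq
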