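import Pool.Agent.H92Z.Fq.Stm

open MeasureTheory Set Filter Metric
open scoped Topology

namespace Pool.Agent.H92Z.Fq

theorem trc_c1 {τ0 τ : ℝ} {H H1 H2 : ℝ → ℝ} (h : HF τ0 τ H H1 H2) : Continuous H1 :=
  continuous_iff_continuousAt.2 fun s => (h.d1 s).continuousAt

theorem trc_c0 {τ0 τ : ℝ} {H H1 H2 : ℝ → ℝ} (h : HF τ0 τ H H1 H2) : Continuous H :=
  continuous_iff_continuousAt.2 fun s => (h.d0 s).continuousAt

theorem trc_pt {h1 h2 e s1 M u u1 u2 p p1 p2 : ℝ} (a1 : 0 ≤ h1) (a2 : h1 ≤ 1) (a3 : 0 ≤ h2)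
    (a4 : 1 ≤ 3 * e) (a5 : e ≤ 1) (a6 : 0 < s1) (a7 : 0 ≤ u) (a8 : u ≤ M) :
    h2 * (u1 ^ 2 + u2 ^ 2) * p ^ 2 ≤
      3 * ((u1 * ((h2 * e + h1 * (e * (h1 / s1))) * u1 * (p * p) + h1 * e * (p1 * p + p * p1)) +
        u2 * ((h2 * e + h1 * (e * (h1 / s1))) * u2 * (p * p) + h1 * e * (p2 * p + p * p2))) -
        u * (h1 * e * (p * p))) + (3 * s1 * (p1 ^ 2 + p2 ^ 2) + 3 * M * p ^ 2) := by
  have e0 : 0 ≤ e := by linarith
  obtain ⟨t, rfl⟩ : ∃ t, h1 = t * s1 := ⟨h1 / s1, by field_simp⟩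
  rw [mul_div_cancel_right₀ _ a6.ne']
  have b1 : 0 ≤ s1 * ((t * e * p * u1 + p1) ^ 2 + (t * e * p * u2 + p2) ^ 2) := by positivity
  have b2 : 0 ≤ s1 * t ^ 2 * (e * (1 - e)) * (p ^ 2 * (u1 ^ 2 + u2 ^ 2)) := by
    have : 0 ≤ 1 - e := by linarith
    positivity
  have b3 : 0 ≤ (3 * e - 1) * (h2 * (u1 ^ 2 + u2 ^ 2) * p ^ 2) := by
    have : 0 ≤ 3 * e - 1 := by linarith
    positivity
  have b4 : 0 ≤ (M - u * (t * s1 * e)) * p ^ 2 := by
    have : t * s1 * e ≤ 1 := mul_le_one₀ a2 e0 a5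
    have : 0 ≤ M - u * (t * s1 * e) := by nlinarith
    positivity
  nlinarith

theorem trace (A : API) : TRACE := by
  intro Ω U u u1 u2 τ0 τ M s1 H H1 H2 h0 _ hF hu hw hnn hM hU hs hs1 φ hφ
  have c0 := trc_c0 hF
  have c1 := trc_c1 hF
  have c2 := hF.c2
  have ha : ∀ s, HasDerivAt (fun s => H1 s * Real.exp ((H s - M) / s1))
      (H2 s * Real.exp ((H s - M) / s1) + H1 s * (Real.exp ((H s - M) / s1) * (H1 s / s1))) s :=
    fun s => (hF.d1 s).mul (((hF.d0 s).sub_const M).div_const s1).exp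
  have b1 := A.b_comp hu ha (by fun_prop) (by simp [(hF.low 0 h0.le).2.1])
  have b2 := A.b_h (A.b_mul b1 (A.b_test (hφ.mul_c1 hφ.c1)))
  have hH := A.b_h hu
  have key := A.h_weak hw hH.m1 hH.m2 hH.m0 b2
  have i1 := int_dot hH.m1 hH.m2 b2.m1 b2.m2
  have i2 := int_mul hH.m0 b2.m0
  have i3 := (int_sq2 hφ.memLp_d1 hφ.memLp_d2).const_mul (3 * s1)
  have i4 := (int_sq hφ.memLp).const_mul (3 * M)
  have i5 := (i1.sub i2).const_mul 3
  have e := integral_add i5 (i3.add i4)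
  simp only [Pi.add_apply, Pi.sub_apply] at e
  rw [integral_const_mul, integral_sub i1 i2, key, sub_self, mul_zero, zero_add, integral_add i3 i4,
    integral_const_mul, integral_const_mul] at e
  rw [← e]
  refine integral_mono_of_nonneg (Eventually.of_forall fun x => ?_) (i5.add (i3.add i4)) ?_
  · have := hF.nn2 (u x)
    positivity
  · filter_upwards [hnn, hU] with x h1 h2
    by_cases hx : x ∈ U
    · rw [d1_mul (hφ.diff x) (hφ.diff x), d2_mul (hφ.diff x) (hφ.diff x)]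
      have h3 := h2 hx
      have h4 : H (u x) ≤ M := by
        rcases le_total (u x) τ with h | h
        · exact (hF.le _ h).trans hM
        · rwa [(hF.high _ h).1]
      refine trc_pt (hF.b1 _).1 (hF.b1 _).2 (hF.nn2 _) ?_ ?_ hs h1 h3
      · have h5 : -1 ≤ (H (u x) - M) / s1 := by
          rw [le_div_iff₀ hs]
          linarith [hF.ge0 (u x)]
        have h6 := Real.exp_le_exp.2 h5
        have h7 := Real.exp_one_lt_d9
        have h8 : Real.exp (-1) * Real.exp 1 = 1 := by rw [← Real.exp_add]; simp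
        nlinarith [Real.exp_pos (-1)]
      · exact Real.exp_le_one_iff.2 (div_nonpos_of_nonpos_of_nonneg (by linarith) hs.le)
    · rw [d1_mul (hφ.diff x) (hφ.diff x), d2_mul (hφ.diff x) (hφ.diff x)]
      simp [hφ.zero_of_notMem hx, hφ.d1_zero hx, hφ.d2_zero hx]

theorem trc_bdd {u : P → ℝ} {L : ℝ} (hm : AEStronglyMeasurable u volume) (hL : ∀ᵐ x, |u x| ≤ L)
    {a : ℝ → ℝ} (ha : Continuous a) :
    AEStronglyMeasurable (fun x => a (u x)) volume ∧ ∃ K, ∀ᵐ x, |a (u x)| ≤ K := by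
  refine ⟨ha.comp_aestronglyMeasurable hm, ?_⟩
  obtain ⟨K, hK⟩ := (isCompact_Icc (a := -L) (b := L)).exists_bound_of_continuousOn ha.continuousOn
  refine ⟨K, ?_⟩
  filter_upwards [hL] with x hx
  exact hK _ (abs_le.1 hx)

theorem tilde (A : API) : TILDE := by
  intro Ω φ u u1 u2 τ0 τ H H1 H2 x0 r h0 _ hF hr hA hΩ hS hw
  have c0 := trc_c0 hF
  have c1 := trc_c1 hF
  have c2 := hF.c2
  set Q := ball x0 r with hQ
  have hQo : IsOpen Q := isOpen_ball
  have hQm : MeasurableSet Q := measurableSet_ball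
  have hnear : ∀ n, ∀ x ∈ frontier Q, ∀ᶠ y in 𝓝 x, τ < φ n y := by
    intro n x hx
    rw [hQ, frontier_ball x0 hr.ne'] at hx
    exact continuousAt_const.eventually_lt (hA.test n).cont.continuousAt (hS n x hx)
  have f1 : ∀ n, ∀ x ∈ frontier Q, (fun y => H (φ n y) - φ n y) =ᶠ[nhds x] fun _ => 0 := by
    intro n x hx
    filter_upwards [hnear n x hx] with y hy
    rw [(hF.high _ hy.le).1, sub_self]
  have f2 : ∀ n, ∀ x ∈ frontier Q, (fun y => 1 - H1 (φ n y)) =ᶠ[nhds x] fun _ => 0 := by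
    intro n x hx
    filter_upwards [hnear n x hx] with y hy
    rw [(hF.high _ hy.le).2.1, sub_self]
  have g0 := A.a_cut (a := fun s => H s - s) (a' := fun s => H1 s - 1) hA
    (fun s => (hF.d0 s).sub (hasDerivAt_id s)) (by fun_prop) hQo isBounded_ball f1
  have k0 := A.a_cut (a := fun s => 1 - H1 s) (a' := fun s => -H2 s) hA
    (fun s => (hF.d1 s).const_sub 1) (by fun_prop) hQo isBounded_ball f2
  have eG : ∀ v : P → ℝ, (Q.indicator fun x => (H1 (u x) - 1) * v x) =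
      fun x => (tG Q H1 u x - 1) * v x := by
    intro v
    ext x
    by_cases hx : x ∈ Q <;> simp [tG, hx]
  rw [eG, eG] at g0
  have gs : ∀ n, tsupport (Q.indicator fun x => H (φ n x) - φ n x) ⊆ Q := fun n =>
    (cut_tsupport hQo (f1 n)).trans inter_subset_left
  have hu : BH Ω u u1 u2 := ⟨φ, hA, hΩ⟩
  have hH := A.b_h hu
  obtain ⟨L, -, hL⟩ := A.b_bdd hu
  obtain ⟨m2, K2, b2⟩ := trc_bdd hH.m0.1 hL c2
  obtain ⟨m3, K3, b3⟩ := trc_bdd hH.m0.1 hL (a := fun s => H s - s * H1 s) (by fun_prop)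
  have iD := int_bdd_mul m2 b2 (int_sq2 hH.m1 hH.m2)
  refine ⟨⟨_, g0, gs⟩, ?_, ?_, ?_⟩
  · refine A.b_congr (A.b_add (A.b_mono hu subset_union_left)
      (A.b_mono ⟨_, g0, gs⟩ subset_union_right)) EventuallyEq.rfl ?_ ?_ <;>
    exact Eventually.of_forall fun x => by ring
  · rw [tb, integrable_indicator_iff hQm]
    refine iD.integrableOn.add ?_
    exact Measure.integrableOn_of_bounded (M := K3) measure_ball_lt_top.ne m3 (ae_restrict_of_ae b3)
  · rintro ψ ψ1 ψ2 hψ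
    obtain ⟨L', -, hL'⟩ := A.b_bdd hψ
    have mψ := (A.b_h hψ).m0.1
    obtain ⟨ζ, hζ, hs⟩ := hψ
    have z0 := A.a_sub hζ (A.a_mul k0 hζ)
    have z1 := A.b_h (Ω := Ω) ⟨_, z0, fun n => by
      refine (closure_minimal (t := tsupport (φ n) ∪ (tsupport (ζ n) \ Q)) ?_
        ((isClosed_tsupport _).union ((isClosed_tsupport _).sdiff hQo))).trans
        (union_subset (hΩ n) fun x hx => (hs n hx.1).resolve_right hx.2)
      intro x hx
      rw [Function.mem_support] at hx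
      by_cases hxQ : x ∈ Q
      · refine Or.inl (subset_tsupport _ fun h => hx ?_)
        simp [hxQ, h, (hF.low 0 h0.le).2.1]
      · refine Or.inr ⟨subset_tsupport _ fun h => hx ?_, hxQ⟩
        simp [h]⟩
    have key := A.h_weak hw hH.m1 hH.m2 hH.m0 z1
    have i1 := int_dot hH.m1 hH.m2 z1.m1 z1.m2
    have i2 := int_mul hH.m0 z1.m0
    have i3 := int_bdd_mul mψ hL' (iD.indicator hQm)
    have e1 := integral_sub i1 i3
    rw [key, ← integral_sub i2 i3] at e1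
    refine Eq.trans (integral_congr_ae (Eventually.of_forall fun x => ?_))
      (e1.trans (integral_congr_ae (Eventually.of_forall fun x => ?_)))
    · by_cases hx : x ∈ Q <;> simp [tG, hx] <;> ring
    · by_cases hx : x ∈ Q <;> simp [tg, tb, hx] <;> ring

end Pool.Agent.H92Z.Fq
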